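import Pool.Agent.Q73.LT.No4

/-!
The nonexistence of log terminal models: the contradiction.
-/

set_option autoImplicit false

open FF Real Pool.Agent.W603.LV

open scoped goldenRatio

namespace Pool.Agent.Q73.LT

namespace Exa

variable {κ K : Type} [Field κ] [Algebra ℂ κ] [Field K] [Algebra ℂ K] [Algebra κ K]
  [IsScalarTower ℂ κ K] (E : Exa κ K) [Algebra.EssFiniteType ℂ κ]
  (hn : Algebra.trdeg ℂ κ = 2) (g1 : Gen1 κ E.z)

include hn

/-- the degree of `N` on the curves `t = const` is not zero -/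
theorem deg_ne {t : κ} (ht : Transcendental ℂ t)
    (h : HasDeg (fun v : Place (IntermediateField.adjoin ℂ {t}) κ => E.Nκ (base v)) 0) : False := by
  have hFF := isFF_adjoin hn ht
  have h1 := (E.toCrv.deg_N (t := t)).unique h
  set p1 := pdeg (IntermediateField.adjoin ℂ {t}) (E.C 1) with hp1
  set p2 := pdeg (IntermediateField.adjoin ℂ {t}) (E.C 2) with hp2
  set p3 := pdeg (IntermediateField.adjoin ℂ {t}) (E.C 3) with hp3
  have h0 := goldenRatio_add_goldenConj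
  have h2 : φ * ((p1 - p3 : ℤ) : ℝ) = ((p1 + p2 : ℤ) : ℝ) := by
    push_cast
    have h3 : ψ = 1 - φ := by linarith
    rw [h3] at h1
    linarith
  have h3 : p1 - p3 = 0 := by
    by_contra h3
    have h4 := (goldenRatio_irrational.mul_intCast h3)
    rw [h2] at h4
    exact h4 ⟨((p1 + p2 : ℤ) : ℚ), by norm_cast⟩
  rw [h3, Int.cast_zero, mul_zero] at h2
  have h4 : p1 + p2 = 0 := by exact_mod_cast h2.symm
  have h5 : 0 ≤ p1 := pdeg_nonneg _
  have h6 : 0 ≤ p2 := pdeg_nonneg _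
  have halg : ∀ f : κ, pdeg (IntermediateField.adjoin ℂ {t}) f = 0 →
      f ∈ acl (IntermediateField.adjoin ℂ {t}) := by
    intro f hf
    rw [mem_acl]
    by_contra hcon
    have := pdeg_pos (k := IntermediateField.adjoin ℂ {t}) (f := f) hcon
    omega
  have h7 := halg _ (by omega : p1 = 0)
  have h8 := halg _ (by omega : p2 = 0)
  refine E.nd t (sq_mem (a := E.C 1 + 1) (add_mem h7 (one_mem _)) (by rw [Crv.C_one]; ring))
    (sq_mem (a := E.C 2 + 1) (add_mem h8 (one_mem _)) (by rw [Crv.C_two]; ring))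

variable (hn3 : Algebra.trdeg ℂ K = 3) (hy : Model E.Y)
  (hS : ∀ P : Place ℂ K, IsPrimeDivisor E.Y P → E.S0 P ≠ 0 → P = zp g1)
  {y' : Sys K} (hy' : Model y') {D' : Place ℂ K → ℝ} (hD' : Nef y' D') {δ : ℝ} (hδ : 0 < δ)
  (heq : ∀ P, IsPrimeDivisor y' P → D' P = E.D δ P)
  (hle : ∀ P, IsPrimeDivisor E.Y P → D' P ≤ E.D δ P)

include hn3 hy hS hy' hD' hδ heq hle

theorem contra : False := by
  obtain ⟨hnot, hN⟩ := E.eq_N hn g1 hy hS hy' hD' hδ heq hle
  obtain ⟨t, ht, hres⟩ := exists_t g1 hy' hn3 hnot (E.toCrv.r_transc 0)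
  have hFF := isFF_adjoin hn ht
  obtain ⟨m, r, f, hf, hD⟩ := hD'.1 (zp g1)
  have h0 := hD (zp g1) (Through.refl y' _)
  rw [hN, E.N_zp g1] at h0
  refine E.deg_ne hn ht ?_
  have h1 : HasDeg (fun v : Place (IntermediateField.adjoin ℂ {t}) κ =>
      ∑ i, r i * (v.ord (lc g1 (hf i)) : ℝ)) (∑ i : Fin m, r i * 0) :=
    HasDeg.sum Finset.univ fun i _ => (hasDeg_ord (lc g1 (hf i))).smul (r i)
  simp only [mul_zero, Finset.sum_const_zero] at h1
  refine h1.congr fun v => ?_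
  obtain ⟨A, hA⟩ := through_gp g1 hy' hres (base_triv v).acl
  have h2 : ∀ i, ∃ A : ℕ, ∀ a : ℕ, A ≤ a →
      (gp g1 (base v) a).ord (f i) = (base v).ord (lc g1 (hf i)) + a * (zp g1).ord (f i) :=
    fun i => lc_ord g1 (hf i) (base v)
  choose A' hA' using h2
  have ha3 : ∀ i, A' i ≤ A + ∑ i, A' i := fun i =>
    (Finset.single_le_sum (f := A') (fun _ _ => Nat.zero_le _) (Finset.mem_univ i)).trans (by omega)
  have h3 := hD _ (hA (A + ∑ i, A' i) (by omega))
  rw [hN, E.N_gp g1] at h3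
  rw [h3]
  have h4 : ∀ i, ((gp g1 (base v) (A + ∑ i, A' i)).ord (f i) : ℝ) =
      v.ord (lc g1 (hf i)) + (A + ∑ i, A' i : ℕ) * (zp g1).ord (f i) := by
    intro i
    have h5 := hA' i _ (ha3 i)
    rw [h5]
    push_cast
    rfl
  have h5 : ∑ i, r i * ((gp g1 (base v) (A + ∑ i, A' i)).ord (f i) : ℝ) =
      ∑ i, r i * (v.ord (lc g1 (hf i)) : ℝ) +
        (A + ∑ i, A' i : ℕ) * ∑ i, r i * ((zp g1).ord (f i) : ℝ) := by
    rw [Finset.mul_sum, ← Finset.sum_add_distrib]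
    refine Finset.sum_congr rfl fun i _ => ?_
    rw [h4]
    ring
  rw [h5, ← h0, mul_zero, add_zero]

end Exa

end Pool.Agent.Q73.LT
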