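import Pool.Agent.Q73.LT.PDB
import Pool.Agent.Q73.LT.No5

/-!
The example: a generalized pair without log terminal model.
-/

set_option autoImplicit false

open FF Pool.Agent.W602.GT

namespace Pool.Agent.Q73.LT

namespace Dat

variable {κ M K : Type} [Field κ] [Algebra ℂ κ] [Field M] [Algebra ℂ M] [Field K]
    [Algebra ℂ K] [Algebra κ K] [Algebra M K] [IsScalarTower ℂ M K] [IsScalarTower ℂ κ K]
    [FiniteDimensional M K] [Algebra.EssFiniteType ℂ K] [Algebra.EssFiniteType ℂ κ]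
    (E : Dat κ M K)

open Classical in
/-- the boundary -/
noncomputable def Bd (δ : ℝ) (P : Place ℂ K) : ℝ :=
  if h : ∃ c : ℝ, OrdForm P E.form c then E.D δ P - h.choose - E.β P else 0

theorem Bd_eq (δ : ℝ) {P : Place ℂ K} {c : ℝ} (hc : OrdForm P E.form c) :
    E.Bd δ P = E.D δ P - c - E.β P := by
  unfold Bd
  have h : ∃ c : ℝ, OrdForm P E.form c := ⟨c, hc⟩
  rw [dif_pos h, ordForm_unique h.choose_spec hc]

theorem Bd_eq' (δ : ℝ) {P : Place ℂ K} {c : ℝ} (hc : OrdForm P E.form c) :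
    E.Bd δ P = 1 - 1 / 3 * E.a3 c P + δ * E.S0 P := by
  rw [E.Bd_eq δ hc]
  have h := E.logDisc_eq c δ P
  unfold logDisc at h
  linarith

variable (hn : Algebra.trdeg ℂ κ = 2) (g1 : Gen1 κ E.z) (hn3 : Algebra.trdeg ℂ K = (3 : ℕ))
  (hκ : Algebra.IsAlgebraic (IntermediateField.adjoin ℂ {E.y1, E.y2}) κ)
  (hf : IsTranscendenceBasis ℂ E.f) (hy : Model E.Y) {δ : ℝ} (hδ : 0 < δ) (hδ3 : δ < 1 / 3)

include hn3 hκ hf hy hδ g1 in
theorem gpair : IsGPair 3 E.Y E.form (E.Bd δ) E.β (E.D δ) where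
  model := hy
  dim := hn3
  form := E.form_pluri
  form_ne := E.form_ne hf
  eff := by
    intro P hP
    have hdiv := hP.divisorial hy hn3
    obtain ⟨c, hc, -⟩ := E.a3_ge hf hdiv
    rw [E.Bd_eq' δ hc]
    have h1 := (E.pd_bound hn3 g1 hκ hP hdiv hc).1
    have h2 : (0 : ℝ) ≤ E.S0 P := by exact_mod_cast E.S0_nonneg P
    have h3 := mul_nonneg hδ.le h2
    linarith
  fin := by
    have h1 := finite_ord hy (Exa.map_ne (K := K) (E.C_ne 1))
    have h2 := finite_ord hy (Exa.map_ne (K := K) (E.C_ne 2))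
    have h3 := finite_ord hy E.z_ne
    refine ((h1.union h2).union h3).subset ?_
    rintro P ⟨hP, hB⟩
    by_contra hcon
    apply hB
    have hdiv := hP.divisorial hy hn3
    obtain ⟨c, hc, -, -, h4⟩ := E.a3_ge hf hdiv
    have h5 := (E.pd_bound hn3 g1 hκ hP hdiv hc).1
    have h6 : P.ord (algebraMap κ K (E.C 1)) = 0 ∧ P.ord (algebraMap κ K (E.C 2)) = 0 ∧
        P.ord E.z = 0 := by
      refine ⟨?_, ?_, ?_⟩
      · by_contra h
        exact hcon (Or.inl (Or.inl ⟨hP, h⟩))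
      · by_contra h
        exact hcon (Or.inl (Or.inr ⟨hP, h⟩))
      · by_contra h
        exact hcon (Or.inr ⟨hP, h⟩)
    obtain ⟨h7, h8⟩ := h4 h6
    rw [E.Bd_eq' δ hc, h8, Int.cast_zero, mul_zero, le_antisymm h5 h7]
    norm_num
  nef := ⟨E.Y, hy, E.β_nef hy⟩
  car := E.D_rcartier hy δ
  eq := by
    intro P hP
    have hdiv := hP.divisorial hy hn3
    obtain ⟨c, hc, -⟩ := E.a3_ge hf hdiv
    exact ⟨c, hc, by rw [E.Bd_eq δ hc]; ring⟩

include hf hδ3 in
theorem gklt : Gklt 3 E.form E.β (E.D δ) := fun _ hP => E.gklt_aux hf hP hδ3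

include hn g1 hn3 hκ hf hy hδ in
theorem no_ltm : ¬ ∃ (y' : Sys K) (D' : Place ℂ K → ℝ),
    IsLTM 3 E.Y E.form (E.Bd δ) E.β (E.D δ) y' D' := by
  rintro ⟨y', D', h⟩
  have hp := E.gpair g1 hn3 hκ hf hy hδ
  have heq : ∀ P, IsPrimeDivisor y' P → D' P = E.D δ P := by
    intro P hP
    obtain ⟨c, hc, h1⟩ := h.pair.eq P hP
    obtain ⟨c', hc', h2⟩ := hp.eq P (h.sub P hP)
    rw [h1, h2, ordForm_unique hc hc']
  refine E.contra hn g1 hn3 hy (fun P hP hS => ?_) h.pair.model h.nef hδ heq fun P hP => ?_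
  · have hdiv := hP.divisorial hy hn3
    obtain ⟨c, hc, -⟩ := E.a3_ge hf hdiv
    exact (E.pd_bound hn3 g1 hκ hP hdiv hc).2 hS
  · by_cases hP' : IsPrimeDivisor y' P
    · exact (heq P hP').le
    · have hdiv := hP.divisorial hy hn3
      obtain ⟨c, hc, -⟩ := E.a3_ge hf hdiv
      have h1 := h.neg P hP hP' c hc
      unfold logDisc at h1
      linarith

end Dat

end Pool.Agent.Q73.LT
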