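import Pool.Agent.Q73.LT.Fld

/-!
The main theorem.
-/

set_option autoImplicit false

open FF

namespace Pool.Agent.Q73.LT

section

variable {K : Type} [Field K] [Algebra ℂ K]

theorem top_sub (a b c : K) (ha : a ∈ IntermediateField.adjoin ℂ {a, b, c})
    (hb : b ∈ IntermediateField.adjoin ℂ {a, b, c})
    (hc : c ∈ IntermediateField.adjoin ℂ {a, b, c}) :
    IntermediateField.adjoin ℂ ({⟨a, ha⟩, ⟨b, hb⟩, ⟨c, hc⟩} :
      Set (IntermediateField.adjoin ℂ {a, b, c})) = ⊤ := by
  rw [eq_top_iff]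
  rintro ⟨x, hx⟩ -
  have h1 : IntermediateField.adjoin ℂ {a, b, c} ≤
      (IntermediateField.adjoin ℂ ({⟨a, ha⟩, ⟨b, hb⟩, ⟨c, hc⟩} :
        Set (IntermediateField.adjoin ℂ {a, b, c}))).map
        (IntermediateField.adjoin ℂ {a, b, c}).val := by
    rw [IntermediateField.adjoin_map, Set.image_insert_eq, Set.image_insert_eq, Set.image_singleton]
    exact le_of_eq (by congr 1)
  obtain ⟨y, hy, hyx⟩ := h1 hx
  have : y = ⟨x, hx⟩ := Subtype.ext hyx
  rw [← this]
  exact hy

theorem cube_mem {F : IntermediateField ℂ K} {x a : K} (ha : a ∈ acl F) (h : x ^ 3 = a) :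
    x ∈ acl F := by
  apply acl_closed
  refine ⟨Polynomial.X ^ 3 - Polynomial.C ⟨a, ha⟩,
    Polynomial.X_pow_sub_C_ne_zero (by norm_num) _, ?_⟩
  rw [map_sub, map_pow, Polynomial.aeval_X, Polynomial.aeval_C, h]
  exact sub_self a

end

theorem main_of {M : Type} [Field M] [Algebra ℂ M] {m1 m2 mz : M}
    (top : IntermediateField.adjoin ℂ {m1, m2, mz} = ⊤)
    (bas : IsTranscendenceBasis ℂ ![m1, m2, mz]) :
    ∃ (K : Type) (_ : Field K) (_ : Algebra ℂ K) (y : Sys K)
      (ω : (Fin 3 → Derivation ℂ K K) → K) (B β D : Place ℂ K → ℝ),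
      IsGPair 3 y ω B β D ∧ Gklt 3 ω β D ∧ Psef y D ∧ ¬ ∃ y' D', IsLTM 3 y ω B β D y' D' := by
  have hm1t : Transcendental ℂ m1 := bas.1.transcendental 0
  have hm2t : Transcendental ℂ m2 := bas.1.transcendental 1
  have hc : ∀ {x : M}, Transcendental ℂ x → x ^ 2 - 1 ≠ 0 := by
    intro x hx h
    apply hx
    refine ⟨Polynomial.X ^ 2 - 1, ?_, ?_⟩
    · exact Polynomial.X_pow_sub_C_ne_zero (by norm_num) (1 : ℂ)
    · rw [map_sub, map_pow, Polynomial.aeval_X, map_one]
      exact h
  set u : M := (m2 ^ 2 - 1) / (m1 ^ 2 - 1) with hu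
  have hu0 : u ≠ 0 := div_ne_zero (hc hm2t) (hc hm1t)
  have hirr : Irreducible (pu u) :=
    X_pow_sub_C_irreducible_of_prime Nat.prime_three (not_cube top bas)
  have : Fact (Irreducible (pu u)) := ⟨hirr⟩
  obtain ⟨w, hw3, hw1⟩ : ∃ w : ℂ, w ^ 3 = 1 ∧ w ≠ 1 := by
    have h := Complex.isPrimitiveRoot_exp 3 (by norm_num)
    exact ⟨_, h.pow_eq_one, h.ne_one (by norm_num)⟩
  let K := AdjoinRoot (pu u)
  let i : M →+* K := algebraMap M K
  let θ : K := AdjoinRoot.root (pu u)
  have hfin : FiniteDimensional M K := (pu_monic u).finite_adjoinRoot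
  let κ := IntermediateField.adjoin ℂ {i m1, i m2, θ}
  have k1 : i m1 ∈ κ := IntermediateField.subset_adjoin ℂ _ (by simp)
  have k2 : i m2 ∈ κ := IntermediateField.subset_adjoin ℂ _ (by simp)
  have k3 : θ ∈ κ := IntermediateField.subset_adjoin ℂ _ (by simp)
  let y1 : κ := ⟨i m1, k1⟩
  let y2 : κ := ⟨i m2, k2⟩
  let θ' : κ := ⟨θ, k3⟩
  have hθ3 : θ ^ 3 = i u := root_pow u
  have hrelK : i m2 ^ 2 - 1 = θ ^ 3 * (i m1 ^ 2 - 1) := by
    rw [hθ3]
    have h1 : u * (m1 ^ 2 - 1) = m2 ^ 2 - 1 := by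
      rw [hu, div_mul_cancel₀ _ (hc hm1t)]
    have h2 := congrArg i h1
    simp only [map_mul, map_sub, map_pow, map_one] at h2
    exact h2.symm
  have hrel : y2 ^ 2 - 1 = θ' ^ 3 * (y1 ^ 2 - 1) := Subtype.ext hrelK
  have htopκ : IntermediateField.adjoin ℂ {y1, y2, θ'} = ⊤ := top_sub _ _ _ k1 k2 k3
  have hy1c : y1 ^ 2 - 1 ≠ 0 := by
    intro h
    have h1 := congrArg Subtype.val h
    have h2 : i (m1 ^ 2 - 1) = 0 := by
      rw [map_sub, map_pow, map_one]
      exact h1
    rw [map_eq_zero] at h2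
    exact hc hm1t h2
  -- `κ` is algebraic over `ℂ(y1, y2)`
  have hfull : Full {y1, y2} := by
    intro x
    have h1 : IntermediateField.adjoin ℂ {y1, y2, θ'} ≤
        acl (IntermediateField.adjoin ℂ {y1, y2}) := by
      rw [IntermediateField.adjoin_le_iff]
      have j1 : y1 ∈ acl (IntermediateField.adjoin ℂ {y1, y2}) := self_mem_acl (by simp)
      have j2 : y2 ∈ acl (IntermediateField.adjoin ℂ {y1, y2}) := self_mem_acl (by simp)
      rintro s (rfl | rfl | rfl)
      · exact j1
      · exact j2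
      · refine cube_mem (a := (y2 ^ 2 - 1) / (y1 ^ 2 - 1))
          (div_mem (sub_mem (pow_mem j2 2) (one_mem _)) (sub_mem (pow_mem j1 2) (one_mem _))) ?_
        rw [hrel, mul_div_cancel_right₀ _ hy1c]
    rw [htopκ] at h1
    exact h1 (show x ∈ (⊤ : IntermediateField ℂ κ) from trivial)
  -- independence
  have hindK : AlgebraicIndependent ℂ ![i m1, i m2, i mz] := by
    have h1 := (bas.algebraMap_comp (A := K)).1
    have h2 : algebraMap M K ∘ ![m1, m2, mz] = ![i m1, i m2, i mz] := by
      funext j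
      fin_cases j <;> rfl
    rwa [h2] at h1
  have hindκ : AlgebraicIndependent ℂ ![y1, y2] := by
    have h1 := ind_of_three hindK
    have h2 : (κ.val : κ → K) ∘ ![y1, y2] = ![i m1, i m2] := by
      funext j
      fin_cases j <;> rfl
    rw [← h2] at h1
    exact (AlgHom.algebraicIndependent_iff κ.val κ.val.injective).1 h1
  have hnd : ∀ t : κ, y1 ∈ acl (IntermediateField.adjoin ℂ {t}) →
      y2 ∉ acl (IntermediateField.adjoin ℂ {t}) := by
    intro t h1 h2
    refine not_full_one hindκ t (hfull.sub ?_)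
    rintro s (rfl | rfl)
    · exact h1
    · exact h2
  have hz0 : i mz ≠ 0 := by
    have h1 : Transcendental ℂ (i mz) := hindK.transcendental 2
    intro h
    rw [h] at h1
    exact h1 isAlgebraic_zero
  let E : Dat κ M K :=
    { y1 := y1
      y2 := y2
      θ := θ'
      rel := hrel
      nd := hnd
      z := i mz
      z_ne := hz0
      cub := cubOf u hu0 hw3 hw1
      m1 := m1
      m2 := m2
      mz := mz
      e1 := rfl
      e2 := rfl
      ez := rfl
      eθ := rfl
      top := top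
      bas := bas }
  have hκ : Algebra.IsAlgebraic (IntermediateField.adjoin ℂ {y1, y2}) κ :=
    ⟨fun x => mem_acl.1 (hfull x)⟩
  have hrange : Set.range ![y1, y2] = {y1, y2} := by
    rw [Matrix.range_cons, Matrix.range_cons, Matrix.range_empty]
    ext x
    simp [or_comm]
  have hn : Algebra.trdeg ℂ κ = 2 := by
    have h1 : IsTranscendenceBasis ℂ ![y1, y2] := by
      rw [AlgebraicIndependent.isTranscendenceBasis_iff_isAlgebraic hindκ]
      refine ⟨fun x => ?_⟩
      rw [hrange, alg_adjoin_iff]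
      exact hfull x
    rw [← h1.cardinalMk_eq_trdeg]
    simp
  have hessκ : Algebra.EssFiniteType ℂ κ := by
    rw [IntermediateField.essFiniteType_iff]
    classical
    exact ⟨{i m1, i m2, θ}, by simp [κ]⟩
  have hessM : Algebra.EssFiniteType ℂ M := by
    rw [← IntermediateField.fg_top_iff]
    classical
    exact ⟨{m1, m2, mz}, by simp [top]⟩
  have hessK : Algebra.EssFiniteType ℂ K := Algebra.EssFiniteType.comp ℂ M K
  have hf : IsTranscendenceBasis ℂ E.f := by
    have h1 := bas.algebraMap_comp (A := K)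
    have h2 : algebraMap M K ∘ ![m1, m2, mz] = E.f := by
      funext j
      fin_cases j <;> rfl
    rwa [h2] at h1
  have hn3 : Algebra.trdeg ℂ K = (3 : ℕ) := by
    rw [← hf.cardinalMk_eq_trdeg]
    simp
  have hzt : Transcendental κ (i mz) := by
    intro h
    apply last_transc hindK
    have h1 : κ ≤ acl (IntermediateField.adjoin ℂ {i m1, i m2}) := by
      rw [IntermediateField.adjoin_le_iff]
      have j1 : i m1 ∈ acl (IntermediateField.adjoin ℂ {i m1, i m2}) := self_mem_acl (by simp)
      have j2 : i m2 ∈ acl (IntermediateField.adjoin ℂ {i m1, i m2}) := self_mem_acl (by simp)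
      rintro s (rfl | rfl | rfl)
      · exact j1
      · exact j2
      · refine cube_mem (a := (i m2 ^ 2 - 1) / (i m1 ^ 2 - 1))
          (div_mem (sub_mem (pow_mem j2 2) (one_mem _)) (sub_mem (pow_mem j1 2) (one_mem _))) ?_
        rw [hrelK, mul_div_cancel_right₀]
        intro h
        apply hy1c
        exact Subtype.ext h
    exact acl_mono h1 (mem_acl.2 h)
  have htopz : IntermediateField.adjoin κ {i mz} = ⊤ := by
    rw [eq_top_iff]
    intro f _
    have hM : ∀ a : M, i a ∈ IntermediateField.adjoin κ {i mz} := by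
      intro a
      have h1 : IntermediateField.adjoin ℂ {m1, m2, mz} ≤
          ((IntermediateField.adjoin κ {i mz}).restrictScalars ℂ).comap
            (IsScalarTower.toAlgHom ℂ M K) := by
        rw [IntermediateField.adjoin_le_iff]
        rintro s (rfl | rfl | rfl)
        · exact IntermediateField.algebraMap_mem (IntermediateField.adjoin κ {i mz}) y1
        · exact IntermediateField.algebraMap_mem (IntermediateField.adjoin κ {i mz}) y2
        · exact IntermediateField.mem_adjoin_simple_self κ (i s)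
      rw [top] at h1
      exact h1 (show a ∈ (⊤ : IntermediateField ℂ M) from trivial)
    have hθm : θ ∈ IntermediateField.adjoin κ {i mz} :=
      IntermediateField.algebraMap_mem (IntermediateField.adjoin κ {i mz}) θ'
    obtain ⟨a0, a1, a2, hf⟩ := exists_coord u f
    rw [hf]
    exact add_mem (add_mem (hM a0) (mul_mem (hM a1) hθm)) (mul_mem (hM a2) (pow_mem hθm 2))
  have g1 : Gen1 κ E.z := gen1_of hzt htopz
  have hy : Model E.Y := by
    refine E.model ?_
    have h1 := Pool.Agent.Y172.fd_basis hf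
    have h2 : Set.range E.f = {algebraMap κ K E.y1, algebraMap κ K E.y2, E.z} := by
      unfold Exa.f
      rw [Matrix.range_cons, Matrix.range_cons, Matrix.range_cons, Matrix.range_empty]
      ext x
      simp only [Set.union_empty, Set.mem_union, Set.mem_singleton_iff, Set.mem_insert_iff]
    rw [h2] at h1
    exact h1
  exact ⟨K, inferInstance, inferInstance, E.Y, E.form, E.Bd (1 / 4), E.β, E.D (1 / 4),
    E.gpair g1 hn3 hκ hf hy (by norm_num), E.gklt hf (by norm_num),
    E.D_psef hy (by norm_num), E.no_ltm hn g1 hn3 hκ hf hy (by norm_num)⟩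

end Pool.Agent.Q73.LT
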