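import Pool.Agent.Q73.LT.Main

/-!
The rational function field in three variables.
-/

set_option autoImplicit false

open FF

namespace Pool.Agent.Q73.LT

/-- the rational function field in three variables -/
abbrev M3 : Type := FractionRing (MvPolynomial (Fin 3) ℂ)

/-- the variables -/
noncomputable def v3 (i : Fin 3) : M3 :=
  algebraMap (MvPolynomial (Fin 3) ℂ) M3 (MvPolynomial.X i)

theorem bas3 : IsTranscendenceBasis ℂ ![v3 0, v3 1, v3 2] := by
  have : Algebra.IsAlgebraic (MvPolynomial (Fin 3) ℂ) M3 :=
    IsLocalization.isAlgebraic _ (nonZeroDivisors (MvPolynomial (Fin 3) ℂ))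
  have h1 := (IsTranscendenceBasis.mvPolynomial (Fin 3) ℂ).algebraMap_comp (A := M3)
  convert h1 using 1
  funext i
  fin_cases i <;> rfl

theorem top3 : IntermediateField.adjoin ℂ {v3 0, v3 1, v3 2} = ⊤ := by
  set S := IntermediateField.adjoin ℂ {v3 0, v3 1, v3 2} with hS
  have hX : ∀ i : Fin 3, v3 i ∈ S := by
    intro i
    apply IntermediateField.subset_adjoin
    fin_cases i <;> simp
  have hp : ∀ p : MvPolynomial (Fin 3) ℂ, algebraMap _ M3 p ∈ S := by
    intro p
    induction p using MvPolynomial.induction_on with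
    | C a =>
      have : algebraMap (MvPolynomial (Fin 3) ℂ) M3 (MvPolynomial.C a) = algebraMap ℂ _ a := by
        rw [IsScalarTower.algebraMap_apply ℂ (MvPolynomial (Fin 3) ℂ)]
        rfl
      rw [this]
      exact S.algebraMap_mem a
    | add p q hp hq =>
      rw [map_add]
      exact S.add_mem hp hq
    | mul_X p i hp =>
      rw [map_mul]
      exact S.mul_mem hp (hX i)
  rw [eq_top_iff]
  rintro x -
  obtain ⟨a, b, hb, rfl⟩ := IsFractionRing.div_surjective (A := MvPolynomial (Fin 3) ℂ) x
  exact S.div_mem (hp a) (hp b)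

end Pool.Agent.Q73.LT
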