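import Pool.Agent.Q73.LT.Neg

/-!
`ℝ`-Cartier, semiample and nef divisors.
-/

set_option autoImplicit false

open FF

namespace Pool.Agent.Q73.LT

variable {K : Type} [Field K] [Algebra ℂ K] {y : Sys K}

theorem RCartier.congr {D D' : Place ℂ K → ℝ} (h : RCartier y D) (h' : ∀ P, D' P = D P) :
    RCartier y D' := by
  have : D' = D := funext h'
  rw [this]
  exact h

theorem RCartier.add {D D' : Place ℂ K → ℝ} (h : RCartier y D) (h' : RCartier y D') :
    RCartier y fun P => D P + D' P := by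
  intro Q
  obtain ⟨m, r, f, hf, hD⟩ := h Q
  obtain ⟨m', r', f', hf', hD'⟩ := h' Q
  refine ⟨m + m', Fin.append r r', Fin.append f f', ?_, ?_⟩
  · intro i
    refine Fin.addCases (fun j => ?_) (fun j => ?_) i
    · rw [Fin.append_left]
      exact hf j
    · rw [Fin.append_right]
      exact hf' j
  · intro P hP
    beta_reduce
    rw [hD P hP, hD' P hP, Fin.sum_univ_add]
    simp only [Fin.append_left, Fin.append_right]

theorem RCartier.smul {D : Place ℂ K → ℝ} (h : RCartier y D) (a : ℝ) :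
    RCartier y fun P => a * D P := by
  intro Q
  obtain ⟨m, r, f, hf, hD⟩ := h Q
  refine ⟨m, fun i => a * r i, f, hf, fun P hP => ?_⟩
  beta_reduce
  rw [hD P hP, Finset.mul_sum]
  exact Finset.sum_congr rfl fun i _ => by ring

theorem rcartier_ord (y : Sys K) {f : K} (hf : f ≠ 0) : RCartier y fun P => (P.ord f : ℝ) := by
  intro Q
  exact ⟨1, fun _ => 1, fun _ => f, fun _ => hf, fun P _ => by simp⟩

theorem BPF.rcartier {z : Sys K} (h : BPF y z) : RCartier y fun P => (z.L P : ℝ) := by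
  intro Q
  obtain ⟨f, hf, hfg⟩ := h Q
  refine ⟨1, fun _ => -1, fun _ => f, fun _ => z.ne_zero hf, fun P hP => ?_⟩
  have h1 : z.L P = - P.ord f := by
    refine z.L_eq P hf fun g hg => ?_
    have h2 := (P.reg_iff (div_ne_zero (z.ne_zero hg) (z.ne_zero hf))).1 (hP _ (hfg g hg))
    rw [P.ord_div (z.ne_zero hg) (z.ne_zero hf)] at h2
    omega
  beta_reduce
  rw [h1]
  simp

theorem Semiample.congr {D D' : Place ℂ K → ℝ} (h : Semiample y D) (h' : ∀ P, D' P = D P) :
    Semiample y D' := by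
  have : D' = D := funext h'
  rw [this]
  exact h

theorem Semiample.add {D D' : Place ℂ K → ℝ} (h : Semiample y D) (h' : Semiample y D') :
    Semiample y fun P => D P + D' P := by
  obtain ⟨m, c, z, hz, hD⟩ := h
  obtain ⟨m', c', z', hz', hD'⟩ := h'
  refine ⟨m + m', Fin.append c c', Fin.append z z', ?_, ?_⟩
  · intro i
    refine Fin.addCases (fun j => ?_) (fun j => ?_) i
    · rw [Fin.append_left, Fin.append_left]
      exact hz j
    · rw [Fin.append_right, Fin.append_right]
      exact hz' j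
  · intro P
    beta_reduce
    rw [hD P, hD' P, Fin.sum_univ_add]
    simp only [Fin.append_left, Fin.append_right]

theorem Semiample.smul {D : Place ℂ K → ℝ} (h : Semiample y D) {a : ℝ} (ha : 0 ≤ a) :
    Semiample y fun P => a * D P := by
  obtain ⟨m, c, z, hz, hD⟩ := h
  refine ⟨m, fun i => a * c i, z, fun i => ⟨mul_nonneg ha (hz i).1, (hz i).2⟩, fun P => ?_⟩
  beta_reduce
  rw [hD P, Finset.mul_sum]
  exact Finset.sum_congr rfl fun i _ => by ring

theorem BPF.semiample {z : Sys K} (h : BPF y z) : Semiample y fun P => (z.L P : ℝ) :=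
  ⟨1, fun _ => 1, fun _ => z, fun _ => ⟨zero_le_one, h⟩, fun P => by simp⟩

theorem semiample_ord (y : Sys K) {f : K} (hf : f ≠ 0) (a : ℝ) :
    Semiample y fun P => a * (P.ord f : ℝ) := by
  rcases le_total 0 a with ha | ha
  · have h := ((bpf_sng y (inv_ne_zero hf)).semiample).smul ha
    refine h.congr fun P => ?_
    rw [L_sng, P.ord_inv, neg_neg]
  · have h := ((bpf_sng y hf).semiample).smul (neg_nonneg.2 ha)
    refine h.congr fun P => ?_
    rw [L_sng]
    push_cast
    ring

theorem semiample_zero (y : Sys K) : Semiample y fun _ => 0 :=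
  (semiample_ord y (f := (1 : K)) one_ne_zero 0).congr fun P => by simp

theorem Semiample.nef {D : Place ℂ K → ℝ} (h : Semiample y D) (hc : RCartier y D) : Nef y D :=
  ⟨hc, fun _ hε => h.add ((bpf_self y).semiample.smul hε.le)⟩

theorem Nef.add {D D' : Place ℂ K → ℝ} (h : Nef y D) (h' : Nef y D') :
    Nef y fun P => D P + D' P := by
  refine ⟨h.1.add h'.1, fun ε hε => ?_⟩
  refine ((h.2 (ε / 2) (by positivity)).add (h'.2 (ε / 2) (by positivity))).congr fun P => ?_
  ring

/-- the linear system `z` divides a power of the linear system of hyperplanes -/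
def Cof (y z : Sys K) : Prop := ∃ (z' : Sys K) (k : ℕ), ∀ P : Place ℂ K, z.L P + z'.L P = k * y.L P

theorem Cof.bpf (hy : Model y) {z : Sys K} (h : Cof y z) : BPF y z := by
  obtain ⟨z', k, h⟩ := h
  exact bpf_of_add hy h

theorem Cof.mul {z w : Sys K} (h : Cof y z) (h' : Cof y w) : Cof y (z.mul w) := by
  obtain ⟨z', k, h⟩ := h
  obtain ⟨w', k', h'⟩ := h'
  refine ⟨z'.mul w', k + k', fun P => ?_⟩
  rw [L_mul, L_mul]
  push_cast
  linear_combination h P + h' P

theorem Cof.of_add {z z' w : Sys K} {g : K} (hg : g ≠ 0) (hw : Cof y w)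
    (h : ∀ P : Place ℂ K, z.L P + z'.L P = w.L P + P.ord g) : Cof y z := by
  obtain ⟨w', k, hw⟩ := hw
  refine ⟨(z'.mul w').mul (sng g hg), k, fun P => ?_⟩
  rw [L_mul, L_mul, L_sng]
  linear_combination h P + hw P

theorem Cof.congr {z w : Sys K} (hw : Cof y w) (h : ∀ P : Place ℂ K, z.L P = w.L P) : Cof y z := by
  obtain ⟨w', k, hw⟩ := hw
  exact ⟨w', k, fun P => by rw [h, hw]⟩

theorem Cof.pow {z : Sys K} (h : Cof y z) (n : ℕ) : Cof y (z.pow n) := by
  obtain ⟨z', k, h⟩ := h
  refine ⟨z'.pow n, n * k, fun P => ?_⟩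
  rw [L_pow, L_pow]
  push_cast
  linear_combination (n : ℤ) * h P

theorem cof_self (y : Sys K) : Cof y y := by
  refine ⟨sng 1 one_ne_zero, 1, fun P => ?_⟩
  rw [L_sng, P.ord_one]
  push_cast
  ring

/-- bounded by the hyperplane class, in both directions -/
def SB (y : Sys K) (X : Place ℂ K → ℝ) : Prop :=
  ∃ k : ℝ, 0 ≤ k ∧ ∀ a : ℝ, Semiample y fun P => a * X P + |a| * k * y.L P

theorem Cof.sb (hy : Model y) {z : Sys K} (h : Cof y z) : SB y fun P => (z.L P : ℝ) := by
  have hb := h.bpf hy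
  obtain ⟨z', k, hz⟩ := h
  have hb' : BPF y z' := by
    refine bpf_of_add hy (z' := z) (k := k) fun P => ?_
    rw [add_comm]
    exact hz P
  refine ⟨k, Nat.cast_nonneg k, fun a => ?_⟩
  rcases le_total 0 a with ha | ha
  · refine ((hb.semiample.smul ha).add
      ((bpf_self y).semiample.smul (mul_nonneg (abs_nonneg a) (Nat.cast_nonneg k)))).congr
      fun P => rfl
  · refine (hb'.semiample.smul (neg_nonneg.2 ha)).congr fun P => ?_
    rw [abs_of_nonpos ha]
    have h1 : ((z.L P : ℤ) : ℝ) + z'.L P = k * y.L P := by exact_mod_cast hz P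
    linear_combination (-a) * (- h1)

theorem SB.add {X X' : Place ℂ K → ℝ} (h : SB y X) (h' : SB y X') : SB y fun P => X P + X' P := by
  obtain ⟨k, hk, h⟩ := h
  obtain ⟨k', hk', h'⟩ := h'
  refine ⟨k + k', add_nonneg hk hk', fun a => ((h a).add (h' a)).congr fun P => ?_⟩
  ring

theorem SB.smul {X : Place ℂ K → ℝ} (h : SB y X) (b : ℝ) : SB y fun P => b * X P := by
  obtain ⟨k, hk, h⟩ := h
  refine ⟨|b| * k, mul_nonneg (abs_nonneg b) hk, fun a => (h (a * b)).congr fun P => ?_⟩
  rw [abs_mul]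
  ring

theorem SB.small {X : Place ℂ K → ℝ} {k : ℝ}
    (h : ∀ a : ℝ, Semiample y fun P => a * X P + |a| * k * y.L P) {a ε : ℝ} (ha : |a| * k ≤ ε) :
    Semiample y fun P => a * X P + ε * y.L P := by
  refine ((h a).add ((bpf_self y).semiample.smul (sub_nonneg.2 ha))).congr fun P => ?_
  ring

end Pool.Agent.Q73.LT
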