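import Pool.Agent.Q73.LT.Ex1

/-!
The example: Cartier, nef and pseudo-effective divisors.
-/

set_option autoImplicit false

open FF Real

open scoped goldenRatio

namespace Pool.Agent.Q73.LT

namespace Exa

variable {κ K : Type} [Field κ] [Algebra ℂ κ] [Field K] [Algebra ℂ K] [Algebra κ K]

variable (E : Exa κ K)

theorem mem_Y {f1 f2 f3 g : K} (h1 : f1 ∈ E.T1.s) (h2 : f2 ∈ E.T2.s) (h3 : f3 ∈ E.T3.s)
    (h : g ∈ E.W.s) : f1 * f2 * f3 * g ∈ E.Y.s :=
  Sys.mem_mul (Sys.mem_mul (Sys.mem_mul h1 h2) h3) h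

theorem of_mem_Y {f : K} (h : f ∈ E.Y.s) : ∃ f1 ∈ E.T1.s, ∃ f2 ∈ E.T2.s, ∃ f3 ∈ E.T3.s,
    ∃ g ∈ E.W.s, f = f1 * f2 * f3 * g := by
  obtain ⟨a, ha, g, hg, rfl⟩ := Sys.of_mem_mul h
  obtain ⟨b, hb, f3, h3, rfl⟩ := Sys.of_mem_mul ha
  obtain ⟨f1, h1, f2, h2, rfl⟩ := Sys.of_mem_mul hb
  exact ⟨f1, h1, f2, h2, f3, h3, g, hg, rfl⟩

theorem one_W : (1 : K) ∈ E.W.s := by
  unfold W
  rw [Sys.mem_un]
  left
  have := Sys.mem_mul ((mem_pen (map_ne (K := K) E.y1_ne)).2 (Or.inl rfl))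
    ((mem_pen (map_ne (K := K) E.y2_ne)).2 (Or.inl rfl))
  rwa [mul_one] at this

theorem one_T1 : (1 : K) ∈ E.T1.s := (mem_pen _).2 (Or.inl rfl)
theorem one_T2 : (1 : K) ∈ E.T2.s := (mem_pen _).2 (Or.inl rfl)
theorem one_T3 : (1 : K) ∈ E.T3.s := (mem_pen _).2 (Or.inl rfl)
theorem y1_T1 : algebraMap κ K E.y1 ∈ E.T1.s := (mem_pen _).2 (Or.inr rfl)
theorem y2_T2 : algebraMap κ K E.y2 ∈ E.T2.s := (mem_pen _).2 (Or.inr rfl)
theorem z_T3 : E.z ∈ E.T3.s := (mem_pen _).2 (Or.inr rfl)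

theorem model (h : FiniteDimensional
    (IntermediateField.adjoin ℂ {algebraMap κ K E.y1, algebraMap κ K E.y2, E.z}) K) :
    Model E.Y := by
  have h1 : (1 : K) ∈ E.Y.s := by
    have := E.mem_Y E.one_T1 E.one_T2 E.one_T3 E.one_W
    simpa using this
  have hle : IntermediateField.adjoin ℂ {algebraMap κ K E.y1, algebraMap κ K E.y2, E.z} ≤
      IntermediateField.adjoin ℂ {h | ∃ f ∈ E.Y.s, ∃ g ∈ E.Y.s, h = g / f} := by
    rw [IntermediateField.adjoin_le_iff]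
    rintro x (rfl | rfl | rfl)
    · apply IntermediateField.subset_adjoin
      refine ⟨1, h1, algebraMap κ K E.y1, ?_, by rw [div_one]⟩
      have := E.mem_Y E.y1_T1 E.one_T2 E.one_T3 E.one_W
      simpa using this
    · apply IntermediateField.subset_adjoin
      refine ⟨1, h1, algebraMap κ K E.y2, ?_, by rw [div_one]⟩
      have := E.mem_Y E.one_T1 E.y2_T2 E.one_T3 E.one_W
      simpa using this
    · apply IntermediateField.subset_adjoin
      refine ⟨1, h1, E.z, ?_, by rw [div_one]⟩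
      have := E.mem_Y E.one_T1 E.one_T2 E.z_T3 E.one_W
      simpa using this
  unfold Model
  let _ := (IntermediateField.inclusion hle).toRingHom.toAlgebra
  have : IsScalarTower
      (IntermediateField.adjoin ℂ {algebraMap κ K E.y1, algebraMap κ K E.y2, E.z})
      (IntermediateField.adjoin ℂ {h | ∃ f ∈ E.Y.s, ∃ g ∈ E.Y.s, h = g / f}) K :=
    IsScalarTower.of_algebraMap_eq fun x => rfl
  exact FiniteDimensional.right
    (IntermediateField.adjoin ℂ {algebraMap κ K E.y1, algebraMap κ K E.y2, E.z}) _ K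

variable (hy : Model E.Y)

include hy

theorem N_rcartier : RCartier E.Y E.N := by
  refine ((((E.cof_C 1).bpf hy).rcartier.smul ψ).add (((E.cof_C 2).bpf hy).rcartier.add
    (((E.cof_C 3).bpf hy).rcartier.smul φ))).congr fun P => ?_
  rw [L_TC, L_TC, L_TC]
  unfold N
  ring

theorem N_nef : Nef E.Y E.N := ⟨E.N_rcartier hy, fun _ hε => E.N_semiample hy hε⟩

theorem S0_rcartier : RCartier E.Y fun P => (E.S0 P : ℝ) := by
  refine (((E.cof_W.bpf hy).rcartier).add (((E.cof_T1.bpf hy).rcartier.smul (-1)).add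
    ((E.cof_T2.bpf hy).rcartier.smul (-1)))).congr fun P => ?_
  rw [S0_eq, L_T1, L_T2]
  push_cast
  ring

/-- the divisor `K + B + β` -/
noncomputable def D (δ : ℝ) (P : Place ℂ K) : ℝ := E.N P + δ * E.S0 P

theorem D_rcartier (δ : ℝ) : RCartier E.Y (E.D δ) :=
  (E.N_rcartier hy).add ((E.S0_rcartier hy).smul δ)

omit hy in
/-- the denominator of the form -/
noncomputable def cz : K := algebraMap κ K (E.C 1) * algebraMap κ K (E.C 2) * E.z

omit hy in
theorem cz_ne : E.cz ≠ 0 :=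
  mul_ne_zero (mul_ne_zero (map_ne (E.C_ne 1)) (map_ne (E.C_ne 2))) E.z_ne

omit hy in
/-- the nef part -/
noncomputable def β (P : Place ℂ K) : ℝ := E.N P + (2 / 3 * E.l3 P + 1 / 3 * P.ord E.cz)

theorem β_nef : Nef E.Y E.β := by
  have h1 : Nef E.Y fun P => (E.l3 P : ℝ) := by
    have h2 := E.cof_T3.bpf hy
    refine Semiample.nef (h2.semiample.congr fun P => by rw [L_T3])
      (h2.rcartier.congr fun P => by rw [L_T3])
  have h3 : Nef E.Y fun P => (2 / 3 : ℝ) * E.l3 P := by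
    have h2 := E.cof_T3.bpf hy
    refine Semiample.nef ((h2.semiample.smul (by norm_num : (0 : ℝ) ≤ 2 / 3)).congr
      fun P => by rw [L_T3]) ((h2.rcartier.smul (2 / 3)).congr fun P => by rw [L_T3])
  have h4 : Nef E.Y fun P => (1 / 3 : ℝ) * P.ord E.cz :=
    Semiample.nef (semiample_ord E.Y E.cz_ne _) ((rcartier_ord E.Y E.cz_ne).smul _)
  exact (E.N_nef hy).add (h3.add h4)

theorem D_psef {δ : ℝ} (hδ : 0 ≤ δ) : Psef E.Y (E.D δ) := by
  refine ⟨E.D_rcartier hy δ, fun ε hε => ?_⟩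
  obtain ⟨m, c, z, hz, hD⟩ := E.N_semiample hy hε
  have h1 : ∀ i, ∃ f, f ∈ (z i).s := fun i => (z i).ne
  choose f hf using h1
  refine ⟨m, c, f, fun i => (z i).ne_zero (hf i), fun P _ => ?_⟩
  have h2 : (0 : ℝ) ≤ ∑ i, c i * ((z i).L P : ℝ) + ∑ i, c i * P.ord (f i) := by
    rw [← Finset.sum_add_distrib]
    refine Finset.sum_nonneg fun i _ => ?_
    rw [← mul_add]
    refine mul_nonneg (hz i).1 ?_
    have h3 := (z i).le_L P (hf i)
    have h4 : ((-P.ord (f i) : ℤ) : ℝ) ≤ (z i).L P := by exact_mod_cast h3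
    push_cast at h4
    linarith
  rw [← hD P] at h2
  have h3 : (0 : ℝ) ≤ E.S0 P := by exact_mod_cast E.S0_nonneg P
  have h4 : 0 ≤ δ * (E.S0 P : ℝ) := mul_nonneg hδ h3
  unfold D
  linarith

end Exa

end Pool.Agent.Q73.LT
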