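import Pool.Agent.Q73.LT.Full
import Pool.Agent.Q73.LT.Ex2

/-!
The example: the classification of the prime divisors.
-/

set_option autoImplicit false

open FF Pool.Agent.W602.GT

namespace Pool.Agent.Q73.LT

section mm

variable {K : Type} [Field K] [Algebra ℂ K] {P : Place ℂ K}

/-- regular functions with residues in a subfield -/
def MM (P : Place ℂ K) (F : IntermediateField ℂ P.RF) (h : K) : Prop := P.Reg h ∧ P.red h ∈ F

variable {F : IntermediateField ℂ P.RF}

theorem MM.mul {g h : K} (hg : MM P F g) (hh : MM P F h) : MM P F (g * h) :=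
  ⟨P.reg_mul hg.1 hh.1, by
    rw [P.red_mul hg.1 hh.1]
    exact F.mul_mem hg.2 hh.2⟩

theorem MM.one : MM P F (1 : K) := ⟨P.reg_one, by rw [P.red_one]; exact F.one_mem⟩

theorem MM.pos {h : K} (hh : 0 < P.ord h) : MM P F h :=
  ⟨Or.inr hh.le, by
    rw [(P.red_eq_zero_iff (Or.inr hh.le)).2 (Or.inr hh)]
    exact F.zero_mem⟩

theorem MM.inv {h : K} (hh : MM P F h) (h0 : h ≠ 0) (ho : P.ord h = 0) : MM P F h⁻¹ := by
  have h1 : P.Reg h⁻¹ := Or.inr (by rw [P.ord_inv]; omega)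
  refine ⟨h1, ?_⟩
  have h2 : P.red h⁻¹ * P.red h = 1 := by
    rw [← P.red_mul h1 hh.1, inv_mul_cancel₀ h0, P.red_one]
  have h3 : P.red h⁻¹ = (P.red h)⁻¹ := eq_inv_of_mul_eq_one_left h2
  rw [h3]
  exact F.inv_mem hh.2

/-- the ratios of the elements of a linear system and its element `f` have residues in `F` -/
def GS (P : Place ℂ K) (F : IntermediateField ℂ P.RF) (z : Sys K) (f : K) : Prop :=
  f ∈ z.s ∧ ∀ g ∈ z.s, MM P F (g / f)

theorem GS.top {z : Sys K} {f : K} (h : GS P F z f) : Top z f P := ⟨h.1, fun g hg => (h.2 g hg).1⟩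

theorem GS.mul {z w : Sys K} {f g : K} (h : GS P F z f) (h' : GS P F w g) :
    GS P F (z.mul w) (f * g) := by
  refine ⟨Sys.mem_mul h.1 h'.1, fun x hx => ?_⟩
  obtain ⟨a, ha, b, hb, rfl⟩ := Sys.of_mem_mul hx
  rw [← div_mul_div_comm]
  exact (h.2 a ha).mul (h'.2 b hb)

theorem GS.pen_one {x : K} (hx : x ≠ 0) (h : MM P F x) : GS P F (pen x hx) 1 := by
  refine ⟨(mem_pen hx).2 (Or.inl rfl), fun g hg => ?_⟩
  rw [div_one]
  rcases (mem_pen hx).1 hg with rfl | rfl
  · exact MM.one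
  · exact h

theorem GS.pen_self {x : K} (hx : x ≠ 0) (h : MM P F x⁻¹) : GS P F (pen x hx) x := by
  refine ⟨(mem_pen hx).2 (Or.inr rfl), fun g hg => ?_⟩
  rcases (mem_pen hx).1 hg with rfl | rfl
  · rw [one_div]
    exact h
  · rw [div_self hx]
    exact MM.one

/-- a coordinate or its inverse -/
noncomputable def rr (P : Place ℂ K) (x : K) : K := by
  classical
  exact if 0 ≤ P.ord x then x else x⁻¹

theorem rr_cases (P : Place ℂ K) (x : K) :
    (0 ≤ P.ord x ∧ rr P x = x) ∨ (P.ord x < 0 ∧ rr P x = x⁻¹) := by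
  unfold rr
  rcases le_or_gt 0 (P.ord x) with h | h
  · left
    exact ⟨h, if_pos h⟩
  · right
    exact ⟨h, if_neg (not_le.2 h)⟩

theorem rr_reg (P : Place ℂ K) (x : K) : P.Reg (rr P x) := by
  rcases rr_cases P x with ⟨h, h1⟩ | ⟨h, h1⟩
  · rw [h1]
    exact Or.inr h
  · rw [h1]
    exact Or.inr (by rw [P.ord_inv]; omega)

theorem mem_of_rr {P : Place ℂ K} {x : K} {F : IntermediateField ℂ K} (h : rr P x ∈ F) : x ∈ F := by
  rcases rr_cases P x with ⟨-, h1⟩ | ⟨-, h1⟩
  · rwa [h1] at h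
  · rw [h1] at h
    have := F.inv_mem h
    rwa [inv_inv] at this

/-- a system of a coordinate -/
theorem GS.of_rr {x : K} (hx : x ≠ 0) (h : P.red (rr P x) ∈ F) : ∃ t, GS P F (pen x hx) t ∧
    MM P F (1 / t) ∧ (0 ≤ P.ord x → t = 1) := by
  rcases rr_cases P x with ⟨h0, h1⟩ | ⟨h0, h1⟩
  · rw [h1] at h
    refine ⟨1, GS.pen_one hx ⟨Or.inr h0, h⟩, ?_, fun _ => rfl⟩
    rw [div_one]
    exact MM.one
  · rw [h1] at h
    have h2 : MM P F x⁻¹ := ⟨Or.inr (by rw [P.ord_inv]; omega), h⟩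
    refine ⟨x, GS.pen_self hx h2, ?_, fun h3 => absurd h3 (not_le.2 h0)⟩
    rw [one_div]
    exact h2

end mm

section cases3

variable {K : Type} [Field K] [Algebra ℂ K] {P : Place ℂ K} {F : IntermediateField ℂ P.RF}
  {x1 x2 z : K} (h1 : x1 ≠ 0) (h2 : x2 ≠ 0) (hz : z ≠ 0)

/-- the system of the blow-up -/
noncomputable def WW : Sys K := ((pen x1 h1).mul (pen x2 h2)).un
  (((pen x1 h1).mul (pen z⁻¹ (inv_ne_zero hz))).un ((pen x2 h2).mul (pen z⁻¹ (inv_ne_zero hz))))

theorem GS.WW_of {f : K} (hf : f ∈ (WW h1 h2 hz).s)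
    (h12 : ∀ g1 ∈ (pen x1 h1).s, ∀ g2 ∈ (pen x2 h2).s, MM P F (g1 * g2 / f))
    (h1z : ∀ g1 ∈ (pen x1 h1).s, ∀ gz ∈ (pen z⁻¹ (inv_ne_zero hz)).s, MM P F (g1 * gz / f))
    (h2z : ∀ g2 ∈ (pen x2 h2).s, ∀ gz ∈ (pen z⁻¹ (inv_ne_zero hz)).s, MM P F (g2 * gz / f)) :
    GS P F (WW h1 h2 hz) f := by
  refine ⟨hf, fun g hg => ?_⟩
  unfold WW at hg
  rw [Sys.mem_un, Sys.mem_un] at hg
  rcases hg with hg | hg | hg
  · obtain ⟨a, ha, b, hb, rfl⟩ := Sys.of_mem_mul hg
    exact h12 a ha b hb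
  · obtain ⟨a, ha, b, hb, rfl⟩ := Sys.of_mem_mul hg
    exact h1z a ha b hb
  · obtain ⟨a, ha, b, hb, rfl⟩ := Sys.of_mem_mul hg
    exact h2z a ha b hb

theorem mem12 {g1 g2 : K} (hg1 : g1 ∈ (pen x1 h1).s) (hg2 : g2 ∈ (pen x2 h2).s) :
    g1 * g2 ∈ (WW h1 h2 hz).s := by
  unfold WW
  rw [Sys.mem_un]
  exact Or.inl (Sys.mem_mul hg1 hg2)

theorem mem1z {g1 gz : K} (hg1 : g1 ∈ (pen x1 h1).s) (hgz : gz ∈ (pen z⁻¹ (inv_ne_zero hz)).s) :
    g1 * gz ∈ (WW h1 h2 hz).s := by
  unfold WW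
  rw [Sys.mem_un, Sys.mem_un]
  exact Or.inr (Or.inl (Sys.mem_mul hg1 hgz))

theorem mem2z {g2 gz : K} (hg2 : g2 ∈ (pen x2 h2).s) (hgz : gz ∈ (pen z⁻¹ (inv_ne_zero hz)).s) :
    g2 * gz ∈ (WW h1 h2 hz).s := by
  unfold WW
  rw [Sys.mem_un, Sys.mem_un]
  exact Or.inr (Or.inr (Sys.mem_mul hg2 hgz))

/-- `z` has no zero -/
theorem caseA1 {t1 t2 : K} (g1 : GS P F (pen x1 h1) t1) (g2 : GS P F (pen x2 h2) t2)
    (i1 : MM P F (1 / t1)) (i2 : MM P F (1 / t2)) (iz : MM P F z⁻¹) :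
    GS P F (WW h1 h2 hz) (t1 * t2) := by
  refine GS.WW_of h1 h2 hz (mem12 h1 h2 hz g1.1 g2.1) ?_ ?_ ?_
  · intro a ha b hb
    rw [← div_mul_div_comm]
    exact (g1.2 a ha).mul (g2.2 b hb)
  · intro a ha b hb
    have hb' : MM P F b := by
      rcases (mem_pen _).1 hb with rfl | rfl
      · exact MM.one
      · exact iz
    have : a * b / (t1 * t2) = a / t1 * (b * (1 / t2)) := by
      have := (pen x1 h1).ne_zero g1.1
      have := (pen x2 h2).ne_zero g2.1
      field_simp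
    rw [this]
    exact (g1.2 a ha).mul (hb'.mul i2)
  · intro a ha b hb
    have hb' : MM P F b := by
      rcases (mem_pen _).1 hb with rfl | rfl
      · exact MM.one
      · exact iz
    have : a * b / (t1 * t2) = a / t2 * (b * (1 / t1)) := by
      have := (pen x1 h1).ne_zero g1.1
      have := (pen x2 h2).ne_zero g2.1
      field_simp
    rw [this]
    exact (g2.2 a ha).mul (hb'.mul i1)

/-- `x1` is regular -/
theorem caseA2 {t2 : K} (m1 : MM P F x1) (g2 : GS P F (pen x2 h2) t2)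
    (i2 : MM P F (1 / t2)) (iz : MM P F z) :
    GS P F (WW h1 h2 hz) (t2 * z⁻¹) := by
  have ht2 := (pen x2 h2).ne_zero g2.1
  have hm : ∀ a ∈ (pen x1 h1).s, MM P F a := by
    intro a ha
    rcases (mem_pen _).1 ha with rfl | rfl
    · exact MM.one
    · exact m1
  have hmz : ∀ b ∈ (pen z⁻¹ (inv_ne_zero hz)).s, MM P F (b * z) := by
    intro b hb
    rcases (mem_pen _).1 hb with rfl | rfl
    · rwa [one_mul]
    · rw [inv_mul_cancel₀ hz]
      exact MM.one
  refine GS.WW_of h1 h2 hz (mem2z h1 h2 hz g2.1 ((mem_pen _).2 (Or.inr rfl))) ?_ ?_ ?_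
  · intro a ha b hb
    have : a * b / (t2 * z⁻¹) = a * (b / t2) * z := by field_simp
    rw [this]
    exact ((hm a ha).mul (g2.2 b hb)).mul iz
  · intro a ha b hb
    have : a * b / (t2 * z⁻¹) = a * (b * z) * (1 / t2) := by field_simp
    rw [this]
    exact ((hm a ha).mul (hmz b hb)).mul i2
  · intro a ha b hb
    have : a * b / (t2 * z⁻¹) = (a / t2) * (b * z) := by field_simp
    rw [this]
    exact (g2.2 a ha).mul (hmz b hb)

/-- all three have negative order or zeros, the top is `x1 x2` -/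
theorem caseB1 (m1 : MM P F x1⁻¹) (m2 : MM P F x2⁻¹) (n1 : MM P F (z * x1)⁻¹)
    (n2 : MM P F (z * x2)⁻¹) : GS P F (WW h1 h2 hz) (x1 * x2) := by
  have g1 := GS.pen_self h1 m1
  have g2 := GS.pen_self h2 m2
  refine GS.WW_of h1 h2 hz (mem12 h1 h2 hz g1.1 g2.1) ?_ ?_ ?_
  · intro a ha b hb
    rw [← div_mul_div_comm]
    exact (g1.2 a ha).mul (g2.2 b hb)
  · intro a ha b hb
    have hb' : MM P F (b / x2) := by
      rcases (mem_pen _).1 hb with rfl | rfl
      · rwa [one_div]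
      · rwa [mul_inv, ← div_eq_mul_inv] at n2
    rw [← div_mul_div_comm]
    exact (g1.2 a ha).mul hb'
  · intro a ha b hb
    have hb' : MM P F (b / x1) := by
      rcases (mem_pen _).1 hb with rfl | rfl
      · rwa [one_div]
      · rwa [mul_inv, ← div_eq_mul_inv] at n1
    rw [mul_comm x1 x2, ← div_mul_div_comm]
    exact (g2.2 a ha).mul hb'

/-- all three have negative order or zeros, the top is `x1 / z` -/
theorem caseB2 (m1 : MM P F x1⁻¹) (mz : MM P F z) (n1 : MM P F (x2 * z))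
    (n2 : MM P F (x2 / x1)) : GS P F (WW h1 h2 hz) (x1 * z⁻¹) := by
  have g1 := GS.pen_self h1 m1
  have hmz : ∀ b ∈ (pen z⁻¹ (inv_ne_zero hz)).s, MM P F (b * z) := by
    intro b hb
    rcases (mem_pen _).1 hb with rfl | rfl
    · rwa [one_mul]
    · rw [inv_mul_cancel₀ hz]
      exact MM.one
  refine GS.WW_of h1 h2 hz (mem1z h1 h2 hz g1.1 ((mem_pen _).2 (Or.inr rfl))) ?_ ?_ ?_
  · intro a ha b hb
    have hb' : MM P F (b * z) := by
      rcases (mem_pen _).1 hb with rfl | rfl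
      · rwa [one_mul]
      · exact n1
    have : a * b / (x1 * z⁻¹) = a / x1 * (b * z) := by field_simp
    rw [this]
    exact (g1.2 a ha).mul hb'
  · intro a ha b hb
    have : a * b / (x1 * z⁻¹) = a / x1 * (b * z) := by field_simp
    rw [this]
    exact (g1.2 a ha).mul (hmz b hb)
  · intro a ha b hb
    have ha' : MM P F (a / x1) := by
      rcases (mem_pen _).1 ha with rfl | rfl
      · rwa [one_div]
      · exact n2
    have : a * b / (x1 * z⁻¹) = a / x1 * (b * z) := by field_simp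
    rw [this]
    exact ha'.mul (hmz b hb)

theorem mem_WW_swap {g : K} : g ∈ (WW h1 h2 hz).s ↔ g ∈ (WW h2 h1 hz).s := by
  unfold WW
  simp only [Sys.mem_un]
  have h3 : g ∈ ((pen x1 h1).mul (pen x2 h2)).s ↔ g ∈ ((pen x2 h2).mul (pen x1 h1)).s := by
    constructor
    · intro h
      obtain ⟨a, ha, b, hb, rfl⟩ := Sys.of_mem_mul h
      rw [mul_comm]
      exact Sys.mem_mul hb ha
    · intro h
      obtain ⟨a, ha, b, hb, rfl⟩ := Sys.of_mem_mul h
      rw [mul_comm]
      exact Sys.mem_mul hb ha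
  rw [h3]
  tauto

theorem GS.swap {f : K} (h : GS P F (WW h2 h1 hz) f) : GS P F (WW h1 h2 hz) f :=
  ⟨(mem_WW_swap h1 h2 hz).2 h.1, fun g hg => h.2 g ((mem_WW_swap h1 h2 hz).1 hg)⟩

end cases3

namespace Exa

variable {κ K : Type} [Field κ] [Algebra ℂ κ] [Field K] [Algebra ℂ K] [Algebra κ K]

variable (E : Exa κ K)

theorem W_eq : E.W = WW (map_ne E.y1_ne) (map_ne E.y2_ne) E.z_ne := rfl

theorem gs_Y {P : Place ℂ K} {F : IntermediateField ℂ P.RF} {t1 t2 t3 f : K}
    (g1 : GS P F E.T1 t1) (g2 : GS P F E.T2 t2) (g3 : GS P F E.T3 t3) (g : GS P F E.W f) :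
    ∃ f, GS P F E.Y f := ⟨_, ((g1.mul g2).mul g3).mul g⟩

theorem full_of_gs {P : Place ℂ K} (hP : IsPrimeDivisor E.Y P) {S : Set P.RF}
    (h : ∃ f, GS P (IntermediateField.adjoin ℂ S) E.Y f) : Full S := by
  obtain ⟨f, hf⟩ := h
  intro x
  rw [mem_acl]
  exact res_alg hP hf.top (fun g hg => (hf.2 g hg).2) x

/-- the classification of the prime divisors -/
theorem classify {P : Place ℂ K} (hP : IsPrimeDivisor E.Y P) (hd : Divisorial 3 P) :
    Triv P (IntermediateField.adjoin ℂ {algebraMap κ K E.y1, algebraMap κ K E.y2}) ∨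
    Triv P (IntermediateField.adjoin ℂ {algebraMap κ K E.y1, E.z}) ∨
    Triv P (IntermediateField.adjoin ℂ {algebraMap κ K E.y2, E.z}) ∨
    (P.ord (algebraMap κ K E.y1) < 0 ∧ Triv P (IntermediateField.adjoin ℂ
      {algebraMap κ K E.y1 * E.z, algebraMap κ K E.y2 * E.z})) := by
  obtain ⟨u, hu⟩ := exists_ind_red hd
  set x1 := algebraMap κ K E.y1 with hx1
  set x2 := algebraMap κ K E.y2 with hx2
  have h1 : x1 ≠ 0 := map_ne E.y1_ne
  have h2 : x2 ≠ 0 := map_ne E.y2_ne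
  have hz := E.z_ne
  by_cases hB : P.ord x1 < 0 ∧ P.ord x2 < 0 ∧ 0 < P.ord E.z
  · -- the blow-up
    obtain ⟨hB1, hB2, hB3⟩ := hB
    right
    right
    right
    refine ⟨hB1, ?_⟩
    have p1 : 0 < P.ord x1⁻¹ := by rw [P.ord_inv]; omega
    have p2 : 0 < P.ord x2⁻¹ := by rw [P.ord_inv]; omega
    have key : ∀ S : Set P.RF, ∀ f, GS P (IntermediateField.adjoin ℂ S) E.W f → Full S := by
      intro S f hf
      exact E.full_of_gs hP (E.gs_Y (GS.pen_self h1 (MM.pos p1)) (GS.pen_self h2 (MM.pos p2))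
        (GS.pen_one hz (MM.pos hB3)) hf)
    by_cases hl : P.ord E.z ≤ - P.ord x1 ∧ P.ord E.z ≤ - P.ord x2
    · have r1 : P.Reg (E.z * x1)⁻¹ := Or.inr (by rw [P.ord_inv, P.ord_mul hz h1]; omega)
      have r2 : P.Reg (E.z * x2)⁻¹ := Or.inr (by rw [P.ord_inv, P.ord_mul hz h2]; omega)
      have hF := key {P.red (E.z * x1)⁻¹, P.red (E.z * x2)⁻¹} _
        (caseB1 h1 h2 hz (MM.pos p1) (MM.pos p2)
          ⟨r1, IntermediateField.subset_adjoin ℂ _ (by simp)⟩
          ⟨r2, IntermediateField.subset_adjoin ℂ _ (by simp)⟩)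
      refine triv_mono (triv_pair r1 r2 (full_pair hu hF)) ?_
      rw [SetLike.coe_subset_coe, IntermediateField.adjoin_le_iff]
      rintro x (rfl | rfl)
      · have h3 : x1 * E.z = ((E.z * x1)⁻¹)⁻¹ := by rw [inv_inv, mul_comm]
        rw [h3]
        exact inv_mem (IntermediateField.subset_adjoin ℂ _ (Set.mem_insert _ _))
      · have h3 : x2 * E.z = ((E.z * x2)⁻¹)⁻¹ := by rw [inv_inv, mul_comm]
        rw [h3]
        exact inv_mem (IntermediateField.subset_adjoin ℂ _ (Set.mem_insert_of_mem _ rfl))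
    · rcases le_or_gt (P.ord x1) (P.ord x2) with h12 | h12
      · have r1 : P.Reg (x2 * E.z) := Or.inr (by rw [P.ord_mul h2 hz]; omega)
        have r2 : P.Reg (x2 / x1) := Or.inr (by rw [P.ord_div h2 h1]; omega)
        have hF := key {P.red (x2 * E.z), P.red (x2 / x1)} _
          (caseB2 h1 h2 hz (MM.pos p1) (MM.pos hB3)
            ⟨r1, IntermediateField.subset_adjoin ℂ _ (by simp)⟩
            ⟨r2, IntermediateField.subset_adjoin ℂ _ (by simp)⟩)
        refine triv_mono (triv_pair r1 r2 (full_pair hu hF)) ?_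
        rw [SetLike.coe_subset_coe, IntermediateField.adjoin_le_iff]
        have e1 : x2 * E.z ∈ IntermediateField.adjoin ℂ {x2 * E.z, x2 / x1} :=
          IntermediateField.subset_adjoin ℂ _ (by simp)
        have e2 : x2 / x1 ∈ IntermediateField.adjoin ℂ {x2 * E.z, x2 / x1} :=
          IntermediateField.subset_adjoin ℂ _ (by simp)
        rintro x (rfl | rfl)
        · have h3 : x1 * E.z = (x2 * E.z) / (x2 / x1) := by field_simp
          rw [h3]
          exact div_mem e1 e2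
        · exact e1
      · have r1 : P.Reg (x1 * E.z) := Or.inr (by rw [P.ord_mul h1 hz]; omega)
        have r2 : P.Reg (x1 / x2) := Or.inr (by rw [P.ord_div h1 h2]; omega)
        have hF := key {P.red (x1 * E.z), P.red (x1 / x2)} _
          (GS.swap h1 h2 hz (caseB2 h2 h1 hz (MM.pos p2) (MM.pos hB3)
            ⟨r1, IntermediateField.subset_adjoin ℂ _ (by simp)⟩
            ⟨r2, IntermediateField.subset_adjoin ℂ _ (by simp)⟩))
        refine triv_mono (triv_pair r1 r2 (full_pair hu hF)) ?_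
        rw [SetLike.coe_subset_coe, IntermediateField.adjoin_le_iff]
        have e1 : x1 * E.z ∈ IntermediateField.adjoin ℂ {x1 * E.z, x1 / x2} :=
          IntermediateField.subset_adjoin ℂ _ (by simp)
        have e2 : x1 / x2 ∈ IntermediateField.adjoin ℂ {x1 * E.z, x1 / x2} :=
          IntermediateField.subset_adjoin ℂ _ (by simp)
        rintro x (rfl | rfl)
        · exact e1
        · have h3 : x2 * E.z = (x1 * E.z) / (x1 / x2) := by field_simp
          rw [h3]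
          exact div_mem e1 e2
  · -- the residues of the coordinates
    set S : Set P.RF := {P.red (rr P x1), P.red (rr P x2), P.red (rr P E.z)} with hS
    have m1 : P.red (rr P x1) ∈ IntermediateField.adjoin ℂ S :=
      IntermediateField.subset_adjoin ℂ S (by rw [hS]; simp)
    have m2 : P.red (rr P x2) ∈ IntermediateField.adjoin ℂ S :=
      IntermediateField.subset_adjoin ℂ S (by rw [hS]; simp)
    have m3 : P.red (rr P E.z) ∈ IntermediateField.adjoin ℂ S :=
      IntermediateField.subset_adjoin ℂ S (by rw [hS]; simp)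
    obtain ⟨t1, g1, i1, e1⟩ := GS.of_rr h1 m1
    obtain ⟨t2, g2, i2, e2⟩ := GS.of_rr h2 m2
    obtain ⟨t3, g3, i3, e3⟩ := GS.of_rr hz m3
    have mm : ∀ {x : K}, P.red (rr P x) ∈ IntermediateField.adjoin ℂ S → 0 ≤ P.ord x →
        MM P (IntermediateField.adjoin ℂ S) x := by
      intro x hx h0
      rcases rr_cases P x with ⟨-, h3⟩ | ⟨h3, -⟩
      · rw [h3] at hx
        exact ⟨Or.inr h0, hx⟩
      · omega
    have hW : ∃ f, GS P (IntermediateField.adjoin ℂ S) E.W f := by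
      rcases le_or_gt (P.ord E.z) 0 with hz0 | hz0
      · have iz : MM P (IntermediateField.adjoin ℂ S) E.z⁻¹ := by
          rcases hz0.lt_or_eq with hz1 | hz1
          · exact MM.pos (by rw [P.ord_inv]; omega)
          · exact (mm m3 hz1.ge).inv hz hz1
        exact ⟨_, caseA1 h1 h2 hz g1 g2 i1 i2 iz⟩
      · have iz : MM P (IntermediateField.adjoin ℂ S) E.z := MM.pos hz0
        rcases le_or_gt 0 (P.ord x1) with h0 | h0
        · exact ⟨_, caseA2 h1 h2 hz (mm m1 h0) g2 i2 iz⟩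
        · have h0' : 0 ≤ P.ord x2 := by
            by_contra hcon
            exact hB ⟨h0, by omega, hz0⟩
          exact ⟨_, GS.swap h1 h2 hz (caseA2 h2 h1 hz (mm m2 h0') g1 i1 iz)⟩
    obtain ⟨f, hf⟩ := hW
    have hF := E.full_of_gs hP (E.gs_Y g1 g2 g3 hf)
    have hmono : ∀ {a b : K}, AlgebraicIndependent ℂ ![P.red (rr P a), P.red (rr P b)] →
        Triv P (IntermediateField.adjoin ℂ {a, b}) := by
      intro a b hab
      refine triv_mono (triv_pair (rr_reg P a) (rr_reg P b) hab) ?_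
      rw [SetLike.coe_subset_coe, IntermediateField.adjoin_le_iff]
      rintro x (rfl | rfl)
      · exact mem_of_rr (P := P) (IntermediateField.subset_adjoin ℂ _ (by simp))
      · exact mem_of_rr (P := P) (IntermediateField.subset_adjoin ℂ _ (by simp))
    rcases full_three hu hF with h3 | h3 | h3
    · exact Or.inl (hmono h3)
    · exact Or.inr (Or.inl (hmono h3))
    · exact Or.inr (Or.inr (Or.inl (hmono h3)))

end Exa

end Pool.Agent.Q73.LT
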