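import Pool.Agent.Y172.Defs

/-!
Normal projective varieties in terms of their function field, `ℝ`-divisors as functions of the
discrete valuations, generalized pairs and their log terminal models.
-/

set_option autoImplicit false

open FF Pool.Agent.W602.GT

namespace Pool.Agent.Q73.LT

variable {K : Type} [Field K] [Algebra ℂ K]

variable (K) in
/-- A finite, nonempty set of nonzero rational functions: the sections of a linear system, or the
homogeneous coordinates of the generic point of a projective variety. -/
structure Sys where
  s : Finset K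
  ne : s.Nonempty
  zero : (0 : K) ∉ s

/-- The divisor (of the zeros of the section `1`, at all places) of the linear system spanned by `z`:
`- min {ord f | f ∈ z}`. -/
noncomputable def Sys.L (z : Sys K) (P : Place ℂ K) : ℤ := z.s.sup' z.ne fun f => - P.ord f

/-- The coordinate ring of the affine chart `f ≠ 0` of the projective variety with generic point
`y`. -/
def chart (y : Sys K) (f : K) : Subalgebra ℂ K :=
  Algebra.adjoin ℂ {h | ∃ g ∈ y.s, h = g / f}

/-- The coordinate ring of the affine chart `f ≠ 0` of the normalisation, in `K`, of the projective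
variety with generic point `y`. -/
def nchart (y : Sys K) (f : K) : Subalgebra ℂ K :=
  (integralClosure (chart y f) K).restrictScalars ℂ

/-- `y` defines a normal projective variety `X y` with function field `K`: the normalisation, in `K`,
of the projective variety with the homogeneous coordinates `y` of the generic point, if `K` is a
finite extension of the field of the ratios of the coordinates. (All the normal projective varieties
with function field `K` have this form: take for `y` the coordinates of the generic point in a
projective embedding.) -/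
def Model (y : Sys K) : Prop :=
  FiniteDimensional (IntermediateField.adjoin ℂ {h | ∃ f ∈ y.s, ∃ g ∈ y.s, h = g / f}) K

/-- The centre of the place `P` on `X y` is in the chart `f ≠ 0`. -/
def Top (y : Sys K) (f : K) (P : Place ℂ K) : Prop := f ∈ y.s ∧ ∀ g ∈ y.s, P.Reg (g / f)

/-- The local ring of `X y` at the centre of the place `P`: the quotients `a / b` of elements of the
coordinate ring of a chart which contains the centre, such that `b` is not zero at the centre. -/
def localRing (y : Sys K) (P : Place ℂ K) : Set K :=
  {h | ∃ f, Top y f P ∧ ∃ a ∈ nchart y f, ∃ b ∈ nchart y f, b ≠ 0 ∧ P.ord b = 0 ∧ h * b = a}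

/-- `P` is a prime divisor on `X y`: the valuation ring of `P` is the local ring of `X y` at the
centre of `P`. -/
def IsPrimeDivisor (y : Sys K) (P : Place ℂ K) : Prop := ∀ h, P.Reg h → h ∈ localRing y P

/-- The centre of `P` on `X y` contains the centre of `Q` in its closure. -/
def Through (y : Sys K) (P Q : Place ℂ K) : Prop := ∀ h ∈ localRing y Q, P.Reg h

/-- The linear system `z` is base point free on `X y`: at every centre, one of its elements divides
all the others. -/
def BPF (y z : Sys K) : Prop := ∀ P : Place ℂ K, ∃ f ∈ z.s, ∀ g ∈ z.s, g / f ∈ localRing y P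

/-- `D` is an `ℝ`-Cartier divisor on `X y`, given by its multiplicities at all the prime divisors over
`X y`: near every centre, it is a finite real combination of principal divisors. -/
def RCartier (y : Sys K) (D : Place ℂ K → ℝ) : Prop :=
  ∀ Q : Place ℂ K, ∃ (m : ℕ) (r : Fin m → ℝ) (f : Fin m → K), (∀ i, f i ≠ 0) ∧
    ∀ P : Place ℂ K, Through y P Q → D P = ∑ i, r i * P.ord (f i)

/-- `D` is semiample on `X y`: it is a nonnegative real combination of divisors of base point free
linear systems (the principal divisors among them). -/
def Semiample (y : Sys K) (D : Place ℂ K → ℝ) : Prop :=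
  ∃ (m : ℕ) (c : Fin m → ℝ) (z : Fin m → Sys K), (∀ i, 0 ≤ c i ∧ BPF y (z i)) ∧
    ∀ P : Place ℂ K, D P = ∑ i, c i * (z i).L P

/-- `D` is a nef `ℝ`-Cartier divisor on `X y`: `D + ε H` is semiample for all `ε > 0`, for the
hyperplane class `H`. -/
def Nef (y : Sys K) (D : Place ℂ K → ℝ) : Prop :=
  RCartier y D ∧ ∀ ε : ℝ, 0 < ε → Semiample y fun P => D P + ε * y.L P

/-- `D` is a pseudo-effective `ℝ`-Cartier divisor on `X y`: `D + ε H` is `ℝ`-linearly equivalent to an
effective divisor for all `ε > 0`, for the hyperplane class `H`. -/
def Psef (y : Sys K) (D : Place ℂ K → ℝ) : Prop :=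
  RCartier y D ∧ ∀ ε : ℝ, 0 < ε → ∃ (m : ℕ) (r : Fin m → ℝ) (f : Fin m → K), (∀ i, f i ≠ 0) ∧
    ∀ P : Place ℂ K, IsPrimeDivisor y P → 0 ≤ D P + ε * y.L P + ∑ i, r i * P.ord (f i)

/-- The order of the form `ω` along `P` is `c`: on vector fields which are regular at `P` its values
have order at least `c`, with equality for some of them. -/
def OrdForm {n : ℕ} (P : Place ℂ K) (ω : (Fin n → Derivation ℂ K K) → K) (c : ℝ) : Prop :=
  (∀ E : Fin n → Derivation ℂ K K, (∀ i, DerReg P (E i)) → ω E = 0 ∨ c ≤ P.ord (ω E)) ∧
    ∃ E : Fin n → Derivation ℂ K K, (∀ i, DerReg P (E i)) ∧ ω E ≠ 0 ∧ P.ord (ω E) = c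

/-- `(X y, B + β)` is a generalized pair of dimension `n`, and `D` is the divisor `K + B + β` on
`X y` (with its multiplicities at all the prime divisors over `X y`), if `K` is the divisor of the
rational `n`-form `ω`: the boundary `B` is an effective divisor (`B P` is the coefficient of the prime
divisor `P` of `X y`), `β` is a b-divisor (with the multiplicity `β P` at the prime divisor `P` over
`X y`) which is nef on some normal projective variety `X y'` with function field `K`, and
`K + B + β` is `ℝ`-Cartier on `X y`. -/
structure IsGPair (n : ℕ) (y : Sys K) (ω : (Fin n → Derivation ℂ K K) → K)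
    (B β D : Place ℂ K → ℝ) : Prop where
  model : Model y
  dim : Algebra.trdeg ℂ K = n
  form : IsPluri 1 ω
  form_ne : ∃ E, ω E ≠ 0
  eff : ∀ P, IsPrimeDivisor y P → 0 ≤ B P
  fin : {P | IsPrimeDivisor y P ∧ B P ≠ 0}.Finite
  nef : ∃ y', Model y' ∧ Nef y' β
  car : RCartier y D
  eq : ∀ P, IsPrimeDivisor y P → ∃ c, OrdForm P ω c ∧ D P = c + B P + β P

/-- The log discrepancy at `P` of a generalized pair `(X, B + β)`: one plus the order of
`K + β - D` at `P`, if `c` is the order of the form `ω` with divisor `K` at `P`, and
`D = K + B + β` on `X`. -/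
def logDisc (c : ℝ) (β D : Place ℂ K → ℝ) (P : Place ℂ K) : ℝ := 1 + c + β P - D P

/-- The generalized pair is Kawamata log terminal: the log discrepancies of all the prime divisors
over `X` are positive. -/
def Gklt (n : ℕ) (ω : (Fin n → Derivation ℂ K K) → K) (β D : Place ℂ K → ℝ) : Prop :=
  ∀ P : Place ℂ K, Divisorial n P → ∃ c, OrdForm P ω c ∧ 0 < logDisc c β D P

/-- `X y'` is a (weak) log terminal model of the generalized pair `(X y, B + β)`, with
`K + B + β = D` on `X y` and `K + B + β = D'` on `X y'`: the map from `X y'` to `X y` contracts no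
divisor, `(X y', B + β)` is a generalized pair with nef `K + B + β`, and the log discrepancies of the
prime divisors of `X y` which are contracted on `X y'` are greater for `X y'` than for `X y`. -/
structure IsLTM (n : ℕ) (y : Sys K) (ω : (Fin n → Derivation ℂ K K) → K)
    (B β D : Place ℂ K → ℝ) (y' : Sys K) (D' : Place ℂ K → ℝ) : Prop where
  sub : ∀ P, IsPrimeDivisor y' P → IsPrimeDivisor y P
  pair : IsGPair n y' ω B β D'
  nef : Nef y' D'
  neg : ∀ P, IsPrimeDivisor y P → ¬ IsPrimeDivisor y' P → ∀ c, OrdForm P ω c →
    logDisc c β D P < logDisc c β D' P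

end Pool.Agent.Q73.LT
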