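import Pool.Agent.Q73.LT.Seq
import Pool.Agent.Helper386.D5V.Helper386_FF_RR

/-!
Degrees of divisors over the field `ℂ(t)`.
-/

set_option autoImplicit false

open FF Pool.Agent.W603.LV

namespace Pool.Agent.Q73.LT

section ff

variable {κ : Type} [Field κ] [Algebra ℂ κ]

theorem isFF_self {t : κ} (ht : Transcendental ℂ t) : IsFF ℂ (IntermediateField.adjoin ℂ {t}) := by
  have h0 : Transcendental ℂ (IntermediateField.AdjoinSimple.gen ℂ t) := fun h => ht (by
    have h1 := h.algebraMap (A := κ)
    rwa [IntermediateField.AdjoinSimple.algebraMap_gen] at h1)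
  refine IsFF.of_finite h0 ?_
  have htop : IntermediateField.adjoin ℂ {IntermediateField.AdjoinSimple.gen ℂ t} = ⊤ := by
    rw [eq_top_iff]
    rintro ⟨x, hx⟩ -
    have h1 : IntermediateField.adjoin ℂ {t} ≤
        (IntermediateField.adjoin ℂ {IntermediateField.AdjoinSimple.gen ℂ t}).map
          (IntermediateField.adjoin ℂ {t}).val := by
      rw [IntermediateField.adjoin_map, Set.image_singleton]
      exact le_of_eq (by congr 1)
    obtain ⟨y, hy, hyx⟩ := h1 hx
    have : y = ⟨x, hx⟩ := Subtype.ext hyx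
    rw [← this]
    exact hy
  rw [htop]
  exact Module.Finite.of_surjective (Algebra.linearMap (⊤ : IntermediateField _ _) _)
    fun z => ⟨⟨z, trivial⟩, rfl⟩

theorem isFF_adjoin [Algebra.EssFiniteType ℂ κ] (hn : Algebra.trdeg ℂ κ = 2) {t : κ}
    (ht : Transcendental ℂ t) : IsFF (IntermediateField.adjoin ℂ {t}) κ where
  ess := Algebra.EssFiniteType.of_comp ℂ _ κ
  trdeg := by
    have h1 := trdeg_add_eq ℂ (IntermediateField.adjoin ℂ {t}) (A := κ)
    rw [(isFF_self ht).trdeg, hn] at h1
    have h2 : (1 : Cardinal) + 1 = 2 := by norm_num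
    rw [← h2] at h1
    exact Cardinal.eq_of_add_eq_add_left h1 Cardinal.one_lt_aleph0

/-- a place over a subfield, as a place over `ℂ` -/
noncomputable def base {F : IntermediateField ℂ κ} (v : Place F κ) : Place ℂ κ where
  ord := v.ord
  ord_zero := v.ord_zero
  ord_mul := v.ord_mul
  ord_add := v.ord_add
  ord_const := fun {c} hc => by
    rw [IsScalarTower.algebraMap_apply ℂ F κ]
    exact v.ord_const (by rwa [Ne, map_eq_zero])
  surj := v.surj

theorem base_triv {F : IntermediateField ℂ κ} (v : Place F κ) : Triv (base v) F := by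
  intro f hf hf0
  have h1 : (⟨f, hf⟩ : F) ≠ 0 := fun h => hf0 (congrArg Subtype.val h)
  exact v.ord_const h1

end ff

section deg

variable {k κ : Type} [Field k] [Field κ] [Algebra k κ]

/-- the function `φ` on the places has the degree `d` -/
def HasDeg (φ : Place k κ → ℝ) (d : ℝ) : Prop :=
  (Function.support φ).Finite ∧ ∑ᶠ v : Place k κ, φ v * v.deg = d

theorem supp_deg {φ : Place k κ → ℝ} (h : (Function.support φ).Finite) :
    (Function.support fun v : Place k κ => φ v * v.deg).Finite :=
  h.subset fun v hv => by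
    rw [Function.mem_support] at hv ⊢
    exact left_ne_zero_of_mul hv

theorem HasDeg.add {φ ψ : Place k κ → ℝ} {d e : ℝ} (h : HasDeg φ d) (h' : HasDeg ψ e) :
    HasDeg (fun v => φ v + ψ v) (d + e) := by
  refine ⟨(h.1.union h'.1).subset (Function.support_add _ _), ?_⟩
  rw [← h.2, ← h'.2, ← finsum_add_distrib (supp_deg h.1) (supp_deg h'.1)]
  congr 1
  funext v
  ring

theorem HasDeg.smul {φ : Place k κ → ℝ} {d : ℝ} (h : HasDeg φ d) (r : ℝ) :
    HasDeg (fun v => r * φ v) (r * d) := by
  refine ⟨h.1.subset fun v hv => ?_, ?_⟩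
  · rw [Function.mem_support] at hv ⊢
    exact right_ne_zero_of_mul hv
  · rw [← h.2, ← smul_eq_mul r (∑ᶠ v : Place k κ, φ v * v.deg), smul_finsum' r (supp_deg h.1)]
    congr 1
    funext v
    rw [smul_eq_mul, mul_assoc]

theorem HasDeg.congr {φ ψ : Place k κ → ℝ} {d : ℝ} (h : HasDeg φ d) (h' : ∀ v, ψ v = φ v) :
    HasDeg ψ d := by
  have : ψ = φ := funext h'
  rw [this]
  exact h

theorem hasDeg_zero : HasDeg (fun _ : Place k κ => (0 : ℝ)) 0 := by
  refine ⟨?_, ?_⟩
  · have : (Function.support fun _ : Place k κ => (0 : ℝ)) = ∅ := by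
      ext v
      simp
    rw [this]
    exact Set.finite_empty
  · simp

theorem HasDeg.sum {ι : Type} (s : Finset ι) {φ : ι → Place k κ → ℝ} {d : ι → ℝ}
    (h : ∀ i ∈ s, HasDeg (φ i) (d i)) : HasDeg (fun v => ∑ i ∈ s, φ i v) (∑ i ∈ s, d i) := by
  classical
  induction s using Finset.induction_on with
  | empty =>
    simp only [Finset.sum_empty]
    exact hasDeg_zero
  | insert a s ha ih =>
    rw [Finset.sum_insert ha]
    refine ((h a (Finset.mem_insert_self a s)).add
      (ih fun i hi => h i (Finset.mem_insert_of_mem hi))).congr fun v => ?_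
    rw [Finset.sum_insert ha]

theorem HasDeg.nonneg {φ : Place k κ → ℝ} {d : ℝ} (h : HasDeg φ d) (h' : ∀ v, 0 ≤ φ v) : 0 ≤ d := by
  rw [← h.2]
  exact finsum_nonneg fun v => mul_nonneg (h' v) (Nat.cast_nonneg _)

theorem HasDeg.mono {φ ψ : Place k κ → ℝ} {d e : ℝ} (h : HasDeg φ d) (h' : HasDeg ψ e)
    (hle : ∀ v, φ v ≤ ψ v) : d ≤ e := by
  have h1 := (h'.add (h.smul (-1))).nonneg fun v => by
    have := hle v
    linarith
  linarith

theorem HasDeg.unique {φ : Place k κ → ℝ} {d e : ℝ} (h : HasDeg φ d) (h' : HasDeg φ e) : d = e :=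
  le_antisymm (h.mono h' fun _ => le_rfl) (h'.mono h fun _ => le_rfl)

variable [CharZero k] [IsFF k κ]

theorem hasDeg_of {D : Place k κ →₀ ℤ} : HasDeg (fun v => (D v : ℝ)) (ddeg D : ℝ) := by
  refine ⟨(Finsupp.hasFiniteSupport D).subset fun v hv => ?_, ?_⟩
  · rw [Function.mem_support] at hv ⊢
    exact_mod_cast hv
  · have h1 : (Function.support fun v : Place k κ => (D v : ℝ) * v.deg) ⊆ (D.support : Set _) := by
      intro v hv
      rw [Function.mem_support] at hv
      rw [Finset.mem_coe, Finsupp.mem_support_iff]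
      intro h
      rw [h] at hv
      simp at hv
    rw [finsum_eq_sum_of_support_subset _ h1]
    unfold ddeg Finsupp.sum
    push_cast
    rfl

theorem hasDeg_ord (f : κ) : HasDeg (fun v : Place k κ => (v.ord f : ℝ)) 0 := by
  have h := hasDeg_of (D := divisor k f)
  rw [ddeg_divisor] at h
  rw [Int.cast_zero] at h
  exact h.congr fun v => by rw [divisor_apply]

variable (k) in
/-- the degree of the divisor of the poles -/
noncomputable def pdeg (f : κ) : ℤ := ddeg (polar (k := k) f)

theorem hasDeg_ht (f : κ) : HasDeg (fun v : Place k κ => ((max 0 (- v.ord f) : ℤ) : ℝ)) (pdeg k f) :=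
  hasDeg_of.congr fun v => by rw [polar_apply, max_comm]

theorem pdeg_nonneg (f : κ) : 0 ≤ pdeg k f := ddeg_nonneg (polar_nonneg f)

theorem pdeg_pos {f : κ} (hf : Transcendental k f) : 0 < pdeg k f := by
  unfold pdeg
  rw [ddeg_polar hf]
  have : FiniteDimensional (IntermediateField.adjoin k {f}) κ := IsFF.finite hf
  exact_mod_cast Module.finrank_pos

end deg

end Pool.Agent.Q73.LT
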