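import Pool.Agent.Q73.LT.Neg

/-!
Places which are trivial on subfields, and a criterion for prime divisors.
-/

set_option autoImplicit false

open FF Pool.Agent.Y172 Pool.Agent.W602.GT

namespace Pool.Agent.Q73.LT

variable {K : Type} [Field K] [Algebra ℂ K]

/-- the place `P` is trivial on `S` -/
def Triv (P : Place ℂ K) (S : Set K) : Prop := ∀ f ∈ S, f ≠ 0 → P.ord f = 0

/-- a place which is trivial on a subfield, as a place over this field -/
noncomputable def plOn (P : Place ℂ K) (F : IntermediateField ℂ K) (h : Triv P F) : Place F K where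
  ord := P.ord
  ord_zero := P.ord_zero
  ord_mul := P.ord_mul
  ord_add := P.ord_add
  ord_const := fun {c} hc => h c c.2 fun h0 => hc (Subtype.ext h0)
  surj := P.surj

theorem triv_alg {P : Place ℂ K} {F : IntermediateField ℂ K} (h : Triv P F) {x : K}
    (hx : IsAlgebraic F x) (hx0 : x ≠ 0) : P.ord x = 0 :=
  (plOn P F h).ord_eq_zero_of_isAlgebraic hx0 hx

theorem Triv.not_alg {P : Place ℂ K} {F : IntermediateField ℂ K} (h : Triv P F) :
    ¬ Algebra.IsAlgebraic F K := by
  intro hF
  obtain ⟨t, ht0, ht⟩ := P.surj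
  have := triv_alg h (hF.isAlgebraic t) ht0
  omega

theorem triv_adjoin {P : Place ℂ K} {S : Set K} (h : Triv P (Algebra.adjoin ℂ S)) :
    Triv P (IntermediateField.adjoin ℂ S) := by
  intro f hf hf0
  obtain ⟨a, ha, b, hb, rfl⟩ := IntermediateField.mem_adjoin_iff_div.1 hf
  have ha0 : a ≠ 0 := fun h0 => hf0 (by rw [h0, zero_div])
  have hb0 : b ≠ 0 := fun h0 => hf0 (by rw [h0, div_zero])
  rw [P.ord_div ha0 hb0, h a ha ha0, h b hb hb0, sub_zero]

theorem triv_mono {P : Place ℂ K} {S T : Set K} (h : Triv P T) (hST : S ⊆ T) : Triv P S :=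
  fun f hf hf0 => h f (hST hf) hf0

/-- the algebraic closure of a subfield -/
noncomputable def acl (F : IntermediateField ℂ K) : IntermediateField ℂ K :=
  (algebraicClosure F K).restrictScalars ℂ

theorem mem_acl {F : IntermediateField ℂ K} {x : K} : x ∈ acl F ↔ IsAlgebraic F x := by
  unfold acl
  rw [IntermediateField.mem_restrictScalars, mem_algebraicClosure_iff]

theorem le_acl (F : IntermediateField ℂ K) : F ≤ acl F := by
  intro x hx
  rw [mem_acl]
  exact isAlgebraic_algebraMap (A := K) (⟨x, hx⟩ : F)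

theorem Triv.acl {P : Place ℂ K} {F : IntermediateField ℂ K} (h : Triv P F) :
    Triv P (Pool.Agent.Q73.LT.acl F) :=
  fun _ hf hf0 => triv_alg h (mem_acl.1 hf) hf0

/-- the order of a polynomial with coefficients on which the place is trivial -/
theorem ord_poly {P : Place ℂ K} {A : Subalgebra ℂ K} (hA : Triv P A) {x : K} (hx : 0 < P.ord x)
    {p : Polynomial A} (hp : p.coeff 0 ≠ 0) :
    Polynomial.aeval x p ≠ 0 ∧ P.ord (Polynomial.aeval x p) = 0 := by
  have hx0 : x ≠ 0 := by
    rintro rfl
    rw [P.ord_zero] at hx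
    exact lt_irrefl _ hx
  have hAr : ∀ a : A, P.Reg (a : K) := by
    intro a
    by_cases ha : (a : K) = 0
    · exact Or.inl ha
    · exact Or.inr (hA a a.2 ha).ge
  have h1 : Polynomial.aeval x p = (p.coeff 0 : K) + x * Polynomial.aeval x p.divX := by
    conv_lhs => rw [← Polynomial.divX_mul_X_add p]
    rw [map_add, map_mul, Polynomial.aeval_X, Polynomial.aeval_C, add_comm, mul_comm]
    rfl
  have h2 : P.Reg (Polynomial.aeval x p.divX) := by
    rw [Polynomial.aeval_eq_sum_range]
    have h3 : ∀ s : Finset ℕ, P.Reg (∑ i ∈ s, p.divX.coeff i • x ^ i) := by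
      intro s
      classical
      induction s using Finset.induction_on with
      | empty => rw [Finset.sum_empty]; exact P.reg_zero
      | insert a s ha ih =>
        rw [Finset.sum_insert ha]
        refine P.reg_add (P.reg_mul (hAr _) ?_) ih
        right
        rw [P.ord_pow]
        positivity
    exact h3 _
  have hc0 : ((p.coeff 0 : A) : K) ≠ 0 := fun h => hp (Subtype.ext h)
  have hc : P.ord ((p.coeff 0 : A) : K) = 0 := hA _ (p.coeff 0).2 hc0
  rw [h1]
  by_cases h3 : Polynomial.aeval x p.divX = 0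
  · rw [h3, mul_zero, add_zero]
    exact ⟨hc0, hc⟩
  · have h4 := (P.reg_iff h3).1 h2
    have h5 := P.ord_add_eq (f := (p.coeff 0 : K)) (g := x * Polynomial.aeval x p.divX) hc0
      (mul_ne_zero hx0 h3) (by rw [P.ord_mul hx0 h3, hc]; omega)
    exact ⟨h5.1, by rw [h5.2, hc]⟩

/-- algebraically independent residues -/
def Res {r : ℕ} (P : Place ℂ K) (t : Fin r → K) : Prop :=
  ∀ F : MvPolynomial (Fin r) ℂ, F ≠ 0 →
    MvPolynomial.aeval t F ≠ 0 ∧ P.ord (MvPolynomial.aeval t F) = 0

theorem Res.ind {r : ℕ} {P : Place ℂ K} {t : Fin r → K} (h : Res P t) :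
    AlgebraicIndependent ℂ t := by
  rw [algebraicIndependent_iff]
  intro F hF
  by_contra hcon
  exact (h F hcon).1 hF

theorem Res.triv {r : ℕ} {P : Place ℂ K} {t : Fin r → K} (h : Res P t) :
    Triv P (Algebra.adjoin ℂ (Set.range t)) := by
  intro f hf hf0
  rw [SetLike.mem_coe, Algebra.adjoin_range_eq_range_aeval] at hf
  obtain ⟨F, hF⟩ := hf
  have hF' : MvPolynomial.aeval t F = f := hF
  have hF0 : F ≠ 0 := by
    rintro rfl
    rw [map_zero] at hF'
    exact hf0 hF'.symm
  rw [← hF']
  exact (h F hF0).2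

theorem res_of_triv {r : ℕ} {P : Place ℂ K} {t : Fin r → K} (ht : AlgebraicIndependent ℂ t)
    (h : Triv P (Algebra.adjoin ℂ (Set.range t))) : Res P t := by
  intro F hF
  have h1 : MvPolynomial.aeval t F ≠ 0 := fun h0 => hF ((algebraicIndependent_iff.1 ht) F h0)
  refine ⟨h1, h _ ?_ h1⟩
  rw [SetLike.mem_coe, Algebra.adjoin_range_eq_range_aeval]
  exact ⟨F, rfl⟩

/-- an element which is transcendental over the field generated by `n - 1` independent elements
completes them to a transcendence basis -/
theorem alg_of_option {n : ℕ} (hn : Algebra.trdeg ℂ K = n) {t : Fin (n - 1) → K} {s : K}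
    (h0 : 0 < n) (ht : AlgebraicIndependent ℂ (fun o : Option (Fin (n - 1)) => o.elim s t)) :
    Algebra.IsAlgebraic (IntermediateField.adjoin ℂ (insert s (Set.range t))) K := by
  have h1 : IsTranscendenceBasis ℂ (fun o : Option (Fin (n - 1)) => o.elim s t) := by
    refine ht.isTranscendenceBasis_of_trdeg_le_of_finite ?_
    rw [hn, Cardinal.mk_fintype, Fintype.card_option, Fintype.card_fin]
    have : n - 1 + 1 = n := by omega
    rw [this]
  have h2 := h1.isAlgebraic_field
  have h3 : Set.range (fun o : Option (Fin (n - 1)) => o.elim s t) = insert s (Set.range t) := by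
    ext x
    constructor
    · rintro ⟨o, rfl⟩
      cases o with
      | none => exact Set.mem_insert _ _
      | some i => exact Set.mem_insert_of_mem _ ⟨i, rfl⟩
    · rintro (rfl | ⟨i, rfl⟩)
      · exact ⟨none, rfl⟩
      · exact ⟨some i, rfl⟩
  rw [h3] at h2
  exact h2

variable {y : Sys K}

/-- **A criterion for prime divisors**: the residues of the functions in the local ring have
transcendence degree `n - 1`. -/
theorem prime_of_res (hy : Model y) {n : ℕ} (h0 : 0 < n) (hn : Algebra.trdeg ℂ K = n)
    {P : Place ℂ K} {t : Fin (n - 1) → K} (ht : Res P t) (htl : ∀ i, t i ∈ localRing y P) :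
    IsPrimeDivisor y P := by
  -- a prime divisor through the centre
  obtain ⟨Q, hQ, hQP⟩ : ∃ Q, IsPrimeDivisor y Q ∧ Through y Q P := by
    by_contra hcon
    push Not at hcon
    obtain ⟨π, hπ0, hπ⟩ := P.surj
    have h1 : π⁻¹ ∈ localRing y P := mem_localRing_of_reg hy fun Q hQ hQP => absurd hQP (hcon Q hQ)
    have h2 := (P.reg_iff (inv_ne_zero hπ0)).1 (localRing_reg h1)
    rw [P.ord_inv, hπ] at h2
    omega
  let A := Algebra.adjoin ℂ (Set.range t)
  have hAl : A ≤ locAlg y P := Algebra.adjoin_le (by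
    rintro _ ⟨i, rfl⟩
    exact htl i)
  have hAP : Triv P A := ht.triv
  have hunit : ∀ x ∈ localRing y P, x ≠ 0 → P.ord x = 0 → Q.ord x = 0 := by
    intro x hx hx0 hxo
    have h1 := (Q.reg_iff hx0).1 (hQP x hx)
    have h2 := (Q.reg_iff (inv_ne_zero hx0)).1 (hQP _ (localRing_inv hx hx0 hxo))
    rw [Q.ord_inv] at h2
    omega
  -- elements of the centre of `P`
  have hpos : ∀ s ∈ localRing y P, s ≠ 0 → 0 < P.ord s → 0 < Q.ord s := by
    intro s hs hs0 hso
    by_contra hcon
    have hsQ : Q.ord s = 0 := by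
      have h1 := (Q.reg_iff hs0).1 (hQP s hs)
      omega
    have h1 : ∀ p : Polynomial A, p ≠ 0 → Polynomial.aeval s p ≠ 0 ∧
        Q.ord (Polynomial.aeval s p) = 0 := by
      intro p hp
      obtain ⟨q, hq, hq0⟩ := Polynomial.exists_eq_pow_rootMultiplicity_mul_and_not_dvd p hp 0
      rw [map_zero, sub_zero] at hq hq0
      rw [Polynomial.X_dvd_iff] at hq0
      have h2 := ord_poly hAP hso hq0
      have h3 : Polynomial.aeval s q ∈ localRing y P := by
        have h4 : Polynomial.aeval s q ∈ locAlg y P := by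
          rw [Polynomial.aeval_eq_sum_range]
          refine Subalgebra.sum_mem _ fun i _ => ?_
          exact (locAlg y P).mul_mem (hAl (q.coeff i).2) ((locAlg y P).pow_mem hs _)
        exact h4
      have h4 := hunit _ h3 h2.1 h2.2
      rw [hq, map_mul, map_pow, Polynomial.aeval_X]
      refine ⟨mul_ne_zero (pow_ne_zero _ hs0) h2.1, ?_⟩
      rw [Q.ord_mul (pow_ne_zero _ hs0) h2.1, Q.ord_pow, hsQ, h4]
      ring
    have h2 : Transcendental A s := by
      rw [transcendental_iff]
      intro p hp
      by_contra hp0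
      exact (h1 p hp0).1 hp
    have h3 : AlgebraicIndependent ℂ (fun o : Option (Fin (n - 1)) => o.elim s t) :=
      (ht.ind.option_iff_transcendental s).2 h2
    have h4 := alg_of_option hn h0 h3
    have h5 : Triv Q (Algebra.adjoin ℂ (insert s (Set.range t))) := by
      intro f hf hf0
      have h6 : ∃ p : Polynomial A, Polynomial.aeval s p = f := by
        have h7 : Algebra.adjoin ℂ (insert s (Set.range t)) ≤
            ((Polynomial.aeval (R := A) s).range.restrictScalars ℂ : Subalgebra ℂ K) := by
          apply Algebra.adjoin_le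
          rintro x (rfl | ⟨i, rfl⟩)
          · exact ⟨Polynomial.X, Polynomial.aeval_X _⟩
          · exact ⟨Polynomial.C ⟨t i, Algebra.subset_adjoin ⟨i, rfl⟩⟩, by
              change Polynomial.aeval s (Polynomial.C _) = _
              rw [Polynomial.aeval_C]
              rfl⟩
        exact h7 hf
      obtain ⟨p, rfl⟩ := h6
      have hp : p ≠ 0 := by
        rintro rfl
        rw [map_zero] at hf0
        exact hf0 rfl
      exact (h1 p hp).2
    exact (triv_adjoin h5).not_alg h4
  -- the two places are equal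
  have hQPe : Q = P := by
    apply Place.eq_of_le
    intro g hg0 hgo
    obtain ⟨f, hf⟩ := exists_top y P
    have hf' := hQP.top hf
    obtain ⟨a, ha, b, hb, hb0, hbo, hab⟩ := (mem_localRing hf').1 (hQ g (Or.inr hgo))
    have h1 := (P.reg_iff hb0).1 (hf.reg b hb)
    have h2 : P.ord b = 0 := by
      by_contra h3
      have h4 := hpos b (nchart_localRing hf hb) hb0 (by omega)
      omega
    exact (P.reg_iff hg0).1 (localRing_reg ((mem_localRing hf).2 ⟨a, ha, b, hb, hb0, h2, hab⟩))
  rw [← hQPe]
  exact hQ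

end Pool.Agent.Q73.LT
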