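import Pool.Agent.Q73.LT.Car
import Pool.Agent.Q73.LT.Deg

/-!
The example: the divisors.
-/

set_option autoImplicit false

open FF Real

open scoped goldenRatio

namespace Pool.Agent.Q73.LT

/-- the function field of the example: `K` is generated by `z` over `κ` -/
structure Exa (κ K : Type) [Field κ] [Algebra ℂ κ] [Field K] [Algebra ℂ K] [Algebra κ K]
    extends Crv κ where
  z : K
  z_ne : z ≠ 0

theorem L_pen' {K : Type} [Field K] [Algebra ℂ K] {f : K} (hf : f ≠ 0) (P : Place ℂ K) :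
    (pen f hf).L P = ht P f := L_pen hf P

namespace Exa

variable {κ K : Type} [Field κ] [Algebra ℂ κ] [Field K] [Algebra ℂ K] [Algebra κ K]

variable (E : Exa κ K)

theorem y1_ne : E.y1 ≠ 0 := fun h => E.nd E.y2 (by rw [h]; exact zero_mem _) (Crv.self_mem _)

theorem y2_ne : E.y2 ≠ 0 := fun h => E.nd E.y1 (Crv.self_mem _) (by rw [h]; exact zero_mem _)

theorem map_ne {f : κ} (hf : f ≠ 0) : algebraMap κ K f ≠ 0 := by
  rw [Ne, map_eq_zero]
  exact hf

/-- the linear system of `y1` -/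
noncomputable def T1 : Sys K := pen (algebraMap κ K E.y1) (map_ne E.y1_ne)

/-- the linear system of `y2` -/
noncomputable def T2 : Sys K := pen (algebraMap κ K E.y2) (map_ne E.y2_ne)

/-- the linear system of `z` -/
noncomputable def T3 : Sys K := pen E.z E.z_ne

/-- the linear system of `1/z` -/
noncomputable def Tz : Sys K := pen E.z⁻¹ (inv_ne_zero E.z_ne)

/-- the linear system of the blow-up -/
noncomputable def W : Sys K := (E.T1.mul E.T2).un ((E.T1.mul E.Tz).un (E.T2.mul E.Tz))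

/-- the coordinates of the variety -/
noncomputable def Y : Sys K := ((E.T1.mul E.T2).mul E.T3).mul E.W

/-- the linear system of the `n`-th abscissa -/
noncomputable def TC (n : ℕ) : Sys K := pen (algebraMap κ K (E.C n)) (map_ne (E.C_ne n))

/-- the height of `y1` -/
def l1 (P : Place ℂ K) : ℤ := ht P (algebraMap κ K E.y1)

/-- the height of `y2` -/
def l2 (P : Place ℂ K) : ℤ := ht P (algebraMap κ K E.y2)

/-- the height of `1/z` -/
def lz (P : Place ℂ K) : ℤ := ht P E.z⁻¹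

/-- the height of `z` -/
def l3 (P : Place ℂ K) : ℤ := ht P E.z

/-- the heights of the abscissas -/
noncomputable def H (n : ℕ) (P : Place ℂ K) : ℤ := ht P (algebraMap κ K (E.C n))

theorem L_T1 (P : Place ℂ K) : E.T1.L P = E.l1 P := L_pen' _ P

theorem L_T2 (P : Place ℂ K) : E.T2.L P = E.l2 P := L_pen' _ P

theorem L_T3 (P : Place ℂ K) : E.T3.L P = E.l3 P := L_pen' _ P

theorem L_Tz (P : Place ℂ K) : E.Tz.L P = E.lz P := L_pen' _ P

theorem L_TC (n : ℕ) (P : Place ℂ K) : (E.TC n).L P = E.H n P := L_pen' _ P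

theorem l1_nonneg (P : Place ℂ K) : 0 ≤ E.l1 P := ht_nonneg _ _

theorem l2_nonneg (P : Place ℂ K) : 0 ≤ E.l2 P := ht_nonneg _ _

theorem l3_nonneg (P : Place ℂ K) : 0 ≤ E.l3 P := ht_nonneg _ _

theorem lz_nonneg (P : Place ℂ K) : 0 ≤ E.lz P := ht_nonneg _ _

theorem lz_eq (P : Place ℂ K) : E.lz P = max 0 (P.ord E.z) := by
  unfold lz ht
  rw [P.ord_inv, neg_neg]

theorem H_nonneg (n : ℕ) (P : Place ℂ K) : 0 ≤ E.H n P := ht_nonneg _ _

theorem L_W (P : Place ℂ K) : E.W.L P =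
    max (E.l1 P + E.l2 P) (max (E.l1 P + E.lz P) (E.l2 P + E.lz P)) := by
  unfold W
  rw [L_un, L_un, L_mul, L_mul, L_mul, L_T1, L_T2, L_Tz]

theorem L_Y (P : Place ℂ K) : E.Y.L P = E.l1 P + E.l2 P + E.l3 P + E.W.L P := by
  unfold Y
  rw [L_mul, L_mul, L_mul, L_T1, L_T2, L_T3]

/-- the divisor `S` -/
def S0 (P : Place ℂ K) : ℤ := max 0 (E.lz P - min (E.l1 P) (E.l2 P))

theorem S0_eq (P : Place ℂ K) : E.S0 P = E.W.L P - E.l1 P - E.l2 P := by
  rw [L_W]
  unfold S0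
  have := E.l1_nonneg P
  have := E.l2_nonneg P
  have := E.lz_nonneg P
  omega

theorem S0_nonneg (P : Place ℂ K) : 0 ≤ E.S0 P := le_max_left _ _

theorem ht_sq_sub_one {F : Type} [Field F] [Algebra ℂ F] (P : Place ℂ F) {y : F} (hy : y ≠ 0) :
    ht P (y ^ 2 - 1) = 2 * ht P y := by
  unfold ht
  by_cases h0 : y ^ 2 - 1 = 0
  · have h1 : y ^ 2 = 1 := sub_eq_zero.1 h0
    have h2 : P.ord (y ^ 2) = 0 := by rw [h1, P.ord_one]
    rw [P.ord_pow] at h2
    rw [h0, P.ord_zero]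
    push_cast at h2
    omega
  rcases lt_or_ge (P.ord y) 0 with h | h
  · have h1 := P.ord_add_eq (f := y ^ 2) (g := -1) (pow_ne_zero _ hy) (neg_ne_zero.2 one_ne_zero)
      (by rw [P.ord_neg, P.ord_one, P.ord_pow]; push_cast; omega)
    rw [← sub_eq_add_neg] at h1
    rw [h1.2, P.ord_pow]
    push_cast
    omega
  · have h1 : P.Reg (y ^ 2 - 1) := by
      rw [sub_eq_add_neg]
      exact P.reg_add (Or.inr (by rw [P.ord_pow]; positivity)) (P.reg_neg P.reg_one)
    have h2 := (P.reg_iff h0).1 h1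
    omega

theorem H_one (P : Place ℂ K) : E.H 1 P = 2 * E.l1 P := by
  unfold H l1
  rw [E.C_one, map_sub, map_pow, map_one]
  exact ht_sq_sub_one P (map_ne E.y1_ne)

theorem H_two (P : Place ℂ K) : E.H 2 P = 2 * E.l2 P := by
  unfold H l2
  rw [E.C_two, map_sub, map_pow, map_one]
  exact ht_sq_sub_one P (map_ne E.y2_ne)

theorem H_law (n : ℕ) (P : Place ℂ K) : E.H (n + 3) P + E.H n P =
    2 * E.H (n + 1) P + 2 * E.H (n + 2) P + P.ord (algebraMap κ K (E.g n)) :=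
  E.toCrv.law P n

theorem H_min (n : ℕ) (P : Place ℂ K) : min (E.H (n + 1) P) (E.H (n + 2) P) =
    2 * min (E.l1 P) (E.l2 P) := by
  have h := E.toCrv.law_min P n
  have h1 := E.H_one P
  have h2 := E.H_two P
  unfold H at *
  rw [h, h1, h2]
  omega

theorem cof_T1 : Cof E.Y E.T1 :=
  ⟨(E.T2.mul E.T3).mul E.W, 1, fun P => by
    rw [L_mul, L_mul, L_Y, L_T1, L_T2, L_T3]
    push_cast
    ring⟩

theorem cof_T2 : Cof E.Y E.T2 :=
  ⟨(E.T1.mul E.T3).mul E.W, 1, fun P => by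
    rw [L_mul, L_mul, L_Y, L_T1, L_T2, L_T3]
    push_cast
    ring⟩

theorem cof_T3 : Cof E.Y E.T3 :=
  ⟨(E.T1.mul E.T2).mul E.W, 1, fun P => by
    rw [L_mul, L_mul, L_Y, L_T1, L_T2, L_T3]
    push_cast
    ring⟩

theorem cof_W : Cof E.Y E.W :=
  ⟨(E.T1.mul E.T2).mul E.T3, 1, fun P => by
    rw [L_mul, L_mul, L_Y, L_T1, L_T2, L_T3]
    push_cast
    ring⟩

theorem cof_C1 : Cof E.Y (E.TC 1) :=
  (E.cof_T1.pow 2).congr fun P => by rw [L_TC, H_one, L_pow, L_T1]; rfl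

theorem cof_C2 : Cof E.Y (E.TC 2) :=
  (E.cof_T2.pow 2).congr fun P => by rw [L_TC, H_two, L_pow, L_T2]; rfl

theorem cof_law {n : ℕ} (h1 : Cof E.Y (E.TC (n + 1))) (h2 : Cof E.Y (E.TC (n + 2))) :
    Cof E.Y (E.TC n) ∧ Cof E.Y (E.TC (n + 3)) := by
  have hw : Cof E.Y (((E.TC (n + 1)).pow 2).mul ((E.TC (n + 2)).pow 2)) := (h1.pow 2).mul (h2.pow 2)
  have hg := map_ne (K := K) (E.g_ne n)
  constructor
  · refine Cof.of_add (z' := E.TC (n + 3)) hg hw fun P => ?_
    rw [L_mul, L_pow, L_pow, L_TC, L_TC, L_TC, L_TC]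
    push_cast
    linear_combination E.H_law n P
  · refine Cof.of_add (z' := E.TC n) hg hw fun P => ?_
    rw [L_mul, L_pow, L_pow, L_TC, L_TC, L_TC, L_TC]
    push_cast
    linear_combination E.H_law n P

theorem cof_C (n : ℕ) : Cof E.Y (E.TC n) := by
  have h : ∀ n, Cof E.Y (E.TC (n + 1)) ∧ Cof E.Y (E.TC (n + 2)) := by
    intro n
    induction n with
    | zero => exact ⟨E.cof_C1, E.cof_C2⟩
    | succ n ih => exact ⟨ih.2, (E.cof_law ih.1 ih.2).2⟩
  exact (E.cof_law (h n).1 (h n).2).1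

/-- the nef eigenclass -/
noncomputable def N (P : Place ℂ K) : ℝ := ψ * E.H 1 P + E.H 2 P + φ * E.H 3 P

/-- the combinations `a H_n + H_{n+1} + b H_{n+2}` -/
noncomputable def Comb (a b c : ℝ) (n : ℕ) (P : Place ℂ K) : ℝ :=
  a * E.H n P + b * E.H (n + 1) P + c * E.H (n + 2) P

/-- the eigenclasses -/
theorem comb_succ {a b c t : ℝ} (h1 : -c = t * a) (h2 : a + 2 * c = t * b) (h3 : b + 2 * c = t * c)
    (n : ℕ) (P : Place ℂ K) :
    E.Comb a b c (n + 1) P = t * E.Comb a b c n P + c * P.ord (algebraMap κ K (E.g n)) := by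
  have h := E.H_law n P
  have h' : (E.H (n + 3) P : ℝ) + E.H n P = 2 * E.H (n + 1) P + 2 * E.H (n + 2) P +
      P.ord (algebraMap κ K (E.g n)) := by exact_mod_cast h
  have h4 : n + 1 + 1 = n + 2 := rfl
  have h5 : n + 1 + 2 = n + 3 := rfl
  unfold Comb
  rw [h4, h5]
  linear_combination c * h' + (E.H n P : ℝ) * h1 + (E.H (n + 1) P : ℝ) * h2 +
    (E.H (n + 2) P : ℝ) * h3

/-- real combinations of principal divisors -/
def Pri (D : Place ℂ K → ℝ) : Prop :=
  ∃ (m : ℕ) (r : Fin m → ℝ) (f : Fin m → κ), (∀ i, f i ≠ 0) ∧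
    ∀ P : Place ℂ K, D P = ∑ i, r i * P.ord (algebraMap κ K (f i))

theorem Pri.semiample {D : Place ℂ K → ℝ} (h : Pri (κ := κ) D) (y : Sys K) : Semiample y D := by
  obtain ⟨m, r, f, hf, hD⟩ := h
  have h1 : ∀ s : Finset (Fin m), Semiample y fun P => ∑ i ∈ s, r i * P.ord (algebraMap κ K (f i)) := by
    intro s
    induction s using Finset.induction_on with
    | empty =>
      simp only [Finset.sum_empty]
      exact semiample_zero y
    | insert a s ha ih =>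
      refine ((semiample_ord y (map_ne (hf a)) (r a)).add ih).congr fun P => ?_
      rw [Finset.sum_insert ha]
  exact (h1 Finset.univ).congr hD

theorem Pri.add_ord {D : Place ℂ K → ℝ} (h : Pri (κ := κ) D) (s t : ℝ) {g : κ} (hg : g ≠ 0) :
    Pri (κ := κ) fun P => s * D P + t * P.ord (algebraMap κ K g) := by
  obtain ⟨m, r, f, hf, hD⟩ := h
  refine ⟨m + 1, Fin.snoc (fun i => s * r i) t, Fin.snoc f g, ?_, ?_⟩
  · intro i
    refine Fin.lastCases ?_ (fun j => ?_) i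
    · rw [Fin.snoc_last]
      exact hg
    · rw [Fin.snoc_castSucc]
      exact hf j
  · intro P
    beta_reduce
    rw [Fin.sum_univ_castSucc, hD P, Finset.mul_sum]
    simp only [Fin.snoc_castSucc, Fin.snoc_last]
    congr 1
    exact Finset.sum_congr rfl fun i _ => by ring

theorem Pri.smul {D : Place ℂ K → ℝ} (h : Pri (κ := κ) D) (s : ℝ) :
    Pri (κ := κ) fun P => s * D P := by
  obtain ⟨m, r, f, hf, hD⟩ := h
  refine ⟨m, fun i => s * r i, f, hf, fun P => ?_⟩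
  beta_reduce
  rw [hD P, Finset.mul_sum]
  exact Finset.sum_congr rfl fun i _ => by ring

theorem pri_zero : Pri (κ := κ) (fun _ : Place ℂ K => (0 : ℝ)) :=
  ⟨0, fun _ => 0, fun _ => 1, fun i => i.elim0, fun P => by simp⟩

theorem comb_pow {a b c t : ℝ} (h1 : -c = t * a) (h2 : a + 2 * c = t * b) (h3 : b + 2 * c = t * c)
    (n : ℕ) : ∃ D : Place ℂ K → ℝ, Pri (κ := κ) D ∧
      ∀ P, E.Comb a b c (n + 1) P = t ^ n * E.Comb a b c 1 P + D P := by
  induction n with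
  | zero => exact ⟨_, pri_zero, fun P => by simp⟩
  | succ n ih =>
    obtain ⟨D, hD, h⟩ := ih
    refine ⟨_, hD.add_ord t c (E.g_ne (n + 1)), fun P => ?_⟩
    rw [E.comb_succ h1 h2 h3, h]
    ring

theorem N_eq (P : Place ℂ K) : E.N P = E.Comb ψ 1 φ 1 P := by
  unfold N Comb
  ring

theorem eig1 : -φ = φ ^ 2 * ψ := by
  have h1 : φ * ψ = -1 := goldenRatio_mul_goldenConj
  linear_combination (-φ) * h1

theorem eig2 : ψ + 2 * φ = φ ^ 2 * 1 := by
  have h1 := goldenRatio_add_goldenConj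
  have h2 := goldenRatio_sq
  linear_combination h1 - h2

theorem eig3 : 1 + 2 * φ = φ ^ 2 * φ := by
  have h2 := goldenRatio_sq
  linear_combination (-φ - 1) * h2

theorem eig1' : -ψ = ψ ^ 2 * φ := by
  have h1 : φ * ψ = -1 := goldenRatio_mul_goldenConj
  linear_combination (-ψ) * h1

theorem eig2' : φ + 2 * ψ = ψ ^ 2 * 1 := by
  have h1 := goldenRatio_add_goldenConj
  have h2 := goldenConj_sq
  linear_combination h1 - h2

theorem eig3' : 1 + 2 * ψ = ψ ^ 2 * ψ := by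
  have h2 := goldenConj_sq
  linear_combination (-ψ - 1) * h2

theorem sb_comb (hy : Model E.Y) (a b c : ℝ) : SB E.Y (E.Comb a b c 1) := by
  have h := (((E.cof_C 1).sb hy).smul a).add ((((E.cof_C 2).sb hy).smul b).add
    (((E.cof_C 3).sb hy).smul c))
  obtain ⟨k, hk, h⟩ := h
  refine ⟨k, hk, fun r => (h r).congr fun P => ?_⟩
  unfold Comb
  simp only [L_TC]
  ring

/-- the class `N` is nef -/
theorem N_semiample (hy : Model E.Y) {ε : ℝ} (hε : 0 < ε) :
    Semiample E.Y fun P => E.N P + ε * E.Y.L P := by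
  obtain ⟨k', hk', hN'⟩ := E.sb_comb hy φ 1 ψ
  obtain ⟨k, hk, hM⟩ := E.sb_comb hy 1 (-3) 1
  -- the coefficients
  set u : ℝ := (-1 / 5 - 3 / 5 * ψ) / √5 with hu
  set u' : ℝ := 3 / 5 - u with hu'
  have h5 : (√5 : ℝ) ^ 2 = 5 := Real.sq_sqrt (by norm_num)
  have h5p : (0 : ℝ) < √5 := by positivity
  have hφψ : φ - ψ = √5 := goldenRatio_sub_goldenConj
  have hsum := goldenRatio_add_goldenConj
  have hu5 : u * (φ - ψ) = -1 / 5 - 3 / 5 * ψ := by
    rw [hφψ, hu]
    field_simp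
  have hupos : 0 < u := by
    rw [hu]
    apply div_pos _ h5p
    have h1 : (2.2 : ℝ) < √5 := by
      rw [Real.lt_sqrt (by norm_num)]
      norm_num
    have h2 : ψ = (1 - √5) / 2 := rfl
    rw [h2]
    linarith
  obtain ⟨B, hB⟩ : ∃ B : ℝ, B = |u'| * k' + 1 / 5 * k := ⟨_, rfl⟩
  have hB0 : 0 ≤ B := by
    rw [hB]
    positivity
  -- a large power
  obtain ⟨n, hn⟩ : ∃ n : ℕ, B < (φ ^ 2) ^ n * (u * ε) := by
    have h1 : (1 : ℝ) < φ ^ 2 := by
      have := one_lt_goldenRatio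
      nlinarith
    obtain ⟨n, hn⟩ := pow_unbounded_of_one_lt (B / (u * ε)) h1
    refine ⟨n, ?_⟩
    rwa [div_lt_iff₀ (mul_pos hupos hε)] at hn
  obtain ⟨D1, hD1, e1⟩ := E.comb_pow eig1 eig2 eig3 n
  obtain ⟨D2, hD2, e2⟩ := E.comb_pow eig1' eig2' eig3' n
  obtain ⟨D3, hD3, e3⟩ := E.comb_pow (a := 1) (b := -3) (c := 1) (t := -1) (by norm_num)
    (by norm_num) (by norm_num) n
  have hφn : (0 : ℝ) < (φ ^ 2) ^ n := by
    have := goldenRatio_pos
    positivity
  set A : ℝ := ((φ ^ 2) ^ n * u)⁻¹ with hA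
  have hApos : 0 < A := inv_pos.2 (mul_pos hφn hupos)
  have hAe : A * ((φ ^ 2) ^ n * u) = 1 := inv_mul_cancel₀ (mul_pos hφn hupos).ne'
  have key : ∀ P : Place ℂ K, (E.H (n + 1) P : ℝ) = u * ((φ ^ 2) ^ n * E.N P + D1 P) +
      u' * ((ψ ^ 2) ^ n * E.Comb φ 1 ψ 1 P + D2 P) +
        1 / 5 * ((-1) ^ n * E.Comb 1 (-3) 1 1 P + D3 P) := by
    intro P
    rw [N_eq, ← e1, ← e2, ← e3]
    unfold Comb
    linear_combination ((E.H (n + 1 + 2) P : ℝ) - E.H (n + 1) P) * (-hu5)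
  have s1 := ((E.cof_C (n + 1)).bpf hy).semiample.smul hApos.le
  have hψ1 : (ψ ^ 2) ^ n ≤ 1 := by
    apply pow_le_one₀ (by positivity)
    have h1 := goldenConj_neg
    have h2 := neg_one_lt_goldenConj
    nlinarith
  have hψ0 : 0 ≤ (ψ ^ 2) ^ n := by positivity
  have s2 := SB.small hN' (a := -(A * u' * (ψ ^ 2) ^ n)) (ε := A * |u'| * k') (by
    rw [abs_neg, abs_mul, abs_mul, abs_of_pos hApos, abs_of_nonneg hψ0]
    have h1 : A * |u'| * (ψ ^ 2) ^ n ≤ A * |u'| * 1 :=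
      mul_le_mul_of_nonneg_left hψ1 (by positivity)
    rw [mul_one] at h1
    exact mul_le_mul_of_nonneg_right h1 hk')
  have s3 := SB.small hM (a := -(A * (1 / 5) * (-1) ^ n)) (ε := A * (1 / 5) * k) (by
    rw [abs_neg, abs_mul, abs_mul, abs_of_pos hApos, abs_pow, abs_neg, abs_one, one_pow, mul_one,
      abs_of_pos (by norm_num : (0 : ℝ) < 1 / 5)])
  have hAB : A * B ≤ ε := by
    have h1 : A * B ≤ A * ((φ ^ 2) ^ n * (u * ε)) := mul_le_mul_of_nonneg_left hn.le hApos.le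
    have h2 : A * ((φ ^ 2) ^ n * (u * ε)) = (A * ((φ ^ 2) ^ n * u)) * ε := by ring
    rw [h2, hAe, one_mul] at h1
    exact h1
  have s4 := (bpf_self E.Y).semiample.smul (sub_nonneg.2 hAB)
  have s5 := (hD1.smul (-(A * u))).semiample E.Y
  have s6 := (hD2.smul (-(A * u'))).semiample E.Y
  have s7 := (hD3.smul (-(A * (1 / 5)))).semiample E.Y
  refine ((((((s1.add s2).add s3).add s4).add s5).add s6).add s7).congr fun P => ?_
  have h1 := key P
  have h2 : E.N P = A * ((φ ^ 2) ^ n * u) * E.N P := by rw [hAe, one_mul]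
  rw [L_TC, h2, hB]
  linear_combination A * (-h1)

end Exa

end Pool.Agent.Q73.LT
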