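import Pool.Agent.Q73.LT.Fin

/-!
The fields of the example.
-/

set_option autoImplicit false

open FF Polynomial

namespace Pool.Agent.Q73.LT

section cubic

variable {M : Type} [Field M] [Algebra ℂ M] (u : M)

/-- the polynomial of the cube root -/
noncomputable def pu : M[X] := X ^ 3 - C u

theorem pu_monic : (pu u).Monic := monic_X_pow_sub_C u (by norm_num)

theorem pu_deg : (pu u).natDegree = 3 := natDegree_X_pow_sub_C

theorem root_pow : (AdjoinRoot.root (pu u)) ^ 3 = algebraMap M (AdjoinRoot (pu u)) u := by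
  have h := AdjoinRoot.eval₂_root (pu u)
  unfold pu at h ⊢
  rw [eval₂_sub, eval₂_pow, eval₂_X, eval₂_C, sub_eq_zero] at h
  exact h

variable [hirr : Fact (Irreducible (pu u))]

/-- the automorphism of the cube root -/
noncomputable def rt (w : ℂ) (hw : w ^ 3 = 1) : AdjoinRoot (pu u) →ₐ[M] AdjoinRoot (pu u) :=
  AdjoinRoot.liftAlgHom (pu u) (Algebra.ofId M (AdjoinRoot (pu u)))
    (algebraMap ℂ (AdjoinRoot (pu u)) w * AdjoinRoot.root (pu u)) (by
      have h1 : (algebraMap ℂ (AdjoinRoot (pu u)) w * AdjoinRoot.root (pu u)) ^ 3 =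
          algebraMap M (AdjoinRoot (pu u)) u := by
        rw [mul_pow, root_pow, ← map_pow, hw, map_one, one_mul]
      have h2 : eval₂ ((Algebra.ofId M (AdjoinRoot (pu u)) : M →ₐ[M] AdjoinRoot (pu u)) :
          M →+* AdjoinRoot (pu u))
          (algebraMap ℂ (AdjoinRoot (pu u)) w * AdjoinRoot.root (pu u)) (X ^ 3 - C u) =
          (algebraMap ℂ (AdjoinRoot (pu u)) w * AdjoinRoot.root (pu u)) ^ 3 -
            algebraMap M (AdjoinRoot (pu u)) u := by
        rw [eval₂_sub, eval₂_pow, eval₂_X, eval₂_C]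
        rfl
      unfold pu at h1 h2 ⊢
      rw [h2, h1, sub_self])

theorem rt_root (w : ℂ) (hw : w ^ 3 = 1) : rt u w hw (AdjoinRoot.root (pu u)) =
    algebraMap ℂ (AdjoinRoot (pu u)) w * AdjoinRoot.root (pu u) :=
  AdjoinRoot.liftAlgHom_root _ _ _ _

theorem rt_comp (w w' : ℂ) (hw : w ^ 3 = 1) (hw' : w' ^ 3 = 1) (h1 : w * w' = 1) :
    (rt u w hw).comp (rt u w' hw') = AlgHom.id M _ := by
  apply AdjoinRoot.algHom_ext
  rw [AlgHom.comp_apply, rt_root, map_mul, rt_root]
  have h2 : rt u w hw (algebraMap ℂ (AdjoinRoot (pu u)) w') = algebraMap ℂ (AdjoinRoot (pu u)) w' := by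
    rw [IsScalarTower.algebraMap_apply ℂ M (AdjoinRoot (pu u)), AlgHom.commutes]
  rw [h2, ← mul_assoc, ← map_mul, mul_comm w', h1, map_one, one_mul]
  rfl

/-- the automorphism -/
noncomputable def rs (w : ℂ) (hw : w ^ 3 = 1) : AdjoinRoot (pu u) ≃ₐ[M] AdjoinRoot (pu u) :=
  AlgEquiv.ofAlgHom (rt u w hw) (rt u (w ^ 2) (by rw [← pow_mul, mul_comm, pow_mul, hw, one_pow]))
    (rt_comp u _ _ _ _ (by rw [← pow_succ', hw])) (rt_comp u _ _ _ _ (by rw [← pow_succ, hw]))

theorem rs_root (w : ℂ) (hw : w ^ 3 = 1) : rs u w hw (AdjoinRoot.root (pu u)) =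
    algebraMap ℂ (AdjoinRoot (pu u)) w * AdjoinRoot.root (pu u) := rt_root u w hw

theorem exists_coord (f : AdjoinRoot (pu u)) : ∃ a0 a1 a2 : M,
    f = algebraMap M _ a0 + algebraMap M _ a1 * AdjoinRoot.root (pu u) +
      algebraMap M _ a2 * AdjoinRoot.root (pu u) ^ 2 := by
  obtain ⟨g, rfl⟩ := AdjoinRoot.mk_surjective f
  have h1 : AdjoinRoot.mk (pu u) g = AdjoinRoot.mk (pu u) (g %ₘ pu u) := by
    rw [AdjoinRoot.mk_eq_mk]
    refine ⟨g /ₘ pu u, ?_⟩
    have := modByMonic_add_div g (pu u)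
    linear_combination -this
  have h2 : (g %ₘ pu u).natDegree < 3 := by
    have := natDegree_modByMonic_lt g (pu_monic u) (by
      intro h
      have := pu_deg u
      rw [h, natDegree_one] at this
      omega)
    rwa [pu_deg] at this
  refine ⟨(g %ₘ pu u).coeff 0, (g %ₘ pu u).coeff 1, (g %ₘ pu u).coeff 2, ?_⟩
  rw [h1]
  conv_lhs => rw [as_sum_range' (g %ₘ pu u) 3 h2]
  rw [map_sum, Finset.sum_range_succ, Finset.sum_range_succ, Finset.sum_range_one]
  simp only [← C_mul_X_pow_eq_monomial, map_mul, map_pow, AdjoinRoot.mk_X, AdjoinRoot.mk_C]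
  rw [pow_zero, mul_one, pow_one]
  rfl

theorem coord_zero {a0 a1 a2 : M} (h : algebraMap M (AdjoinRoot (pu u)) a0 +
    algebraMap M _ a1 * AdjoinRoot.root (pu u) +
      algebraMap M _ a2 * AdjoinRoot.root (pu u) ^ 2 = 0) : a0 = 0 ∧ a1 = 0 ∧ a2 = 0 := by
  have h1 : AdjoinRoot.mk (pu u) (C a0 + C a1 * X + C a2 * X ^ 2) = 0 := by
    rw [map_add, map_add, map_mul, map_mul, map_pow, AdjoinRoot.mk_X, AdjoinRoot.mk_C,
      AdjoinRoot.mk_C, AdjoinRoot.mk_C]
    exact h
  rw [AdjoinRoot.mk_eq_zero] at h1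
  have h2 : C a0 + C a1 * X + C a2 * X ^ 2 = (0 : M[X]) := by
    by_contra h0
    have h3 := natDegree_le_of_dvd h1 h0
    rw [pu_deg] at h3
    have h4 : (C a0 + C a1 * X + C a2 * X ^ 2 : M[X]).natDegree ≤ 2 := by
      have : (C a0 + C a1 * X + C a2 * X ^ 2 : M[X]) = C a2 * X ^ 2 + C a1 * X + C a0 := by ring
      rw [this]
      exact natDegree_quadratic_le
    omega
  refine ⟨?_, ?_, ?_⟩
  · have := congrArg (fun q : M[X] => q.coeff 0) h2
    simpa using this
  · have := congrArg (fun q : M[X] => q.coeff 1) h2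
    simpa [coeff_X, coeff_C] using this
  · have := congrArg (fun q : M[X] => q.coeff 2) h2
    simpa [coeff_X, coeff_C] using this

theorem rs_fix {w : ℂ} (hw : w ^ 3 = 1) (hw1 : w ≠ 1) (f : AdjoinRoot (pu u)) :
    rs u w hw f = f ↔ f ∈ Set.range (algebraMap M (AdjoinRoot (pu u))) := by
  constructor
  · intro h
    obtain ⟨a0, a1, a2, hf⟩ := exists_coord u f
    have h1 : rs u w hw f = algebraMap M _ a0 + algebraMap M _ a1 *
        (algebraMap ℂ (AdjoinRoot (pu u)) w * AdjoinRoot.root (pu u)) +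
        algebraMap M _ a2 * (algebraMap ℂ (AdjoinRoot (pu u)) w * AdjoinRoot.root (pu u)) ^ 2 := by
      rw [hf, map_add, map_add, map_mul, map_mul, map_pow, rs_root, AlgEquiv.commutes,
        AlgEquiv.commutes, AlgEquiv.commutes]
    rw [h1] at h
    have h2 : algebraMap M (AdjoinRoot (pu u)) 0 +
        algebraMap M _ (a1 * algebraMap ℂ M (w - 1)) * AdjoinRoot.root (pu u) +
        algebraMap M _ (a2 * algebraMap ℂ M (w ^ 2 - 1)) * AdjoinRoot.root (pu u) ^ 2 = 0 := by
      rw [map_zero, map_mul, map_mul, ← IsScalarTower.algebraMap_apply ℂ M (AdjoinRoot (pu u)),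
        ← IsScalarTower.algebraMap_apply ℂ M (AdjoinRoot (pu u)), map_sub, map_sub, map_one,
        map_pow]
      rw [hf] at h
      linear_combination h
    obtain ⟨-, h3, h4⟩ := coord_zero u h2
    have hw2 : w ^ 2 - 1 ≠ 0 := by
      intro h5
      apply hw1
      have h6 : w * w ^ 2 = 1 := by rw [← pow_succ', hw]
      rw [sub_eq_zero.1 h5, mul_one] at h6
      exact h6
    have h5 : a1 = 0 := (mul_eq_zero.1 h3).resolve_right (by
      rw [map_eq_zero]
      exact sub_ne_zero.2 hw1)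
    have h6 : a2 = 0 := (mul_eq_zero.1 h4).resolve_right (by
      rw [map_eq_zero]
      exact hw2)
    refine ⟨a0, ?_⟩
    rw [hf, h5, h6]
    simp
  · rintro ⟨a, rfl⟩
    exact AlgEquiv.commutes _ _

theorem root_ne (hu : u ≠ 0) : AdjoinRoot.root (pu u) ≠ 0 := by
  intro h
  have h1 := root_pow u
  rw [h, zero_pow (by norm_num), eq_comm, map_eq_zero] at h1
  exact hu h1

/-- the cyclic cubic extension -/
noncomputable def cubOf (hu : u ≠ 0) {w : ℂ} (hw : w ^ 3 = 1) (hw1 : w ≠ 1) :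
    Cub M (AdjoinRoot (pu u)) where
  s := (rs u w hw).restrictScalars ℂ
  s3 := by
    intro f
    have h1 : ((rs u w hw : AdjoinRoot (pu u) →ₐ[M] AdjoinRoot (pu u)).comp
        ((rs u w hw : AdjoinRoot (pu u) →ₐ[M] AdjoinRoot (pu u)).comp
          (rs u w hw : AdjoinRoot (pu u) →ₐ[M] AdjoinRoot (pu u)))) = AlgHom.id M _ := by
      apply AdjoinRoot.algHom_ext
      have h2 : rs u w hw (algebraMap ℂ (AdjoinRoot (pu u)) w) =
          algebraMap ℂ (AdjoinRoot (pu u)) w := by
        rw [IsScalarTower.algebraMap_apply ℂ M (AdjoinRoot (pu u)), AlgEquiv.commutes]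
      change rs u w hw (rs u w hw (rs u w hw (AdjoinRoot.root (pu u)))) = AdjoinRoot.root (pu u)
      rw [rs_root, map_mul, h2, rs_root, map_mul, map_mul, h2, rs_root, ← mul_assoc, ← mul_assoc,
        ← map_mul, ← map_mul]
      have h3 : w * w * w = 1 := by rw [← hw]; ring
      rw [h3, map_one, one_mul]
    exact DFunLike.congr_fun h1 f
  fix := fun f => rs_fix u hw hw1 f
  ne := by
    refine ⟨AdjoinRoot.root (pu u), fun h => ?_⟩
    have h1 : algebraMap ℂ (AdjoinRoot (pu u)) w * AdjoinRoot.root (pu u) =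
        AdjoinRoot.root (pu u) := by
      rw [← rs_root]
      exact h
    have h2 : algebraMap ℂ (AdjoinRoot (pu u)) (w - 1) * AdjoinRoot.root (pu u) = 0 := by
      rw [map_sub, map_one]
      linear_combination h1
    rcases mul_eq_zero.1 h2 with h3 | h3
    · rw [map_eq_zero] at h3
      exact hw1 (sub_eq_zero.1 h3)
    · exact root_ne u hu h3
  θ := AdjoinRoot.root (pu u)
  θ_ne := root_ne u hu
  ω := w
  ω_ne := hw1
  sθ := rs_root u w hw

end cubic

section gen

theorem gen1_of {κ K : Type} [Field κ] [Field K] [Algebra κ K] {z : K} (hz : Transcendental κ z)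
    (htop : IntermediateField.adjoin κ {z} = ⊤) : Gen1 κ z where
  tr := hz
  gen := by
    intro x
    have hx : x ∈ IntermediateField.adjoin κ {z} := by rw [htop]; trivial
    obtain ⟨p, q, hpq⟩ := (IntermediateField.mem_adjoin_simple_iff κ x).1 hx
    by_cases hq : q = 0
    · refine ⟨0, 1, one_ne_zero, ?_⟩
      rw [hpq, hq, map_zero, div_zero, zero_div]
    · exact ⟨p, q, hq, hpq⟩

theorem ind_of_three {L : Type} [Field L] [Algebra ℂ L] {a b c : L}
    (h : AlgebraicIndependent ℂ ![a, b, c]) : AlgebraicIndependent ℂ ![a, b] := by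
  have h1 := h.comp ![0, 1] (by decide)
  have h2 : ![a, b, c] ∘ ![0, 1] = ![a, b] := by
    funext i
    fin_cases i <;> rfl
  rwa [h2] at h1

theorem perm_bas {L : Type} [Field L] [Algebra ℂ L] {a b c : L}
    (h : AlgebraicIndependent ℂ ![a, b, c]) (σ : Fin 3 → Fin 3) (hσ : Function.Injective σ) :
    AlgebraicIndependent ℂ (![a, b, c] ∘ σ) := h.comp σ hσ

/-- the last element of an independent family is transcendental over the field of the others -/
theorem last_transc {L : Type} [Field L] [Algebra ℂ L] {a b c : L}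
    (h : AlgebraicIndependent ℂ ![a, b, c]) : c ∉ acl (IntermediateField.adjoin ℂ {a, b}) := by
  rw [← alg_adjoin_iff]
  have h1 := h.transcendental_adjoin (s := {0, 1}) (i := 2) (by decide)
  have h2 : ![a, b, c] '' {0, 1} = {a, b} := by
    rw [Set.image_pair]
    rfl
  rw [h2] at h1
  exact h1

end gen

section main

variable {M : Type} [Field M] [Algebra ℂ M] {m1 m2 mz : M}
  (top : IntermediateField.adjoin ℂ {m1, m2, mz} = ⊤)
  (bas : IsTranscendenceBasis ℂ ![m1, m2, mz])

include top bas in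
/-- `u` is not a cube -/
theorem not_cube (b : M) : b ^ 3 ≠ (m2 ^ 2 - 1) / (m1 ^ 2 - 1) := by
  intro hb
  let k : IntermediateField ℂ M := IntermediateField.adjoin ℂ {m1, mz}
  have i1 : m1 ∈ k := IntermediateField.subset_adjoin ℂ _ (by simp)
  have iz : mz ∈ k := IntermediateField.subset_adjoin ℂ _ (by simp)
  have hm2 : m2 ∉ acl k := by
    have h := perm_bas bas.1 ![0, 2, 1] (by decide)
    have h2 : ![m1, m2, mz] ∘ ![0, 2, 1] = ![m1, mz, m2] := by
      funext i
      fin_cases i <;> rfl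
    rw [h2] at h
    exact last_transc h
  have htr : Transcendental k (m2 - 1) := by
    intro h
    apply hm2
    rw [mem_acl]
    have h1 := h.add (isAlgebraic_one (R := k) (A := M))
    rwa [sub_add_cancel] at h1
  have htop : IntermediateField.adjoin k {m2 - 1} = ⊤ := by
    rw [eq_top_iff]
    intro y _
    have h4 : IntermediateField.adjoin ℂ {m1, m2, mz} ≤
        (IntermediateField.adjoin k {m2 - 1}).restrictScalars ℂ := by
      rw [IntermediateField.adjoin_le_iff]
      rintro s (rfl | rfl | rfl)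
      · exact IntermediateField.algebraMap_mem (IntermediateField.adjoin k {m2 - 1}) (⟨s, i1⟩ : k)
      · have h1 := add_mem (IntermediateField.mem_adjoin_simple_self k (s - 1))
          (one_mem (IntermediateField.adjoin k {s - 1}))
        rwa [sub_add_cancel] at h1
      · exact IntermediateField.algebraMap_mem (IntermediateField.adjoin k {m2 - 1}) (⟨s, iz⟩ : k)
    rw [top] at h4
    exact h4 (show y ∈ (⊤ : IntermediateField ℂ M) from trivial)
  have g : Gen1 k (m2 - 1) := gen1_of htr htop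
  have h1 : (zp g).ord (m2 - 1) = 1 := zp_z g
  have hk : ∀ a ∈ k, (zp g).ord a = 0 := fun a ha => zp_coe g ⟨a, ha⟩
  have hm1t : Transcendental ℂ m1 := by
    have := bas.1.transcendental 0
    exact this
  have hc1 : m1 ^ 2 - 1 ≠ 0 := by
    intro h
    apply hm1t
    refine ⟨X ^ 2 - 1, ?_, ?_⟩
    · exact X_pow_sub_C_ne_zero (by norm_num) (1 : ℂ)
    · rw [map_sub, map_pow, aeval_X, map_one]
      exact h
  have hne : ∀ x : M, (zp g).ord x = 1 → x ≠ 0 := by
    rintro x hx rfl
    rw [Place.ord_zero] at hx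
    omega
  have h10 : m2 - 1 ≠ 0 := hne _ h1
  have hplus : m2 + 1 ≠ 0 ∧ (zp g).ord (m2 + 1) = 0 := by
    have h2 := (zp g).ord_add_eq (f := algebraMap ℂ M 2) (g := m2 - 1) (by
      rw [Ne, map_eq_zero]
      exact two_ne_zero) h10 (by
      rw [(zp g).ord_const two_ne_zero, h1]
      norm_num)
    rw [(zp g).ord_const two_ne_zero] at h2
    have h3 : algebraMap ℂ M 2 + (m2 - 1) = m2 + 1 := by
      rw [map_ofNat]
      ring
    rwa [h3] at h2
  have hc2 : (zp g).ord (m2 ^ 2 - 1) = 1 := by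
    have h2 : m2 ^ 2 - 1 = (m2 - 1) * (m2 + 1) := by ring
    rw [h2, (zp g).ord_mul h10 hplus.1, h1, hplus.2, add_zero]
  have hc20 : m2 ^ 2 - 1 ≠ 0 := hne _ hc2
  have h2 := congrArg (zp g).ord hb
  rw [(zp g).ord_pow, (zp g).ord_div hc20 hc1, hc2, hk _ (sub_mem (pow_mem i1 2) (one_mem _))] at h2
  push_cast at h2
  omega

end main

end Pool.Agent.Q73.LT
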