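import Pool.Agent.Q73.LT.Pair

/-!
The residue field of a prime divisor is algebraic over the residues of the coordinates.
-/

set_option autoImplicit false

open FF Pool.Agent.W602.GT

namespace Pool.Agent.Q73.LT

section full

variable {L : Type} [Field L] [Algebra ℂ L]

/-- the field is algebraic over the field generated by `S` -/
def Full (S : Set L) : Prop := ∀ x : L, x ∈ acl (IntermediateField.adjoin ℂ S)

theorem acl_acl {F : IntermediateField ℂ L} {x : L} (h : IsAlgebraic (acl F) x) : x ∈ acl F := by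
  have h1 : IsAlgebraic (algebraicClosure F L) x := h
  rw [mem_acl]
  exact h1.restrictScalars F

theorem mem_acl_of_le {F F' : IntermediateField ℂ L} (h : F ≤ F') {x : L} (hx : IsAlgebraic F x) :
    IsAlgebraic F' x := by
  let _ := (IntermediateField.inclusion h).toRingHom.toAlgebra
  have : IsScalarTower F F' L := IsScalarTower.of_algebraMap_eq fun x => rfl
  exact hx.extendScalars (algebraMap F F').injective

theorem acl_mono {F F' : IntermediateField ℂ L} (h : F ≤ acl F') : acl F ≤ acl F' := by
  intro x hx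
  exact acl_acl (mem_acl_of_le h (mem_acl.1 hx))

theorem Full.sub {S T : Set L} (h : Full S) (hST : ∀ x ∈ S, x ∈ acl (IntermediateField.adjoin ℂ T)) :
    Full T := fun x => acl_mono (IntermediateField.adjoin_le_iff.2 hST) (h x)

theorem self_mem_acl {S : Set L} {x : L} (hx : x ∈ S) :
    x ∈ acl (IntermediateField.adjoin ℂ S) := le_acl _ (IntermediateField.subset_adjoin ℂ S hx)

variable {u : Fin 2 → L} (hu : AlgebraicIndependent ℂ u)

include hu

theorem not_full_one (a : L) : ¬ Full {a} := by
  intro h
  have h1 : Algebra.IsAlgebraic (Algebra.adjoin ℂ {a}) L := ⟨fun x => (alg_adjoin_iff {a} x).2 (h x)⟩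
  have h2 := Algebra.IsAlgebraic.trdeg_le_cardinalMk ℂ ({a} : Set L)
  have h3 := hu.cardinalMk_le_trdeg
  have h4 := h3.trans h2
  simp at h4

theorem not_full_empty : ¬ Full (∅ : Set L) := fun h =>
  not_full_one hu 0 (h.sub fun _ hx => absurd hx (Set.notMem_empty _))

theorem full_pair {a b : L} (h : Full {a, b}) : AlgebraicIndependent ℂ ![a, b] := by
  rw [ind_pair]
  constructor
  · intro ha
    refine not_full_one hu b (h.sub ?_)
    rintro x (rfl | rfl)
    · rw [mem_acl]
      exact ha.extendScalars (algebraMap ℂ _).injective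
    · exact self_mem_acl rfl
  · intro hb
    refine not_full_one hu a (h.sub ?_)
    rintro x (rfl | rfl)
    · exact self_mem_acl rfl
    · exact hb

omit hu in
theorem ind_swap {a b : L} (h : AlgebraicIndependent ℂ ![a, b]) :
    AlgebraicIndependent ℂ ![b, a] := by
  have h1 := h.comp (Equiv.swap (0 : Fin 2) 1) (Equiv.injective _)
  have h2 : ![a, b] ∘ (Equiv.swap (0 : Fin 2) 1) = ![b, a] := by
    funext i
    fin_cases i
    · simp
    · simp
  rwa [h2] at h1

theorem full_three {a b c : L} (h : Full {a, b, c}) :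
    AlgebraicIndependent ℂ ![a, b] ∨ AlgebraicIndependent ℂ ![a, c] ∨
      AlgebraicIndependent ℂ ![b, c] := by
  by_contra hcon
  push Not at hcon
  obtain ⟨hab, hac, hbc⟩ := hcon
  have key : ∀ {x y : L}, ¬ AlgebraicIndependent ℂ ![x, y] → Transcendental ℂ x →
      y ∈ acl (IntermediateField.adjoin ℂ {x}) := by
    intro x y hxy hx
    by_contra hy
    exact hxy (ind_pair.2 ⟨hx, hy⟩)
  have hba : ¬ AlgebraicIndependent ℂ ![b, a] := fun h => hab (ind_swap h)
  have hca : ¬ AlgebraicIndependent ℂ ![c, a] := fun h => hac (ind_swap h)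
  have hcb : ¬ AlgebraicIndependent ℂ ![c, b] := fun h => hbc (ind_swap h)
  by_cases ha : Transcendental ℂ a
  · refine not_full_one hu a (h.sub ?_)
    rintro x (rfl | rfl | rfl)
    · exact self_mem_acl rfl
    · exact key hab ha
    · exact key hac ha
  by_cases hb : Transcendental ℂ b
  · refine not_full_one hu b (h.sub ?_)
    rintro x (rfl | rfl | rfl)
    · exact key hba hb
    · exact self_mem_acl rfl
    · exact key hbc hb
  by_cases hc : Transcendental ℂ c
  · refine not_full_one hu c (h.sub ?_)
    rintro x (rfl | rfl | rfl)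
    · exact key hca hc
    · exact key hcb hc
    · exact self_mem_acl rfl
  refine not_full_empty hu (h.sub ?_)
  have halg : ∀ x : L, ¬ Transcendental ℂ x → x ∈ acl (IntermediateField.adjoin ℂ (∅ : Set L)) := by
    intro x hx
    rw [mem_acl]
    unfold Transcendental at hx
    rw [not_not] at hx
    exact hx.extendScalars (algebraMap ℂ _).injective
  rintro x (rfl | rfl | rfl)
  · exact halg _ ha
  · exact halg _ hb
  · exact halg _ hc

end full

section red

variable {K : Type} [Field K] [Algebra ℂ K] {y : Sys K}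

theorem red_aeval {P : Place ℂ K} {r : ℕ} {s : Fin r → K} (hs : ∀ i, P.Reg (s i))
    (F : MvPolynomial (Fin r) ℂ) : P.Reg (MvPolynomial.aeval s F) ∧
      P.red (MvPolynomial.aeval s F) = MvPolynomial.aeval (fun i => P.red (s i)) F := by
  induction F using MvPolynomial.induction_on with
  | C c =>
    rw [MvPolynomial.aeval_C, MvPolynomial.aeval_C]
    exact ⟨P.reg_const c, (P.algebraMap_RF c).symm⟩
  | add p q hp hq =>
    rw [map_add, map_add, P.red_add hp.1 hq.1, hp.2, hq.2]
    exact ⟨P.reg_add hp.1 hq.1, rfl⟩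
  | mul_X p i hp =>
    rw [map_mul, map_mul, MvPolynomial.aeval_X, MvPolynomial.aeval_X, P.red_mul hp.1 (hs i), hp.2]
    exact ⟨P.reg_mul hp.1 (hs i), rfl⟩

theorem res_of_red {P : Place ℂ K} {r : ℕ} {s : Fin r → K} (hs : ∀ i, P.Reg (s i))
    (h : AlgebraicIndependent ℂ fun i => P.red (s i)) : Res P s := by
  intro F hF
  obtain ⟨h1, h2⟩ := red_aeval hs F
  have h3 : P.red (MvPolynomial.aeval s F) ≠ 0 := by
    rw [h2]
    exact fun h0 => hF ((algebraicIndependent_iff.1 h) F h0)
  have h4 : ¬ (MvPolynomial.aeval s F = 0 ∨ 0 < P.ord (MvPolynomial.aeval s F)) := fun h5 =>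
    h3 ((P.red_eq_zero_iff h1).2 h5)
  push Not at h4
  refine ⟨h4.1, le_antisymm h4.2 ((P.reg_iff h4.1).1 h1)⟩

theorem red_of_res {P : Place ℂ K} {r : ℕ} {s : Fin r → K} (h : Res P s) (hs : ∀ i, P.Reg (s i)) :
    AlgebraicIndependent ℂ fun i => P.red (s i) := by
  rw [algebraicIndependent_iff]
  intro F hF
  by_contra hF0
  obtain ⟨h1, h2⟩ := red_aeval hs F
  obtain ⟨h3, h4⟩ := h F hF0
  rw [← h2] at hF
  rcases (P.red_eq_zero_iff h1).1 hF with h5 | h5
  · exact h3 h5
  · omega

theorem Res.reg {P : Place ℂ K} {r : ℕ} {s : Fin r → K} (h : Res P s) (i : Fin r) : P.Reg (s i) := by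
  obtain ⟨h1, h2⟩ := h (MvPolynomial.X i) (MvPolynomial.X_ne_zero i)
  rw [MvPolynomial.aeval_X] at h1 h2
  exact Or.inr h2.ge

theorem exists_ind_red {P : Place ℂ K} (hP : Divisorial 3 P) :
    ∃ u : Fin 2 → P.RF, AlgebraicIndependent ℂ u := by
  obtain ⟨u, hu⟩ := hP
  have h : Res P u := hu
  exact ⟨_, red_of_res h h.reg⟩

theorem triv_pair {P : Place ℂ K} {s t : K} (hs : P.Reg s) (ht : P.Reg t)
    (h : AlgebraicIndependent ℂ ![P.red s, P.red t]) :
    Triv P (IntermediateField.adjoin ℂ {s, t}) := by
  have h1 : Res P ![s, t] := by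
    refine res_of_red (fun i => ?_) ?_
    · fin_cases i
      · exact hs
      · exact ht
    · have h2 : (fun i => P.red (![s, t] i)) = ![P.red s, P.red t] := by
        funext i
        fin_cases i
        · rfl
        · rfl
      rw [h2]
      exact h
  have h2 := h1.triv
  have h3 : Set.range ![s, t] = {s, t} := by
    rw [Matrix.range_cons, Matrix.range_cons, Matrix.range_empty]
    ext x
    simp [or_comm]
  rw [h3] at h2
  exact triv_adjoin h2

/-- the residue field of a prime divisor is algebraic over the residues of the coordinates -/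
theorem res_alg {P : Place ℂ K} (hP : IsPrimeDivisor y P) {f : K} (hf : Top y f P)
    {F0 : IntermediateField ℂ P.RF} (h : ∀ g ∈ y.s, P.red (g / f) ∈ F0) (x : P.RF) :
    IsAlgebraic F0 x := by
  let ρ : chart y f →+* P.O := (chart y f).subtype.codRestrict P.O
    fun a => reg_chart hf a a.2
  have hρ : ∀ a : chart y f, P.resHom (ρ a) ∈ F0 := by
    rintro ⟨a, ha⟩
    have h1 : ∀ b (hb : b ∈ chart y f), P.red b ∈ F0 := by
      intro b hb
      induction hb using Algebra.adjoin_induction with
      | mem x hx =>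
        obtain ⟨g, hg, rfl⟩ := hx
        exact h g hg
      | algebraMap r =>
        rw [← P.algebraMap_RF]
        exact F0.algebraMap_mem r
      | add x x' hx hx' h2 h3 =>
        rw [P.red_add (reg_chart hf x hx) (reg_chart hf x' hx')]
        exact F0.add_mem h2 h3
      | mul x x' hx hx' h2 h3 =>
        rw [P.red_mul (reg_chart hf x hx) (reg_chart hf x' hx')]
        exact F0.mul_mem h2 h3
    have h2 := h1 a ha
    rw [P.red_of_reg (reg_chart hf a ha)] at h2
    exact h2
  let φ : chart y f →+* F0 := (P.resHom.comp ρ).codRestrict F0.toSubring hρ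
  let _ : Algebra (chart y f) P.O := ρ.toAlgebra
  have : IsScalarTower (chart y f) P.O K := IsScalarTower.of_algebraMap_eq fun x => rfl
  have hint : ∀ a ∈ nchart y f, IsAlgebraic F0 (P.red a) := by
    intro a ha
    have hreg := hf.reg a ha
    have h1 : IsIntegral (chart y f) (algebraMap P.O K ⟨a, hreg⟩) := mem_nchart.1 ha
    rw [isIntegral_algebraMap_iff (IsFractionRing.injective P.O K)] at h1
    have h2 := h1.map_of_comp_eq φ P.resHom (by
      ext a
      rfl)
    rw [P.red_of_reg hreg]
    exact h2.isAlgebraic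
  obtain ⟨g, hg, rfl⟩ := P.red_surjective x
  obtain ⟨a, ha, b, hb, hb0, hbo, hab⟩ := (mem_localRing hf).1 (hP g hg)
  have hbr : P.red b ≠ 0 := by
    intro h0
    rcases (P.red_eq_zero_iff (hf.reg b hb)).1 h0 with h1 | h1
    · exact hb0 h1
    · omega
  have h1 : P.red g = P.red a / P.red b := by
    rw [eq_div_iff hbr, ← P.red_mul hg (hf.reg b hb), hab]
  rw [h1, div_eq_mul_inv]
  exact (hint a ha).mul (hint b hb).inv

end red

end Pool.Agent.Q73.LT
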