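import Pool.Agent.Q73.LT.Dim

/-!
The places of `κ(z)` which extend a place of `κ`, with a large order of `z`.
-/

set_option autoImplicit false

open FF Polynomial

namespace Pool.Agent.Q73.LT

section frac

variable {k R F : Type} [Field k] [CommRing R] [IsDomain R] [Field F] [Algebra k F] [Algebra R F]
  [IsFractionRing R F]

/-- a place from its values on a ring with the given field of fractions -/
theorem place_of_frac (ν : R → ℤ) (hmul : ∀ p q, p ≠ 0 → q ≠ 0 → ν (p * q) = ν p + ν q)
    (hadd : ∀ p q, p ≠ 0 → q ≠ 0 → p + q ≠ 0 → min (ν p) (ν q) ≤ ν (p + q))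
    (hconst : ∀ c : k, c ≠ 0 → ∃ r : R, r ≠ 0 ∧ algebraMap R F r = algebraMap k F c ∧ ν r = 0)
    (hs : ∃ p q, p ≠ 0 ∧ q ≠ 0 ∧ ν p = ν q + 1) :
    ∃ v : Place k F, ∀ p, p ≠ 0 → v.ord (algebraMap R F p) = ν p := by
  classical
  have hinj : Function.Injective (algebraMap R F) := IsFractionRing.injective R F
  have hne : ∀ {p : R}, p ≠ 0 → algebraMap R F p ≠ 0 := fun hp h => hp (hinj (by rw [h, map_zero]))
  have hgen : ∀ z : F, ∃ p q : R, q ≠ 0 ∧ z = algebraMap R F p / algebraMap R F q := by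
    intro z
    obtain ⟨p, q, hq, h⟩ := IsFractionRing.div_surjective R z
    exact ⟨p, q, nonZeroDivisors.ne_zero hq, h.symm⟩
  choose num den hden hz using hgen
  have hnum : ∀ z, z ≠ 0 → num z ≠ 0 := by
    intro z hz0 h0
    apply hz0
    rw [hz z, h0, map_zero, zero_div]
  have hwd : ∀ (z : F) (P Q : R), z ≠ 0 → Q ≠ 0 →
      z = algebraMap R F P / algebraMap R F Q → P ≠ 0 ∧ ν (num z) - ν (den z) = ν P - ν Q := by
    intro z P Q hz0 hQ hzPQ
    have hP : P ≠ 0 := by
      intro h0
      apply hz0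
      rw [hzPQ, h0, map_zero, zero_div]
    refine ⟨hP, ?_⟩
    have h1 : algebraMap R F (num z * Q) = algebraMap R F (P * den z) := by
      rw [map_mul, map_mul]
      have h3 := hne (hden z)
      have h4 := hne hQ
      have h5 : algebraMap R F P / algebraMap R F Q =
          algebraMap R F (num z) / algebraMap R F (den z) := by
        rw [← hzPQ]
        exact hz z
      rw [div_eq_div_iff h4 h3] at h5
      rw [← h5]
    have h2 := hinj h1
    have h3 := congrArg ν h2
    rw [hmul _ _ (hnum z hz0) hQ, hmul _ _ hP (hden z)] at h3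
    linarith
  let o : F → ℤ := fun z => if z = 0 then 0 else ν (num z) - ν (den z)
  have ho : ∀ (z : F) (P Q : R), z ≠ 0 → Q ≠ 0 →
      z = algebraMap R F P / algebraMap R F Q → o z = ν P - ν Q := by
    intro z P Q hz0 hQ hzPQ
    simp only [o, if_neg hz0]
    exact (hwd z P Q hz0 hQ hzPQ).2
  have hone : ν 1 = 0 := by
    have := hmul 1 1 one_ne_zero one_ne_zero
    rw [mul_one] at this
    omega
  have hval : ∀ P, P ≠ 0 → o (algebraMap R F P) = ν P := by
    intro P hP
    rw [ho (algebraMap R F P) P 1 (hne hP) one_ne_zero (by rw [map_one, div_one]), hone, sub_zero]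
  refine ⟨⟨o, if_pos rfl, ?_, ?_, ?_, ?_⟩, hval⟩
  · intro f g hf hg
    have hnf := hnum f hf
    have hng := hnum g hg
    rw [ho (f * g) (num f * num g) (den f * den g) (mul_ne_zero hf hg)
      (mul_ne_zero (hden f) (hden g)) (by
        rw [map_mul, map_mul]
        conv_lhs => rw [hz f, hz g]
        rw [div_mul_div_comm]), ho f _ _ hf (hden f) (hz f), ho g _ _ hg (hden g) (hz g),
      hmul _ _ hnf hng, hmul _ _ (hden f) (hden g)]
    ring
  · intro f g hf hg hfg
    have hnf := hnum f hf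
    have hng := hnum g hg
    have hdf := hden f
    have hdg := hden g
    have h1 : f + g = algebraMap R F (num f * den g + num g * den f) /
        algebraMap R F (den f * den g) := by
      rw [map_add, map_mul, map_mul, map_mul]
      conv_lhs => rw [hz f, hz g]
      have h3 := hne hdf
      have h4 := hne hdg
      field_simp
    have h2 := (hwd (f + g) _ _ hfg (mul_ne_zero hdf hdg) h1).1
    have h3 := hadd _ _ (mul_ne_zero hnf hdg) (mul_ne_zero hng hdf) h2
    rw [ho (f + g) _ _ hfg (mul_ne_zero hdf hdg) h1, ho f _ _ hf hdf (hz f),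
      ho g _ _ hg hdg (hz g)]
    rw [hmul _ _ hnf hdg, hmul _ _ hng hdf] at h3
    rw [hmul _ _ hdf hdg]
    rcases min_le_iff.1 h3 with h4 | h4
    · exact le_trans (min_le_left _ _) (by linarith)
    · exact le_trans (min_le_right _ _) (by linarith)
  · intro c hc
    obtain ⟨r, hr, hrc, hr0⟩ := hconst c hc
    rw [← hrc, hval r hr, hr0]
  · obtain ⟨P, Q, hP, hQ, hPQ⟩ := hs
    refine ⟨algebraMap R F P / algebraMap R F Q, div_ne_zero (hne hP) (hne hQ), ?_⟩
    rw [ho _ P Q (div_ne_zero (hne hP) (hne hQ)) hQ rfl, hPQ]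
    ring

end frac

section

variable {κ : Type} [Field κ] [Algebra ℂ κ]

open Classical in
/-- the minimum of the values of the monomials -/
noncomputable def mu (w : Place ℂ κ) (a : ℕ) (p : κ[X]) : ℤ :=
  if h : p ≠ 0 then p.support.inf' (support_nonempty.2 h) fun i => w.ord (p.coeff i) + a * i
  else 0

theorem mu_le (w : Place ℂ κ) (a : ℕ) {p : κ[X]} {i : ℕ} (hi : p.coeff i ≠ 0) :
    mu w a p ≤ w.ord (p.coeff i) + a * i := by
  have hp : p ≠ 0 := by
    rintro rfl
    exact hi (coeff_zero i)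
  rw [mu, dif_pos hp]
  exact Finset.inf'_le (fun i => w.ord (p.coeff i) + a * i) (mem_support_iff.2 hi)

theorem exists_mu (w : Place ℂ κ) (a : ℕ) {p : κ[X]} (hp : p ≠ 0) :
    ∃ i, p.coeff i ≠ 0 ∧ mu w a p = w.ord (p.coeff i) + a * i := by
  rw [mu, dif_pos hp]
  obtain ⟨i, hi, h⟩ := Finset.exists_mem_eq_inf' (support_nonempty.2 hp)
    fun i => w.ord (p.coeff i) + a * i
  exact ⟨i, mem_support_iff.1 hi, h⟩

theorem le_mu (w : Place ℂ κ) (a : ℕ) {p : κ[X]} (hp : p ≠ 0) {c : ℤ}
    (h : ∀ i, p.coeff i ≠ 0 → c ≤ w.ord (p.coeff i) + a * i) : c ≤ mu w a p := by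
  obtain ⟨i, hi, h1⟩ := exists_mu w a hp
  rw [h1]
  exact h i hi

open Pool.Agent.W603.LV in
theorem mu_mul (w : Place ℂ κ) (a : ℕ) {p q : κ[X]} (hp : p ≠ 0) (hq : q ≠ 0) :
    mu w a (p * q) = mu w a p + mu w a q := by
  classical
  -- the terms
  have hge : ∀ {p : κ[X]} (i : ℕ), Ge w (mu w a p - a * i) (p.coeff i) := by
    intro p i
    by_cases h : p.coeff i = 0
    · exact Or.inl h
    · right
      have := mu_le w a h
      linarith
  have hpi := exists_mu w a hp
  have hqj := exists_mu w a hq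
  let i0 := Nat.find hpi
  let j0 := Nat.find hqj
  obtain ⟨hi0, hi1⟩ : p.coeff i0 ≠ 0 ∧ mu w a p = w.ord (p.coeff i0) + a * i0 := Nat.find_spec hpi
  obtain ⟨hj0, hj1⟩ : q.coeff j0 ≠ 0 ∧ mu w a q = w.ord (q.coeff j0) + a * j0 := Nat.find_spec hqj
  have hlt : ∀ i, i < i0 → Ge w (mu w a p - a * i + 1) (p.coeff i) := by
    intro i hi
    by_cases h : p.coeff i = 0
    · exact Or.inl h
    · right
      have h1 := mu_le w a h
      have h2 := Nat.find_min hpi hi
      have h3 : mu w a p ≠ w.ord (p.coeff i) + a * i := fun h3 => h2 ⟨h, h3⟩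
      omega
  have hlt' : ∀ j, j < j0 → Ge w (mu w a q - a * j + 1) (q.coeff j) := by
    intro i hi
    by_cases h : q.coeff i = 0
    · exact Or.inl h
    · right
      have h1 := mu_le w a h
      have h2 := Nat.find_min hqj hi
      have h3 : mu w a q ≠ w.ord (q.coeff i) + a * i := fun h3 => h2 ⟨h, h3⟩
      omega
  have hpq : p * q ≠ 0 := mul_ne_zero hp hq
  apply le_antisymm
  · -- the coefficient with the index `i0 + j0`
    have h1 : (p * q).coeff (i0 + j0) = p.coeff i0 * q.coeff j0 +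
        ∑ x ∈ (Finset.HasAntidiagonal.antidiagonal (i0 + j0)).erase (i0, j0), p.coeff x.1 * q.coeff x.2 := by
      rw [coeff_mul, Finset.add_sum_erase (Finset.HasAntidiagonal.antidiagonal (i0 + j0))
        (fun x => p.coeff x.1 * q.coeff x.2) (a := (i0, j0)) (by simp)]
    have h2 : Ge w (mu w a p + mu w a q - a * (i0 + j0) + 1)
        (∑ x ∈ (Finset.HasAntidiagonal.antidiagonal (i0 + j0)).erase (i0, j0), p.coeff x.1 * q.coeff x.2) := by
      refine Ge.sum _ _ fun x hx => ?_
      rw [Finset.mem_erase, Finset.HasAntidiagonal.mem_antidiagonal] at hx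
      obtain ⟨hx1, hx2⟩ := hx
      have h3 : (a : ℤ) * (i0 + j0) = a * x.1 + a * x.2 := by
        rw [← mul_add]
        congr 1
        exact_mod_cast hx2.symm
      rw [h3]
      rcases lt_trichotomy x.1 i0 with h4 | h4 | h4
      · exact ((hlt _ h4).mul (hge x.2)).mono (by linarith)
      · exfalso
        apply hx1
        ext
        · exact h4
        · change x.2 = j0
          omega
      · have h5 : x.2 < j0 := by omega
        exact ((hge x.1).mul (hlt' _ h5)).mono (by linarith)
    have h3 : w.ord (p.coeff i0 * q.coeff j0) = mu w a p + mu w a q - a * (i0 + j0) := by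
      rw [w.ord_mul hi0 hj0, hi1, hj1]
      ring
    have h4 : (p * q).coeff (i0 + j0) ≠ 0 ∧
        w.ord ((p * q).coeff (i0 + j0)) = mu w a p + mu w a q - a * (i0 + j0) := by
      rw [h1]
      rcases h2 with h2 | h2
      · rw [h2, add_zero]
        exact ⟨mul_ne_zero hi0 hj0, h3⟩
      · by_cases h5 : ∑ x ∈ (Finset.HasAntidiagonal.antidiagonal (i0 + j0)).erase (i0, j0),
            p.coeff x.1 * q.coeff x.2 = 0
        · rw [h5, add_zero]
          exact ⟨mul_ne_zero hi0 hj0, h3⟩
        · have h6 := w.ord_add_eq (mul_ne_zero hi0 hj0) h5 (by rw [h3]; omega)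
          exact ⟨h6.1, by rw [h6.2, h3]⟩
    have h5 := mu_le w a h4.1
    rw [h4.2] at h5
    push_cast at h5
    linarith
  · refine le_mu w a hpq fun n hn => ?_
    have h1 : Ge w (mu w a p + mu w a q - a * n) ((p * q).coeff n) := by
      rw [coeff_mul]
      refine Ge.sum _ _ fun x hx => ?_
      rw [Finset.HasAntidiagonal.mem_antidiagonal] at hx
      have h3 : (a : ℤ) * n = a * x.1 + a * x.2 := by
        rw [← mul_add]
        congr 1
        exact_mod_cast hx.symm
      rw [h3]
      exact ((hge x.1).mul (hge x.2)).mono (by linarith)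
    have h2 := h1.resolve_left hn
    linarith

theorem mu_add (w : Place ℂ κ) (a : ℕ) {p q : κ[X]} (hpq : p + q ≠ 0) :
    min (mu w a p) (mu w a q) ≤ mu w a (p + q) := by
  refine le_mu w a hpq fun i hi => ?_
  rw [coeff_add] at hi ⊢
  by_cases h1 : p.coeff i = 0
  · rw [h1, zero_add] at hi ⊢
    exact (min_le_right _ _).trans (mu_le w a hi)
  by_cases h2 : q.coeff i = 0
  · rw [h2, add_zero] at hi ⊢
    exact (min_le_left _ _).trans (mu_le w a hi)
  have h3 := w.ord_add h1 h2 hi
  have h4 := mu_le w a h1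
  have h5 := mu_le w a h2
  rcases min_le_iff.1 h3 with h | h
  · exact (min_le_left _ _).trans (by linarith)
  · exact (min_le_right _ _).trans (by linarith)

variable {K : Type} [Field K] [Algebra ℂ K] [Algebra κ K] [IsScalarTower ℂ κ K]

/-- `z` is a generator of the field `K` over `κ`, transcendental over `κ` -/
structure Gen1 (κ : Type) [Field κ] {K : Type} [Field K] [Algebra κ K] (z : K) : Prop where
  tr : Transcendental κ z
  gen : ∀ x : K, ∃ p q : κ[X], q ≠ 0 ∧ x = aeval z p / aeval z q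

variable {z : K}

theorem Gen1.ne (h : Gen1 κ z) {p : κ[X]} (hp : p ≠ 0) : aeval z p ≠ 0 :=
  fun h0 => hp ((transcendental_iff.1 h.tr) p h0)

theorem Gen1.frac (h : Gen1 κ z) :
    @IsFractionRing κ[X] _ K _ (aeval z : κ[X] →ₐ[κ] K).toRingHom.toAlgebra := by
  let _ : Algebra κ[X] K := (aeval z : κ[X] →ₐ[κ] K).toRingHom.toAlgebra
  have hinj : Function.Injective (algebraMap κ[X] K) :=
    (injective_iff_map_eq_zero _).2 fun p hp => by
      by_contra h0
      exact h.ne h0 hp
  have : FaithfulSMul κ[X] K := (faithfulSMul_iff_algebraMap_injective _ K).2 hinj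
  refine IsFractionRing.of_field _ K fun x => ?_
  obtain ⟨p, q, -, hx⟩ := h.gen x
  exact ⟨p, q, hx⟩

theorem exists_gauss (h : Gen1 κ z) (w : Place ℂ κ) (a : ℕ) :
    ∃ P : Place ℂ K, ∀ p : κ[X], p ≠ 0 → P.ord (aeval z p) = mu w a p := by
  let _ : Algebra κ[X] K := (aeval z : κ[X] →ₐ[κ] K).toRingHom.toAlgebra
  have := h.frac
  have hC : ∀ c : κ, c ≠ 0 → mu w a (C c) = w.ord c := by
    intro c hc
    obtain ⟨i, hi, h1⟩ := exists_mu w a (C_ne_zero.2 hc)
    rw [coeff_C] at hi h1
    split_ifs at hi h1 with h2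
    · rw [h1, h2]
      simp
    · exact absurd rfl hi
  obtain ⟨P, hP⟩ := place_of_frac (k := ℂ) (R := κ[X]) (F := K) (mu w a)
    (fun p q hp hq => mu_mul w a hp hq) (fun p q _ _ hpq => mu_add w a hpq)
    (fun c hc => ⟨C (algebraMap ℂ κ c), by
        rw [Ne, C_eq_zero, map_eq_zero]
        exact hc, by
        change aeval z (C (algebraMap ℂ κ c)) = _
        rw [aeval_C, ← IsScalarTower.algebraMap_apply], by
        rw [hC _ (by
          rw [Ne, map_eq_zero]
          exact hc), w.ord_const hc]⟩)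
    (by
      obtain ⟨t, ht0, ht⟩ := w.surj
      refine ⟨C t, C 1, C_ne_zero.2 ht0, C_ne_zero.2 one_ne_zero, ?_⟩
      rw [hC t ht0, hC 1 one_ne_zero, ht, w.ord_one]
      norm_num)
  exact ⟨P, hP⟩

/-- the place of `K = κ(z)` over the place `w` of `κ` with order `a` of `z` -/
noncomputable def gp (h : Gen1 κ z) (w : Place ℂ κ) (a : ℕ) : Place ℂ K :=
  (exists_gauss h w a).choose

theorem gp_ord (h : Gen1 κ z) (w : Place ℂ κ) (a : ℕ) {p : κ[X]} (hp : p ≠ 0) :
    (gp h w a).ord (aeval z p) = mu w a p := (exists_gauss h w a).choose_spec p hp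

theorem gp_coe (h : Gen1 κ z) (w : Place ℂ κ) (a : ℕ) (c : κ) :
    (gp h w a).ord (algebraMap κ K c) = w.ord c := by
  by_cases hc : c = 0
  · rw [hc, map_zero, Place.ord_zero, Place.ord_zero]
  · have h1 := gp_ord h w a (C_ne_zero.2 hc)
    rw [aeval_C] at h1
    rw [h1]
    obtain ⟨i, hi, h2⟩ := exists_mu w a (C_ne_zero.2 hc)
    rw [coeff_C] at hi h2
    split_ifs at hi h2 with h3
    · rw [h2, h3]
      simp
    · exact absurd rfl hi

/-- the place `z = 0` -/
theorem exists_zadic (h : Gen1 κ z) :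
    ∃ P : Place ℂ K, ∀ p : κ[X], p ≠ 0 → P.ord (aeval z p) = p.natTrailingDegree := by
  let _ : Algebra κ[X] K := (aeval z : κ[X] →ₐ[κ] K).toRingHom.toAlgebra
  have := h.frac
  obtain ⟨P, hP⟩ := place_of_frac (k := ℂ) (R := κ[X]) (F := K)
    (fun p => (p.natTrailingDegree : ℤ))
    (fun p q hp hq => by
      rw [natTrailingDegree_mul hp hq]
      push_cast
      rfl)
    (fun p q hp hq hpq => by
      have h1 : min p.natTrailingDegree q.natTrailingDegree ≤ (p + q).natTrailingDegree := by
        refine le_natTrailingDegree hpq fun n hn => ?_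
        rw [coeff_add, coeff_eq_zero_of_lt_natTrailingDegree (lt_of_lt_of_le hn (min_le_left _ _)),
          coeff_eq_zero_of_lt_natTrailingDegree (lt_of_lt_of_le hn (min_le_right _ _)), add_zero]
      exact_mod_cast h1)
    (fun c hc => ⟨C (algebraMap ℂ κ c), by
        rw [Ne, C_eq_zero, map_eq_zero]
        exact hc, by
        change aeval z (C (algebraMap ℂ κ c)) = _
        rw [aeval_C, ← IsScalarTower.algebraMap_apply], by
        rw [natTrailingDegree_C]
        rfl⟩)
    ⟨X, 1, X_ne_zero, one_ne_zero, by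
      rw [natTrailingDegree_X, natTrailingDegree_one]
      norm_num⟩
  exact ⟨P, hP⟩

/-- the place `z = 0` -/
noncomputable def zp (h : Gen1 κ z) : Place ℂ K := (exists_zadic h).choose

theorem zp_ord (h : Gen1 κ z) {p : κ[X]} (hp : p ≠ 0) :
    (zp h).ord (aeval z p) = p.natTrailingDegree := (exists_zadic h).choose_spec p hp

theorem zp_coe (h : Gen1 κ z) (c : κ) : (zp h).ord (algebraMap κ K c) = 0 := by
  by_cases hc : c = 0
  · rw [hc, map_zero, Place.ord_zero]
  · have h1 := zp_ord h (C_ne_zero.2 hc)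
    rw [aeval_C, natTrailingDegree_C] at h1
    exact_mod_cast h1

theorem zp_z (h : Gen1 κ z) : (zp h).ord z = 1 := by
  have h1 := zp_ord h (X_ne_zero (R := κ))
  rw [aeval_X, natTrailingDegree_X] at h1
  exact_mod_cast h1

/-- **Asymptotics**: the leading coefficient of a function at `z = 0`. -/
theorem exists_lc (h : Gen1 κ z) {x : K} (hx : x ≠ 0) : ∃ u : κ, u ≠ 0 ∧
    ∀ w : Place ℂ κ, ∃ A : ℕ, ∀ a : ℕ, A ≤ a → (gp h w a).ord x = w.ord u + a * (zp h).ord x := by
  -- polynomials
  have hpol : ∀ p : κ[X], p ≠ 0 → ∀ w : Place ℂ κ, ∃ A : ℕ, ∀ a : ℕ, A ≤ a →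
      (gp h w a).ord (aeval z p) = w.ord p.trailingCoeff + a * p.natTrailingDegree := by
    intro p hp w
    have hc : p.coeff p.natTrailingDegree ≠ 0 := trailingCoeff_nonzero_iff_nonzero.2 hp
    refine ⟨∑ i ∈ p.support, (w.ord p.trailingCoeff - w.ord (p.coeff i)).natAbs, fun a ha => ?_⟩
    rw [gp_ord h w a hp]
    apply le_antisymm
    · exact mu_le w a hc
    · refine le_mu w a hp fun i hi => ?_
      have h1 : p.natTrailingDegree ≤ i := natTrailingDegree_le_of_ne_zero hi
      rcases h1.eq_or_lt with h2 | h2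
      · rw [← h2]
        exact le_rfl
      · have h3 : (w.ord p.trailingCoeff - w.ord (p.coeff i)).natAbs ≤
            ∑ i ∈ p.support, (w.ord p.trailingCoeff - w.ord (p.coeff i)).natAbs :=
          Finset.single_le_sum (f := fun i => (w.ord p.trailingCoeff - w.ord (p.coeff i)).natAbs)
            (fun _ _ => Nat.zero_le _) (mem_support_iff.2 hi)
        have h4 : w.ord p.trailingCoeff - w.ord (p.coeff i) ≤ a := by omega
        have h5 : (p.natTrailingDegree : ℤ) + 1 ≤ i := by exact_mod_cast h2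
        have h6 : (a : ℤ) * (p.natTrailingDegree + 1) ≤ a * i :=
          mul_le_mul_of_nonneg_left h5 (Int.natCast_nonneg _)
        linarith
  obtain ⟨p, q, hq, hxpq⟩ := h.gen x
  have hp : p ≠ 0 := by
    rintro rfl
    rw [map_zero, zero_div] at hxpq
    exact hx hxpq
  have hpc : p.trailingCoeff ≠ 0 := trailingCoeff_nonzero_iff_nonzero.2 hp
  have hqc : q.trailingCoeff ≠ 0 := trailingCoeff_nonzero_iff_nonzero.2 hq
  refine ⟨p.trailingCoeff / q.trailingCoeff, div_ne_zero hpc hqc, fun w => ?_⟩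
  obtain ⟨A, hA⟩ := hpol p hp w
  obtain ⟨B, hB⟩ := hpol q hq w
  refine ⟨max A B, fun a ha => ?_⟩
  rw [hxpq, Place.ord_div _ (h.ne hp) (h.ne hq), Place.ord_div _ (h.ne hp) (h.ne hq),
    hA a ((le_max_left _ _).trans ha), hB a ((le_max_right _ _).trans ha), zp_ord h hp,
    zp_ord h hq, w.ord_div hpc hqc]
  ring

/-- the leading coefficient of a function at `z = 0` -/
noncomputable def lc (h : Gen1 κ z) {x : K} (hx : x ≠ 0) : κ := (exists_lc h hx).choose

theorem lc_ne (h : Gen1 κ z) {x : K} (hx : x ≠ 0) : lc h hx ≠ 0 := (exists_lc h hx).choose_spec.1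

theorem lc_ord (h : Gen1 κ z) {x : K} (hx : x ≠ 0) (w : Place ℂ κ) :
    ∃ A : ℕ, ∀ a : ℕ, A ≤ a → (gp h w a).ord x = w.ord (lc h hx) + a * (zp h).ord x :=
  (exists_lc h hx).choose_spec.2 w

/-- the residue of a regular function at `z = 0` -/
theorem exists_res (h : Gen1 κ z) {x : K} (hx : (zp h).Reg x) :
    ∃ c : κ, x - algebraMap κ K c = 0 ∨ 0 < (zp h).ord (x - algebraMap κ K c) := by
  by_cases hx0 : x = 0
  · exact ⟨0, Or.inl (by rw [hx0, map_zero, sub_zero])⟩
  rcases ((Place.reg_iff _ hx0).1 hx).lt_or_eq with h1 | h1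
  · exact ⟨0, Or.inr (by rwa [map_zero, sub_zero])⟩
  obtain ⟨p, q, hq, hxpq⟩ := h.gen x
  have hp : p ≠ 0 := by
    rintro rfl
    rw [map_zero, zero_div] at hxpq
    exact hx0 hxpq
  have hpc : p.trailingCoeff ≠ 0 := trailingCoeff_nonzero_iff_nonzero.2 hp
  have hqc : q.trailingCoeff ≠ 0 := trailingCoeff_nonzero_iff_nonzero.2 hq
  have hdeg : p.natTrailingDegree = q.natTrailingDegree := by
    rw [hxpq, Place.ord_div _ (h.ne hp) (h.ne hq), zp_ord h hp, zp_ord h hq] at h1
    omega
  refine ⟨p.trailingCoeff / q.trailingCoeff, ?_⟩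
  have h2 : x - algebraMap κ K (p.trailingCoeff / q.trailingCoeff) =
      aeval z (p - C (p.trailingCoeff / q.trailingCoeff) * q) / aeval z q := by
    rw [map_sub, map_mul, aeval_C, hxpq, sub_div, mul_div_assoc, div_self (h.ne hq), mul_one]
  rw [h2]
  by_cases h3 : p - C (p.trailingCoeff / q.trailingCoeff) * q = 0
  · left
    rw [h3, map_zero, zero_div]
  · right
    rw [Place.ord_div _ (h.ne h3) (h.ne hq), zp_ord h h3, zp_ord h hq]
    have h4 : q.natTrailingDegree + 1 ≤
        (p - C (p.trailingCoeff / q.trailingCoeff) * q).natTrailingDegree := by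
      refine le_natTrailingDegree h3 fun n hn => ?_
      rw [coeff_sub, coeff_C_mul]
      rcases (Nat.lt_succ_iff.1 hn).lt_or_eq with h5 | h5
      · rw [coeff_eq_zero_of_lt_natTrailingDegree (by rw [hdeg]; exact h5),
          coeff_eq_zero_of_lt_natTrailingDegree h5]
        simp
      · rw [h5]
        have h6 : p.coeff q.natTrailingDegree = p.trailingCoeff := by
          rw [← hdeg]
          rfl
        rw [h6]
        change p.trailingCoeff - p.trailingCoeff / q.trailingCoeff * q.trailingCoeff = 0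
        rw [div_mul_cancel₀ _ hqc, sub_self]
    have h5 : ((q.natTrailingDegree : ℤ)) + 1 ≤
        ((p - C (p.trailingCoeff / q.trailingCoeff) * q).natTrailingDegree : ℤ) := by
      exact_mod_cast h4
    linarith

end

end Pool.Agent.Q73.LT
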