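import Pool.Agent.Q73.LT.Ex2
import Pool.Agent.W636.PG.Trans

/-!
The example: log discrepancies.
-/

set_option autoImplicit false

open FF Real Pool.Agent.W603.LV Pool.Agent.W602.GT Pool.Agent.Y172

open scoped goldenRatio

namespace Pool.Agent.Q73.LT

section

variable {K : Type} [Field K] [Algebra ℂ K] [Algebra.EssFiniteType ℂ K] {n : ℕ}
  (hn : Algebra.trdeg ℂ K = n) {P : Place ℂ K} (hP : Divisorial n P)
  {ω : (Fin n → Derivation ℂ K K) → K} (hω : IsPluri 1 ω) (hne : ∃ E, ω E ≠ 0)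

theorem ordForm_unique {P : Place ℂ K} {ω : (Fin n → Derivation ℂ K K) → K} {c c' : ℝ}
    (h : OrdForm P ω c) (h' : OrdForm P ω c') : c = c' := by
  obtain ⟨h1, E, hE, hE0, hEc⟩ := h
  obtain ⟨h1', E', hE', hE0', hEc'⟩ := h'
  apply le_antisymm
  · rw [← hEc']
    exact (h1 E' hE').resolve_left hE0'
  · rw [← hEc]
    exact (h1' E hE).resolve_left hE0

include hω in
theorem ordForm_loc {y : Fin n → K} {E : Fin n → Derivation ℂ K K} {i0 : Fin n}
    (hl : Loc P y E i0) (hE0 : ω E ≠ 0) : OrdForm P ω (P.ord (ω E) : ℝ) := by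
  refine ⟨fun G hG => ?_, E, hl.pres, hE0, rfl⟩
  have h1 := pluri_coord hl.bas hl.dual hω G
  rw [pow_one] at h1
  have h2 : Ge P 0 (Matrix.of fun i j => G i (y j)).det := by
    refine ge_det P _ 0 (fun _ _ => 0) (fun a b => hG a _ (hl.reg b)) fun σ => ?_
    simp
  by_cases h0 : ω G = 0
  · exact Or.inl h0
  right
  rw [h1] at h0 ⊢
  have h3 := h2.resolve_left (left_ne_zero_of_mul h0)
  rw [P.ord_mul (left_ne_zero_of_mul h0) hE0]
  push_cast
  have h4 : (0 : ℝ) ≤ P.ord (Matrix.of fun i j => G i (y j)).det := by exact_mod_cast h3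
  linarith

include hω hne in
theorem form_loc_ne {y : Fin n → K} {E : Fin n → Derivation ℂ K K} {i0 : Fin n}
    (hl : Loc P y E i0) : ω E ≠ 0 := by
  obtain ⟨G, hG⟩ := hne
  intro h0
  have h1 := pluri_coord hl.bas hl.dual hω G
  rw [h0, mul_zero] at h1
  exact hG h1

include hn hP hω hne in
theorem exists_ordForm : ∃ c : ℤ, OrdForm P ω c := by
  obtain ⟨y, E, i0, hl⟩ := exists_loc hn hP
  exact ⟨_, ordForm_loc hω hl (form_loc_ne hω hne hl)⟩

end

section

variable {K : Type} [Field K] [Algebra ℂ K] {P : Place ℂ K}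

/-- logarithmic derivatives of the coordinate of an elliptic curve -/
theorem ge_der {y : K} (hy : y ≠ 0) (hc : y ^ 2 - 1 ≠ 0) :
    ∃ e : ℤ, (∀ D : Derivation ℂ K K, DerLog P D → Ge P e (D y)) ∧
      0 ≤ 3 * e - 2 * P.ord (y ^ 2 - 1) ∧
      (3 * e - 2 * P.ord (y ^ 2 - 1) = 0 → 0 ≤ P.ord y ∧ P.ord (y ^ 2 - 1) = 0) := by
  have hc1 : y - 1 ≠ 0 := fun h => hc (by linear_combination (y + 1) * h)
  have hc2 : y + 1 ≠ 0 := fun h => hc (by linear_combination (y - 1) * h)
  have hprod : P.ord (y ^ 2 - 1) = P.ord (y - 1) + P.ord (y + 1) := by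
    rw [← P.ord_mul hc1 hc2]
    congr 1
    ring
  rcases lt_or_ge (P.ord y) 0 with h | h
  · refine ⟨P.ord y, fun D hD => DerLog.ge hD (Or.inr le_rfl), ?_⟩
    have h1 := P.ord_add_eq (f := y ^ 2) (g := -1) (pow_ne_zero _ hy) (neg_ne_zero.2 one_ne_zero)
      (by rw [P.ord_neg, P.ord_one, P.ord_pow]; push_cast; omega)
    rw [← sub_eq_add_neg] at h1
    rw [h1.2, P.ord_pow]
    push_cast
    omega
  · have hD1 : ∀ D : Derivation ℂ K K, D y = D (y - 1) := by
      intro D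
      rw [map_sub, D.map_one_eq_zero, sub_zero]
    have hD2 : ∀ D : Derivation ℂ K K, D y = D (y + 1) := by
      intro D
      rw [map_add, D.map_one_eq_zero, add_zero]
    have h1 : 0 ≤ P.ord (y - 1) := by
      have := P.reg_add (f := y) (g := -1) (Or.inr h) (P.reg_neg P.reg_one)
      rw [← sub_eq_add_neg] at this
      exact (P.reg_iff hc1).1 this
    have h2 : 0 ≤ P.ord (y + 1) := (P.reg_iff hc2).1 (P.reg_add (f := y) (Or.inr h) P.reg_one)
    have h3 : P.ord (y - 1) = 0 ∨ P.ord (y + 1) = 0 := by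
      by_contra hcon
      push Not at hcon
      have h4 : Ge P 1 (y + 1 - (y - 1)) := (show Ge P 1 (y + 1) from Or.inr (by omega)).sub
        (Or.inr (by omega))
      have h5 : y + 1 - (y - 1) = algebraMap ℂ K 2 := by
        rw [map_ofNat]
        ring
      rw [h5] at h4
      exact not_ge_const P two_ne_zero one_pos h4
    rcases h3 with h3 | h3
    · refine ⟨P.ord (y + 1), fun D hD => ?_, ?_⟩
      · rw [hD2]
        exact DerLog.ge hD (Or.inr le_rfl)
      · rw [hprod]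
        omega
    · refine ⟨P.ord (y - 1), fun D hD => ?_, ?_⟩
      · rw [hD1]
        exact DerLog.ge hD (Or.inr le_rfl)
      · rw [hprod]
        omega

end

namespace Exa

variable {κ K : Type} [Field κ] [Algebra ℂ κ] [Field K] [Algebra ℂ K] [Algebra κ K]

variable (E : Exa κ K)

/-- the coordinates -/
def f : Fin 3 → K := ![algebraMap κ K E.y1, algebraMap κ K E.y2, E.z]

/-- the form -/
noncomputable def form (D : Fin 3 → Derivation ℂ K K) : K :=
  (Matrix.of fun i j => D i (E.f j)).det / E.cz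

theorem form_pluri : IsPluri 1 E.form := by
  intro A D
  unfold form
  have h1 : (Matrix.of fun i j => (∑ l, A i l • D l) (E.f j)) =
      A * (Matrix.of fun i j => D i (E.f j)) := by
    ext i j
    rw [Matrix.mul_apply, Matrix.of_apply, ← Derivation.coeFnAddMonoidHom_apply, map_sum,
      Finset.sum_apply]
    rfl
  rw [h1, Matrix.det_mul, pow_one, mul_div_assoc]

theorem form_ne (hf : IsTranscendenceBasis ℂ E.f) : ∃ D, E.form D ≠ 0 := by
  obtain ⟨D, hD⟩ := Pool.Agent.W636.PG.exists_duals ℂ K 3 E.f hf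
  refine ⟨D, div_ne_zero ?_ E.cz_ne⟩
  have h1 : (Matrix.of fun i j => D i (E.f j)) = 1 := by
    ext i j
    rw [Matrix.of_apply, hD, Matrix.one_apply]
  rw [h1, Matrix.det_one]
  exact one_ne_zero

theorem cz_ord (P : Place ℂ K) : P.ord E.cz =
    P.ord (algebraMap κ K (E.C 1)) + P.ord (algebraMap κ K (E.C 2)) + P.ord E.z := by
  unfold cz
  rw [P.ord_mul (mul_ne_zero (map_ne (E.C_ne 1)) (map_ne (E.C_ne 2))) E.z_ne,
    P.ord_mul (map_ne (E.C_ne 1)) (map_ne (E.C_ne 2))]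

/-- three times the log discrepancy for `δ = 0`, if `c` is the order of the form -/
noncomputable def a3 (c : ℝ) (P : Place ℂ K) : ℝ := 3 * (1 + c) + P.ord E.cz + 2 * E.l3 P

theorem logDisc_eq (c δ : ℝ) (P : Place ℂ K) :
    logDisc c E.β (E.D δ) P = 1 / 3 * E.a3 c P - δ * E.S0 P := by
  unfold logDisc β D a3
  ring

variable [Algebra.EssFiniteType ℂ K] (hf : IsTranscendenceBasis ℂ E.f)
  {P : Place ℂ K} (hP : Divisorial 3 P)

include hf hP

theorem a3_ge : ∃ c : ℝ, OrdForm P E.form c ∧ (E.S0 P : ℝ) ≤ E.a3 c P ∧ 0 < E.a3 c P ∧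
    ((P.ord (algebraMap κ K (E.C 1)) = 0 ∧ P.ord (algebraMap κ K (E.C 2)) = 0 ∧ P.ord E.z = 0) →
      3 ≤ E.a3 c P ∧ E.S0 P = 0) := by
  have hn : Algebra.trdeg ℂ K = (3 : ℕ) := by
    rw [← hf.cardinalMk_eq_trdeg]
    simp
  obtain ⟨y, G, i0, hl⟩ := exists_loc hn hP
  have hG0 := form_loc_ne E.form_pluri (E.form_ne hf) hl
  have hc1 : algebraMap κ K (E.C 1) = algebraMap κ K E.y1 ^ 2 - 1 := by
    rw [E.C_one, map_sub, map_pow, map_one]
  have hc2 : algebraMap κ K (E.C 2) = algebraMap κ K E.y2 ^ 2 - 1 := by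
    rw [E.C_two, map_sub, map_pow, map_one]
  have hC1 := map_ne (K := K) (E.C_ne 1)
  have hC2 := map_ne (K := K) (E.C_ne 2)
  rw [hc1] at hC1
  rw [hc2] at hC2
  obtain ⟨e1, he1, hu1, hv1⟩ := ge_der (P := P) (map_ne (K := K) E.y1_ne) hC1
  obtain ⟨e2, he2, hu2, hv2⟩ := ge_der (P := P) (map_ne (K := K) E.y2_ne) hC2
  -- the logarithmic frame
  have hlog : ∀ i, DerLog P (Pool.Agent.Y172.lc y i0 i • G i) := hl.log
  have hdiag := pluri_diag E.form_pluri (Pool.Agent.Y172.lc y i0) G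
  rw [prod_lc, pow_one] at hdiag
  set dM : K := (Matrix.of fun i j => (Pool.Agent.Y172.lc y i0 i • G i) (E.f j)).det with hdM
  have hdd : dM = y i0 * E.form G * E.cz := by
    rw [← hdiag]
    unfold form
    rw [div_mul_cancel₀ _ E.cz_ne]
  have hdM0 : dM ≠ 0 := by
    rw [hdd]
    exact mul_ne_zero (mul_ne_zero hl.ne hG0) E.cz_ne
  have hord : P.ord dM = 1 + P.ord (E.form G) + P.ord E.cz := by
    rw [hdd, P.ord_mul (mul_ne_zero hl.ne hG0) E.cz_ne, P.ord_mul hl.ne hG0, hl.unif]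
  have hge : e1 + e2 + P.ord E.z ≤ P.ord dM := by
    have h1 : Ge P (e1 + e2 + P.ord E.z) dM := by
      rw [hdM, ← Matrix.det_transpose]
      refine ge_det P _ _ (fun a _ => ![e1, e2, P.ord E.z] a) (fun a b => ?_) fun σ => ?_
      · change Ge P _ ((Pool.Agent.Y172.lc y i0 b • G b) (E.f a))
        fin_cases a
        · exact he1 _ (hlog b)
        · exact he2 _ (hlog b)
        · exact DerLog.ge (hlog b) (Or.inr le_rfl)
      · rw [Equiv.sum_comp σ (fun a => ![e1, e2, P.ord E.z] a), Fin.sum_univ_three]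
        simp
    exact h1.resolve_left hdM0
  have hcz := E.cz_ord P
  rw [hc1, hc2] at hcz
  have hS : E.S0 P ≤ |P.ord E.z| := by
    unfold S0
    rw [lz_eq]
    have := E.l1_nonneg P
    have := E.l2_nonneg P
    rcases abs_cases (P.ord E.z) with h | h <;> omega
  have hl3 : P.ord E.z + 2 * E.l3 P = |P.ord E.z| := by
    unfold l3 ht
    rcases abs_cases (P.ord E.z) with h | h <;> omega
  -- three times the log discrepancy
  have key : (|P.ord E.z| : ℤ) + (3 * e1 - 2 * P.ord (algebraMap κ K E.y1 ^ 2 - 1)) +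
      (3 * e2 - 2 * P.ord (algebraMap κ K E.y2 ^ 2 - 1)) ≤
      3 * (1 + P.ord (E.form G)) + P.ord E.cz + 2 * E.l3 P := by
    rw [← hl3]
    omega
  have ha3 : E.a3 (P.ord (E.form G)) P =
      ((3 * (1 + P.ord (E.form G)) + P.ord E.cz + 2 * E.l3 P : ℤ) : ℝ) := by
    unfold a3
    push_cast
    ring
  -- the case in which the coordinates are regular
  have hreg : 0 ≤ P.ord (algebraMap κ K E.y1) → 0 ≤ P.ord (algebraMap κ K E.y2) →
      0 ≤ P.ord E.z → 0 ≤ P.ord (E.form G) + P.ord E.cz := by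
    intro h1 h2 h3
    have h4 : Ge P 0 (Matrix.of fun i j => G i (E.f j)).det := by
      refine ge_det P _ 0 (fun _ _ => 0) (fun a b => ?_) fun σ => by simp
      refine hl.pres a _ ?_
      fin_cases b
      · exact Or.inr h1
      · exact Or.inr h2
      · exact Or.inr h3
    have h5 : (Matrix.of fun i j => G i (E.f j)).det = E.form G * E.cz := by
      unfold form
      rw [div_mul_cancel₀ _ E.cz_ne]
    rw [h5] at h4
    have h6 := h4.resolve_left (mul_ne_zero hG0 E.cz_ne)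
    rwa [P.ord_mul hG0 E.cz_ne] at h6
  have hr1 : P.ord (algebraMap κ K E.y1 ^ 2 - 1) = 0 → 0 ≤ P.ord (algebraMap κ K E.y1) := by
    intro h
    have := ht_sq_sub_one P (map_ne (K := K) E.y1_ne)
    unfold ht at this
    omega
  have hr2 : P.ord (algebraMap κ K E.y2 ^ 2 - 1) = 0 → 0 ≤ P.ord (algebraMap κ K E.y2) := by
    intro h
    have := ht_sq_sub_one P (map_ne (K := K) E.y2_ne)
    unfold ht at this
    omega
  have h3 : ∀ _ : P.ord (algebraMap κ K E.y1 ^ 2 - 1) = 0 ∧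
      P.ord (algebraMap κ K E.y2 ^ 2 - 1) = 0 ∧ P.ord E.z = 0,
      3 ≤ 3 * (1 + P.ord (E.form G)) + P.ord E.cz + 2 * E.l3 P := by
    rintro ⟨h1, h2, h3⟩
    have h4 := hreg (hr1 h1) (hr2 h2) h3.ge
    have h5 := E.l3_nonneg P
    omega
  refine ⟨P.ord (E.form G), ordForm_loc E.form_pluri hl hG0, ?_, ?_, ?_⟩
  · rw [ha3]
    have h1 : E.S0 P ≤ 3 * (1 + P.ord (E.form G)) + P.ord E.cz + 2 * E.l3 P := by omega
    exact_mod_cast h1
  · rw [ha3]
    have h1 : 0 < 3 * (1 + P.ord (E.form G)) + P.ord E.cz + 2 * E.l3 P := by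
      by_contra hcon
      push Not at hcon
      have h4 : |P.ord E.z| = 0 := by
        have := abs_nonneg (P.ord E.z)
        omega
      have h5 : P.ord E.z = 0 := abs_eq_zero.1 h4
      have h6 := (hv1 (by omega)).2
      have h7 := (hv2 (by omega)).2
      have h8 := h3 ⟨h6, h7, h5⟩
      omega
    exact_mod_cast h1
  · rintro ⟨h4, h5, h6⟩
    rw [hc1] at h4
    rw [hc2] at h5
    refine ⟨?_, ?_⟩
    · rw [ha3]
      exact_mod_cast h3 ⟨h4, h5, h6⟩
    · have h7 := E.S0_nonneg P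
      rw [h6, abs_zero] at hS
      omega

/-- the pair is Kawamata log terminal -/
theorem gklt_aux {δ : ℝ} (hδ : δ < 1 / 3) : ∃ c, OrdForm P E.form c ∧
    0 < logDisc c E.β (E.D δ) P := by
  obtain ⟨c, hc, h1, h2, -⟩ := E.a3_ge hf hP
  refine ⟨c, hc, ?_⟩
  rw [logDisc_eq]
  rcases (E.S0_nonneg P).lt_or_eq with h3 | h3
  · have h4 : (0 : ℝ) < E.S0 P := by exact_mod_cast h3
    have h5 : δ * (E.S0 P : ℝ) < 1 / 3 * E.S0 P := mul_lt_mul_of_pos_right hδ h4
    linarith
  · rw [← h3, Int.cast_zero, mul_zero, sub_zero]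
    linarith

end Exa

end Pool.Agent.Q73.LT
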