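import Pool.Agent.Q73.LT.Sys
import Pool.Agent.Y172.Loc3

/-!
The integral closure of a finitely generated algebra is finitely generated; the charts of the
normalisation.
-/

set_option autoImplicit false

open FF

namespace Pool.Agent.Q73.LT

variable {K : Type} [Field K] [Algebra ℂ K]

theorem ic_fg [Algebra.EssFiniteType ℂ K] (R : Subalgebra ℂ K) [Algebra.FiniteType ℂ R]
    (hRK : Algebra.IsAlgebraic R K) :
    Algebra.FiniteType ℂ ((integralClosure R K).restrictScalars ℂ) := by
  obtain ⟨s, g, hg, hgint⟩ := exists_integral_inj_algHom_of_fg ℂ R
  let A := MvPolynomial (Fin s) ℂ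
  let _ : Algebra A R := g.toRingHom.toAlgebra
  have : IsScalarTower ℂ A R := IsScalarTower.of_algebraMap_eq fun c => (g.commutes c).symm
  have hint : Algebra.IsIntegral A R := ⟨hgint⟩
  have : FaithfulSMul A R := (faithfulSMul_iff_algebraMap_injective _ R).2 hg
  let _ : Algebra A K := ((algebraMap R K).comp g.toRingHom).toAlgebra
  have : IsScalarTower A R K := IsScalarTower.of_algebraMap_eq fun _ => rfl
  have : IsScalarTower ℂ A K := IsScalarTower.of_algebraMap_eq fun c => by
    change algebraMap ℂ K c = ((g (MvPolynomial.C c) : R) : K)
    have : g (MvPolynomial.C c) = algebraMap ℂ R c := g.commutes c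
    rw [this]
    rfl
  have hinj : Function.Injective (algebraMap A K) := by
    intro a b h
    exact hg (Subtype.ext h)
  have : FaithfulSMul A K := (faithfulSMul_iff_algebraMap_injective _ K).2 hinj
  have hAK : Algebra.IsAlgebraic A K := Algebra.IsAlgebraic.trans A R K
  let F := FractionRing A
  let _ : Algebra F K := FractionRing.liftAlgebra A K
  have : IsScalarTower A F K := FractionRing.isScalarTower_liftAlgebra A K
  have : IsScalarTower ℂ F K := IsScalarTower.to₁₃₄ ℂ A F K
  have hFK : Algebra.IsAlgebraic F K := Algebra.IsAlgebraic.extendScalars (R := A)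
    (IsFractionRing.injective A F)
  have : Algebra.EssFiniteType F K := Algebra.EssFiniteType.of_comp ℂ F K
  have : Module.Finite F K := Algebra.finite_of_essFiniteType_of_isAlgebraic
  have : CharZero F := charZero_of_injective_algebraMap (IsFractionRing.injective A F)
  have : Module.Finite A (integralClosure A K) := IsIntegralClosure.finite A F K _
  have h1 : Algebra.FiniteType ℂ (integralClosure A K) :=
    Algebra.FiniteType.trans (S := A) inferInstance inferInstance
  have h2 : (integralClosure A K).restrictScalars ℂ = (integralClosure R K).restrictScalars ℂ := by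
    ext x
    rw [Subalgebra.mem_restrictScalars, Subalgebra.mem_restrictScalars]
    constructor
    · intro h
      exact (h : IsIntegral A x).tower_top
    · intro h
      exact isIntegral_trans (A := R) x h
  have h3 : Algebra.FiniteType ℂ ((integralClosure A K).restrictScalars ℂ) := h1
  rw [h2] at h3
  exact h3

end Pool.Agent.Q73.LT
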