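import Pool.Agent.Q73.LT.Loc1

/-!
The charts of the normalisation.
-/

set_option autoImplicit false

open FF Pool.Agent.Y172

namespace Pool.Agent.Q73.LT

variable {K : Type} [Field K] [Algebra ℂ K] {y : Sys K}

/-- the field of the ratios of the coordinates -/
def ratios (y : Sys K) : Set K := {h | ∃ f ∈ y.s, ∃ g ∈ y.s, h = g / f}

theorem adjoin_ratios {f : K} (hf : f ∈ y.s) : IntermediateField.adjoin ℂ (ratios y) =
    IntermediateField.adjoin ℂ {h | ∃ g ∈ y.s, h = g / f} := by
  have hf0 := y.ne_zero hf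
  apply le_antisymm
  · rw [IntermediateField.adjoin_le_iff]
    rintro _ ⟨f', hf', g, hg, rfl⟩
    have h1 : g / f' = (g / f) / (f' / f) := by
      have := y.ne_zero hf'
      field_simp
    rw [h1]
    exact div_mem (IntermediateField.subset_adjoin _ _ ⟨g, hg, rfl⟩)
      (IntermediateField.subset_adjoin _ _ ⟨f', hf', rfl⟩)
  · apply IntermediateField.adjoin.mono
    rintro _ ⟨g, hg, rfl⟩
    exact ⟨f, hf, g, hg, rfl⟩

theorem finite_gens (y : Sys K) (f : K) : {h | ∃ g ∈ y.s, h = g / f}.Finite := by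
  have : {h | ∃ g ∈ y.s, h = g / f} = (fun g => g / f) '' (y.s : Set K) := by
    ext h
    simp [eq_comm]
  rw [this]
  exact y.s.finite_toSet.image _

theorem Model.ess (h : Model y) : Algebra.EssFiniteType ℂ K := by
  obtain ⟨f, hf⟩ := y.ne
  have h1 : FiniteDimensional (IntermediateField.adjoin ℂ (ratios y)) K := h
  rw [adjoin_ratios hf] at h1
  have h2 : Algebra.EssFiniteType ℂ (IntermediateField.adjoin ℂ {h | ∃ g ∈ y.s, h = g / f}) := by
    rw [IntermediateField.essFiniteType_iff]
    exact IntermediateField.fg_def.2 ⟨_, finite_gens y f, rfl⟩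
  exact Algebra.EssFiniteType.comp ℂ (IntermediateField.adjoin ℂ {h | ∃ g ∈ y.s, h = g / f}) K

instance (y : Sys K) (f : K) : Algebra.FiniteType ℂ (chart y f) := by
  rw [← Subalgebra.fg_iff_finiteType]
  exact ⟨(finite_gens y f).toFinset, by
    rw [Set.Finite.coe_toFinset]
    rfl⟩

open scoped IntermediateField.algebraAdjoinAdjoin in
theorem Model.alg (h : Model y) {f : K} (hf : f ∈ y.s) : Algebra.IsAlgebraic (chart y f) K := by
  have h1 : FiniteDimensional (IntermediateField.adjoin ℂ (ratios y)) K := h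
  rw [adjoin_ratios hf] at h1
  have h2 : Algebra.IsAlgebraic (IntermediateField.adjoin ℂ {h | ∃ g ∈ y.s, h = g / f}) K :=
    inferInstance
  exact (IsFractionRing.comap_isAlgebraic_iff (A := Algebra.adjoin ℂ {h | ∃ g ∈ y.s, h = g / f})
    (K := IntermediateField.adjoin ℂ {h | ∃ g ∈ y.s, h = g / f}) (C := K)).2 h2

theorem Model.fg (h : Model y) {f : K} (hf : f ∈ y.s) : Algebra.FiniteType ℂ (nchart y f) := by
  have := h.ess
  exact ic_fg (chart y f) (h.alg hf)

theorem Model.noeth (h : Model y) {f : K} (hf : f ∈ y.s) : IsNoetherianRing (nchart y f) := by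
  have := h.fg hf
  exact Algebra.FiniteType.isNoetherianRing ℂ _

theorem mem_nchart {f x : K} : x ∈ nchart y f ↔ IsIntegral (chart y f) x := Iff.rfl

theorem chart_le (y : Sys K) (f : K) : chart y f ≤ nchart y f := by
  intro x hx
  rw [mem_nchart]
  exact isIntegral_algebraMap (R := chart y f) (x := ⟨x, hx⟩)

theorem gen_mem_chart {f g : K} (hg : g ∈ y.s) : g / f ∈ chart y f :=
  Algebra.subset_adjoin ⟨g, hg, rfl⟩

theorem gen_mem {f g : K} (hg : g ∈ y.s) : g / f ∈ nchart y f := chart_le y f (gen_mem_chart hg)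

/-- every element is a quotient of an element of the chart of the normalisation and of an element of
the chart -/
theorem Model.exists_mul (h : Model y) {f : K} (hf : f ∈ y.s) (x : K) :
    ∃ b ∈ chart y f, b ≠ 0 ∧ b * x ∈ nchart y f := by
  have := h.alg hf
  obtain ⟨b, hb, hx⟩ := (Algebra.IsAlgebraic.isAlgebraic (R := chart y f) x).exists_integral_multiple
  exact ⟨b, b.2, fun h0 => hb (Subtype.ext h0), hx⟩

theorem Model.frac (h : Model y) {f : K} (hf : f ∈ y.s) : IsFractionRing (nchart y f) K := by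
  refine IsFractionRing.of_field _ K fun z => ?_
  obtain ⟨b, hb, hb0, hbz⟩ := h.exists_mul hf z
  refine ⟨⟨b * z, hbz⟩, ⟨b, chart_le y f hb⟩, ?_⟩
  change z = b * z / b
  rw [mul_comm, mul_div_assoc, div_self hb0, mul_one]

theorem Model.normal (h : Model y) {f : K} (hf : f ∈ y.s) : IsIntegrallyClosed (nchart y f) := by
  have := h.frac hf
  rw [isIntegrallyClosed_iff K]
  intro x hx
  have h1 : IsIntegral (chart y f) x := by
    have h2 : IsIntegral (integralClosure (chart y f) K) x := hx
    exact isIntegral_trans (A := integralClosure (chart y f) K) x h2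
  exact ⟨⟨x, h1⟩, rfl⟩

theorem reg_chart {f : K} {P : Place ℂ K} (h : Top y f P) : ∀ r ∈ chart y f, P.Reg r := by
  intro r hr
  have h1 : chart y f ≤ ({ P.O.toSubring with
      algebraMap_mem' := fun c => P.reg_const c } : Subalgebra ℂ K) := by
    apply Algebra.adjoin_le
    rintro _ ⟨g, hg, rfl⟩
    exact h.2 g hg
  exact h1 hr

/-- integral elements over a subring of the valuation ring are regular -/
theorem reg_of_int {R : Subalgebra ℂ K} {P : Place ℂ K} (hR : ∀ r ∈ R, P.Reg r) {x : K}
    (hx : IsIntegral R x) : P.Reg x := by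
  let φ : R →+* P.O := (algebraMap R K).codRestrict P.O fun r => hR r r.2
  have h1 : IsIntegral P.O x := by
    obtain ⟨p, hp, hpx⟩ := hx
    refine ⟨p.map φ, hp.map φ, ?_⟩
    rw [Polynomial.eval₂_map]
    exact hpx
  obtain ⟨z, hz⟩ := IsIntegrallyClosed.isIntegral_iff.1 h1
  rw [← hz]
  exact z.2

theorem Top.reg {f : K} {P : Place ℂ K} (h : Top y f P) : ∀ r ∈ nchart y f, P.Reg r :=
  fun _ hr => reg_of_int (reg_chart h) (mem_nchart.1 hr)

end Pool.Agent.Q73.LT
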