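import Pool.Agent.Q73.LT.Loc2

/-!
Local rings, prime divisors, Hartogs.
-/

set_option autoImplicit false

open FF Pool.Agent.Y172 Pool.Agent.W602.GT

namespace Pool.Agent.Q73.LT

variable {K : Type} [Field K] [Algebra ℂ K] {y : Sys K}

/-- change of the chart -/
theorem chart_change {f f' : K} (hf : f ∈ y.s) (hf' : f' ∈ y.s) {a : K}
    (ha : a ∈ chart y f') : ∃ k : ℕ, a * (f' / f) ^ k ∈ chart y f := by
  have hf0 := y.ne_zero hf
  have hf0' := y.ne_zero hf'
  induction ha using Algebra.adjoin_induction with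
  | mem x hx =>
    obtain ⟨g, hg, rfl⟩ := hx
    refine ⟨1, ?_⟩
    have : g / f' * (f' / f) ^ 1 = g / f := by
      field_simp
    rw [this]
    exact gen_mem_chart hg
  | algebraMap r => exact ⟨0, by rw [pow_zero, mul_one]; exact (chart y f).algebraMap_mem r⟩
  | add x z _ _ hx hz =>
    obtain ⟨k, hk⟩ := hx
    obtain ⟨l, hl⟩ := hz
    refine ⟨k + l, ?_⟩
    have : (x + z) * (f' / f) ^ (k + l) = x * (f' / f) ^ k * (f' / f) ^ l +
        z * (f' / f) ^ l * (f' / f) ^ k := by ring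
    rw [this]
    exact (chart y f).add_mem ((chart y f).mul_mem hk ((chart y f).pow_mem (gen_mem_chart hf') _))
      ((chart y f).mul_mem hl ((chart y f).pow_mem (gen_mem_chart hf') _))
  | mul x z _ _ hx hz =>
    obtain ⟨k, hk⟩ := hx
    obtain ⟨l, hl⟩ := hz
    refine ⟨k + l, ?_⟩
    have : (x * z) * (f' / f) ^ (k + l) = (x * (f' / f) ^ k) *
        (z * (f' / f) ^ l) := by ring
    rw [this]
    exact (chart y f).mul_mem hk hl

open Polynomial in
/-- change of the chart, for the normalisation -/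
theorem nchart_change {f f' : K} (hf : f ∈ y.s) (hf' : f' ∈ y.s) {a : K}
    (ha : a ∈ nchart y f') : ∃ k : ℕ, a * (f' / f) ^ k ∈ nchart y f := by
  obtain ⟨p, hp, hpa⟩ := mem_nchart.1 ha
  have h1 : ∀ i, ∃ k : ℕ, ((p.coeff i : chart y f') : K) * (f' / f) ^ k ∈ chart y f :=
    fun i => chart_change hf hf' (p.coeff i).2
  choose k hk using h1
  let n := p.natDegree
  let t := f' / f
  let M := ∑ i ∈ Finset.range n, k i
  have hM : ∀ i, i < n → ((p.coeff i : chart y f') : K) * t ^ (M * (n - i)) ∈ chart y f := by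
    intro i hi
    have h2 : k i ≤ M * (n - i) := by
      have h3 : k i ≤ M := Finset.single_le_sum (f := k) (fun _ _ => Nat.zero_le _)
        (Finset.mem_range.2 hi)
      calc k i ≤ M * 1 := by rw [mul_one]; exact h3
        _ ≤ M * (n - i) := Nat.mul_le_mul_left _ (by omega)
    obtain ⟨l, hl⟩ := Nat.exists_eq_add_of_le h2
    rw [hl, pow_add, ← mul_assoc]
    exact (chart y f).mul_mem (hk i) ((chart y f).pow_mem (gen_mem_chart hf') _)
  refine ⟨M, ?_⟩
  rw [mem_nchart]
  -- the equation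
  have h2 : a ^ n + ∑ i ∈ Finset.range n, ((p.coeff i : chart y f') : K) * a ^ i = 0 := by
    have h3 := hpa
    rw [eval₂_eq_sum_range, Finset.sum_range_succ] at h3
    have h4 : p.coeff p.natDegree = 1 := hp
    rw [h4, map_one, one_mul] at h3
    rw [add_comm]
    exact h3
  have h3 : (a * t ^ M) ^ n + ∑ i ∈ Finset.range n,
      (((p.coeff i : chart y f') : K) * t ^ (M * (n - i))) * (a * t ^ M) ^ i = 0 := by
    have h4 : (a * t ^ M) ^ n + ∑ i ∈ Finset.range n,
      (((p.coeff i : chart y f') : K) * t ^ (M * (n - i))) * (a * t ^ M) ^ i = t ^ (M * n) *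
        (a ^ n + ∑ i ∈ Finset.range n, ((p.coeff i : chart y f') : K) * a ^ i) := by
      rw [mul_add, Finset.mul_sum]
      congr 1
      · rw [mul_pow, ← pow_mul]
        ring
      · refine Finset.sum_congr rfl fun i hi => ?_
        have h5 : i < n := Finset.mem_range.1 hi
        have h6 : M * n = M * (n - i) + M * i := by
          rw [← Nat.mul_add]
          congr 1
          omega
        rw [h6, mul_pow, ← pow_mul, pow_add]
        ring
    rw [h4, h2, mul_zero]
  let q : (chart y f)[X] := X ^ n + ∑ i : Fin n, C ⟨_, hM i i.2⟩ * X ^ (i : ℕ)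
  refine ⟨q, ?_, ?_⟩
  · apply monic_X_pow_add
    refine (degree_sum_le _ _).trans_lt ?_
    rw [Finset.sup_lt_iff (by exact WithBot.bot_lt_coe n)]
    intro i _
    refine (degree_C_mul_X_pow_le _ _).trans_lt ?_
    exact_mod_cast i.2
  · simp only [q, eval₂_add, eval₂_finset_sum, eval₂_mul, eval₂_C, eval₂_pow, eval₂_X]
    rw [← h3]
    congr 1
    rw [← Fin.sum_univ_eq_sum_range (fun i =>
      (((p.coeff i : chart y f') : K) * t ^ (M * (n - i))) * (a * t ^ M) ^ i) n]
    rfl

theorem Top.unit {f f' : K} {P : Place ℂ K} (h : Top y f P) (h' : Top y f' P) :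
    P.ord (f' / f) = 0 := by
  rw [P.ord_div (y.ne_zero h'.1) (y.ne_zero h.1)]
  have h1 := h.L
  have h2 := h'.L
  omega

/-- the local ring can be computed in any chart -/
theorem mem_localRing {f : K} {P : Place ℂ K} (h : Top y f P) {x : K} :
    x ∈ localRing y P ↔
      ∃ a ∈ nchart y f, ∃ b ∈ nchart y f, b ≠ 0 ∧ P.ord b = 0 ∧ x * b = a := by
  constructor
  · rintro ⟨f', h', a, ha, b, hb, hb0, hbo, hab⟩
    obtain ⟨k, hk⟩ := nchart_change h.1 h'.1 ha
    obtain ⟨l, hl⟩ := nchart_change h.1 h'.1 hb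
    have hu : f' / f ≠ 0 := div_ne_zero (y.ne_zero h'.1) (y.ne_zero h.1)
    refine ⟨a * (f' / f) ^ k * (f' / f) ^ l,
      (nchart y f).mul_mem hk ((nchart y f).pow_mem (gen_mem h'.1) _),
      b * (f' / f) ^ l * (f' / f) ^ k,
      (nchart y f).mul_mem hl ((nchart y f).pow_mem (gen_mem h'.1) _),
      mul_ne_zero (mul_ne_zero hb0 (pow_ne_zero _ hu)) (pow_ne_zero _ hu), ?_, ?_⟩
    · rw [P.ord_mul (mul_ne_zero hb0 (pow_ne_zero _ hu)) (pow_ne_zero _ hu),
        P.ord_mul hb0 (pow_ne_zero _ hu), P.ord_pow, P.ord_pow, h.unit h', hbo]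
      ring
    · rw [← hab]
      ring
  · rintro ⟨a, ha, b, hb, hb0, hbo, hab⟩
    exact ⟨f, h, a, ha, b, hb, hb0, hbo, hab⟩

theorem nchart_localRing {f : K} {P : Place ℂ K} (h : Top y f P) {x : K}
    (hx : x ∈ nchart y f) : x ∈ localRing y P :=
  ⟨f, h, x, hx, 1, (nchart y f).one_mem, one_ne_zero, P.ord_one, mul_one x⟩

theorem localRing_reg {P : Place ℂ K} {x : K} (hx : x ∈ localRing y P) : P.Reg x := by
  obtain ⟨f, h, a, ha, b, hb, hb0, hbo, hab⟩ := hx
  by_cases hx0 : x = 0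
  · exact Or.inl hx0
  right
  have h1 := (P.reg_iff (by rw [← hab]; exact mul_ne_zero hx0 hb0)).1 (h.reg a ha)
  rw [← hab, P.ord_mul hx0 hb0, hbo, add_zero] at h1
  exact h1

theorem Through.refl (y : Sys K) (P : Place ℂ K) : Through y P P := fun _ h => localRing_reg h

theorem Through.top {P Q : Place ℂ K} (h : Through y P Q) {f : K} (hQ : Top y f Q) : Top y f P :=
  ⟨hQ.1, fun _ hg => h _ (nchart_localRing hQ (gen_mem hg))⟩

theorem localRing_mul {P : Place ℂ K} {x z : K} (hx : x ∈ localRing y P) (hz : z ∈ localRing y P) :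
    x * z ∈ localRing y P := by
  obtain ⟨f, hf⟩ := exists_top y P
  obtain ⟨a, ha, b, hb, hb0, hbo, hab⟩ := (mem_localRing hf).1 hx
  obtain ⟨a', ha', b', hb', hb0', hbo', hab'⟩ := (mem_localRing hf).1 hz
  refine (mem_localRing hf).2 ⟨a * a', (nchart y f).mul_mem ha ha', b * b',
    (nchart y f).mul_mem hb hb', mul_ne_zero hb0 hb0', ?_, ?_⟩
  · rw [P.ord_mul hb0 hb0', hbo, hbo', add_zero]
  · rw [← hab, ← hab']
    ring

theorem localRing_add {P : Place ℂ K} {x z : K} (hx : x ∈ localRing y P) (hz : z ∈ localRing y P) :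
    x + z ∈ localRing y P := by
  obtain ⟨f, hf⟩ := exists_top y P
  obtain ⟨a, ha, b, hb, hb0, hbo, hab⟩ := (mem_localRing hf).1 hx
  obtain ⟨a', ha', b', hb', hb0', hbo', hab'⟩ := (mem_localRing hf).1 hz
  refine (mem_localRing hf).2 ⟨a * b' + a' * b, (nchart y f).add_mem
    ((nchart y f).mul_mem ha hb') ((nchart y f).mul_mem ha' hb), b * b',
    (nchart y f).mul_mem hb hb', mul_ne_zero hb0 hb0', ?_, ?_⟩
  · rw [P.ord_mul hb0 hb0', hbo, hbo', add_zero]
  · rw [← hab, ← hab']
    ring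

theorem localRing_const {P : Place ℂ K} (c : ℂ) : algebraMap ℂ K c ∈ localRing y P := by
  obtain ⟨f, hf⟩ := exists_top y P
  exact nchart_localRing hf ((nchart y f).algebraMap_mem c)

theorem localRing_one (P : Place ℂ K) : (1 : K) ∈ localRing y P := by
  obtain ⟨f, hf⟩ := exists_top y P
  exact nchart_localRing hf (nchart y f).one_mem

theorem localRing_inv {P : Place ℂ K} {x : K} (hx : x ∈ localRing y P) (hx0 : x ≠ 0)
    (hxo : P.ord x = 0) : x⁻¹ ∈ localRing y P := by
  obtain ⟨f, hf⟩ := exists_top y P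
  obtain ⟨a, ha, b, hb, hb0, hbo, hab⟩ := (mem_localRing hf).1 hx
  refine (mem_localRing hf).2 ⟨b, hb, a, ha, ?_, ?_, ?_⟩
  · rw [← hab]
    exact mul_ne_zero hx0 hb0
  · rw [← hab, P.ord_mul hx0 hb0, hxo, hbo, add_zero]
  · rw [← hab]
    field_simp

/-- the local ring as a subalgebra -/
def locAlg (y : Sys K) (P : Place ℂ K) : Subalgebra ℂ K where
  carrier := localRing y P
  mul_mem' := localRing_mul
  add_mem' := localRing_add
  algebraMap_mem' := localRing_const

theorem mem_locAlg {P : Place ℂ K} {x : K} : x ∈ locAlg y P ↔ x ∈ localRing y P := Iff.rfl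

/-- prime divisors are divisorial -/
theorem IsPrimeDivisor.divisorial (hy : Model y) {n : ℕ} (hn : Algebra.trdeg ℂ K = n)
    {P : Place ℂ K} (hP : IsPrimeDivisor y P) : Divisorial n P := by
  obtain ⟨f, hf⟩ := exists_top y P
  have := hy.frac hf.1
  have := hy.normal hf.1
  have := hy.fg hf.1
  exact divisorial_of_local (nchart y f) hn hf.reg fun x hx => (mem_localRing hf).1 (hP x hx)

/-- **Hartogs.** A function which is regular at all prime divisors through a centre is in the local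
ring. -/
theorem mem_localRing_of_reg (hy : Model y) {Q : Place ℂ K} {x : K}
    (hx : ∀ P, IsPrimeDivisor y P → Through y P Q → P.Reg x) : x ∈ localRing y Q := by
  obtain ⟨f, hj⟩ := exists_top y Q
  have := hy.frac hj.1
  have := hy.normal hj.1
  have := hy.noeth hj.1
  by_contra hcon
  rw [mem_localRing hj] at hcon
  have h1 : ¬ ∃ a b : nchart y f, b ∉ centre (nchart y f) Q hj.reg ∧
      x * algebraMap (nchart y f) K b = algebraMap (nchart y f) K a := by
    rintro ⟨a, b, hb, hab⟩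
    rw [notMem_centre] at hb
    exact hcon ⟨a, a.2, b, b.2, fun h => hb.1 (Subtype.ext h), hb.2, hab⟩
  obtain ⟨p, hp, hpq, ⟨t, ht, ht0, htp⟩, hfp⟩ := exists_assoc (centre (nchart y f) Q hj.reg) h1
  obtain ⟨P, hPr, hPp⟩ := exists_place_local (nchart y f) p ht ht0 htp
  have hPreg : ∀ r ∈ nchart y f, P.Reg r := fun r hr => (hPr r).2
    ⟨⟨r, hr⟩, 1, fun h => hp.ne_top ((Ideal.eq_top_iff_one p).2 h), by
      change r * (1 : K) = r
      rw [mul_one]⟩
  have hPc : Top y f P := ⟨hj.1, fun g hg => hPreg _ (gen_mem hg)⟩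
  have hun : ∀ b : nchart y f, b ∉ p → (b : K) ≠ 0 ∧ P.ord (b : K) = 0 := by
    intro b hb
    rw [hPp] at hb
    push Not at hb
    have h2 : (b : K) ≠ 0 := fun h => hb.1 (Subtype.ext h)
    have h3 := (P.reg_iff h2).1 (hPreg b b.2)
    exact ⟨h2, by have := hb.2; omega⟩
  have hPd : IsPrimeDivisor y P := by
    intro g hg
    obtain ⟨a, b, hb, hab⟩ := (hPr g).1 hg
    exact ⟨f, hPc, a, a.2, b, b.2, (hun b hb).1, (hun b hb).2, hab⟩
  have hPt : Through y P Q := by
    intro g hg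
    obtain ⟨a, ha, b, hb, hb0, hbo, hab⟩ := (mem_localRing hj).1 hg
    refine (hPr g).2 ⟨⟨a, ha⟩, ⟨b, hb⟩, fun h => ?_, hab⟩
    have h2 := mem_centre.1 (hpq h)
    rcases h2 with h2 | h2
    · exact hb0 (congrArg Subtype.val h2)
    · change 0 < Q.ord b at h2
      omega
  exact hfp ((hPr x).1 (hx P hPd hPt))

/-- prime divisors are determined by their centres -/
theorem IsPrimeDivisor.eq_of_centre {P P' : Place ℂ K} (hP : IsPrimeDivisor y P)
    {f : K} (hj : Top y f P) (hj' : Top y f P')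
    (h : centre (nchart y f) P hj.reg = centre (nchart y f) P' hj'.reg) : P = P' := by
  apply Place.eq_of_le
  intro g hf h0
  obtain ⟨a, ha, b, hb, hb0, hbo, hab⟩ := (mem_localRing hj).1 (hP g (Or.inr h0))
  have h1 : (⟨b, hb⟩ : nchart y f) ∉ centre (nchart y f) P hj.reg :=
    notMem_centre.2 ⟨fun h => hb0 (congrArg Subtype.val h), hbo⟩
  rw [h, notMem_centre] at h1
  have h2 : P'.ord b = 0 := h1.2
  have h3 := (P'.reg_iff (by rw [← hab]; exact mul_ne_zero hf hb0)).1 (hj'.reg a ha)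
  rw [← hab, P'.ord_mul hf hb0, h2, add_zero] at h3
  exact h3

theorem finite_pos (hy : Model y) {f : K} {a : K}
    (ha : a ∈ nchart y f) (ha0 : a ≠ 0) :
    {P : Place ℂ K | IsPrimeDivisor y P ∧ Top y f P ∧ 0 < P.ord a}.Finite := by
  classical
  by_cases hf : f ∈ y.s
  swap
  · refine Set.finite_empty.subset ?_
    rintro P ⟨-, hc, -⟩
    exact absurd hc.1 hf
  have := hy.noeth hf
  let F : Place ℂ K → Ideal (nchart y f) := fun P =>
    if h : Top y f P then centre (nchart y f) P h.reg else ⊤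
  have hF : ∀ P (h : Top y f P), F P = centre (nchart y f) P h.reg := fun P h => dif_pos h
  refine Set.Finite.of_finite_image (f := F) ?_ ?_
  · refine (Ideal.finite_minimalPrimes_of_isNoetherianRing (nchart y f)
      (Ideal.span {(⟨a, ha⟩ : nchart y f)})).subset ?_
    rintro _ ⟨P, ⟨hP, hc, hpos⟩, rfl⟩
    rw [hF P hc]
    have h1 : Ideal.span {(⟨a, ha⟩ : nchart y f)} ≤ centre (nchart y f) P hc.reg := by
      rw [Ideal.span_singleton_le_iff_mem, mem_centre]
      exact Or.inr hpos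
    obtain ⟨p, hp, hpc⟩ := Ideal.exists_minimalPrimes_le h1
    have hp0 : p ≠ ⊥ := by
      rintro rfl
      have h2 := hp.1.2 (Ideal.mem_span_singleton_self _)
      rw [Ideal.mem_bot] at h2
      exact ha0 (congrArg Subtype.val h2)
    have h3 := height_one hc.reg (fun f hf => (mem_localRing hc).1 (hP f hf)) hp.1.1 hp0 hpc
    rw [← h3]
    exact hp
  · rintro P ⟨hP, hc, -⟩ P' ⟨-, hc', -⟩ h
    rw [hF P hc, hF P' hc'] at h
    exact hP.eq_of_centre hc hc' h

/-- a nonzero function has finitely many zeros and poles -/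
theorem finite_ord (hy : Model y) {x : K} (hx : x ≠ 0) :
    {P : Place ℂ K | IsPrimeDivisor y P ∧ P.ord x ≠ 0}.Finite := by
  have h1 : ∀ f : y.s, {P : Place ℂ K | IsPrimeDivisor y P ∧ Top y f P ∧ P.ord x ≠ 0}.Finite := by
    rintro ⟨f, hj⟩
    have := hy.frac hj
    obtain ⟨a, b, hb, hab⟩ := IsFractionRing.div_surjective (nchart y f) x
    have hb0 : (b : K) ≠ 0 := fun h => nonZeroDivisors.ne_zero hb (Subtype.ext h)
    have hab' : x = (a : K) / b := hab.symm
    have ha0 : (a : K) ≠ 0 := by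
      intro h
      rw [h, zero_div] at hab'
      exact hx hab'
    refine ((finite_pos hy a.2 ha0).union (finite_pos hy b.2 hb0)).subset ?_
    rintro P ⟨hP, hc, ho⟩
    have h2 := (P.reg_iff ha0).1 (hc.reg a a.2)
    have h3 := (P.reg_iff hb0).1 (hc.reg b b.2)
    rw [hab', P.ord_div ha0 hb0] at ho
    by_cases h4 : 0 < P.ord (a : K)
    · exact Or.inl ⟨hP, hc, h4⟩
    · exact Or.inr ⟨hP, hc, by omega⟩
  refine (Set.finite_iUnion h1).subset ?_
  rintro P ⟨hP, ho⟩
  obtain ⟨f, hf⟩ := exists_top y P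
  exact Set.mem_iUnion.2 ⟨⟨f, hf.1⟩, hP, hf, ho⟩

end Pool.Agent.Q73.LT
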