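import Pool.Agent.Q73.LT.Gauss
import Pool.Agent.Y172.Cov2

/-!
The abscissas of the points of the curve `y ^ 2 = x ^ 3 + 1`: local heights.
-/

set_option autoImplicit false

open FF Pool.Agent.W603.LV

namespace Pool.Agent.Q73.LT

section val

variable {F : Type} [Field F] [Algebra ℂ F] (v : Place ℂ F)

/-- the local height -/
def ht (f : F) : ℤ := max 0 (- v.ord f)

theorem ht_nonneg (f : F) : 0 ≤ ht v f := le_max_left _ _

theorem ge_ht (f : F) : Ge v (- ht v f) f := by
  right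
  unfold ht
  omega

theorem ge_ht_one (f : F) : Ge v (- ht v f) (1 : F) := by
  right
  rw [v.ord_one]
  unfold ht
  omega

theorem not_ge_const {c : ℂ} (hc : c ≠ 0) {m : ℤ} (hm : 0 < m) : ¬ Ge v m (algebraMap ℂ F c) := by
  rintro (h | h)
  · rw [map_eq_zero] at h
    exact hc h
  · rw [v.ord_const hc] at h
    omega

theorem gauss_le {a b : F} (ha : a ≠ 0) (hb : b ≠ 0) {m : ℤ} (h0 : m ≤ 0) (h1 : Ge v m (a + b))
    (h2 : Ge v m (a * b)) : m ≤ - ht v a - ht v b := by
  unfold ht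
  rcases le_or_gt 0 (v.ord a) with h3 | h3 <;> rcases le_or_gt 0 (v.ord b) with h4 | h4
  · omega
  · have h5 := v.ord_add_eq hb ha (by omega)
    rw [add_comm] at h1
    have h6 := h1.resolve_left h5.1
    rw [h5.2] at h6
    omega
  · have h5 := v.ord_add_eq ha hb (by omega)
    have h6 := h1.resolve_left h5.1
    rw [h5.2] at h6
    omega
  · have h6 := h2.resolve_left (mul_ne_zero ha hb)
    rw [v.ord_mul ha hb] at h6
    omega

theorem ge_bi {x x' : F} {i j : ℕ} (hi : i ≤ 2) (hj : j ≤ 2) :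
    Ge v (-2 * ht v x - 2 * ht v x') (x ^ i * x' ^ j) := by
  have h1 := ((ge_ht v x).pow i).mul ((ge_ht v x').pow j)
  refine h1.mono ?_
  have h2 := ht_nonneg v x
  have h3 := ht_nonneg v x'
  have h4 : (i : ℤ) ≤ 2 := by exact_mod_cast hi
  have h5 : (j : ℤ) ≤ 2 := by exact_mod_cast hj
  nlinarith

/-- the parallelogram law for the abscissas -/
theorem par {a b x x' : F} (ha : a ≠ 0) (hb : b ≠ 0) (hx : x ≠ 0) (hx' : x' ≠ 0) (hq : x ≠ x')
    (h1 : (a + b) * (x - x') ^ 2 = 2 * (x * x' * (x + x') + 2))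
    (h2 : a * b * (x - x') ^ 2 = x ^ 2 * x' ^ 2 - 4 * (x + x')) :
    ht v a + ht v b = 2 * ht v x + 2 * ht v x' + 2 * v.ord (x - x') := by
  have hq0 : x - x' ≠ 0 := sub_ne_zero.2 hq
  have hq2 : (x - x') ^ 2 ≠ 0 := pow_ne_zero _ hq0
  have hoq : v.ord ((x - x') ^ 2) = 2 * v.ord (x - x') := by
    rw [v.ord_pow]
    norm_num
  have hn1 : ∀ n : ℕ, Ge v 0 (n : F) := fun n => Ge.natCast n
  have hsmul : ∀ (n : ℕ) {m : ℤ} {f : F}, Ge v m f → Ge v m ((n : F) * f) := by
    intro n m f hf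
    have := (hn1 n).mul hf
    rwa [zero_add] at this
  -- the lower bounds
  set t : ℤ := 2 * ht v x + 2 * ht v x' with ht'
  have hbi : ∀ {i j : ℕ}, i ≤ 2 → j ≤ 2 → Ge v (-t) (x ^ i * x' ^ j) := by
    intro i j hi hj
    refine (ge_bi v hi hj).mono ?_
    omega
  have hQ : Ge v (-t) ((x - x') ^ 2) := by
    have : (x - x') ^ 2 = x ^ 2 * x' ^ 0 - ((2 : ℕ) : F) * (x ^ 1 * x' ^ 1) + x ^ 0 * x' ^ 2 := by
      push_cast
      ring
    rw [this]
    exact ((hbi le_rfl (by norm_num)).sub (hsmul 2 (hbi (by norm_num) (by norm_num)))).add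
      (hbi (by norm_num) le_rfl)
  have hA : Ge v (-t) (2 * (x * x' * (x + x') + 2)) := by
    have : 2 * (x * x' * (x + x') + 2) = ((2 : ℕ) : F) * (x ^ 2 * x' ^ 1 + x ^ 1 * x' ^ 2 +
        ((2 : ℕ) : F) * (x ^ 0 * x' ^ 0)) := by
      push_cast
      ring
    rw [this]
    exact hsmul 2 (((hbi le_rfl (by norm_num)).add (hbi (by norm_num) le_rfl)).add
      (hsmul 2 (hbi (by norm_num) (by norm_num))))
  have hB : Ge v (-t) (x ^ 2 * x' ^ 2 - 4 * (x + x')) := by
    have : x ^ 2 * x' ^ 2 - 4 * (x + x') = x ^ 2 * x' ^ 2 - ((4 : ℕ) : F) *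
        (x ^ 1 * x' ^ 0 + x ^ 0 * x' ^ 1) := by
      push_cast
      ring
    rw [this]
    exact (hbi le_rfl le_rfl).sub (hsmul 4 ((hbi (by norm_num) (by norm_num)).add
      (hbi (by norm_num) (by norm_num))))
  apply le_antisymm
  · -- the first inequality
    have h3 : Ge v (-t - 2 * v.ord (x - x')) (1 : F) := by
      refine Ge.of_mul' hq2 hoq ?_
      rw [mul_one]
      refine hQ.mono ?_
      omega
    have h4 : Ge v (-t - 2 * v.ord (x - x')) (a + b) := by
      refine Ge.of_mul' hq2 hoq ?_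
      rw [mul_comm ((x - x') ^ 2), h1]
      refine hA.mono ?_
      omega
    have h5 : Ge v (-t - 2 * v.ord (x - x')) (a * b) := by
      refine Ge.of_mul' hq2 hoq ?_
      rw [mul_comm ((x - x') ^ 2), h2]
      refine hB.mono ?_
      omega
    have h6 := h3.resolve_left one_ne_zero
    rw [v.ord_one] at h6
    have h7 := gauss_le v ha hb h6 h4 h5
    omega
  · -- the second inequality
    by_contra hcon
    push Not at hcon
    have hm : -t + 1 ≤ -(ht v a + ht v b) + 2 * v.ord (x - x') := by omega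
    have h3 : Ge v (-t + 1) ((x - x') ^ 2) := by
      right
      rw [hoq]
      have := ht_nonneg v a
      have := ht_nonneg v b
      omega
    have h4 : Ge v (-t + 1) (2 * (x * x' * (x + x') + 2)) := by
      rw [← h1]
      have h5 : Ge v (-(ht v a + ht v b)) (a + b) := by
        refine Ge.add ((ge_ht v a).mono ?_) ((ge_ht v b).mono ?_)
        · have := ht_nonneg v b
          omega
        · have := ht_nonneg v a
          omega
      exact (h5.mul (Or.inr hoq.ge)).mono hm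
    have h5 : Ge v (-t + 1) (x ^ 2 * x' ^ 2 - 4 * (x + x')) := by
      rw [← h2]
      have h5 : Ge v (-(ht v a + ht v b)) (a * b) := ((ge_ht v a).mul (ge_ht v b)).mono (by omega)
      exact (h5.mul (Or.inr hoq.ge)).mono hm
    rcases le_or_gt 0 (v.ord x) with h6 | h6 <;> rcases le_or_gt 0 (v.ord x') with h7 | h7
    · -- both are regular
      have ht0 : t = 0 := by
        rw [ht']
        unfold ht
        omega
      rw [ht0] at h3 h4 h5
      have hq1 : Ge v 1 (x - x') := by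
        right
        have h8 := h3.resolve_left hq2
        rw [hoq] at h8
        omega
      have hx0 : Ge v 0 x := Or.inr h6
      have hx0' : Ge v 0 x' := Or.inr h7
      have key : algebraMap ℂ F 36 = (((9 : ℕ) : F) - x ^ 3) * (2 * (x * x' * (x + x') + 2)) +
          ((4 : ℕ) : F) * x ^ 2 * (x ^ 2 * x' ^ 2 - 4 * (x + x')) +
          ((((9 : ℕ) : F) - x ^ 3) * (((2 : ℕ) : F) * x * (x' + ((2 : ℕ) : F) * x)) +
            ((4 : ℕ) : F) * x ^ 2 * (x ^ 2 * (x + x') - ((4 : ℕ) : F))) * (x - x') := by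
        rw [show (36 : ℂ) = ((36 : ℕ) : ℂ) by norm_num, map_natCast]
        push_cast
        ring
      have h8 : Ge v 0 (((9 : ℕ) : F) - x ^ 3) := (hn1 9).sub ((hx0.pow 3).mono (by norm_num))
      have h9 : Ge v 0 (((4 : ℕ) : F) * x ^ 2) := ((hn1 4).mul (hx0.pow 2)).mono (by norm_num)
      have h10 : Ge v 0 (((2 : ℕ) : F) * x * (x' + ((2 : ℕ) : F) * x)) :=
        (((hn1 2).mul hx0).mul (hx0'.add (((hn1 2).mul hx0).mono (by norm_num)))).mono (by norm_num)
      have h11 : Ge v 0 (x ^ 2 * (x + x') - ((4 : ℕ) : F)) :=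
        (((hx0.pow 2).mul (hx0.add hx0')).mono (by norm_num)).sub (hn1 4)
      have h12 : Ge v 1 (algebraMap ℂ F 36) := by
        rw [key]
        refine Ge.add (Ge.add ?_ ?_) ?_
        · exact (h8.mul h4).mono (by norm_num)
        · exact (h9.mul h5).mono (by norm_num)
        · have h13 := (h8.mul h10).mono (M := 0) (by norm_num)
          have h14 := (h9.mul h11).mono (M := 0) (by norm_num)
          exact ((h13.add h14).mul hq1).mono (by norm_num)
      exact not_ge_const v (c := 36) (by norm_num) (by norm_num) h12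
    · -- `x` is regular
      have h8 := v.ord_add_eq (f := -x') (g := x) (neg_ne_zero.2 hx') hx (by rw [v.ord_neg]; omega)
      rw [v.ord_neg, neg_add_eq_sub] at h8
      have h9 := h3.resolve_left hq2
      rw [hoq, h8.2] at h9
      unfold ht at ht'
      omega
    · have h8 := v.ord_add_eq (f := x) (g := -x') hx (neg_ne_zero.2 hx') (by rw [v.ord_neg]; omega)
      rw [← sub_eq_add_neg] at h8
      have h9 := h3.resolve_left hq2
      rw [hoq, h8.2] at h9
      unfold ht at ht'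
      omega
    · -- both have poles
      have h8 : x ^ 2 * x' ^ 2 ≠ 0 := mul_ne_zero (pow_ne_zero _ hx) (pow_ne_zero _ hx')
      have h9 : v.ord (x ^ 2 * x' ^ 2) = 2 * v.ord x + 2 * v.ord x' := by
        rw [v.ord_mul (pow_ne_zero _ hx) (pow_ne_zero _ hx'), v.ord_pow, v.ord_pow]
        norm_num
      have h10 : Ge v (2 * v.ord x + 2 * v.ord x' + 1) (((4 : ℕ) : F) * (x + x')) := by
        refine hsmul 4 (Ge.add (Or.inr ?_) (Or.inr ?_)) <;> omega
      have h11 : Ge v (2 * v.ord x + 2 * v.ord x' + 1) (x ^ 2 * x' ^ 2) := by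
        have h12 : Ge v (2 * v.ord x + 2 * v.ord x' + 1) (x ^ 2 * x' ^ 2 - 4 * (x + x')) := by
          refine h5.mono ?_
          unfold ht at ht'
          omega
        have h13 := h12.add h10
        have h14 : x ^ 2 * x' ^ 2 - 4 * (x + x') + ((4 : ℕ) : F) * (x + x') = x ^ 2 * x' ^ 2 := by
          push_cast
          ring
        rwa [h14] at h13
      have h12 := h11.resolve_left h8
      rw [h9] at h12
      omega

/-- the relation between the abscissas of three points with sum zero -/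
def GG (g x y z : F) : F :=
  x ^ 2 * y ^ 2 + y ^ 2 * z ^ 2 + x ^ 2 * z ^ 2 - 2 * x * y * z * (x + y + z) - 4 * g * (x + y + z)

theorem tri_aux {x y z : F} (hy : y ≠ 0) (hz : z ≠ 0) (h : GG 1 x y z = 0)
    (h1 : ht v x < ht v y) (h2 : ht v x < ht v z) : False := by
  have hx0 := ht_nonneg v x
  have hoy : v.ord y = - ht v y := by
    unfold ht at *
    omega
  have hoz : v.ord z = - ht v z := by
    unfold ht at *
    omega
  have hn1 : ∀ n : ℕ, Ge v 0 (n : F) := fun n => Ge.natCast n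
  have hgx := ge_ht v x
  have hgy : Ge v (- ht v y) y := ge_ht v y
  have hgz : Ge v (- ht v z) z := ge_ht v z
  have h3 : y ^ 2 * z ^ 2 = - (x ^ 2 * y ^ 2) - x ^ 2 * z ^ 2 + ((2 : ℕ) : F) * (x * y * z) * (x + y + z)
      + ((4 : ℕ) : F) * (x + y + z) := by
    unfold GG at h
    push_cast
    linear_combination h
  have hsum : Ge v (- max (ht v y) (ht v z)) (x + y + z) := by
    refine Ge.add (Ge.add (hgx.mono ?_) (hgy.mono ?_)) (hgz.mono ?_) <;> omega
  have h4 : Ge v (- (2 * ht v y) - 2 * ht v z + 1) (y ^ 2 * z ^ 2) := by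
    rw [h3]
    refine Ge.add (Ge.add (Ge.sub (Ge.neg ?_) ?_) ?_) ?_
    · exact ((hgx.pow 2).mul (hgy.pow 2)).mono (by push_cast; omega)
    · exact ((hgx.pow 2).mul (hgz.pow 2)).mono (by push_cast; omega)
    · exact (((hn1 2).mul ((hgx.mul hgy).mul hgz)).mul hsum).mono (by omega)
    · exact ((hn1 4).mul hsum).mono (by omega)
  have h5 := h4.resolve_left (mul_ne_zero (pow_ne_zero _ hy) (pow_ne_zero _ hz))
  rw [v.ord_mul (pow_ne_zero _ hy) (pow_ne_zero _ hz), v.ord_pow, v.ord_pow, hoy, hoz] at h5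
  push_cast at h5
  omega

theorem tri {x y z : F} (hx : x ≠ 0) (hy : y ≠ 0) (hz : z ≠ 0) (h : GG 1 x y z = 0) :
    min (ht v x) (ht v y) = min (ht v y) (ht v z) := by
  have h1 : ¬ (ht v x < ht v y ∧ ht v x < ht v z) := fun h1 => tri_aux v hy hz h h1.1 h1.2
  have h2 : ¬ (ht v z < ht v x ∧ ht v z < ht v y) := fun h1 => tri_aux v (x := z) hx hy (by
    rw [← h]
    unfold GG
    ring) h1.1 h1.2
  omega

end val

section cube

variable {κ : Type} [Field κ] [Algebra ℂ κ]

theorem exists_cube (w : Place ℂ κ) (c : κ) : ∃ (L : Type) (_ : Field L) (_ : Algebra ℂ L)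
    (_ : Algebra κ L) (_ : IsScalarTower ℂ κ L) (α : L) (v : Place ℂ L) (e : ℕ),
    α ^ 3 = algebraMap κ L c ∧ Over v w e := by
  let Ω := AlgebraicClosure κ
  obtain ⟨α, hα⟩ : ∃ α : Ω, α ^ 3 = algebraMap κ Ω c :=
    IsAlgClosed.exists_pow_nat_eq _ (by norm_num)
  let L := IntermediateField.adjoin κ {α}
  have hint : IsIntegral κ α := Algebra.IsIntegral.isIntegral α
  have : FiniteDimensional κ L := IntermediateField.adjoin.finiteDimensional hint
  obtain ⟨v, e, h⟩ := Pool.Agent.Y172.exists_above (L := L) w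
  refine ⟨L, inferInstance, inferInstance, inferInstance, inferInstance,
    ⟨α, IntermediateField.mem_adjoin_simple_self κ α⟩, v, e, ?_, h⟩
  apply Subtype.ext
  exact hα

variable (w : Place ℂ κ)

theorem ht_cube {L : Type} [Field L] [Algebra ℂ L] [Algebra κ L] [IsScalarTower ℂ κ L]
    {α : L} {v : Place ℂ L} {e : ℕ} {c : κ} (hα : α ^ 3 = algebraMap κ L c) (h : Over v w e)
    (x : κ) : e * ht w (c * x ^ 3) = 3 * ht v (α * algebraMap κ L x) := by
  have h1 : v.ord ((α * algebraMap κ L x) ^ 3) = e * w.ord (c * x ^ 3) := by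
    rw [← h.2, mul_pow, hα, ← map_pow, ← map_mul]
  rw [v.ord_pow] at h1
  unfold ht
  have h2 : (0 : ℤ) ≤ e := Int.natCast_nonneg _
  rw [mul_max_of_nonneg _ _ h2, mul_max_of_nonneg _ _ (by norm_num : (0 : ℤ) ≤ 3), mul_zero,
    mul_zero, mul_neg, ← h1]
  push_cast
  ring_nf

theorem par3 {c a b x x' : κ} (hc : c ≠ 0) (ha : a ≠ 0) (hb : b ≠ 0) (hx : x ≠ 0) (hx' : x' ≠ 0)
    (hq : x ≠ x') (h1 : (a + b) * (x - x') ^ 2 = 2 * (x * x' * (x + x') + 2 / c))
    (h2 : a * b * (x - x') ^ 2 = x ^ 2 * x' ^ 2 - 4 / c * (x + x')) :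
    ht w (c * a ^ 3) + ht w (c * b ^ 3) = 2 * ht w (c * x ^ 3) + 2 * ht w (c * x' ^ 3) +
      2 * w.ord (c * (x - x') ^ 3) := by
  obtain ⟨L, _, _, _, _, α, v, e, hα, h⟩ := exists_cube w c
  have hα0 : α ≠ 0 := by
    rintro rfl
    rw [zero_pow (by norm_num), eq_comm, map_eq_zero] at hα
    exact hc hα
  have hne : ∀ {f : κ}, f ≠ 0 → α * algebraMap κ L f ≠ 0 := fun hf => mul_ne_zero hα0 (by
    rw [Ne, map_eq_zero]
    exact hf)
  have hcL : algebraMap κ L c ≠ 0 := by
    rw [Ne, map_eq_zero]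
    exact hc
  have h1' := congrArg (algebraMap κ L) h1
  have h2' := congrArg (algebraMap κ L) h2
  simp only [map_mul, map_add, map_sub, map_pow, map_div₀, map_ofNat, ← hα] at h1' h2'
  have hα3 : α ^ 3 ≠ 0 := pow_ne_zero _ hα0
  have key := par v (hne ha) (hne hb) (hne hx) (hne hx') (fun h3 => hq (by
      have h4 := mul_left_cancel₀ hα0 h3
      exact (algebraMap κ L).injective h4))
    (by
      have : (α * algebraMap κ L a + α * algebraMap κ L b) *
          (α * algebraMap κ L x - α * algebraMap κ L x') ^ 2 =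
          α ^ 3 * ((algebraMap κ L a + algebraMap κ L b) * (algebraMap κ L x - algebraMap κ L x') ^ 2)
          := by ring
      rw [this, h1']
      field_simp)
    (by
      have : (α * algebraMap κ L a) * (α * algebraMap κ L b) *
          (α * algebraMap κ L x - α * algebraMap κ L x') ^ 2 =
          α ^ 4 * (algebraMap κ L a * algebraMap κ L b * (algebraMap κ L x - algebraMap κ L x') ^ 2)
          := by ring
      rw [this, h2']
      field_simp)
  have he : (0 : ℤ) < e := by exact_mod_cast h.1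
  have h3 : 3 * v.ord (α * algebraMap κ L x - α * algebraMap κ L x') =
      e * w.ord (c * (x - x') ^ 3) := by
    rw [← h.2, map_mul, ← hα, map_pow, ← mul_pow, v.ord_pow, map_sub, mul_sub]
    norm_num
  have h4 := ht_cube w hα h a
  have h5 := ht_cube w hα h b
  have h6 := ht_cube w hα h x
  have h7 := ht_cube w hα h x'
  apply mul_left_cancel₀ he.ne'
  linear_combination h4 + h5 - 2 * h6 - 2 * h7 + 2 * h3 + 3 * key

theorem tri3 {c x y z : κ} (hc : c ≠ 0) (hx : x ≠ 0) (hy : y ≠ 0) (hz : z ≠ 0)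
    (h0 : GG (1 / c) x y z = 0) :
    min (ht w (c * x ^ 3)) (ht w (c * y ^ 3)) = min (ht w (c * y ^ 3)) (ht w (c * z ^ 3)) := by
  obtain ⟨L, _, _, _, _, α, v, e, hα, h⟩ := exists_cube w c
  have hα0 : α ≠ 0 := by
    rintro rfl
    rw [zero_pow (by norm_num), eq_comm, map_eq_zero] at hα
    exact hc hα
  have hne : ∀ {f : κ}, f ≠ 0 → α * algebraMap κ L f ≠ 0 := fun hf => mul_ne_zero hα0 (by
    rw [Ne, map_eq_zero]
    exact hf)
  have h0' := congrArg (algebraMap κ L) h0
  unfold GG at h0'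
  simp only [map_mul, map_add, map_sub, map_pow, map_div₀, map_ofNat, map_one, map_zero, ← hα] at h0'
  have hα3 : α ^ 3 ≠ 0 := pow_ne_zero _ hα0
  have key := tri v (hne hx) (hne hy) (hne hz) (by
    have h1 := congrArg (fun t => α ^ 4 * t) h0'
    simp only [mul_zero] at h1
    rw [← h1]
    unfold GG
    field_simp)
  have he : (0 : ℤ) < e := by exact_mod_cast h.1
  have h4 := ht_cube w hα h x
  have h5 := ht_cube w hα h y
  have h6 := ht_cube w hα h z
  have h7 : (e : ℤ) * min (ht w (c * x ^ 3)) (ht w (c * y ^ 3)) =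
      e * min (ht w (c * y ^ 3)) (ht w (c * z ^ 3)) := by
    rw [mul_min_of_nonneg _ _ he.le, mul_min_of_nonneg _ _ he.le, h4, h5, h6,
      ← mul_min_of_nonneg _ _ (by norm_num : (0 : ℤ) ≤ 3),
      ← mul_min_of_nonneg _ _ (by norm_num : (0 : ℤ) ≤ 3), key]
  exact mul_left_cancel₀ he.ne' h7

end cube

section alg

variable {κ : Type} [Field κ] [Algebra ℂ κ]

theorem GG_next {g a x y : κ} (hG : GG g a x y = 0) (hxy : x ≠ y) {b : κ}
    (hb : b = 2 * (x * y * (x + y) + 2 * g) / (x - y) ^ 2 - a) :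
    GG g x y b = 0 ∧ (a + b) * (x - y) ^ 2 = 2 * (x * y * (x + y) + 2 * g) ∧
      a * b * (x - y) ^ 2 = x ^ 2 * y ^ 2 - 4 * g * (x + y) := by
  have hq : (x - y) ^ 2 ≠ 0 := pow_ne_zero _ (sub_ne_zero.2 hxy)
  have h1 : (a + b) * (x - y) ^ 2 = 2 * (x * y * (x + y) + 2 * g) := by
    rw [hb]
    field_simp
    ring
  have h2 : a * b * (x - y) ^ 2 = x ^ 2 * y ^ 2 - 4 * g * (x + y) := by
    unfold GG at hG
    linear_combination a * h1 - hG
  refine ⟨?_, h1, h2⟩
  unfold GG at hG ⊢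
  linear_combination b * h1 - h2

variable {F : IntermediateField ℂ κ}

/-- the step of the descent -/
theorem alg_step (hF : ∀ x : κ, IsAlgebraic F x → x ∈ F) {g a x y : κ} (hg : g ≠ 0) (hx : x ≠ 0)
    (hG : GG g a x y = 0) (h1 : x ^ 3 / g ∈ F) (h2 : y / x ∈ F) : a / x ∈ F := by
  apply hF
  set c := x ^ 3 / g with hc
  set ρ := y / x with hρ
  set r := a / x with hr
  have hc0 : c ≠ 0 := div_ne_zero (pow_ne_zero _ hx) hg
  have h3 : r ^ 2 * ((1 - ρ) ^ 2) - r * (2 * ρ * (1 + ρ) + 4 / c) + (ρ ^ 2 - 4 / c * (1 + ρ)) = 0 := by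
    have h4 : r ^ 2 * ((1 - ρ) ^ 2) - r * (2 * ρ * (1 + ρ) + 4 / c) + (ρ ^ 2 - 4 / c * (1 + ρ)) =
        GG g a x y / x ^ 4 := by
      rw [hc, hρ, hr]
      unfold GG
      field_simp
      ring
    rw [h4, hG, zero_div]
  let c' : F := ⟨c, h1⟩
  let ρ' : F := ⟨ρ, h2⟩
  let p : Polynomial F := Polynomial.C ((1 - ρ') ^ 2) * Polynomial.X ^ 2 -
    Polynomial.C (2 * ρ' * (1 + ρ') + 4 / c') * Polynomial.X +
    Polynomial.C (ρ' ^ 2 - 4 / c' * (1 + ρ'))
  refine ⟨p, ?_, ?_⟩
  · intro hp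
    have e2 := congrArg (fun q => q.coeff 2) hp
    have e1 := congrArg (fun q => q.coeff 1) hp
    have e0 := congrArg (fun q => q.coeff 0) hp
    simp only [p, Polynomial.coeff_add, Polynomial.coeff_sub, Polynomial.coeff_C_mul,
      Polynomial.coeff_X_pow, Polynomial.coeff_X, Polynomial.coeff_C, Polynomial.coeff_zero] at e2 e1 e0
    norm_num at e2 e1 e0
    have e3 : ρ' = 1 := by
      have := e2
      rw [sub_eq_zero] at this
      exact this.symm
    have hc1 : (c' : F) ≠ 0 := fun h => hc0 (congrArg Subtype.val h)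
    rw [e3] at e1 e0
    have e4 : (4 : F) / c' = 1 / 2 := by linear_combination (-1/2 : F) * e0
    have e5 : (9 / 2 : F) = 0 := by
      rw [e4] at e1
      linear_combination (-1 : F) * e1
    norm_num at e5
  · simp only [p, map_add, map_sub, map_mul, Polynomial.aeval_C, map_pow, Polynomial.aeval_X]
    rw [← h3]
    simp only [IntermediateField.algebraMap_apply]
    have n4 : ((4 : F) : κ) = 4 := map_ofNat (algebraMap F κ) 4
    have n2 : ((2 : F) : κ) = 2 := map_ofNat (algebraMap F κ) 2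
    push_cast
    rw [n4, n2]
    simp only [c', ρ']
    ring

end alg

end Pool.Agent.Q73.LT
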