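import Pool.Agent.Q73.LT.Loc3

/-!
The negativity lemma, base point free systems, comparison of systems with multiples of the
hyperplane class.
-/

set_option autoImplicit false

open FF Pool.Agent.Y172 Pool.Agent.W602.GT

namespace Pool.Agent.Q73.LT

variable {K : Type} [Field K] [Algebra ℂ K] {y : Sys K}

theorem ord_prod (P : Place ℂ K) {ι : Type} (s : Finset ι) (f : ι → K) (hf : ∀ i ∈ s, f i ≠ 0) :
    P.ord (∏ i ∈ s, f i) = ∑ i ∈ s, P.ord (f i) := by
  classical
  induction s using Finset.induction_on with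
  | empty => rw [Finset.prod_empty, Finset.sum_empty, P.ord_one]
  | insert a s ha ih =>
    rw [Finset.prod_insert ha, Finset.sum_insert ha, P.ord_mul (hf a (Finset.mem_insert_self a s))
      (Finset.prod_ne_zero_iff.2 fun i hi => hf i (Finset.mem_insert_of_mem hi)),
      ih fun i hi => hf i (Finset.mem_insert_of_mem hi)]

/-- **Hartogs for real combinations of principal divisors.** -/
theorem hartogs (hy : Model y) {m : ℕ} (r : Fin m → ℝ) (f : Fin m → K) (hf : ∀ i, f i ≠ 0)
    {Q : Place ℂ K}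
    (h : ∀ P, IsPrimeDivisor y P → Through y P Q → 0 ≤ ∑ i, r i * P.ord (f i)) :
    0 ≤ ∑ i, r i * (Q.ord (f i) : ℝ) := by
  obtain ⟨f0, hf0⟩ := exists_top y Q
  have hfr := hy.frac hf0.1
  -- numerators and denominators
  have h1 : ∀ i, ∃ a b : K, a ∈ nchart y f0 ∧ b ∈ nchart y f0 ∧ a ≠ 0 ∧ b ≠ 0 ∧ f i = a / b := by
    intro i
    obtain ⟨a, b, hb, hab⟩ := IsFractionRing.div_surjective (nchart y f0) (f i)
    have hb0 : (b : K) ≠ 0 := fun h => nonZeroDivisors.ne_zero hb (Subtype.ext h)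
    have hab' : f i = (a : K) / b := hab.symm
    refine ⟨a, b, a.2, b.2, ?_, hb0, hab'⟩
    intro h
    rw [h, zero_div] at hab'
    exact hf i hab'
  choose a b ha hb ha0 hb0 hab using h1
  let g : K := ∏ i, a i * b i
  have hg0 : g ≠ 0 := Finset.prod_ne_zero_iff.2 fun i _ => mul_ne_zero (ha0 i) (hb0 i)
  have hgo : ∀ P : Place ℂ K, P.ord g = ∑ i, (P.ord (a i) + P.ord (b i)) := by
    intro P
    rw [ord_prod P _ _ fun i _ => mul_ne_zero (ha0 i) (hb0 i)]
    exact Finset.sum_congr rfl fun i _ => P.ord_mul (ha0 i) (hb0 i)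
  -- the approximations
  have key : ∀ M : ℕ, -(Q.ord g : ℝ) - ∑ i, |(Q.ord (f i) : ℝ)| ≤ M * ∑ i, r i * (Q.ord (f i) : ℝ) := by
    intro M
    let q : Fin m → ℤ := fun i => ⌊(M : ℝ) * r i⌋
    have hq : ∀ i, |(M : ℝ) * r i - q i| ≤ 1 := by
      intro i
      have h2 := Int.floor_le ((M : ℝ) * r i)
      have h3 := Int.lt_floor_add_one ((M : ℝ) * r i)
      rw [abs_le]
      constructor <;> linarith
    have hest : ∀ P : Place ℂ K, |(∑ i, (q i : ℝ) * P.ord (f i)) - M * ∑ i, r i * (P.ord (f i) : ℝ)| ≤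
        ∑ i, |(P.ord (f i) : ℝ)| := by
      intro P
      rw [Finset.mul_sum, ← Finset.sum_sub_distrib]
      refine (Finset.abs_sum_le_sum_abs _ _).trans (Finset.sum_le_sum fun i _ => ?_)
      have : (q i : ℝ) * P.ord (f i) - M * (r i * P.ord (f i)) =
          -((M : ℝ) * r i - q i) * P.ord (f i) := by ring
      rw [this, abs_mul, abs_neg]
      calc |(M : ℝ) * r i - q i| * |(P.ord (f i) : ℝ)| ≤ 1 * |(P.ord (f i) : ℝ)| :=
            mul_le_mul_of_nonneg_right (hq i) (abs_nonneg _)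
        _ = |(P.ord (f i) : ℝ)| := one_mul _
    let x : K := g * ∏ i, f i ^ q i
    have hx0 : x ≠ 0 := mul_ne_zero hg0
      (Finset.prod_ne_zero_iff.2 fun i _ => zpow_ne_zero _ (hf i))
    have hxo : ∀ P : Place ℂ K, (P.ord x : ℝ) = P.ord g + ∑ i, (q i : ℝ) * P.ord (f i) := by
      intro P
      rw [P.ord_mul hg0 (Finset.prod_ne_zero_iff.2 fun i _ => zpow_ne_zero _ (hf i)),
        ord_prod P _ _ fun i _ => zpow_ne_zero _ (hf i)]
      push_cast
      congr 1
      refine Finset.sum_congr rfl fun i _ => ?_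
      rw [P.ord_zpow]
      push_cast
      rfl
    have hxm : x ∈ localRing y Q := by
      refine mem_localRing_of_reg hy fun P hP hPQ => ?_
      rw [P.reg_iff hx0]
      have h2 : (0 : ℝ) ≤ P.ord x := by
        rw [hxo]
        have h3 := hest P
        rw [abs_le] at h3
        have h4 := h P hP hPQ
        have h5 : ∑ i, |(P.ord (f i) : ℝ)| ≤ P.ord g := by
          rw [hgo]
          push_cast
          refine Finset.sum_le_sum fun i _ => ?_
          have h6 : (0 : ℤ) ≤ P.ord (a i) :=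
            (P.reg_iff (ha0 i)).1 (hPQ _ (nchart_localRing hf0 (ha i)))
          have h7 : (0 : ℤ) ≤ P.ord (b i) :=
            (P.reg_iff (hb0 i)).1 (hPQ _ (nchart_localRing hf0 (hb i)))
          have h8 : (0 : ℝ) ≤ P.ord (a i) := by exact_mod_cast h6
          have h9 : (0 : ℝ) ≤ P.ord (b i) := by exact_mod_cast h7
          rw [hab i, P.ord_div (ha0 i) (hb0 i)]
          push_cast
          rw [abs_le]
          constructor <;> linarith
        have h6 : 0 ≤ (M : ℝ) * ∑ i, r i * (P.ord (f i) : ℝ) :=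
          mul_nonneg (Nat.cast_nonneg _) h4
        linarith [h3.1]
      exact_mod_cast h2
    have h2 : (0 : ℤ) ≤ Q.ord x := (Q.reg_iff hx0).1 (localRing_reg hxm)
    have h3 : (0 : ℝ) ≤ Q.ord x := by exact_mod_cast h2
    rw [hxo] at h3
    have h4 := hest Q
    rw [abs_le] at h4
    linarith [h4.2]
  by_contra hcon
  push Not at hcon
  set s := ∑ i, r i * (Q.ord (f i) : ℝ)
  set C := -(Q.ord g : ℝ) - ∑ i, |(Q.ord (f i) : ℝ)|
  obtain ⟨M, hM⟩ := exists_nat_gt (C / s)
  have h2 := key M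
  have h3 : (M : ℝ) * s < C := by
    rw [div_lt_iff_of_neg hcon] at hM
    exact hM
  linarith

/-- **The negativity lemma.** -/
theorem negativity (hy : Model y) {D : Place ℂ K → ℝ} (hD : RCartier y D) {m : ℕ} {c : Fin m → ℝ}
    {z : Fin m → Sys K} (hc : ∀ i, 0 ≤ c i)
    (h : ∀ P, IsPrimeDivisor y P → ∑ i, c i * ((z i).L P : ℝ) ≤ D P) (Q : Place ℂ K) :
    ∑ i, c i * ((z i).L Q : ℝ) ≤ D Q := by
  obtain ⟨l, r, f, hf, hDf⟩ := hD Q
  choose g hg hgL using fun i => (z i).exists_L Q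
  have h1 := hartogs hy (m := l + m) (Fin.append r c) (Fin.append f g)
    (fun i => by
      refine Fin.addCases (fun j => ?_) (fun j => ?_) i
      · rw [Fin.append_left]
        exact hf j
      · rw [Fin.append_right]
        exact (z j).ne_zero (hg j)) (Q := Q) (fun P hP hPQ => by
      rw [Fin.sum_univ_add]
      simp only [Fin.append_left, Fin.append_right]
      rw [← hDf P hPQ]
      have h2 := h P hP
      have h3 : -∑ i, c i * ((z i).L P : ℝ) ≤ ∑ i, c i * (P.ord (g i) : ℝ) := by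
        rw [← Finset.sum_neg_distrib]
        refine Finset.sum_le_sum fun i _ => ?_
        have h4 : -P.ord (g i) ≤ (z i).L P := (z i).le_L P (hg i)
        have h5 : -(P.ord (g i) : ℝ) ≤ (z i).L P := by exact_mod_cast h4
        have h6 := hc i
        nlinarith
      linarith)
  rw [Fin.sum_univ_add] at h1
  simp only [Fin.append_left, Fin.append_right] at h1
  rw [← hDf Q (Through.refl y Q)] at h1
  have h3 : ∑ i, c i * (Q.ord (g i) : ℝ) = -∑ i, c i * ((z i).L Q : ℝ) := by
    rw [← Finset.sum_neg_distrib]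
    refine Finset.sum_congr rfl fun i _ => ?_
    rw [hgL i]
    push_cast
    ring
  linarith

/-- a system which divides a multiple of the hyperplane system is base point free -/
theorem bpf_of_add (hy : Model y) {z z' : Sys K} {k : ℕ}
    (h : ∀ P : Place ℂ K, z.L P + z'.L P = k * y.L P) : BPF y z := by
  intro Q
  obtain ⟨F, hF⟩ := exists_top y Q
  obtain ⟨f, hf, hfL⟩ := z.exists_L Q
  obtain ⟨f', hf', hfL'⟩ := z'.exists_L Q
  have hF0 := y.ne_zero hF.1
  have hf0 := z.ne_zero hf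
  have hf0' := z'.ne_zero hf'
  have h1 : ∀ g ∈ z.s, g * f' / F ^ k ∈ localRing y Q := by
    intro g hg
    have hg0 := z.ne_zero hg
    refine mem_localRing_of_reg hy fun P _ hPQ => ?_
    right
    rw [P.ord_div (mul_ne_zero hg0 hf0') (pow_ne_zero _ hF0), P.ord_mul hg0 hf0', P.ord_pow]
    have h2 := z.le_L P hg
    have h3 := z'.le_L P hf'
    have h4 := h P
    rw [(hPQ.top hF).L] at h4
    linarith
  refine ⟨f, hf, fun g hg => ?_⟩
  have h2 := h1 g hg
  have h3 := localRing_inv (h1 f hf) (div_ne_zero (mul_ne_zero hf0 hf0') (pow_ne_zero _ hF0)) (by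
    rw [Q.ord_div (mul_ne_zero hf0 hf0') (pow_ne_zero _ hF0), Q.ord_mul hf0 hf0', Q.ord_pow]
    have h4 := h Q
    rw [hF.L, hfL, hfL'] at h4
    linarith)
  have h4 := localRing_mul h2 h3
  have h5 : g * f' / F ^ k * (f * f' / F ^ k)⁻¹ = g / f := by
    field_simp
  rwa [h5] at h4

theorem bpf_self (y : Sys K) : BPF y y := by
  intro Q
  obtain ⟨F, hF⟩ := exists_top y Q
  exact ⟨F, hF.1, fun g hg => nchart_localRing hF (gen_mem hg)⟩

theorem bpf_sng (y : Sys K) {f : K} (hf : f ≠ 0) : BPF y (sng f hf) := by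
  intro Q
  refine ⟨f, by simp [sng], fun g hg => ?_⟩
  have : g = f := by simpa [sng] using hg
  rw [this, div_self hf]
  exact localRing_one Q

/-- every system is dominated by a multiple of the hyperplane class, up to linear equivalence -/
theorem exists_dom (hy : Model y) (z : Sys K) : ∃ (k : ℕ) (h : K), h ≠ 0 ∧
    ∀ P : Place ℂ K, z.L P ≤ k * y.L P + P.ord h := by
  classical
  obtain ⟨f0, hf0⟩ := y.ne
  have hf00 := y.ne_zero hf0
  -- common denominators
  have h1 : ∀ s : Finset K, ∃ b ∈ chart y f0, b ≠ 0 ∧ ∀ x ∈ s, b * x ∈ nchart y f0 := by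
    intro s
    induction s using Finset.induction_on with
    | empty => exact ⟨1, (chart y f0).one_mem, one_ne_zero, fun x hx => absurd hx (by simp)⟩
    | insert a s _ ih =>
      obtain ⟨b, hb, hb0, h⟩ := ih
      obtain ⟨c, hc, hc0, h'⟩ := hy.exists_mul hf0 a
      refine ⟨c * b, (chart y f0).mul_mem hc hb, mul_ne_zero hc0 hb0, fun x hx => ?_⟩
      rcases Finset.mem_insert.1 hx with rfl | hx
      · have : c * b * x = b * (c * x) := by ring
        rw [this]
        exact (nchart y f0).mul_mem (chart_le y f0 hb) h'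
      · have : c * b * x = c * (b * x) := by ring
        rw [this]
        exact (nchart y f0).mul_mem (chart_le y f0 hc) (h x hx)
  obtain ⟨b, hb, hb0, hbz⟩ := h1 z.s
  -- bound of the pole orders
  have h2 : ∀ x ∈ nchart y f0, ∃ k : ℕ, ∀ f ∈ y.s, x * (f0 / f) ^ k ∈ nchart y f := by
    intro x hx
    have h3 : ∀ f : K, ∃ k : ℕ, f ∈ y.s → x * (f0 / f) ^ k ∈ nchart y f := by
      intro f
      by_cases hf : f ∈ y.s
      · obtain ⟨k, hk⟩ := nchart_change hf hf0 hx
        exact ⟨k, fun _ => hk⟩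
      · exact ⟨0, fun h => absurd h hf⟩
    choose k hk using h3
    refine ⟨∑ f ∈ y.s, k f, fun f hf => ?_⟩
    have h4 : k f ≤ ∑ f ∈ y.s, k f := Finset.single_le_sum (f := k) (fun _ _ => Nat.zero_le _) hf
    obtain ⟨l, hl⟩ := Nat.exists_eq_add_of_le h4
    rw [hl, pow_add, ← mul_assoc]
    exact (nchart y f).mul_mem (hk f hf) ((nchart y f).pow_mem (gen_mem hf0) _)
  have h3 : ∀ x : K, ∃ k : ℕ, x ∈ z.s → ∀ f ∈ y.s, b * x * (f0 / f) ^ k ∈ nchart y f := by
    intro x
    by_cases hx : x ∈ z.s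
    · obtain ⟨k, hk⟩ := h2 _ (hbz x hx)
      exact ⟨k, fun _ => hk⟩
    · exact ⟨0, fun h => absurd h hx⟩
  choose k hk using h3
  let M := ∑ x ∈ z.s, k x
  refine ⟨M, b * f0 ^ M, mul_ne_zero hb0 (pow_ne_zero _ hf00), fun P => ?_⟩
  refine z.L_le P fun x hx => ?_
  obtain ⟨f, hf⟩ := exists_top y P
  have hx0 := z.ne_zero hx
  have hff0 := y.ne_zero hf.1
  have h4 : k x ≤ M := Finset.single_le_sum (f := k) (fun _ _ => Nat.zero_le _) hx
  have h5 := (P.reg_iff (mul_ne_zero (mul_ne_zero hb0 hx0) (pow_ne_zero _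
    (div_ne_zero hf00 hff0)))).1 (hf.reg _ (hk x hx f hf.1))
  rw [P.ord_mul (mul_ne_zero hb0 hx0) (pow_ne_zero _ (div_ne_zero hf00 hff0)),
    P.ord_mul hb0 hx0, P.ord_pow, P.ord_div hf00 hff0] at h5
  rw [P.ord_mul hb0 (pow_ne_zero _ hf00), P.ord_pow, hf.L]
  have h6 := y.le_L P hf0
  rw [hf.L] at h6
  have h7 : (k x : ℤ) ≤ M := by exact_mod_cast h4
  nlinarith

end Pool.Agent.Q73.LT
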