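import Pool.Agent.Q73.LT.Ex2

/-!
The nonexistence of log terminal models: the divisor on the log terminal model is `N`.
-/

set_option autoImplicit false

open FF Real

open scoped goldenRatio

namespace Pool.Agent.Q73.LT

section

variable {κ : Type} [Field κ] [Algebra ℂ κ] {K : Type} [Field K] [Algebra ℂ K] [Algebra κ K]
  [IsScalarTower ℂ κ K] {z : K}

theorem gp_z (h : Gen1 κ z) (w : Place ℂ κ) (a : ℕ) : (gp h w a).ord z = a := by
  have h1 := gp_ord h w a (Polynomial.X_ne_zero (R := κ))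
  rw [Polynomial.aeval_X] at h1
  rw [h1]
  obtain ⟨i, hi, h2⟩ := exists_mu w a (Polynomial.X_ne_zero (R := κ))
  rw [Polynomial.coeff_X] at hi h2
  split_ifs at hi h2 with h3
  · rw [h2, ← h3, w.ord_one]
    simp
  · exact absurd rfl hi

theorem ht_gp (h : Gen1 κ z) (w : Place ℂ κ) (a : ℕ) (f : κ) :
    ht (gp h w a) (algebraMap κ K f) = ht w f := by
  unfold ht
  rw [gp_coe]

theorem ht_zp (h : Gen1 κ z) (f : κ) : ht (zp h) (algebraMap κ K f) = 0 := by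
  unfold ht
  rw [zp_coe]
  rfl

end

namespace Exa

variable {κ K : Type} [Field κ] [Algebra ℂ κ] [Field K] [Algebra ℂ K] [Algebra κ K]
  [IsScalarTower ℂ κ K]

variable (E : Exa κ K) (g1 : Gen1 κ E.z)

/-- the heights of the abscissas at the places of `κ` -/
noncomputable def h (n : ℕ) (w : Place ℂ κ) : ℤ := ht w (E.C n)

/-- the nef eigenclass at the places of `κ` -/
noncomputable def Nκ (w : Place ℂ κ) : ℝ := ψ * E.h 1 w + E.h 2 w + φ * E.h 3 w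

/-- the minimum of the heights of `y1` and `y2` -/
def mn (w : Place ℂ κ) : ℤ := min (ht w E.y1) (ht w E.y2)

theorem N_gp (w : Place ℂ κ) (a : ℕ) : E.N (gp g1 w a) = E.Nκ w := by
  unfold N Nκ H h
  rw [ht_gp, ht_gp, ht_gp]

theorem N_zp : E.N (zp g1) = 0 := by
  unfold N H
  rw [ht_zp, ht_zp, ht_zp]
  simp

theorem S0_zp : E.S0 (zp g1) = 1 := by
  unfold S0 l1 l2
  rw [lz_eq, zp_z, ht_zp, ht_zp]
  norm_num

theorem L_Y_zp : E.Y.L (zp g1) = 1 := by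
  rw [L_Y, L_W]
  unfold l1 l2 l3
  rw [lz_eq, zp_z, ht_zp, ht_zp]
  unfold ht
  rw [zp_z]
  norm_num

theorem S0_gp (w : Place ℂ κ) {a : ℕ} (ha : ht w E.y1 ≤ a) : E.S0 (gp g1 w a) = a - E.mn w := by
  unfold S0 l1 l2 mn
  rw [lz_eq, gp_z, ht_gp, ht_gp]
  have := ht_nonneg w E.y1
  have := ht_nonneg w E.y2
  omega

theorem L_Y_gp (w : Place ℂ κ) {a : ℕ} (ha : ht w E.y1 ≤ a) :
    E.Y.L (gp g1 w a) = 2 * ht w E.y1 + 2 * ht w E.y2 - E.mn w + a := by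
  rw [L_Y, L_W]
  unfold l1 l2 l3 mn
  rw [lz_eq, gp_z, ht_gp, ht_gp]
  unfold ht at *
  rw [gp_z]
  omega

/-- **The inequality on the surface**: if the divisor `F` of a combination of linear systems is at
most `N + τ S + ε (k H + (h))`, with equality on `S`, then the same holds for the leading terms. -/
theorem ineqB {m : ℕ} {c : Fin m → ℝ} {z : Fin m → Sys K} (hc : ∀ i, 0 ≤ c i) {τ ε : ℝ} {k : ℕ}
    {h : K} (hh : h ≠ 0)
    (hle : ∀ P : Place ℂ K, ∑ i, c i * ((z i).L P : ℝ) ≤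
      E.N P + τ * E.S0 P + ε * (k * E.Y.L P + P.ord h))
    (heq : ∑ i, c i * ((z i).L (zp g1) : ℝ) = τ + ε * (k + (zp g1).ord h)) :
    ∃ f : Fin m → κ, (∀ i, f i ≠ 0) ∧ ∀ w : Place ℂ κ,
      0 ≤ ∑ i, c i * (w.ord (f i) : ℝ) + E.Nκ w + (-τ) * E.mn w +
        ε * (k * (2 * ht w E.y1 + 2 * ht w E.y2 - E.mn w) + w.ord (lc g1 hh)) := by
  have h1 : ∀ i, ∃ f, f ∈ (z i).s ∧ (z i).L (zp g1) = - (zp g1).ord f := fun i => by
    obtain ⟨f, hf, h⟩ := (z i).exists_L (zp g1)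
    exact ⟨f, hf, h⟩
  choose f hf hfL using h1
  have hf0 : ∀ i, f i ≠ 0 := fun i => (z i).ne_zero (hf i)
  refine ⟨fun i => lc g1 (hf0 i), fun i => lc_ne g1 (hf0 i), fun w => ?_⟩
  have h2 : ∀ i, ∃ A : ℕ, ∀ a : ℕ, A ≤ a →
      (gp g1 w a).ord (f i) = w.ord (lc g1 (hf0 i)) + a * (zp g1).ord (f i) :=
    fun i => lc_ord g1 (hf0 i) w
  choose A hA using h2
  obtain ⟨A', hA'⟩ := lc_ord g1 hh w
  obtain ⟨a, ha⟩ : ∃ a : ℕ, (∑ i, A i) + A' + (ht w E.y1).toNat ≤ a := ⟨_, le_rfl⟩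
  have ha1 : ht w E.y1 ≤ a := by
    have := ht_nonneg w E.y1
    omega
  have ha2 : A' ≤ a := by omega
  have ha3 : ∀ i, A i ≤ a := fun i =>
    (Finset.single_le_sum (f := A) (fun _ _ => Nat.zero_le _) (Finset.mem_univ i)).trans (by omega)
  have key := hle (gp g1 w a)
  rw [N_gp, S0_gp E g1 w ha1, L_Y_gp E g1 w ha1, hA' a ha2] at key
  have h3 : ∑ i, c i * (-(w.ord (lc g1 (hf0 i)) : ℝ) + a * ((z i).L (zp g1) : ℝ)) ≤
      ∑ i, c i * ((z i).L (gp g1 w a) : ℝ) := by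
    refine Finset.sum_le_sum fun i _ => mul_le_mul_of_nonneg_left ?_ (hc i)
    have h4 := (z i).le_L (gp g1 w a) (hf i)
    rw [hA i a (ha3 i)] at h4
    have h5 : ((-(w.ord (lc g1 (hf0 i)) + a * (zp g1).ord (f i)) : ℤ) : ℝ) ≤
        (z i).L (gp g1 w a) := by exact_mod_cast h4
    rw [hfL i]
    push_cast at h5 ⊢
    linarith
  have h4 : ∑ i, c i * (-(w.ord (lc g1 (hf0 i)) : ℝ) + a * ((z i).L (zp g1) : ℝ)) =
      - ∑ i, c i * (w.ord (lc g1 (hf0 i)) : ℝ) + a * ∑ i, c i * ((z i).L (zp g1) : ℝ) := by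
    rw [Finset.mul_sum, ← Finset.sum_neg_distrib, ← Finset.sum_add_distrib]
    exact Finset.sum_congr rfl fun i _ => by ring
  rw [h4, heq] at h3
  push_cast at key
  have h5 := h3.trans key
  beta_reduce
  linarith

end Exa

end Pool.Agent.Q73.LT
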