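import Pool.Agent.Q73.LT.No1

/-!
The nonexistence of log terminal models: the degrees on the curves `t = const`.
-/

set_option autoImplicit false

open FF Real

open scoped goldenRatio

namespace Pool.Agent.Q73.LT

section

variable {κ : Type} [Field κ] [Algebra ℂ κ]

theorem transc_iff_nd {t : κ} : Transcendental ℂ t ↔
    ¬ ∀ F : IntermediateField ℂ κ, t ∈ acl F := by
  constructor
  · intro h hall
    have h1 := mem_acl.1 (hall ⊥)
    have h2 : IsAlgebraic ℂ t := by
      have : Algebra.IsAlgebraic ℂ (⊥ : IntermediateField ℂ κ) := inferInstance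
      exact h1.restrictScalars ℂ
    exact h h2
  · intro h halg
    apply h
    intro F
    rw [mem_acl]
    exact halg.extendScalars (algebraMap ℂ F).injective

end

theorem lim_eps {a b : ℝ} (h : ∀ ε : ℝ, 0 < ε → 0 ≤ a + ε * b) : 0 ≤ a := by
  by_contra ha
  push Not at ha
  rcases le_or_gt b 0 with hb | hb
  · have := h 1 one_pos
    linarith
  · have h1 := h (-a / (2 * b)) (div_pos (by linarith) (by linarith))
    have h2 : -a / (2 * b) * b = -a / 2 := by
      field_simp
    rw [h2] at h1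
    linarith

namespace Crv

variable {κ : Type} [Field κ] [Algebra ℂ κ] (E : Crv κ)

/-- the data over `κ` itself -/
noncomputable def self : Exa κ κ := { E with z := 1, z_ne := one_ne_zero }

theorem r_transc (n : ℕ) : Transcendental ℂ (E.r n) := by
  rw [transc_iff_nd]
  intro h
  exact E.C_r_nd n (E.C (n + 1)) (self_mem _) (h _)

variable {t : κ} [IsFF (IntermediateField.adjoin ℂ {t}) κ]

/-- the degree of the height -/
theorem deg_H (n : ℕ) :
    HasDeg (fun v : Place (IntermediateField.adjoin ℂ {t}) κ => ((E.self.H n (base v) : ℤ) : ℝ))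
      (pdeg (IntermediateField.adjoin ℂ {t}) (E.C n)) :=
  hasDeg_ht (E.C n)

omit E in
theorem deg_pri {D : Place ℂ κ → ℝ} (hD : Exa.Pri (κ := κ) D) :
    HasDeg (fun v : Place (IntermediateField.adjoin ℂ {t}) κ => D (base v)) 0 := by
  obtain ⟨m, r, f, hf, hD⟩ := hD
  have h1 : HasDeg (fun v : Place (IntermediateField.adjoin ℂ {t}) κ =>
      ∑ i, r i * (v.ord (f i) : ℝ)) (∑ i : Fin m, r i * 0) :=
    HasDeg.sum Finset.univ fun i _ => (hasDeg_ord (f i)).smul (r i)
  simp only [mul_zero, Finset.sum_const_zero] at h1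
  exact h1.congr fun v => hD (base v)

/-- the degree of the nef eigenclass -/
theorem deg_N : HasDeg (fun v : Place (IntermediateField.adjoin ℂ {t}) κ => E.self.N (base v))
    (ψ * pdeg (IntermediateField.adjoin ℂ {t}) (E.C 1) +
      pdeg (IntermediateField.adjoin ℂ {t}) (E.C 2) +
      φ * pdeg (IntermediateField.adjoin ℂ {t}) (E.C 3)) := by
  refine ((((E.deg_H 1).smul ψ).add (E.deg_H 2)).add
    ((E.deg_H 3).smul φ)).congr fun v => rfl

end Crv

namespace Exa

variable {κ K : Type} [Field κ] [Algebra ℂ κ] [Field K] [Algebra ℂ K] [Algebra κ K]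
  [IsScalarTower ℂ κ K] (E : Exa κ K) [Algebra.EssFiniteType ℂ κ]
  (hn : Algebra.trdeg ℂ κ = 2)

include hn

/-- the degrees on the fibres of `r n` -/
theorem deg_r (n : ℕ) : ∃ q dN : ℝ, 0 < q ∧ (φ ^ 2) ^ n * dN ≤ 8 * q ∧
    HasDeg (fun v : Place (IntermediateField.adjoin ℂ {E.r n}) κ => E.Nκ (base v)) dN ∧
    HasDeg (fun v : Place (IntermediateField.adjoin ℂ {E.r n}) κ => (E.mn (base v) : ℝ)) (q / 2) := by
  have ht := E.toCrv.r_transc n
  have hFF := isFF_adjoin hn ht
  let F := IntermediateField.adjoin ℂ {E.r n}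
  have hH := E.toCrv.deg_H (t := E.r n)
  set p : ℕ → ℤ := fun j => pdeg F (E.C j) with hp
  -- the heights on the fibre
  have hord : ∀ v : Place F κ, v.ord (E.C (n + 2)) = v.ord (E.C (n + 1)) := by
    intro v
    have h1 : v.ord (E.r n) = 0 := base_triv v (E.r n)
      (IntermediateField.mem_adjoin_simple_self ℂ (E.r n)) (E.r_ne n)
    rw [E.C_r, v.ord_mul (E.C_ne _) (pow_ne_zero _ (E.r_ne n)), v.ord_pow, h1]
    ring
  have hh : ∀ v : Place F κ, E.toCrv.self.H (n + 2) (base v) = E.toCrv.self.H (n + 1) (base v) := by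
    intro v
    have h1 := hord v
    change max 0 (- v.ord (E.C (n + 2))) = max 0 (- v.ord (E.C (n + 1)))
    rw [h1]
  have hp2 : (p (n + 2) : ℝ) = p (n + 1) := by
    refine (hH (n + 2)).unique ((hH (n + 1)).congr fun v => ?_)
    rw [hh v]
  have hp3 : (p (n + 3) : ℝ) + p n = 2 * p (n + 1) + 2 * p (n + 2) := by
    have h1 := (((hH (n + 1)).smul 2).add ((hH (n + 2)).smul 2)).add (hasDeg_ord (k := F) (E.g n))
    rw [add_zero] at h1
    refine ((hH (n + 3)).add (hH n)).unique (h1.congr fun v => ?_)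
    have h2 := E.toCrv.self.H_law n (base v)
    have h3 : (E.toCrv.self.H (n + 3) (base v) : ℝ) + E.toCrv.self.H n (base v) =
        2 * E.toCrv.self.H (n + 1) (base v) + 2 * E.toCrv.self.H (n + 2) (base v) +
          (base v).ord (E.g n) := by exact_mod_cast h2
    exact h3
  have hp0 : (0 : ℝ) ≤ p n := by exact_mod_cast pdeg_nonneg (E.C n)
  have hq : (0 : ℝ) < p (n + 1) := by
    have h1 : Transcendental F (E.C (n + 1)) := by
      intro h1
      exact E.toCrv.C_r_nd n (E.r n) (mem_acl.2 h1) (Crv.self_mem _)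
    exact_mod_cast pdeg_pos h1
  refine ⟨p (n + 1), ψ * p 1 + p 2 + φ * p 3, hq, ?_, E.toCrv.deg_N, ?_⟩
  · obtain ⟨D, hD, hDe⟩ := E.toCrv.self.comb_pow eig1 eig2 eig3 n
    have h1 : HasDeg (fun v : Place F κ => E.toCrv.self.Comb ψ 1 φ (n + 1) (base v))
        (ψ * p (n + 1) + 1 * p (n + 2) + φ * p (n + 3)) :=
      (((hH (n + 1)).smul ψ).add ((hH (n + 2)).smul 1)).add ((hH (n + 3)).smul φ)
    have h2 : HasDeg (fun v : Place F κ => E.toCrv.self.Comb ψ 1 φ (n + 1) (base v))
        ((φ ^ 2) ^ n * (ψ * p 1 + p 2 + φ * p 3) + 0) := by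
      refine (((E.toCrv.deg_N).smul ((φ ^ 2) ^ n)).add
        (Crv.deg_pri hD)).congr fun v => ?_
      rw [hDe, N_eq]
    have h3 := h1.unique h2
    rw [add_zero] at h3
    rw [← h3]
    have h4 := goldenRatio_pos
    have h5 := goldenRatio_add_goldenConj
    have h6 := goldenRatio_lt_two
    have h7 : ψ = 1 - φ := by linarith
    rw [hp2, h7]
    have h8 : φ * (p (n + 3) : ℝ) ≤ φ * (4 * p (n + 1)) := by
      refine mul_le_mul_of_nonneg_left ?_ h4.le
      rw [hp2] at hp3
      linarith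
    nlinarith
  · have h1 := ((hH (n + 1)).smul (1 / 2))
    rw [one_div_mul_eq_div] at h1
    refine h1.congr fun v => ?_
    have h2 := E.toCrv.self.H_min n (base v)
    rw [hh v, min_self] at h2
    have h3 : E.toCrv.self.H (n + 1) (base v) = 2 * E.mn (base v) := h2
    rw [h3]
    push_cast
    ring

/-- the coefficient of `S` is not positive -/
theorem d_nonpos {d κ0 : ℝ} {k : ℕ} {u : κ} (hB : ∀ ε : ℝ, 0 < ε →
    ∃ (m : ℕ) (c : Fin m → ℝ) (f : Fin m → κ), ∀ w : Place ℂ κ,
      0 ≤ ∑ i, c i * (w.ord (f i) : ℝ) + E.Nκ w + (-(d + ε * κ0)) * E.mn w +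
        ε * (k * (2 * ht w E.y1 + 2 * ht w E.y2 - E.mn w) + w.ord u)) : d ≤ 0 := by
  have key : ∀ n : ℕ, d * (φ ^ 2) ^ n ≤ 16 := by
    intro n
    have hFF := isFF_adjoin hn (E.toCrv.r_transc n)
    let F := IntermediateField.adjoin ℂ {E.r n}
    obtain ⟨q, dN, hq, hdN, hN, hm⟩ := E.deg_r hn n
    have h1 : 0 ≤ dN - d * (q / 2) := by
      refine lim_eps (b := -κ0 * (q / 2) +
        (k * (2 * pdeg F E.y1 + 2 * pdeg F E.y2 - q / 2) + 0)) fun ε hε => ?_
      obtain ⟨m, c, f, h⟩ := hB ε hε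
      have h2 : HasDeg (fun v : Place F κ => ∑ i, c i * (v.ord (f i) : ℝ))
          (∑ i : Fin m, c i * 0) :=
        HasDeg.sum Finset.univ fun i _ => (hasDeg_ord (f i)).smul (c i)
      simp only [mul_zero, Finset.sum_const_zero] at h2
      have hy1 : HasDeg (fun v : Place F κ => (ht (base v) E.y1 : ℝ)) (pdeg F E.y1) :=
        hasDeg_ht E.y1
      have hy2 : HasDeg (fun v : Place F κ => (ht (base v) E.y2 : ℝ)) (pdeg F E.y2) :=
        hasDeg_ht E.y2
      have h3 := (((h2.add hN).add (hm.smul (-(d + ε * κ0)))).add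
        (((((hy1.smul 2).add (hy2.smul 2)).add (hm.smul (-1))).smul k).add
          (hasDeg_ord (k := F) u) |>.smul ε)).nonneg fun v => by
        have h4 := h (base v)
        beta_reduce
        have h5 : ((base v).ord u : ℝ) = v.ord u := rfl
        have h6 : ∑ i, c i * ((base v).ord (f i) : ℝ) = ∑ i, c i * (v.ord (f i) : ℝ) := rfl
        rw [h5, h6] at h4
        linarith
      linarith
    have hφ : (0 : ℝ) < (φ ^ 2) ^ n := by
      have := goldenRatio_pos
      positivity
    have h2 : d * (φ ^ 2) ^ n * (q / 2) ≤ 16 * (q / 2) := by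
      have h3 := mul_le_mul_of_nonneg_left (by linarith : d * (q / 2) ≤ dN) hφ.le
      linarith
    exact le_of_mul_le_mul_right h2 (by linarith)
  by_contra hd
  push Not at hd
  have h1 : (1 : ℝ) < φ ^ 2 := by
    have := one_lt_goldenRatio
    nlinarith
  obtain ⟨n, h2⟩ := pow_unbounded_of_one_lt (16 / d) h1
  rw [div_lt_iff₀ hd] at h2
  have h3 := key n
  linarith

end Exa

end Pool.Agent.Q73.LT
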