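import Pool.Agent.Q73.LT.No2

/-!
The nonexistence of log terminal models: the divisor on the log terminal model is `N`.
-/

set_option autoImplicit false

open FF Real

open scoped goldenRatio

namespace Pool.Agent.Q73.LT

namespace Exa

variable {κ K : Type} [Field κ] [Algebra ℂ κ] [Field K] [Algebra ℂ K] [Algebra κ K]
  [IsScalarTower ℂ κ K] (E : Exa κ K) [Algebra.EssFiniteType ℂ κ]
  (hn : Algebra.trdeg ℂ κ = 2) (g1 : Gen1 κ E.z) (hy : Model E.Y)
  (hS : ∀ P : Place ℂ K, IsPrimeDivisor E.Y P → E.S0 P ≠ 0 → P = zp g1)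
  {y' : Sys K} (hy' : Model y') {D' : Place ℂ K → ℝ} (hD' : Nef y' D') {δ : ℝ} (hδ : 0 < δ)
  (heq : ∀ P, IsPrimeDivisor y' P → D' P = E.D δ P)
  (hle : ∀ P, IsPrimeDivisor E.Y P → D' P ≤ E.D δ P)

include hn hy hS hy' hD' hδ heq hle

theorem eq_N : ¬ IsPrimeDivisor y' (zp g1) ∧ ∀ P, D' P = E.N P := by
  obtain ⟨k, h, hh, hkh⟩ := exists_dom hy y'
  set s := zp g1 with hs
  set κ0 : ℝ := y'.L s - (k + s.ord h) with hκ0
  have hkh' : ∀ P : Place ℂ K, (y'.L P : ℝ) ≤ k * E.Y.L P + P.ord h := fun P => by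
    exact_mod_cast hkh P
  have hNs : E.N s = 0 := E.N_zp g1
  have hS0s : (E.S0 s : ℝ) = 1 := by
    have := E.S0_zp g1
    rw [← hs] at this
    rw [this]
    norm_num
  have hYs : (E.Y.L s : ℝ) = 1 := by
    have := E.L_Y_zp g1
    rw [← hs] at this
    rw [this]
    norm_num
  -- the bound on the model of the divisor
  have hA : ∀ ε : ℝ, 0 < ε → ∀ P : Place ℂ K, D' P + ε * y'.L P ≤
      E.N P + (D' s + ε * κ0) * E.S0 P + ε * (k * E.Y.L P + P.ord h) := by
    intro ε hε P
    obtain ⟨m, c, z, hz, hD⟩ := hD'.2 ε hε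
    have h1 : RCartier E.Y fun P => E.N P + (D' s + ε * κ0) * E.S0 P +
        ε * (k * E.Y.L P + P.ord h) :=
      ((E.N_rcartier hy).add ((E.S0_rcartier hy).smul (D' s + ε * κ0))).add
        (((((bpf_self E.Y).rcartier).smul k).add (rcartier_ord E.Y hh)).smul ε)
    have h2 := negativity hy h1 (fun i => (hz i).1) (z := z) (fun P hP => by
      rw [← hD P]
      beta_reduce
      by_cases h0 : E.S0 P = 0
      · have h3 := hle P hP
        unfold D at h3
        rw [h0] at h3 ⊢
        have h4 := mul_le_mul_of_nonneg_left (hkh' P) hε.le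
        rw [Int.cast_zero, mul_zero] at h3 ⊢
        linarith
      · rw [hS P hP h0, hNs, hS0s, hYs, hκ0]
        linarith) P
    rw [← hD P] at h2
    exact h2
  -- the coefficient of `S`
  have hd : D' s ≤ 0 := by
    refine E.d_nonpos hn (κ0 := κ0) (k := k) (u := lc g1 hh) fun ε hε => ?_
    obtain ⟨m, c, z, hz, hD⟩ := hD'.2 ε hε
    obtain ⟨f, -, hf⟩ := E.ineqB g1 (fun i => (hz i).1) (z := z) (τ := D' s + ε * κ0) (ε := ε)
      (k := k) hh (fun P => by
        rw [← hD P]
        exact hA ε hε P) (by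
        rw [← hD (zp g1), ← hs]
        beta_reduce
        rw [hκ0]
        ring)
    exact ⟨m, c, f, hf⟩
  have hle1 : ∀ P, D' P ≤ E.N P := by
    intro P
    have h1 : 0 ≤ (E.N P + D' s * E.S0 P) - D' P := by
      refine lim_eps (b := κ0 * E.S0 P + (k * E.Y.L P + P.ord h) - y'.L P) fun ε hε => ?_
      have := hA ε hε P
      linarith
    have h2 : (0 : ℝ) ≤ E.S0 P := by exact_mod_cast E.S0_nonneg P
    have h3 := mul_nonneg (neg_nonneg.2 hd) h2
    linarith
  have hnot : ¬ IsPrimeDivisor y' (zp g1) := by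
    intro hP
    have h1 := heq _ hP
    rw [← hs] at h1
    unfold D at h1
    rw [hNs, hS0s] at h1
    linarith
  refine ⟨hnot, fun P => le_antisymm (hle1 P) ?_⟩
  -- the other inequality
  obtain ⟨k2, h2, hh2, hkh2⟩ := exists_dom hy' E.Y
  have hkh2' : ∀ P : Place ℂ K, (E.Y.L P : ℝ) ≤ k2 * y'.L P + P.ord h2 := fun P => by
    exact_mod_cast hkh2 P
  have h1 : 0 ≤ D' P - E.N P := by
    refine lim_eps (b := (k2 * y'.L P + P.ord h2) - E.Y.L P) fun ε hε => ?_
    obtain ⟨m, c, z, hz, hD⟩ := E.N_semiample hy hε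
    have h3 : RCartier y' fun P => D' P + ε * (k2 * y'.L P + P.ord h2) :=
      hD'.1.add (((((bpf_self y').rcartier).smul k2).add (rcartier_ord y' hh2)).smul ε)
    have h4 := negativity hy' h3 (fun i => (hz i).1) (z := z) (fun P hP => by
      rw [← hD P]
      beta_reduce
      have h5 := heq P hP
      unfold D at h5
      have h6 : (0 : ℝ) ≤ E.S0 P := by exact_mod_cast E.S0_nonneg P
      have h7 := mul_nonneg hδ.le h6
      have h8 := mul_le_mul_of_nonneg_left (hkh2' P) hε.le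
      linarith) P
    rw [← hD P] at h4
    beta_reduce at h4
    linarith
  linarith

end Exa

end Pool.Agent.Q73.LT
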