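import Pool.Agent.Q73.LT.Dim

/-!
Pairs of algebraically independent elements.
-/

set_option autoImplicit false

open FF

namespace Pool.Agent.Q73.LT

variable {L : Type} [Field L] [Algebra ℂ L]

theorem alg_adjoin_iff (S : Set L) (b : L) :
    IsAlgebraic (Algebra.adjoin ℂ S) b ↔ b ∈ acl (IntermediateField.adjoin ℂ S) := by
  rw [mem_acl]
  exact IntermediateField.isAlgebraic_adjoin_iff.symm

theorem ind_pair {a b : L} : AlgebraicIndependent ℂ ![a, b] ↔
    Transcendental ℂ a ∧ b ∉ acl (IntermediateField.adjoin ℂ {a}) := by
  have e : AlgebraicIndependent ℂ ![a, b] ↔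
      AlgebraicIndependent ℂ (fun o : Option Unit => o.elim b fun _ => a) := by
    have h := algebraicIndependent_equiv (R := ℂ) (finSuccEquivLast (n := 1) |>.trans
      (Equiv.optionCongr (Equiv.equivPUnit (Fin 1)))) (f := fun o : Option Unit => o.elim b fun _ => a)
    rw [← h]
    have h1 : (fun o : Option Unit => o.elim b fun _ => a) ∘ (finSuccEquivLast (n := 1) |>.trans
      (Equiv.optionCongr (Equiv.equivPUnit (Fin 1)))) = ![a, b] := by
      funext i
      fin_cases i
      · rfl
      · rfl
    rw [h1]
  rw [e, AlgebraicIndependent.option_iff, algebraicIndependent_unique_type_iff]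
  have h2 : Set.range (fun _ : Unit => a) = {a} := Set.range_const
  rw [h2]
  unfold Transcendental
  rw [alg_adjoin_iff]

end Pool.Agent.Q73.LT
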