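import Pool.Agent.Q73.LT.No3
import Pool.Agent.Q73.LT.Pair

/-!
The nonexistence of log terminal models: the centre of `S`.
-/

set_option autoImplicit false

open FF Real Pool.Agent.W603.LV

open scoped goldenRatio

namespace Pool.Agent.Q73.LT

section

variable {K : Type} [Field K] [Algebra ℂ K]

theorem ge_aeval_sub {P : Place ℂ K} {r : ℕ} {a b : Fin r → K} (hb : ∀ i, Ge P 0 (b i))
    (hab : ∀ i, Ge P 1 (a i - b i)) (F : MvPolynomial (Fin r) ℂ) :
    Ge P 0 (MvPolynomial.aeval b F) ∧ Ge P 1 (MvPolynomial.aeval a F - MvPolynomial.aeval b F) := by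
  induction F using MvPolynomial.induction_on with
  | C c =>
    rw [MvPolynomial.aeval_C, MvPolynomial.aeval_C, sub_self]
    exact ⟨Ge.const c, Ge.zero⟩
  | add p q hp hq =>
    rw [map_add, map_add]
    refine ⟨hp.1.add hq.1, ?_⟩
    have : MvPolynomial.aeval a p + MvPolynomial.aeval a q -
        (MvPolynomial.aeval b p + MvPolynomial.aeval b q) =
        (MvPolynomial.aeval a p - MvPolynomial.aeval b p) +
        (MvPolynomial.aeval a q - MvPolynomial.aeval b q) := by ring
    rw [this]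
    exact hp.2.add hq.2
  | mul_X p i hp =>
    rw [map_mul, map_mul, MvPolynomial.aeval_X, MvPolynomial.aeval_X]
    refine ⟨(hp.1.mul (hb i)).mono (by norm_num), ?_⟩
    have : MvPolynomial.aeval a p * a i - MvPolynomial.aeval b p * b i =
        (MvPolynomial.aeval a p - MvPolynomial.aeval b p) * (a i - b i) +
        (MvPolynomial.aeval a p - MvPolynomial.aeval b p) * b i +
        MvPolynomial.aeval b p * (a i - b i) := by ring
    rw [this]
    exact (((hp.2.mul (hab i)).mono (by norm_num)).add ((hp.2.mul (hb i)).mono (by norm_num))).add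
      ((hp.1.mul (hab i)).mono (by norm_num))

theorem ord_eq_of_ge {P : Place ℂ K} {a b : K} (hb : b ≠ 0) (hbo : P.ord b = 0)
    (h : Ge P 1 (a - b)) : a ≠ 0 ∧ P.ord a = 0 := by
  rcases h with h | h
  · rw [sub_eq_zero] at h
    rw [h]
    exact ⟨hb, hbo⟩
  · by_cases h0 : a - b = 0
    · rw [sub_eq_zero] at h0
      rw [h0]
      exact ⟨hb, hbo⟩
    · have h1 := P.ord_add_eq (f := b) (g := a - b) hb h0 (by omega)
      rw [add_sub_cancel] at h1
      exact ⟨h1.1, by rw [h1.2, hbo]⟩

end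

variable {κ K : Type} [Field κ] [Algebra ℂ κ] [Field K] [Algebra ℂ K] [Algebra κ K]
  [IsScalarTower ℂ κ K] {z : K} (g1 : Gen1 κ z)

theorem aeval_map_coe {r : ℕ} (t : Fin r → κ) (F : MvPolynomial (Fin r) ℂ) :
    MvPolynomial.aeval (fun i => algebraMap κ K (t i)) F =
      algebraMap κ K (MvPolynomial.aeval t F) := by
  have := MvPolynomial.map_aeval t (algebraMap κ K) F
  rw [this, MvPolynomial.aeval_def, IsScalarTower.algebraMap_eq ℂ κ K]
  rfl

/-- functions with algebraically independent residues at `z = 0` -/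
theorem res_zp {a : Fin 2 → K} {t : Fin 2 → κ} (ht : AlgebraicIndependent ℂ t)
    (h : ∀ i, Ge (zp g1) 1 (a i - algebraMap κ K (t i))) : Res (zp g1) a := by
  intro F hF
  have h1 : MvPolynomial.aeval t F ≠ 0 := fun h0 => hF ((algebraicIndependent_iff.1 ht) F h0)
  have h2 := ge_aeval_sub (P := zp g1) (a := a) (b := fun i => algebraMap κ K (t i))
    (fun i => Or.inr (by rw [zp_coe])) h F
  rw [aeval_map_coe] at h2
  exact ord_eq_of_ge (by rwa [Ne, map_eq_zero]) (zp_coe g1 _) h2.2

theorem exists_res_of (g1 : Gen1 κ z) {y' : Sys K} {x : K} (hx : x ∈ localRing y' (zp g1)) :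
    ∃ c : κ, Ge (zp g1) 1 (x - algebraMap κ K c) := by
  obtain ⟨c, hc⟩ := exists_res g1 (localRing_reg hx)
  exact ⟨c, hc.imp id fun h => by omega⟩

/-- the residues of the functions in the local ring of `S` are algebraic over `ℂ(t)` -/
theorem exists_t {y' : Sys K} (hy' : Model y') (hn3 : Algebra.trdeg ℂ K = 3)
    (hnot : ¬ IsPrimeDivisor y' (zp g1)) {t0 : κ} (ht0 : Transcendental ℂ t0) :
    ∃ t : κ, Transcendental ℂ t ∧ ∀ x ∈ localRing y' (zp g1),
      ∃ c ∈ acl (IntermediateField.adjoin ℂ {t}), Ge (zp g1) 1 (x - algebraMap κ K c) := by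
  by_cases hall : ∃ x ∈ localRing y' (zp g1), ∃ c : κ, Transcendental ℂ c ∧
      Ge (zp g1) 1 (x - algebraMap κ K c)
  · obtain ⟨x1, hx1, t, ht, hxt⟩ := hall
    refine ⟨t, ht, fun x hx => ?_⟩
    obtain ⟨c, hc⟩ := exists_res_of g1 hx
    refine ⟨c, ?_, hc⟩
    by_contra hcon
    have hind : AlgebraicIndependent ℂ ![t, c] := ind_pair.2 ⟨ht, hcon⟩
    have hres : Res (zp g1) ![x1, x] := by
      refine res_zp g1 hind fun i => ?_
      fin_cases i
      · exact hxt
      · exact hc
    refine hnot (prime_of_res hy' (n := 3) (by norm_num) (by exact_mod_cast hn3) hres fun i => ?_)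
    fin_cases i
    · exact hx1
    · exact hx
  · push Not at hall
    refine ⟨t0, ht0, fun x hx => ?_⟩
    obtain ⟨c, hc⟩ := exists_res_of g1 hx
    refine ⟨c, ?_, hc⟩
    have h1 : IsAlgebraic ℂ c := by
      by_contra h1
      exact hall x hx c h1 hc
    rw [mem_acl]
    exact h1.extendScalars (algebraMap ℂ _).injective

/-- the places over the curves `t = const` pass through the centre of `S` -/
theorem through_gp {y' : Sys K} (hy' : Model y') {F : IntermediateField ℂ κ}
    (h : ∀ x ∈ localRing y' (zp g1), ∃ c ∈ F, Ge (zp g1) 1 (x - algebraMap κ K c))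
    {w : Place ℂ κ} (hw : Triv w F) :
    ∃ A : ℕ, ∀ a : ℕ, A ≤ a → Through y' (gp g1 w a) (zp g1) := by
  obtain ⟨f, hf⟩ := exists_top y' (zp g1)
  have hfg := (hy'.fg hf.1).out
  obtain ⟨G, hG⟩ := hfg
  have h1 : ∀ g : nchart y' f, ∃ c ∈ F, Ge (zp g1) 1 ((g : K) - algebraMap κ K c) := fun g =>
    h g (nchart_localRing hf g.2)
  choose c hcF hc using h1
  -- the thresholds
  have h2 : ∀ g : nchart y' f, ∃ A : ℕ, ∀ a : ℕ, A ≤ a →
      Ge (gp g1 w a) 1 ((g : K) - algebraMap κ K (c g)) := by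
    intro g
    by_cases h0 : (g : K) - algebraMap κ K (c g) = 0
    · exact ⟨0, fun a _ => Or.inl h0⟩
    · obtain ⟨A, hA⟩ := lc_ord g1 h0 w
      have h3 := (hc g).resolve_left h0
      refine ⟨A + (1 - w.ord (lc g1 h0)).toNat, fun a ha => Or.inr ?_⟩
      rw [hA a (by omega)]
      have h4 : (a : ℤ) * 1 ≤ a * (zp g1).ord ((g : K) - algebraMap κ K (c g)) :=
        mul_le_mul_of_nonneg_left h3 (Int.natCast_nonneg a)
      omega
  choose A hA using h2
  refine ⟨∑ g ∈ G, A g, fun a ha => ?_⟩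
  have hAa : ∀ g ∈ G, Ge (gp g1 w a) 1 ((g : K) - algebraMap κ K (c g)) := fun g hg =>
    hA g a ((Finset.single_le_sum (fun _ _ => Nat.zero_le _) hg).trans ha)
  have hF0 : ∀ e ∈ F, Ge (gp g1 w a) 0 (algebraMap κ K e) ∧ Ge (zp g1) 0 (algebraMap κ K e) := by
    intro e he
    refine ⟨Or.inr ?_, Or.inr (by rw [zp_coe])⟩
    rw [gp_coe]
    by_cases h0 : e = 0
    · rw [h0, w.ord_zero]
    · rw [hw e he h0]
  -- all the elements of the coordinate ring
  have hall : ∀ b : nchart y' f, ∃ e ∈ F, Ge (gp g1 w a) 1 ((b : K) - algebraMap κ K e) ∧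
      Ge (zp g1) 1 ((b : K) - algebraMap κ K e) := by
    intro b
    have hb : b ∈ Algebra.adjoin ℂ (G : Set (nchart y' f)) := by rw [hG]; trivial
    induction hb using Algebra.adjoin_induction with
    | mem x hx => exact ⟨c x, hcF x, hAa x hx, hc x⟩
    | algebraMap r =>
      refine ⟨algebraMap ℂ κ r, F.algebraMap_mem r, ?_⟩
      have h3 : ((algebraMap ℂ (nchart y' f) r : nchart y' f) : K) - algebraMap κ K (algebraMap ℂ κ r) =
          0 := by
        rw [← IsScalarTower.algebraMap_apply ℂ κ K]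
        exact sub_self _
      rw [h3]
      exact ⟨Ge.zero, Ge.zero⟩
    | add x x' _ _ hx hx' =>
      obtain ⟨e, he, h3, h4⟩ := hx
      obtain ⟨e', he', h3', h4'⟩ := hx'
      refine ⟨e + e', F.add_mem he he', ?_⟩
      have h5 : ((x + x' : nchart y' f) : K) - algebraMap κ K (e + e') =
          ((x : K) - algebraMap κ K e) + ((x' : K) - algebraMap κ K e') := by
        rw [map_add]
        push_cast
        ring
      rw [h5]
      exact ⟨h3.add h3', h4.add h4'⟩
    | mul x x' _ _ hx hx' =>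
      obtain ⟨e, he, h3, h4⟩ := hx
      obtain ⟨e', he', h3', h4'⟩ := hx'
      refine ⟨e * e', F.mul_mem he he', ?_⟩
      have h5 : ((x * x' : nchart y' f) : K) - algebraMap κ K (e * e') =
          ((x : K) - algebraMap κ K e) * ((x' : K) - algebraMap κ K e') +
          ((x : K) - algebraMap κ K e) * algebraMap κ K e' +
          algebraMap κ K e * ((x' : K) - algebraMap κ K e') := by
        rw [map_mul]
        push_cast
        ring
      rw [h5]
      have he1 := hF0 e he
      have he2 := hF0 e' he'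
      exact ⟨(((h3.mul h3').mono (by norm_num)).add ((h3.mul he2.1).mono (by norm_num))).add
        ((he1.1.mul h3').mono (by norm_num)),
        (((h4.mul h4').mono (by norm_num)).add ((h4.mul he2.2).mono (by norm_num))).add
        ((he1.2.mul h4').mono (by norm_num))⟩
  intro x hx
  obtain ⟨p, hp, q, hq, hq0, hqo, hpq⟩ := (mem_localRing hf).1 hx
  have hreg : ∀ b ∈ nchart y' f, (gp g1 w a).Reg b := by
    intro b hb
    obtain ⟨e, he, h3, -⟩ := hall ⟨b, hb⟩
    have h4 := (h3.mono (by norm_num : (0 : ℤ) ≤ 1)).add (hF0 e he).1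
    have h5 : b - algebraMap κ K e + algebraMap κ K e = b := sub_add_cancel _ _
    change Ge (gp g1 w a) 0 b
    rw [← h5]
    exact h4
  have hq1 : (gp g1 w a).ord q = 0 := by
    obtain ⟨e, he, h3, h4⟩ := hall ⟨q, hq⟩
    have he0 : e ≠ 0 := by
      rintro rfl
      rw [map_zero, sub_zero] at h4
      have h5 := h4.resolve_left hq0
      change 1 ≤ (zp g1).ord q at h5
      omega
    refine (ord_eq_of_ge (b := algebraMap κ K e) ?_ ?_ h3).2
    · rwa [Ne, map_eq_zero]
    · rw [gp_coe, hw e he he0]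
  by_cases hx0 : x = 0
  · exact Or.inl hx0
  have hp0 : p ≠ 0 := by
    rw [← hpq]
    exact mul_ne_zero hx0 hq0
  have h3 := ((gp g1 w a).reg_iff hp0).1 (hreg p hp)
  rw [← hpq, (gp g1 w a).ord_mul hx0 hq0, hq1] at h3
  exact Or.inr (by omega)

end Pool.Agent.Q73.LT
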