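import Pool.Agent.Q73.LT.Up
import Pool.Agent.Q73.LT.Class
import Pool.Agent.Q73.LT.No1

/-!
The example: upper bounds for the log discrepancies of the prime divisors.
-/

set_option autoImplicit false

open FF Pool.Agent.W602.GT Pool.Agent.W603.LV Pool.Agent.Y172

namespace Pool.Agent.Q73.LT

section zp

open Polynomial

variable {κ : Type} [Field κ] [Algebra ℂ κ] {K : Type} [Field K] [Algebra ℂ K] [Algebra κ K]
  [IsScalarTower ℂ κ K] {z : K}

theorem eq_zp (g1 : Gen1 κ z) {P : Place ℂ K} (hκ : ∀ c : κ, c ≠ 0 → P.ord (algebraMap κ K c) = 0)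
    (hz : 0 < P.ord z) : P = zp g1 := by
  have hz0 : z ≠ 0 := by
    rintro rfl
    rw [P.ord_zero] at hz
    exact lt_irrefl _ hz
  have hAr : ∀ a : κ, P.Reg (algebraMap κ K a) := by
    intro a
    by_cases ha : a = 0
    · left
      rw [ha, map_zero]
    · exact Or.inr (hκ a ha).ge
  have hreg : ∀ p : κ[X], P.Reg (aeval z p) := by
    intro p
    rw [aeval_eq_sum_range]
    have h3 : ∀ s : Finset ℕ, P.Reg (∑ i ∈ s, p.coeff i • z ^ i) := by
      intro s
      classical
      induction s using Finset.induction_on with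
      | empty => rw [Finset.sum_empty]; exact P.reg_zero
      | insert a s ha ih =>
        rw [Finset.sum_insert ha, Algebra.smul_def]
        refine P.reg_add (P.reg_mul (hAr _) ?_) ih
        right
        rw [P.ord_pow]
        positivity
    exact h3 _
  have hunit : ∀ p : κ[X], p.coeff 0 ≠ 0 → P.ord (aeval z p) = 0 := by
    intro p hp
    have h1 : aeval z p = z * aeval z p.divX + algebraMap κ K (p.coeff 0) := by
      conv_lhs => rw [← divX_mul_X_add p]
      rw [map_add, map_mul, aeval_X, aeval_C, mul_comm]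
    have h2 : Ge P 1 (aeval z p - algebraMap κ K (p.coeff 0)) := by
      rw [h1, add_sub_cancel_right]
      exact ((show Ge P 1 z from Or.inr (by omega)).mul
        (show Ge P 0 (aeval z p.divX) from hreg _)).mono (by norm_num)
    have hc0 : algebraMap κ K (p.coeff 0) ≠ 0 := by rwa [Ne, map_eq_zero]
    rcases h2 with h2 | h2
    · rw [sub_eq_zero] at h2
      rw [h2, hκ _ hp]
    · by_cases h0 : aeval z p - algebraMap κ K (p.coeff 0) = 0
      · rw [sub_eq_zero] at h0
        rw [h0, hκ _ hp]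
      · have h3 := P.ord_add_eq (f := algebraMap κ K (p.coeff 0))
          (g := aeval z p - algebraMap κ K (p.coeff 0)) hc0 h0 (by rw [hκ _ hp]; omega)
        rw [add_sub_cancel] at h3
        rw [h3.2, hκ _ hp]
  have hpol : ∀ p : κ[X], p ≠ 0 → P.ord (aeval z p) = p.natTrailingDegree * P.ord z := by
    intro p hp
    obtain ⟨q, hq, hq0⟩ := exists_eq_pow_rootMultiplicity_mul_and_not_dvd p hp 0
    rw [map_zero, sub_zero] at hq hq0
    rw [X_dvd_iff] at hq0
    have hqne : q ≠ 0 := by
      rintro rfl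
      exact hq0 (coeff_zero 0)
    have h1 : p.natTrailingDegree = p.rootMultiplicity 0 := by
      conv_lhs => rw [hq, mul_comm]
      rw [natTrailingDegree_mul_X_pow hqne, natTrailingDegree_eq_zero_of_constantCoeff_ne_zero hq0,
        zero_add]
    have h2 : aeval z q ≠ 0 := g1.ne hqne
    rw [h1]
    conv_lhs => rw [hq]
    rw [map_mul, map_pow, aeval_X, P.ord_mul (pow_ne_zero _ hz0) h2, P.ord_pow, hunit q hq0,
      add_zero]
  apply Place.eq_of_le
  intro f hf0 hfo
  obtain ⟨p, q, hq, hfpq⟩ := g1.gen f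
  have hp : p ≠ 0 := by
    rintro rfl
    rw [map_zero, zero_div] at hfpq
    exact hf0 hfpq
  rw [hfpq, P.ord_div (g1.ne hp) (g1.ne hq), hpol p hp, hpol q hq, ← sub_mul] at hfo
  rw [hfpq, Place.ord_div _ (g1.ne hp) (g1.ne hq), zp_ord g1 hp, zp_ord g1 hq]
  exact nonneg_of_mul_nonneg_left hfo hz

end zp

section der

variable {M : Type} [Field M] [Algebra ℂ M]

theorem der_adjoin {S : Set M} {D : Derivation ℂ M M}
    (h : ∀ s ∈ S, D s ∈ IntermediateField.adjoin ℂ S) :
    ∀ x ∈ IntermediateField.adjoin ℂ S, D x ∈ IntermediateField.adjoin ℂ S := by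
  intro x hx
  induction hx using IntermediateField.adjoin_induction with
  | mem x hx => exact h x hx
  | algebraMap c =>
    rw [D.map_algebraMap]
    exact zero_mem _
  | add x y hx hy h1 h2 =>
    rw [map_add]
    exact add_mem h1 h2
  | inv x hx h1 =>
    rw [D.leibniz_inv, smul_eq_mul, neg_mul]
    exact neg_mem (mul_mem (pow_mem (inv_mem hx) 2) h1)
  | mul x y hx hy h1 h2 =>
    rw [D.leibniz, smul_eq_mul, smul_eq_mul]
    exact add_mem (mul_mem hx h2) (mul_mem hy h1)

theorem triv_down {K : Type} [Field K] [Algebra ℂ K] [Algebra M K] [IsScalarTower ℂ M K]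
    {P : Place ℂ K} {Q : Place ℂ M} {e : ℕ} (h : Over P Q e) {S : Set M}
    (hT : Triv P (IntermediateField.adjoin ℂ (algebraMap M K '' S))) :
    Triv Q (IntermediateField.adjoin ℂ S) := by
  intro a ha ha0
  have h1 : algebraMap M K a ∈ IntermediateField.adjoin ℂ (algebraMap M K '' S) := by
    have h2 := IntermediateField.adjoin_map ℂ S (IsScalarTower.toAlgHom ℂ M K)
    have h3 : (IsScalarTower.toAlgHom ℂ M K : M →ₐ[ℂ] K) '' S = algebraMap M K '' S := rfl
    rw [h3] at h2
    rw [← h2]
    exact ⟨a, ha, rfl⟩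
  have h2 := hT _ h1 (by rwa [Ne, map_eq_zero])
  rw [h.2] at h2
  have h3 : (e : ℤ) ≠ 0 := by
    have := h.1
    exact_mod_cast this.ne'
  exact (mul_eq_zero.1 h2).resolve_left h3

end der

namespace Dat

variable {κ M K : Type} [Field κ] [Algebra ℂ κ] [Field M] [Algebra ℂ M] [Field K]
    [Algebra ℂ K] [Algebra κ K] [Algebra M K] [IsScalarTower ℂ M K] [FiniteDimensional M K]
    [Algebra.EssFiniteType ℂ K] (hn : Algebra.trdeg ℂ K = (3 : ℕ)) (E : Dat κ M K)

theorem top_of {k : IntermediateField ℂ M} {x : M}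
    (h1 : E.m1 ∈ IntermediateField.adjoin k {x}) (h2 : E.m2 ∈ IntermediateField.adjoin k {x})
    (h3 : E.mz ∈ IntermediateField.adjoin k {x}) : IntermediateField.adjoin k {x} = ⊤ := by
  rw [eq_top_iff]
  intro y _
  have h4 : IntermediateField.adjoin ℂ {E.m1, E.m2, E.mz} ≤
      (IntermediateField.adjoin k {x}).restrictScalars ℂ := by
    rw [IntermediateField.adjoin_le_iff]
    rintro s (rfl | rfl | rfl)
    · exact h1
    · exact h2
    · exact h3
  rw [E.top] at h4
  exact h4 (show y ∈ (⊤ : IntermediateField ℂ M) from trivial)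

theorem mem_k {k : IntermediateField ℂ M} {x a : M} (ha : a ∈ k) :
    a ∈ IntermediateField.adjoin k {x} :=
  IntermediateField.algebraMap_mem (IntermediateField.adjoin k {x}) (⟨a, ha⟩ : k)

theorem mem_x {k : IntermediateField ℂ M} {x : M} :
    x ∈ IntermediateField.adjoin k {x} := IntermediateField.mem_adjoin_simple_self _ _

variable {P : Place ℂ K} {Q : Place ℂ M} {e : ℕ} (h : Over P Q e)

include h in
theorem e_one (hc : Q.ord E.c1 = Q.ord E.c2) : e = 1 := by
  refine E.cub.e_one h ?_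
  have h1 := congrArg (algebraMap κ K) E.rel
  rw [← E.C_two, ← E.C_one, map_mul, map_pow, ← E.eθ, E.c1_eq, E.c2_eq] at h1
  have h2 := congrArg P.ord h1
  have hc1 : algebraMap M K E.c1 ≠ 0 := by
    rw [Ne, map_eq_zero]
    exact E.c1_ne
  rw [P.ord_mul (pow_ne_zero _ E.cub.θ_ne) hc1, P.ord_pow, h.2, h.2, hc] at h2
  push_cast at h2
  omega

include h in
theorem S0_of : E.S0 P = max 0 (max 0 (e * Q.ord E.mz) -
    min (max 0 (-(e * Q.ord E.m1))) (max 0 (-(e * Q.ord E.m2)))) := by
  unfold Exa.S0 Exa.l1 Exa.l2 ht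
  rw [Exa.lz_eq, ← E.ez, ← E.e1, ← E.e2, h.2, h.2, h.2]

theorem dd_apply (g : Fin 3 → M) (i j : Fin 3) :
    (g i • E.dd i) (E.F j) = if i = j then g i else 0 := by
  rw [Derivation.smul_apply, E.dd_eq, smul_eq_mul]
  split_ifs
  · rw [mul_one]
  · rw [mul_zero]

theorem ord_sq {x : M} (hx : x ≠ 0) (hc : x ^ 2 - 1 ≠ 0) (h : Q.ord x < 0) :
    Q.ord (x ^ 2 - 1) = 2 * Q.ord x := by
  have := Exa.ht_sq_sub_one Q hx
  unfold ht at this
  omega

include hn h in
/-- the divisors on which `y1` and `y2` are independent -/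
theorem case_a (hQ : Triv Q (IntermediateField.adjoin ℂ {E.m1, E.m2})) {c : ℝ}
    (hc : OrdForm P E.form c) : E.a3 c P ≤ 3 := by
  set k := IntermediateField.adjoin ℂ {E.m1, E.m2} with hk
  have i1 : E.m1 ∈ k := IntermediateField.subset_adjoin ℂ _ (by simp)
  have i2 : E.m2 ∈ k := IntermediateField.subset_adjoin ℂ _ (by simp)
  have o1 : Q.ord E.c1 = 0 := hQ _ (sub_mem (pow_mem i1 2) (one_mem _)) E.c1_ne
  have o2 : Q.ord E.c2 = 0 := hQ _ (sub_mem (pow_mem i2 2) (one_mem _)) E.c2_ne
  have he := E.e_one h (by rw [o1, o2])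
  have hcz := E.cz_ord' h
  have hl3 := E.l3_eq h
  rw [he, o1, o2] at hcz
  rw [he] at hl3
  have hdk : ∀ (g : Fin 3 → M), g 0 = 1 → g 1 = 1 → ∀ i, ∀ a ∈ k, (g i • E.dd i) a ∈ k := by
    intro g hg0 hg1 i
    refine der_adjoin ?_
    rintro s (rfl | rfl)
    · have := E.dd_apply g i 0
      change (g i • E.dd i) E.m1 = _ at this
      rw [this]
      split_ifs with hi
      · rw [hi, hg0]
        exact one_mem _
      · exact zero_mem _
    · have := E.dd_apply g i 1
      change (g i • E.dd i) E.m2 = _ at this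
      rw [this]
      split_ifs with hi
      · rw [hi, hg1]
        exact one_mem _
      · exact zero_mem _
  rcases le_or_gt 0 (Q.ord E.mz) with hz | hz
  · have htop := E.top_of (k := k) (x := E.mz) (mem_k i1) (mem_k i2) mem_x
    have h1 := E.bound_reg h he (g := fun _ => 1) (fun _ => one_ne_zero) (fun i => by
      refine derReg_of htop hQ (Or.inr hz) (hdk (fun _ => 1) rfl rfl i) ?_
      have := E.dd_apply (fun _ => 1) i 2
      change ((1 : M) • E.dd i) E.mz = _ at this
      rw [this]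
      split_ifs
      · exact Q.reg_one
      · exact Q.reg_zero) hc
    rw [Q.ord_one] at h1
    unfold Exa.a3
    have h2 : ((E.l3 P : ℤ) : ℝ) = 0 := by
      rw [hl3]
      have : max 0 (-(((1 : ℕ) : ℤ) * Q.ord E.mz)) = 0 := by
        push_cast
        omega
      rw [this]
      norm_num
    have h3 : (0 : ℝ) ≤ P.ord E.cz := by
      rw [hcz]
      have : (0 : ℤ) ≤ ((1 : ℕ) : ℤ) * (0 + 0 + Q.ord E.mz) := by
        push_cast
        omega
      exact_mod_cast this
    rw [h2]
    push_cast at h1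
    linarith
  · have htop := E.top_of (k := k) (x := E.mz⁻¹) (mem_k i1) (mem_k i2) (by
      have := inv_mem (mem_x (k := k) (x := E.mz⁻¹))
      rwa [inv_inv] at this)
    have h1 := E.bound_reg h he (g := ![1, 1, E.mz ^ 2]) (fun i => by
      fin_cases i
      · exact one_ne_zero
      · exact one_ne_zero
      · exact pow_ne_zero 2 E.mz_ne) (fun i => by
      refine derReg_of htop hQ (Or.inr (by rw [Q.ord_inv]; omega))
        (hdk ![1, 1, E.mz ^ 2] rfl rfl i) ?_
      rw [Derivation.leibniz_inv]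
      have := E.dd_apply ![1, 1, E.mz ^ 2] i 2
      change ((![1, 1, E.mz ^ 2] i) • E.dd i) E.mz = _ at this
      rw [this]
      split_ifs with hi
      · rw [hi]
        change Q.Reg (-E.mz⁻¹ ^ 2 • (E.mz ^ 2))
        have h2 : -E.mz⁻¹ ^ 2 • (E.mz ^ 2) = -1 := by
          have := E.mz_ne
          rw [smul_eq_mul]
          field_simp
        rw [h2]
        exact Q.reg_neg Q.reg_one
      · rw [smul_zero]
        exact Q.reg_zero) hc
    change c ≤ ((Q.ord 1 + Q.ord 1 + Q.ord (E.mz ^ 2) - P.ord E.cz : ℤ) : ℝ) at h1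
    rw [Q.ord_one, Q.ord_pow, hcz] at h1
    unfold Exa.a3
    have h2 : ((E.l3 P : ℤ) : ℝ) = -Q.ord E.mz := by
      rw [hl3]
      have : max 0 (-(((1 : ℕ) : ℤ) * Q.ord E.mz)) = - Q.ord E.mz := by
        push_cast
        omega
      rw [this]
      push_cast
      ring
    rw [h2, hcz]
    push_cast at h1 ⊢
    have h3 : (Q.ord E.mz : ℝ) < 0 := by exact_mod_cast hz
    linarith

include hn h in
/-- the divisors on which `z` and one of the `y`'s are independent -/
theorem case_b (hP : Divisorial 3 P) {i j : Fin 3} (hij : (i = 0 ∧ j = 1) ∨ (i = 1 ∧ j = 0))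
    (hQ : Triv Q (IntermediateField.adjoin ℂ {E.F j, E.mz})) {c : ℝ}
    (hc : OrdForm P E.form c) : E.a3 c P ≤ 3 := by
  set k := IntermediateField.adjoin ℂ {E.F j, E.mz} with hk
  set x := E.F i with hx
  have ij : E.F j ∈ k := IntermediateField.subset_adjoin ℂ _ (by simp)
  have iz : E.mz ∈ k := IntermediateField.subset_adjoin ℂ _ (by simp)
  have hx0 : x ≠ 0 := by
    rcases hij with ⟨h1, h2⟩ | ⟨h1, h2⟩
    · rw [hx, h1]
      exact E.m1_ne
    · rw [hx, h1]
      exact E.m2_ne
  have hcx : x ^ 2 - 1 ≠ 0 := by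
    rcases hij with ⟨h1, h2⟩ | ⟨h1, h2⟩
    · rw [hx, h1]
      exact E.c1_ne
    · rw [hx, h1]
      exact E.c2_ne
  have hcj : E.F j ^ 2 - 1 ≠ 0 := by
    rcases hij with ⟨h1, h2⟩ | ⟨h1, h2⟩
    · rw [h2]
      exact E.c2_ne
    · rw [h2]
      exact E.c1_ne
  have oj : Q.ord (E.F j ^ 2 - 1) = 0 := hQ _ (sub_mem (pow_mem ij 2) (one_mem _)) hcj
  have oz : Q.ord E.mz = 0 := hQ _ iz E.mz_ne
  have hcz : P.ord E.cz = e * Q.ord (x ^ 2 - 1) := by
    rw [E.cz_ord' h, oz]
    rcases hij with ⟨h1, h2⟩ | ⟨h1, h2⟩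
    · rw [h2] at oj
      change Q.ord E.c2 = 0 at oj
      rw [oj, hx, h1]
      change _ = e * Q.ord E.c1
      ring
    · rw [h2] at oj
      change Q.ord E.c1 = 0 at oj
      rw [oj, hx, h1]
      change _ = e * Q.ord E.c2
      ring
  have hl3 : E.l3 P = 0 := by
    rw [E.l3_eq h, oz]
    simp
  have hij' : i ≠ j := by
    rcases hij with ⟨h1, h2⟩ | ⟨h1, h2⟩ <;> rw [h1, h2] <;> decide
  have hi2 : i ≠ 2 := by
    rcases hij with ⟨h1, h2⟩ | ⟨h1, h2⟩ <;> rw [h1] <;> decide
  have e3 : e ≤ 3 := by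
    rcases E.cub.e_cases h with h1 | h1 <;> omega
  -- the multiples of the partial derivatives
  let g : M → Fin 3 → M := fun γ l => if l = i then γ else 1
  have hg : ∀ γ, γ ≠ 0 → ∀ l, g γ l ≠ 0 := by
    intro γ hγ l
    simp only [g]
    split_ifs
    · exact hγ
    · exact one_ne_zero
  have hgo : ∀ γ, Q.ord (g γ 0) + Q.ord (g γ 1) + Q.ord (g γ 2) = Q.ord γ := by
    intro γ
    rcases hij with ⟨h1, h2⟩ | ⟨h1, h2⟩
    · simp [g, h1, Q.ord_one]
    · simp [g, h1, Q.ord_one]
  have hdk : ∀ γ l, ∀ a ∈ k, (g γ l • E.dd l) a ∈ k := by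
    intro γ l
    refine der_adjoin ?_
    rintro s (rfl | rfl)
    · rw [E.dd_apply (g γ) l j]
      split_ifs with hl
      · simp only [g]
        rw [if_neg (by rw [hl]; exact hij'.symm)]
        exact one_mem _
      · exact zero_mem _
    · have := E.dd_apply (g γ) l 2
      change (g γ l • E.dd l) E.mz = _ at this
      rw [this]
      split_ifs with hl
      · simp only [g]
        rw [if_neg (by rw [hl]; exact hi2.symm)]
        exact one_mem _
      · exact zero_mem _
  have hdx : ∀ γ l, (g γ l • E.dd l) x = if l = i then γ else 0 := by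
    intro γ l
    rw [hx, E.dd_apply (g γ) l i]
    split_ifs with hl
    · simp only [g]
      rw [if_pos hl]
    · rfl
  have htopx : x ∈ IntermediateField.adjoin k {x} → IntermediateField.adjoin k {x} = ⊤ := by
    intro hxm
    rcases hij with ⟨h1, h2⟩ | ⟨h1, h2⟩
    · rw [h2] at ij
      rw [h1] at hx
      exact E.top_of (by rw [hx] at hxm ⊢; exact hxm) (mem_k ij) (mem_k iz)
    · rw [h2] at ij
      rw [h1] at hx
      exact E.top_of (mem_k ij) (by rw [hx] at hxm ⊢; exact hxm) (mem_k iz)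
  have htop := htopx mem_x
  rcases lt_or_ge (Q.ord x) 0 with hx1 | hx1
  · -- the pole of `x`
    have htop' : IntermediateField.adjoin k {x⁻¹} = ⊤ := by
      rw [eq_top_iff, ← htop]
      rw [IntermediateField.adjoin_simple_le_iff]
      have := inv_mem (mem_x (k := k) (x := x⁻¹))
      rwa [inv_inv] at this
    have hπ : Q.ord (x⁻¹ - 0) = 1 := unif_of htop' hQ k.zero_mem (by
      rw [sub_zero, Q.ord_inv]
      omega)
    rw [sub_zero] at hπ
    have hox : Q.ord x = -1 := by
      rw [Q.ord_inv] at hπ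
      omega
    have hD : ∀ l, (g x l • E.dd l) x⁻¹ = if l = i then -x⁻¹ else 0 := by
      intro l
      rw [Derivation.leibniz_inv, hdx]
      split_ifs with hl
      · rw [smul_eq_mul]
        field_simp
      · rw [smul_zero]
    have h1 := E.bound_log h hn hP (g := g x) (hg x hx0) (fun l => by
      refine derLog_of (derReg_of htop' hQ (Or.inr (by omega)) (hdk x l) ?_) hπ ?_
      · rw [hD]
        split_ifs
        · exact Q.reg_neg (Or.inr (by omega))
        · exact Q.reg_zero
      · rw [hD]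
        split_ifs
        · rw [neg_div, div_self (inv_ne_zero hx0)]
          exact Q.reg_neg Q.reg_one
        · rw [zero_div]
          exact Q.reg_zero) hc
    rw [hgo, hcz, ord_sq hx0 hcx hx1, hox] at h1
    unfold Exa.a3
    rw [hl3, hcz, ord_sq hx0 hcx hx1, hox]
    push_cast at h1 ⊢
    have h3 : (e : ℝ) ≤ 3 := by exact_mod_cast e3
    linarith
  · by_cases hxc : Q.ord (x ^ 2 - 1) = 0
    · -- no ramification
      have he : e = 1 := by
        refine E.e_one h ?_
        rcases hij with ⟨h1, h2⟩ | ⟨h1, h2⟩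
        · rw [h2] at oj
          rw [hx, h1] at hxc
          change Q.ord E.c2 = 0 at oj
          change Q.ord E.c1 = 0 at hxc
          rw [oj, hxc]
        · rw [h2] at oj
          rw [hx, h1] at hxc
          change Q.ord E.c1 = 0 at oj
          change Q.ord E.c2 = 0 at hxc
          rw [oj, hxc]
      have h1 := E.bound_reg h he (g := g 1) (hg 1 one_ne_zero) (fun l => by
        refine derReg_of htop hQ (Or.inr hx1) (hdk 1 l) ?_
        rw [hdx]
        split_ifs
        · exact Q.reg_one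
        · exact Q.reg_zero) hc
      rw [hgo, Q.ord_one, hcz, hxc] at h1
      unfold Exa.a3
      rw [hl3, hcz, hxc]
      push_cast at h1 ⊢
      linarith
    · -- the points `x = 1` and `x = -1`
      have key : ∃ ε : ℂ, ε ^ 2 = 1 ∧ 0 < Q.ord (x - algebraMap ℂ M ε) := by
        have hc1 : x - 1 ≠ 0 := fun h => hcx (by linear_combination (x + 1) * h)
        have hc2 : x + 1 ≠ 0 := fun h => hcx (by linear_combination (x - 1) * h)
        have hprod : Q.ord (x ^ 2 - 1) = Q.ord (x - 1) + Q.ord (x + 1) := by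
          rw [← Q.ord_mul hc1 hc2]
          congr 1
          ring
        have h1 : 0 ≤ Q.ord (x - 1) := by
          have := Q.reg_add (f := x) (g := -1) (Or.inr hx1) (Q.reg_neg Q.reg_one)
          rw [← sub_eq_add_neg] at this
          exact (Q.reg_iff hc1).1 this
        have h2 : 0 ≤ Q.ord (x + 1) := (Q.reg_iff hc2).1 (Q.reg_add (f := x) (Or.inr hx1) Q.reg_one)
        rcases h1.lt_or_eq with h3 | h3
        · exact ⟨1, by norm_num, by rw [map_one]; exact h3⟩
        · refine ⟨-1, by norm_num, ?_⟩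
          rw [map_neg, map_one, sub_neg_eq_add]
          omega
      obtain ⟨ε, hε, hxε⟩ := key
      set ε' := algebraMap ℂ M ε with hε'
      have hεk : ε' ∈ k := k.algebraMap_mem ε
      have hε2 : ε' ^ 2 = 1 := by rw [hε', ← map_pow, hε, map_one]
      have hε0 : ε ≠ 0 := by
        rintro rfl
        norm_num at hε
      have hπ := unif_of htop hQ hεk hxε
      have hπ0 : x - ε' ≠ 0 := by
        intro h0
        rw [h0, Q.ord_zero] at hπ
        omega
      have hfac : x ^ 2 - 1 = (x - ε') * (x + ε') := by linear_combination hε2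
      have hplus : x + ε' ≠ 0 ∧ Q.ord (x + ε') = 0 := by
        have h1 : algebraMap ℂ M (2 * ε) ≠ 0 := by
          rw [Ne, map_eq_zero]
          exact mul_ne_zero two_ne_zero hε0
        have h2 := Q.ord_add_eq (f := algebraMap ℂ M (2 * ε)) (g := x - ε') h1 hπ0 (by
          rw [Q.ord_const (mul_ne_zero two_ne_zero hε0), hπ]
          norm_num)
        rw [Q.ord_const (mul_ne_zero two_ne_zero hε0)] at h2
        have h3 : algebraMap ℂ M (2 * ε) + (x - ε') = x + ε' := by
          rw [map_mul, map_ofNat, ← hε']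
          ring
        rwa [h3] at h2
      have hco : Q.ord (x ^ 2 - 1) = 1 := by
        rw [hfac, Q.ord_mul hπ0 hplus.1, hπ, hplus.2, add_zero]
      have hD : ∀ l, (g (x ^ 2 - 1) l • E.dd l) (x - ε') = if l = i then x ^ 2 - 1 else 0 := by
        intro l
        rw [map_sub, hdx, hε', Derivation.map_algebraMap, sub_zero]
      have h1 := E.bound_log h hn hP (g := g (x ^ 2 - 1)) (hg _ hcx) (fun l => by
        refine derLog_of (derReg_of htop hQ (Or.inr hx1) (hdk _ l) ?_) hπ ?_
        · rw [hdx]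
          split_ifs
          · exact Or.inr (by omega)
          · exact Q.reg_zero
        · rw [hD]
          split_ifs
          · rw [hfac, mul_div_cancel_left₀ _ hπ0]
            exact Or.inr hplus.2.ge
          · rw [zero_div]
            exact Q.reg_zero) hc
      rw [hgo, hcz, hco] at h1
      unfold Exa.a3
      rw [hl3, hcz, hco]
      push_cast at h1 ⊢
      have h3 : (e : ℝ) ≤ 3 := by exact_mod_cast e3
      linarith

include hn h in
/-- the exceptional divisor of the blow-up -/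
theorem case_c (hP : Divisorial 3 P) (hm1 : Q.ord E.m1 < 0)
    (hQ : Triv Q (IntermediateField.adjoin ℂ {E.m1 * E.mz, E.m2 * E.mz})) {c : ℝ}
    (hc : OrdForm P E.form c) : E.a3 c P ≤ 3 ∧ E.S0 P = 0 := by
  set k := IntermediateField.adjoin ℂ {E.m1 * E.mz, E.m2 * E.mz} with hk
  have i1 : E.m1 * E.mz ∈ k := IntermediateField.subset_adjoin ℂ _ (by simp)
  have i2 : E.m2 * E.mz ∈ k := IntermediateField.subset_adjoin ℂ _ (by simp)
  have h10 := E.m1_ne
  have h20 := E.m2_ne
  have hz0 := E.mz_ne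
  have o1 : Q.ord E.m1 + Q.ord E.mz = 0 := by
    rw [← Q.ord_mul h10 hz0]
    exact hQ _ i1 (mul_ne_zero h10 hz0)
  have o2 : Q.ord E.m2 + Q.ord E.mz = 0 := by
    rw [← Q.ord_mul h20 hz0]
    exact hQ _ i2 (mul_ne_zero h20 hz0)
  have mx := mem_x (k := k) (x := E.m1⁻¹)
  have x1 : E.m1 ∈ IntermediateField.adjoin k {E.m1⁻¹} := by
    have := inv_mem mx
    rwa [inv_inv] at this
  have xz : E.mz ∈ IntermediateField.adjoin k {E.m1⁻¹} := by
    have h1 : E.mz = (E.m1 * E.mz) / E.m1 := by field_simp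
    rw [h1]
    exact div_mem (mem_k i1) x1
  have x2 : E.m2 ∈ IntermediateField.adjoin k {E.m1⁻¹} := by
    have h1 : E.m2 = (E.m2 * E.mz) / E.mz := by field_simp
    rw [h1]
    exact div_mem (mem_k i2) xz
  have htop := E.top_of x1 x2 xz
  have hπ : Q.ord (E.m1⁻¹ - 0) = 1 := unif_of htop hQ k.zero_mem (by
    rw [sub_zero, Q.ord_inv]
    omega)
  rw [sub_zero] at hπ
  have p1 : Q.ord E.m1 = -1 := by
    rw [Q.ord_inv] at hπ
    omega
  have pz : Q.ord E.mz = 1 := by omega
  have p2 : Q.ord E.m2 = -1 := by omega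
  have q1 : Q.ord E.c1 = -2 := by
    have := ord_sq (Q := Q) h10 E.c1_ne hm1
    rw [p1] at this
    exact this
  have q2 : Q.ord E.c2 = -2 := by
    have := ord_sq (Q := Q) h20 E.c2_ne (by omega)
    rw [p2] at this
    exact this
  have he := E.e_one h (by rw [q1, q2])
  have hcz := E.cz_ord' h
  have hl3 := E.l3_eq h
  have hS := E.S0_of h
  rw [he, q1, q2, pz] at hcz
  rw [he, pz] at hl3
  rw [he, p1, p2, pz] at hS
  norm_num at hcz hl3 hS
  refine ⟨?_, hS⟩
  have hF0 : ∀ i, E.F i ≠ 0 := by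
    intro i
    fin_cases i
    · exact h10
    · exact h20
    · exact hz0
  have hm : ∀ i j, (E.F i • E.dd i) (E.F j) = (if i = j then 1 else 0) * E.F j := by
    intro i j
    rw [E.dd_apply E.F i j]
    split_ifs with hi
    · rw [hi, one_mul]
    · rw [zero_mul]
  have hif : ∀ i j : Fin 3, (if i = j then (1 : M) else 0) ∈ k := by
    intro i j
    split_ifs
    · exact one_mem _
    · exact zero_mem _
  have hdk : ∀ i, ∀ a ∈ k, (E.F i • E.dd i) a ∈ k := by
    intro i
    refine der_adjoin ?_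
    have e1 := hm i 0
    have e2 := hm i 1
    have ez := hm i 2
    change (E.F i • E.dd i) E.m1 = _ * E.m1 at e1
    change (E.F i • E.dd i) E.m2 = _ * E.m2 at e2
    change (E.F i • E.dd i) E.mz = _ * E.mz at ez
    rintro s (rfl | rfl)
    · rw [Derivation.leibniz, e1, ez, smul_eq_mul, smul_eq_mul]
      have h1 : E.m1 * ((if i = 2 then 1 else 0) * E.mz) + E.mz * ((if i = 0 then 1 else 0) * E.m1) =
          ((if i = 2 then 1 else 0) + (if i = 0 then 1 else 0)) * (E.m1 * E.mz) := by ring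
      rw [h1]
      exact mul_mem (add_mem (hif i 2) (hif i 0)) i1
    · rw [Derivation.leibniz, e2, ez, smul_eq_mul, smul_eq_mul]
      have h1 : E.m2 * ((if i = 2 then 1 else 0) * E.mz) + E.mz * ((if i = 1 then 1 else 0) * E.m2) =
          ((if i = 2 then 1 else 0) + (if i = 1 then 1 else 0)) * (E.m2 * E.mz) := by ring
      rw [h1]
      exact mul_mem (add_mem (hif i 2) (hif i 1)) i2
  have hD : ∀ i, (E.F i • E.dd i) E.m1⁻¹ = -(if i = 0 then 1 else 0) * E.m1⁻¹ := by
    intro i
    have e1 := hm i 0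
    change (E.F i • E.dd i) E.m1 = _ * E.m1 at e1
    rw [Derivation.leibniz_inv, e1, smul_eq_mul]
    field_simp
  have hr : ∀ i, Q.Reg (-(if i = (0 : Fin 3) then (1 : M) else 0)) := by
    intro i
    split_ifs
    · exact Q.reg_neg Q.reg_one
    · rw [neg_zero]
      exact Q.reg_zero
  have h1 := E.bound_log h hn hP (g := E.F) hF0 (fun i => by
    refine derLog_of (derReg_of htop hQ (Or.inr (by omega)) (hdk i) ?_) hπ ?_
    · rw [hD]
      exact Q.reg_mul (hr i) (Or.inr (by omega))
    · rw [hD, mul_div_cancel_right₀ _ (inv_ne_zero h10)]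
      exact hr i) hc
  change 1 + c ≤ ((e * (Q.ord E.m1 + Q.ord E.m2 + Q.ord E.mz) - P.ord E.cz : ℤ) : ℝ) at h1
  rw [he, p1, p2, pz, hcz] at h1
  unfold Exa.a3
  rw [hl3, hcz]
  push_cast at h1 ⊢
  linarith

variable [IsScalarTower ℂ κ K] (g1 : Gen1 κ E.z)
  (hκ : Algebra.IsAlgebraic (IntermediateField.adjoin ℂ {E.y1, E.y2}) κ)

include hn hκ in
/-- **The bounds for the prime divisors** -/
theorem pd_bound {P : Place ℂ K} (hPD : IsPrimeDivisor E.Y P) (hP : Divisorial 3 P) {c : ℝ}
    (hc : OrdForm P E.form c) : E.a3 c P ≤ 3 ∧ (E.S0 P ≠ 0 → P = zp g1) := by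
  obtain ⟨Q, e, h⟩ := exists_below (K := M) P
  have himg : ∀ a b : M, algebraMap M K '' {a, b} = {algebraMap M K a, algebraMap M K b} :=
    fun a b => Set.image_pair _ _ _
  have he : (0 : ℤ) < e := by exact_mod_cast h.1
  have hS := E.S0_of h
  rcases E.classify hPD hP with h1 | h1 | h1 | ⟨h0, h1⟩
  · refine ⟨E.case_a hn h (triv_down h (by rw [himg, E.e1, E.e2]; exact h1)) hc, fun hS0 => ?_⟩
    refine eq_zp g1 (fun a ha => ?_) ?_
    · have h2 : IsAlgebraic (IntermediateField.adjoin ℂ {algebraMap κ K E.y1, algebraMap κ K E.y2})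
          (algebraMap κ K a) := by
        have h3 := hκ.isAlgebraic a
        let φ : IntermediateField.adjoin ℂ {E.y1, E.y2} →+*
            IntermediateField.adjoin ℂ {algebraMap κ K E.y1, algebraMap κ K E.y2} :=
          ((algebraMap κ K).comp (algebraMap (IntermediateField.adjoin ℂ {E.y1, E.y2}) κ)).codRestrict
            (IntermediateField.adjoin ℂ {algebraMap κ K E.y1, algebraMap κ K E.y2}).toSubring
            (fun x => by
              have h4 := IntermediateField.adjoin_map ℂ {E.y1, E.y2} (IsScalarTower.toAlgHom ℂ κ K)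
              have h5 : (IsScalarTower.toAlgHom ℂ κ K : κ →ₐ[ℂ] K) '' {E.y1, E.y2} =
                  {algebraMap κ K E.y1, algebraMap κ K E.y2} := Set.image_pair _ _ _
              rw [h5] at h4
              change algebraMap κ K (x : κ) ∈ IntermediateField.adjoin ℂ _
              rw [← h4]
              exact ⟨x, x.2, rfl⟩)
        exact h3.ringHom_of_comp_eq φ (algebraMap κ K) φ.injective (by ext; rfl)
      exact triv_alg h1 h2 (by rwa [Ne, map_eq_zero])
    · by_contra hcon
      push Not at hcon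
      apply hS0
      have := E.l1_nonneg P
      have := E.l2_nonneg P
      unfold Exa.S0
      rw [E.lz_eq]
      omega
  · have hT := triv_down h (S := {E.m1, E.mz}) (by rw [himg, E.e1, E.ez]; exact h1)
    refine ⟨E.case_b hn h hP (i := 1) (j := 0) (Or.inr ⟨rfl, rfl⟩) hT hc, fun hS0 => ?_⟩
    exfalso
    have oz : Q.ord E.mz = 0 := hT _ (IntermediateField.subset_adjoin ℂ _ (by simp)) E.mz_ne
    rw [oz] at hS
    apply hS0
    rw [hS]
    omega
  · have hT := triv_down h (S := {E.m2, E.mz}) (by rw [himg, E.e2, E.ez]; exact h1)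
    refine ⟨E.case_b hn h hP (i := 0) (j := 1) (Or.inl ⟨rfl, rfl⟩) hT hc, fun hS0 => ?_⟩
    exfalso
    have oz : Q.ord E.mz = 0 := hT _ (IntermediateField.subset_adjoin ℂ _ (by simp)) E.mz_ne
    rw [oz] at hS
    apply hS0
    rw [hS]
    omega
  · have hT := triv_down h (S := {E.m1 * E.mz, E.m2 * E.mz}) (by
      rw [himg, map_mul, map_mul, E.e1, E.e2, E.ez]
      exact h1)
    have h2 : Q.ord E.m1 < 0 := by
      rw [← E.e1, h.2] at h0
      by_contra hcon
      push Not at hcon
      have := mul_nonneg he.le hcon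
      omega
    obtain ⟨h3, h4⟩ := E.case_c hn h hP h2 hT hc
    exact ⟨h3, fun h5 => absurd h4 h5⟩

end Dat

end Pool.Agent.Q73.LT
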