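import Pool.Agent.Q73.LT.Full
import Pool.Agent.Y172.Cov2

/-!
Places of `k(x)` which are trivial on `k`.
-/

set_option autoImplicit false

open FF Polynomial Pool.Agent.W602.GT Pool.Agent.W603.LV

namespace Pool.Agent.Q73.LT

variable {M : Type} [Field M] [Algebra ℂ M] {k : IntermediateField ℂ M} {x : M} {Q : Place ℂ M}

theorem reg_poly (hQ : Triv Q k) (hx : Q.Reg x) (p : k[X]) : Q.Reg (aeval x p) := by
  rw [aeval_eq_sum_range]
  have hAr : ∀ a : k, Q.Reg (a : M) := by
    intro a
    by_cases ha : (a : M) = 0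
    · exact Or.inl ha
    · exact Or.inr (hQ a a.2 ha).ge
  have hxr : ∀ i : ℕ, Q.Reg (x ^ i) := by
    intro i
    induction i with
    | zero => rw [pow_zero]; exact Q.reg_one
    | succ n ih => rw [pow_succ]; exact Q.reg_mul ih hx
  have h3 : ∀ s : Finset ℕ, Q.Reg (∑ i ∈ s, p.coeff i • x ^ i) := by
    intro s
    classical
    induction s using Finset.induction_on with
    | empty => rw [Finset.sum_empty]; exact Q.reg_zero
    | insert a s ha ih =>
      rw [Finset.sum_insert ha]
      exact Q.reg_add (Q.reg_mul (hAr _) (hxr a)) ih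
  exact h3 _

/-- reduced fractions -/
theorem exists_frac (htop : IntermediateField.adjoin k {x} = ⊤) (hQ : Triv Q k) (hx : Q.Reg x)
    {h : M} (hh : Q.Reg h) : ∃ p q : k[X], aeval x q ≠ 0 ∧ Q.ord (aeval x q) = 0 ∧
      h * aeval x q = aeval x p := by
  classical
  have hm : h ∈ IntermediateField.adjoin k {x} := by rw [htop]; trivial
  obtain ⟨p, q, hpq⟩ := (IntermediateField.mem_adjoin_simple_iff k h).1 hm
  by_cases h0 : aeval x q = 0
  · refine ⟨0, 1, ?_, ?_, ?_⟩
    · rw [map_one]
      exact one_ne_zero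
    · rw [map_one, Q.ord_one]
    · rw [hpq, h0, div_zero, zero_mul, map_zero]
  have hq0 : q ≠ 0 := by
    rintro rfl
    exact h0 (map_zero _)
  let g := EuclideanDomain.gcd p q
  have hg0 : g ≠ 0 := fun h => hq0 (EuclideanDomain.gcd_eq_zero_iff.1 h).2
  obtain ⟨p', hp'⟩ := EuclideanDomain.gcd_dvd_left p q
  obtain ⟨q', hq'⟩ := EuclideanDomain.gcd_dvd_right p q
  have hcop : ∃ a b : k[X], a * p' + b * q' = 1 := by
    have h1 := EuclideanDomain.gcd_eq_gcd_ab p q
    refine ⟨EuclideanDomain.gcdA p q, EuclideanDomain.gcdB p q, ?_⟩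
    apply mul_left_cancel₀ hg0
    have h2 : g * (EuclideanDomain.gcdA p q * p' + EuclideanDomain.gcdB p q * q') =
        (g * p') * EuclideanDomain.gcdA p q + (g * q') * EuclideanDomain.gcdB p q := by ring
    rw [h2, mul_one]
    have h3 : g * p' = p := hp'.symm
    have h4 : g * q' = q := hq'.symm
    rw [h3, h4]
    exact h1.symm
  obtain ⟨a, b, hab⟩ := hcop
  have hgx : aeval x g ≠ 0 := by
    intro h1
    apply h0
    have h4 : g * q' = q := hq'.symm
    rw [← h4, map_mul, h1, zero_mul]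
  have hq'x : aeval x q' ≠ 0 := by
    intro h1
    apply h0
    have h4 : g * q' = q := hq'.symm
    rw [← h4, map_mul, h1, mul_zero]
  have hmul : h * aeval x q' = aeval x p' := by
    have h3 : g * p' = p := hp'.symm
    have h4 : g * q' = q := hq'.symm
    rw [hpq, ← h3, ← h4, map_mul, map_mul]
    field_simp
  refine ⟨p', q', hq'x, ?_, hmul⟩
  by_contra hne
  have h1 := (Q.reg_iff hq'x).1 (reg_poly hQ hx q')
  have h2 : Ge Q 1 (aeval x q') := Or.inr (by omega)
  have h3 : Ge Q 1 (aeval x p') := by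
    rw [← hmul]
    have h4 : Ge Q 0 h := hh
    exact (h4.mul h2).mono (by norm_num)
  have h4 : Ge Q 1 (1 : M) := by
    have h5 : (1 : M) = aeval x a * aeval x p' + aeval x b * aeval x q' := by
      rw [← map_mul, ← map_mul, ← map_add, hab, map_one]
    rw [h5]
    exact (((show Ge Q 0 (aeval x a) from reg_poly hQ hx a).mul h3).mono (by norm_num)).add
      (((show Ge Q 0 (aeval x b) from reg_poly hQ hx b).mul h2).mono (by norm_num))
  have h5 := h4.resolve_left one_ne_zero
  rw [Q.ord_one] at h5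
  omega

/-- the value of a derivation on a polynomial -/
theorem der_reg_poly (hQ : Triv Q k) (hx : Q.Reg x) {D : Derivation ℂ M M}
    (hDk : ∀ a ∈ k, D a ∈ k) (hDx : Q.Reg (D x)) (p : k[X]) : Q.Reg (D (aeval x p)) := by
  have hAr : ∀ a ∈ k, Q.Reg a := by
    intro a ha
    by_cases ha0 : a = 0
    · exact Or.inl ha0
    · exact Or.inr (hQ a ha ha0).ge
  induction p using Polynomial.induction_on' with
  | add p q hp hq =>
    rw [map_add, map_add]
    exact Q.reg_add hp hq
  | monomial n a =>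
    rw [aeval_monomial, Derivation.leibniz, smul_eq_mul, smul_eq_mul]
    have hxr : ∀ i : ℕ, Q.Reg (x ^ i) := by
      intro i
      induction i with
      | zero => rw [pow_zero]; exact Q.reg_one
      | succ n ih => rw [pow_succ]; exact Q.reg_mul ih hx
    refine Q.reg_add (Q.reg_mul (hAr _ a.2) ?_) (Q.reg_mul (hxr n) (hAr _ (hDk _ a.2)))
    rw [Derivation.leibniz_pow, nsmul_eq_mul, smul_eq_mul]
    have hn : Q.Reg (n : M) := Ge.natCast n
    exact Q.reg_mul hn (Q.reg_mul (hxr _) hDx)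

/-- derivations which preserve `k` and are regular at `x` are regular -/
theorem derReg_of (htop : IntermediateField.adjoin k {x} = ⊤) (hQ : Triv Q k) (hx : Q.Reg x)
    {D : Derivation ℂ M M} (hDk : ∀ a ∈ k, D a ∈ k) (hDx : Q.Reg (D x)) : DerReg Q D := by
  intro h hh
  obtain ⟨p, q, hq0, hqo, hpq⟩ := exists_frac htop hQ hx hh
  have h1 : D (aeval x p) = h * D (aeval x q) + aeval x q * D h := by
    rw [← hpq, Derivation.leibniz, smul_eq_mul, smul_eq_mul]
  have h2 : D h = (D (aeval x p) - h * D (aeval x q)) * (aeval x q)⁻¹ := by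
    rw [eq_mul_inv_iff_mul_eq₀ hq0, h1]
    ring
  rw [h2]
  refine Q.reg_mul ?_ (Or.inr (by rw [Q.ord_inv]; omega))
  rw [sub_eq_add_neg]
  exact Q.reg_add (der_reg_poly hQ hx hDk hDx p)
    (Q.reg_neg (Q.reg_mul hh (der_reg_poly hQ hx hDk hDx q)))

/-- the linear polynomials are uniformizers -/
theorem unif_of (htop : IntermediateField.adjoin k {x} = ⊤) (hQ : Triv Q k) {c : M} (hc : c ∈ k)
    (hxc : 0 < Q.ord (x - c)) : Q.ord (x - c) = 1 := by
  have hcr : Q.Reg c := by
    by_cases h : c = 0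
    · exact Or.inl h
    · exact Or.inr (hQ c hc h).ge
  have hx : Q.Reg x := by
    have := Q.reg_add (f := x - c) (g := c) (Or.inr hxc.le) hcr
    rwa [sub_add_cancel] at this
  obtain ⟨t, ht0, ht⟩ := Q.surj
  obtain ⟨p, q, hq0, hqo, hpq⟩ := exists_frac htop hQ hx (h := t) (Or.inr (by omega))
  have hp : Q.ord (aeval x p) = 1 := by
    rw [← hpq, Q.ord_mul ht0 hq0, ht, hqo, add_zero]
  let c' : k := ⟨c, hc⟩
  have h1 : aeval x p = (x - c) * aeval x (p /ₘ (X - C c')) + ((p.eval c' : k) : M) := by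
    conv_lhs => rw [← modByMonic_add_div p (X - C c')]
    rw [modByMonic_X_sub_C_eq_C_eval, map_add, map_mul, map_sub, aeval_X, aeval_C, aeval_C]
    rw [add_comm]
    rfl
  have hxc0 : x - c ≠ 0 := by
    intro h
    rw [h, Q.ord_zero] at hxc
    exact lt_irrefl _ hxc
  have hr : Ge Q 0 (aeval x (p /ₘ (X - C c'))) := reg_poly hQ hx _
  have h2 : Ge Q 1 ((x - c) * aeval x (p /ₘ (X - C c'))) :=
    ((show Ge Q 1 (x - c) from Or.inr (by omega)).mul hr).mono (by norm_num)
  have h3 : ((p.eval c' : k) : M) = 0 := by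
    by_contra h3
    have h4 : Ge Q 1 ((p.eval c' : k) : M) := by
      have h5 : ((p.eval c' : k) : M) = aeval x p - (x - c) * aeval x (p /ₘ (X - C c')) := by
        rw [h1]
        ring
      rw [h5]
      exact (show Ge Q 1 (aeval x p) from Or.inr hp.ge).sub h2
    have h5 := h4.resolve_left h3
    rw [hQ _ (p.eval c').2 h3] at h5
    omega
  rw [h3, add_zero] at h1
  have h4 : aeval x (p /ₘ (X - C c')) ≠ 0 := by
    intro h4
    rw [h4, mul_zero] at h1
    rw [h1, Q.ord_zero] at hp
    omega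
  have h5 := hr.resolve_left h4
  rw [h1, Q.ord_mul hxc0 h4] at hp
  omega

/-- logarithmic derivations -/
theorem derLog_of {D : Derivation ℂ M M} (hD : DerReg Q D) {π : M} (hπ : Q.ord π = 1)
    (hDπ : Q.Reg (D π / π)) : DerLog Q D := by
  have hπ0 : π ≠ 0 := by
    intro h
    rw [h, Q.ord_zero] at hπ
    omega
  exact Pool.Agent.W619.TW.log_of_pres Q _ hD hπ0 hπ hDπ

end Pool.Agent.Q73.LT
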