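import Pool.Agent.Q73.LT.Markov

/-!
The sequence of the abscissas of the points `P_n`, `P_{n+2} = P_n + P_{n+1}`, on the product of two
curves `y ^ 2 = x ^ 3 + 1`, up to the diagonal action of the third roots of unity.
-/

set_option autoImplicit false

open FF Pool.Agent.W603.LV

namespace Pool.Agent.Q73.LT

/-- the function field of the quotient of the product of two curves `y ^ 2 = x ^ 3 + 1` by the
diagonal action of the third roots of unity -/
structure Crv (κ : Type) [Field κ] [Algebra ℂ κ] where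
  y1 : κ
  y2 : κ
  θ : κ
  rel : y2 ^ 2 - 1 = θ ^ 3 * (y1 ^ 2 - 1)
  nd : ∀ t : κ, y1 ∈ acl (IntermediateField.adjoin ℂ {t}) →
    y2 ∉ acl (IntermediateField.adjoin ℂ {t})

variable {κ : Type} [Field κ] [Algebra ℂ κ]

theorem acl_closed {F : IntermediateField ℂ κ} {x : κ} (h : IsAlgebraic (acl F) x) : x ∈ acl F := by
  have h1 : IsAlgebraic (algebraicClosure F κ) x := h
  rw [mem_acl]
  exact h1.restrictScalars F

theorem sq_mem {F : IntermediateField ℂ κ} {x a : κ} (ha : a ∈ acl F) (h : x ^ 2 = a) :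
    x ∈ acl F := by
  apply acl_closed
  refine ⟨Polynomial.X ^ 2 - Polynomial.C ⟨a, ha⟩,
    Polynomial.X_pow_sub_C_ne_zero (by norm_num) _, ?_⟩
  rw [map_sub, map_pow, Polynomial.aeval_X, Polynomial.aeval_C, h]
  exact sub_self a

namespace Crv

variable (E : Crv κ)

/-- the cube of the first abscissa -/
def c : κ := E.y1 ^ 2 - 1

theorem mem1 {F : IntermediateField ℂ κ} (h : E.c ∈ acl F) : E.y1 ∈ acl F :=
  sq_mem (a := E.c + 1) (add_mem h (one_mem _)) (by unfold c; ring)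

theorem mem2 {F : IntermediateField ℂ κ} (h : E.c ∈ acl F) (hθ : E.θ ∈ acl F) : E.y2 ∈ acl F :=
  sq_mem (a := E.θ ^ 3 * E.c + 1) (add_mem (mul_mem (pow_mem hθ 3) h) (one_mem _)) (by
    have := E.rel
    unfold c
    linear_combination this)

theorem nd' (t : κ) (h : E.c ∈ acl (IntermediateField.adjoin ℂ {t}))
    (hθ : E.θ ∈ acl (IntermediateField.adjoin ℂ {t})) : False :=
  E.nd t (E.mem1 h) (E.mem2 h hθ)

theorem self_mem (t : κ) : t ∈ acl (IntermediateField.adjoin ℂ {t}) :=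
  le_acl _ (IntermediateField.mem_adjoin_simple_self ℂ t)

theorem c_ne : E.c ≠ 0 := fun h =>
  E.nd' E.θ (by rw [h]; exact zero_mem _) (self_mem _)

theorem θ_ne : E.θ ≠ 0 := fun h => E.nd' E.c (self_mem _) (by rw [h]; exact zero_mem _)

theorem θ_ne_one : E.θ ≠ 1 := fun h => E.nd' E.c (self_mem _) (by rw [h]; exact one_mem _)

/-- the abscissas, divided by the first one -/
noncomputable def x : ℕ → κ
  | 0 => (E.y2 + E.y1) ^ 2 / (E.c * (E.θ - 1) ^ 2) - 1 - E.θ
  | 1 => 1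
  | 2 => E.θ
  | n + 3 => 2 * (x (n + 1) * x (n + 2) * (x (n + 1) + x (n + 2)) + 2 * (1 / E.c)) /
      (x (n + 1) - x (n + 2)) ^ 2 - x n

theorem x_one : E.x 1 = 1 := by rw [x]

theorem x_two : E.x 2 = E.θ := by rw [x]

theorem x_three (n : ℕ) : E.x (n + 3) = 2 * (E.x (n + 1) * E.x (n + 2) * (E.x (n + 1) + E.x (n + 2)) +
    2 * (1 / E.c)) / (E.x (n + 1) - E.x (n + 2)) ^ 2 - E.x n := by rw [x]

theorem GG_zero : GG (1 / E.c) (E.x 0) (E.x 1) (E.x 2) = 0 := by
  have hc := E.c_ne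
  have hθ : E.θ - 1 ≠ 0 := sub_ne_zero.2 E.θ_ne_one
  rw [x_one, x_two]
  have h0 : E.x 0 = (E.y2 + E.y1) ^ 2 / (E.c * (E.θ - 1) ^ 2) - 1 - E.θ := by rw [x]
  have h1 : E.y1 ^ 2 = E.c + 1 := by unfold c; ring
  have h2 : E.y2 ^ 2 = E.θ ^ 3 * E.c + 1 := by
    have := E.rel
    unfold c
    linear_combination this
  have hU : E.x 0 * ((E.θ - 1) ^ 2 * E.c) =
      2 * (E.y1 * E.y2) + (2 + E.c * E.θ * (E.θ + 1)) := by
    have h3 : E.x 0 * ((E.θ - 1) ^ 2 * E.c) = (E.y2 + E.y1) ^ 2 -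
        (1 + E.θ) * (E.θ - 1) ^ 2 * E.c := by
      rw [h0]
      field_simp
      ring
    rw [h3]
    linear_combination h1 + h2
  have hp : (E.y1 * E.y2) ^ 2 = (E.c + 1) * (E.θ ^ 3 * E.c + 1) := by
    rw [mul_pow, h1, h2]
  have h4 : GG (1 / E.c) (E.x 0) 1 E.θ * ((E.θ - 1) ^ 2 * E.c ^ 2) = 0 := by
    have h5 : GG (1 / E.c) (E.x 0) 1 E.θ * ((E.θ - 1) ^ 2 * E.c ^ 2) =
        (E.x 0 * ((E.θ - 1) ^ 2 * E.c)) ^ 2 -
        (E.x 0 * ((E.θ - 1) ^ 2 * E.c)) * (2 * E.θ * (1 + E.θ) * E.c + 4) +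
        (E.θ - 1) ^ 2 * (E.θ ^ 2 * E.c ^ 2 - 4 * E.c * (1 + E.θ)) := by
      unfold GG
      field_simp
      ring
    rw [h5, hU]
    linear_combination 4 * hp
  exact (mul_eq_zero.1 h4).resolve_right (mul_ne_zero (pow_ne_zero _ hθ) (pow_ne_zero _ hc))

/-- the sequence is not degenerate -/
structure Good (n : ℕ) : Prop where
  h0 : E.x n ≠ 0
  h1 : E.x (n + 1) ≠ 0
  h2 : E.x (n + 2) ≠ 0
  ne : E.x (n + 1) ≠ E.x (n + 2)
  G : GG (1 / E.c) (E.x n) (E.x (n + 1)) (E.x (n + 2)) = 0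
  F : ∀ t : κ, E.c * E.x (n + 1) ^ 3 ∈ acl (IntermediateField.adjoin ℂ {t}) →
    E.x (n + 2) / E.x (n + 1) ∈ acl (IntermediateField.adjoin ℂ {t}) → False

theorem good_zero : E.Good 0 where
  h0 := by
    intro h
    have h1 := E.GG_zero
    rw [h, x_one, x_two] at h1
    have hc := E.c_ne
    have h2 : E.c * E.θ ^ 2 = 4 * (1 + E.θ) := by
      have h3 : GG (1 / E.c) 0 1 E.θ * E.c = E.c * E.θ ^ 2 - 4 * (1 + E.θ) := by
        unfold GG
        field_simp
        ring
      rw [h1, zero_mul] at h3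
      linear_combination -h3
    have h3 : E.c = 4 * (1 + E.θ) / E.θ ^ 2 := by
      rw [eq_div_iff (pow_ne_zero _ E.θ_ne), h2]
    refine E.nd' E.θ ?_ (self_mem _)
    rw [h3]
    have h4 : (4 : κ) = algebraMap ℂ κ 4 := by rw [map_ofNat]
    rw [h4]
    exact div_mem (mul_mem (IntermediateField.algebraMap_mem _ _)
      (add_mem (one_mem _) (self_mem _))) (pow_mem (self_mem _) 2)
  h1 := by rw [zero_add, x_one]; exact one_ne_zero
  h2 := by rw [zero_add, x_two]; exact E.θ_ne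
  ne := by rw [zero_add, zero_add, x_one, x_two]; exact E.θ_ne_one.symm
  G := E.GG_zero
  F := by
    intro t h1 h2
    rw [zero_add, x_one, one_pow, mul_one] at h1
    rw [zero_add, zero_add, x_one, x_two, div_one] at h2
    exact E.nd' t h1 h2

theorem good_succ {n : ℕ} (h : E.Good n) : E.Good (n + 1) := by
  have hG := GG_next h.G h.ne (E.x_three n)
  have hc := E.c_ne
  have hF : ∀ t : κ, E.c * E.x (n + 2) ^ 3 ∈ acl (IntermediateField.adjoin ℂ {t}) →
      E.x (n + 3) / E.x (n + 2) ∈ acl (IntermediateField.adjoin ℂ {t}) → False := by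
    intro t h1 h2
    have h3 : E.x (n + 1) / E.x (n + 2) ∈ acl (IntermediateField.adjoin ℂ {t}) := by
      refine alg_step (fun x hx => acl_closed hx) (g := 1 / E.c) (one_div_ne_zero hc) h.h2 hG.1 ?_ h2
      rw [div_div_eq_mul_div, div_one, mul_comm]
      exact h1
    refine h.F t ?_ ?_
    · have : E.c * E.x (n + 1) ^ 3 = E.c * E.x (n + 2) ^ 3 * (E.x (n + 1) / E.x (n + 2)) ^ 3 := by
        have := h.h2
        field_simp
      rw [this]
      exact mul_mem h1 (pow_mem h3 3)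
    · rw [← inv_div]
      exact inv_mem h3
  refine ⟨h.h1, h.h2, ?_, ?_, hG.1, hF⟩
  · intro h0
    refine hF (E.c * E.x (n + 2) ^ 3) (self_mem _) ?_
    have h0' : E.x (n + 3) = 0 := h0
    rw [h0', zero_div]
    exact zero_mem _
  · intro h0
    refine hF (E.c * E.x (n + 2) ^ 3) (self_mem _) ?_
    have h0' : E.x (n + 2) = E.x (n + 3) := h0
    rw [← h0', div_self h.h2]
    exact one_mem _

theorem good (n : ℕ) : E.Good n := by
  induction n with
  | zero => exact E.good_zero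
  | succ n ih => exact E.good_succ ih

/-- the cubes of the abscissas -/
noncomputable def C (n : ℕ) : κ := E.c * E.x n ^ 3

theorem C_ne (n : ℕ) : E.C n ≠ 0 := mul_ne_zero E.c_ne (pow_ne_zero _ (E.good n).h0)

theorem C_one : E.C 1 = E.y1 ^ 2 - 1 := by
  unfold C
  rw [x_one, one_pow, mul_one]
  rfl

theorem C_two : E.C 2 = E.y2 ^ 2 - 1 := by
  unfold C
  rw [x_two, E.rel]
  unfold c
  ring

/-- the function in the parallelogram law -/
noncomputable def g (n : ℕ) : κ := (E.c * (E.x (n + 1) - E.x (n + 2)) ^ 3) ^ 2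

theorem g_ne (n : ℕ) : E.g n ≠ 0 :=
  pow_ne_zero _ (mul_ne_zero E.c_ne (pow_ne_zero _ (sub_ne_zero.2 (E.good n).ne)))

/-- the ratios of the abscissas -/
noncomputable def r (n : ℕ) : κ := E.x (n + 2) / E.x (n + 1)

theorem r_ne (n : ℕ) : E.r n ≠ 0 := div_ne_zero (E.good n).h2 (E.good n).h1

theorem C_r (n : ℕ) : E.C (n + 2) = E.C (n + 1) * E.r n ^ 3 := by
  unfold C r
  have := (E.good n).h1
  field_simp

theorem C_r_nd (n : ℕ) (t : κ) (h : E.C (n + 1) ∈ acl (IntermediateField.adjoin ℂ {t})) :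
    E.r n ∉ acl (IntermediateField.adjoin ℂ {t}) := fun h' => (E.good n).F t h h'

section places

variable {K : Type} [Field K] [Algebra ℂ K] [Algebra κ K] (P : Place ℂ K)

theorem law (n : ℕ) : ht P (algebraMap κ K (E.C (n + 3))) + ht P (algebraMap κ K (E.C n)) =
    2 * ht P (algebraMap κ K (E.C (n + 1))) + 2 * ht P (algebraMap κ K (E.C (n + 2))) +
      P.ord (algebraMap κ K (E.g n)) := by
  have hne : ∀ {f : κ}, f ≠ 0 → algebraMap κ K f ≠ 0 := fun hf => by
    rw [Ne, map_eq_zero]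
    exact hf
  have h := E.good n
  have h3 := (E.good (n + 1)).h2
  have h3' : E.x (n + 3) ≠ 0 := h3
  have hG := GG_next h.G h.ne (E.x_three n)
  have h1 := congrArg (algebraMap κ K) hG.2.1
  have h2 := congrArg (algebraMap κ K) hG.2.2
  simp only [map_mul, map_add, map_sub, map_pow, map_div₀, map_ofNat, map_one] at h1 h2
  have key := par3 P (hne E.c_ne) (hne h3') (hne h.h0) (hne h.h1) (hne h.h2)
    (fun h4 => h.ne ((algebraMap κ K).injective h4)) (by
      rw [add_comm (algebraMap κ K (E.x (n + 3)))]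
      rw [h1]
      ring) (by
      rw [mul_comm (algebraMap κ K (E.x (n + 3)))]
      rw [h2]
      ring)
  unfold C g
  simp only [map_mul, map_add, map_sub, map_pow]
  rw [key, P.ord_pow]
  norm_num

theorem law_min (n : ℕ) :
    min (ht P (algebraMap κ K (E.C (n + 1)))) (ht P (algebraMap κ K (E.C (n + 2)))) =
      min (ht P (algebraMap κ K (E.C 1))) (ht P (algebraMap κ K (E.C 2))) := by
  have hne : ∀ {f : κ}, f ≠ 0 → algebraMap κ K f ≠ 0 := fun hf => by
    rw [Ne, map_eq_zero]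
    exact hf
  induction n with
  | zero => rfl
  | succ n ih =>
    rw [← ih]
    have h := E.good (n + 1)
    have h1 := congrArg (algebraMap κ K) h.G
    unfold GG at h1
    simp only [map_mul, map_add, map_sub, map_pow, map_div₀, map_ofNat, map_one, map_zero] at h1
    have key := tri3 P (hne E.c_ne) (hne h.h0) (hne h.h1) (hne h.h2) (by
      unfold GG
      exact h1)
    unfold C
    simp only [map_mul, map_pow]
    exact key.symm

end places

end Crv

end Pool.Agent.Q73.LT
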