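import Pool.Agent.Q73.LT.Defs

/-!
Linear systems and their divisors.
-/

set_option autoImplicit false

open FF

namespace Pool.Agent.Q73.LT

variable {K : Type} [Field K] [Algebra ℂ K]

theorem Sys.ne_zero (z : Sys K) {f : K} (hf : f ∈ z.s) : f ≠ 0 := fun h => z.zero (h ▸ hf)

theorem Sys.le_L (z : Sys K) (P : Place ℂ K) {f : K} (hf : f ∈ z.s) : - P.ord f ≤ z.L P :=
  Finset.le_sup' (fun f => - P.ord f) hf

theorem Sys.exists_L (z : Sys K) (P : Place ℂ K) : ∃ f ∈ z.s, z.L P = - P.ord f :=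
  Finset.exists_mem_eq_sup' z.ne fun f => - P.ord f

theorem Sys.L_le (z : Sys K) (P : Place ℂ K) {c : ℤ} (h : ∀ f ∈ z.s, - P.ord f ≤ c) : z.L P ≤ c :=
  Finset.sup'_le z.ne _ h

theorem Sys.L_eq (z : Sys K) (P : Place ℂ K) {f : K} (hf : f ∈ z.s)
    (h : ∀ g ∈ z.s, - P.ord g ≤ - P.ord f) : z.L P = - P.ord f :=
  le_antisymm (z.L_le P h) (z.le_L P hf)

theorem top_iff {y : Sys K} {f : K} {P : Place ℂ K} (hf : f ∈ y.s) :
    Top y f P ↔ y.L P = - P.ord f := by
  have hf0 := y.ne_zero hf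
  constructor
  · intro h
    refine y.L_eq P hf fun g hg => ?_
    have h1 := (P.reg_iff (div_ne_zero (y.ne_zero hg) hf0)).1 (h.2 g hg)
    rw [P.ord_div (y.ne_zero hg) hf0] at h1
    omega
  · intro h
    refine ⟨hf, fun g hg => ?_⟩
    rw [P.reg_iff (div_ne_zero (y.ne_zero hg) hf0), P.ord_div (y.ne_zero hg) hf0]
    have := y.le_L P hg
    omega

theorem exists_top (y : Sys K) (P : Place ℂ K) : ∃ f, Top y f P := by
  obtain ⟨f, hf, h⟩ := y.exists_L P
  exact ⟨f, (top_iff hf).2 h⟩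

theorem Top.L {y : Sys K} {f : K} {P : Place ℂ K} (h : Top y f P) : y.L P = - P.ord f :=
  (top_iff h.1).1 h

/-- the linear system of one function -/
def sng (f : K) (hf : f ≠ 0) : Sys K := ⟨{f}, ⟨f, by simp⟩, by
  rw [Finset.mem_singleton]
  exact fun h => hf h.symm⟩

theorem L_sng {f : K} (hf : f ≠ 0) (P : Place ℂ K) : (sng f hf).L P = - P.ord f := by
  refine (sng f hf).L_eq P (by simp [sng]) fun g hg => ?_
  have : g = f := by simpa [sng] using hg
  rw [this]

open Classical in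
/-- the product of two linear systems -/
noncomputable def Sys.mul (z w : Sys K) : Sys K where
  s := Finset.image₂ (· * ·) z.s w.s
  ne := z.ne.image₂ w.ne
  zero := by
    rw [Finset.mem_image₂]
    rintro ⟨f, hf, g, hg, h⟩
    exact mul_ne_zero (z.ne_zero hf) (w.ne_zero hg) h

theorem Sys.mem_mul {z w : Sys K} {f g : K} (hf : f ∈ z.s) (hg : g ∈ w.s) : f * g ∈ (z.mul w).s := by
  classical
  unfold Sys.mul
  exact Finset.mem_image₂_of_mem hf hg

theorem Sys.of_mem_mul {z w : Sys K} {h : K} (hh : h ∈ (z.mul w).s) :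
    ∃ f ∈ z.s, ∃ g ∈ w.s, h = f * g := by
  classical
  unfold Sys.mul at hh
  obtain ⟨f, hf, g, hg, h⟩ := Finset.mem_image₂.1 hh
  exact ⟨f, hf, g, hg, h.symm⟩

theorem L_mul (z w : Sys K) (P : Place ℂ K) : (z.mul w).L P = z.L P + w.L P := by
  apply le_antisymm
  · refine (z.mul w).L_le P fun h hh => ?_
    obtain ⟨f, hf, g, hg, rfl⟩ := Sys.of_mem_mul hh
    rw [P.ord_mul (z.ne_zero hf) (w.ne_zero hg)]
    have h1 := z.le_L P hf
    have h2 := w.le_L P hg
    omega
  · obtain ⟨f, hf, h1⟩ := z.exists_L P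
    obtain ⟨g, hg, h2⟩ := w.exists_L P
    have h3 := (z.mul w).le_L P (Sys.mem_mul hf hg)
    rw [P.ord_mul (z.ne_zero hf) (w.ne_zero hg)] at h3
    omega

open Classical in
/-- the union of two linear systems -/
noncomputable def Sys.un (z w : Sys K) : Sys K where
  s := z.s ∪ w.s
  ne := z.ne.mono Finset.subset_union_left
  zero := by
    rw [Finset.mem_union]
    rintro (h | h)
    · exact z.zero h
    · exact w.zero h

theorem Sys.mem_un {z w : Sys K} {f : K} : f ∈ (z.un w).s ↔ f ∈ z.s ∨ f ∈ w.s := by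
  classical
  unfold Sys.un
  exact Finset.mem_union

theorem L_un (z w : Sys K) (P : Place ℂ K) : (z.un w).L P = max (z.L P) (w.L P) := by
  apply le_antisymm
  · refine (z.un w).L_le P fun h hh => ?_
    rcases Sys.mem_un.1 hh with h1 | h1
    · exact (z.le_L P h1).trans (le_max_left _ _)
    · exact (w.le_L P h1).trans (le_max_right _ _)
  · apply max_le
    · obtain ⟨f, hf, h1⟩ := z.exists_L P
      rw [h1]
      exact (z.un w).le_L P (Sys.mem_un.2 (Or.inl hf))
    · obtain ⟨f, hf, h1⟩ := w.exists_L P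
      rw [h1]
      exact (z.un w).le_L P (Sys.mem_un.2 (Or.inr hf))

/-- the linear system spanned by `1` and a function -/
noncomputable def pen (f : K) (hf : f ≠ 0) : Sys K := (sng 1 one_ne_zero).un (sng f hf)

theorem mem_pen {f : K} (hf : f ≠ 0) {g : K} : g ∈ (pen f hf).s ↔ g = 1 ∨ g = f := by
  unfold pen
  rw [Sys.mem_un]
  simp [sng]

theorem L_pen {f : K} (hf : f ≠ 0) (P : Place ℂ K) : (pen f hf).L P = max 0 (- P.ord f) := by
  unfold pen
  rw [L_un, L_sng, L_sng, P.ord_one, neg_zero]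

/-- the powers of a linear system -/
noncomputable def Sys.pow (z : Sys K) : ℕ → Sys K
  | 0 => sng 1 one_ne_zero
  | n + 1 => (z.pow n).mul z

theorem L_pow (z : Sys K) (n : ℕ) (P : Place ℂ K) : (z.pow n).L P = n * z.L P := by
  induction n with
  | zero => rw [Sys.pow, L_sng, P.ord_one]; simp
  | succ n ih => rw [Sys.pow, L_mul, ih]; push_cast; ring

end Pool.Agent.Q73.LT
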