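import Pool.Agent.Q73.LT.Rat
import Pool.Agent.Q73.LT.Klt
import Pool.Agent.Helper386.D5V.Helper399_FF4

/-!
Cubic extensions: ramification, and upper bounds for the orders of the form.
-/

set_option autoImplicit false

open FF Pool.Agent.W602.GT Pool.Agent.W603.LV Pool.Agent.Y172

namespace Pool.Agent.Q73.LT

/-- a cyclic cubic extension -/
structure Cub (M K : Type) [Field M] [Algebra ℂ M] [Field K] [Algebra ℂ K] [Algebra M K] where
  s : K ≃ₐ[ℂ] K
  s3 : ∀ f, s (s (s f)) = f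
  fix : ∀ f, s f = f ↔ f ∈ Set.range (algebraMap M K)
  ne : ∃ f, s f ≠ f
  θ : K
  θ_ne : θ ≠ 0
  ω : ℂ
  ω_ne : ω ≠ 1
  sθ : s θ = algebraMap ℂ K ω * θ

section

variable {M K : Type} [Field M] [Algebra ℂ M] [Field K] [Algebra ℂ K] [Algebra M K]
  [IsScalarTower ℂ M K] [FiniteDimensional M K] (C : Cub M K)

variable {P : Place ℂ K} {Q : Place ℂ M} {e : ℕ} (h : Over P Q e)

include C h

theorem Cub.e_cases : e = 1 ∨ e = 3 := by
  have h1 := cyclic_cubic C.s C.s3 C.fix C.ne P Q e h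
  by_cases h2 : P.comp C.s = P
  · rcases h1.2 h2 with h3 | h3
    · exact Or.inr h3.1
    · exact Or.inl h3.1
  · exact Or.inl (h1.1 h2).1

theorem Cub.e_one (hθ : P.ord C.θ = 0) : e = 1 := by
  have h1 := cyclic_cubic C.s C.s3 C.fix C.ne P Q e h
  by_cases h2 : P.comp C.s = P
  · rcases h1.2 h2 with h3 | h3
    · exfalso
      obtain ⟨x, hx⟩ := h3.2 (P.red C.θ)
      obtain ⟨r, hr, rfl⟩ := Q.red_surjective x
      rw [h.resMap_red hr] at hx
      have hrr : P.Reg (algebraMap M K r) := h.reg.2 hr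
      have hθr : P.Reg C.θ := Or.inr hθ.ge
      have h4 : Ge P 1 (C.θ - algebraMap M K r) := by
        have h5 : P.red (C.θ - algebraMap M K r) = 0 := by
          rw [P.red_sub hθr hrr, hx, sub_self]
        have h6 : P.Reg (C.θ - algebraMap M K r) := by
          rw [sub_eq_add_neg]
          exact P.reg_add hθr (P.reg_neg hrr)
        exact ((P.red_eq_zero_iff h6).1 h5).imp id fun h => by omega
      have hsr : C.s (algebraMap M K r) = algebraMap M K r := (C.fix _).2 ⟨r, rfl⟩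
      have h5 : Ge P 1 (C.s (C.θ - algebraMap M K r)) := by
        rcases h4 with h4 | h4
        · left
          rw [h4, map_zero]
        · right
          rw [← Place.comp_ord, h2]
          exact h4
      rw [map_sub, C.sθ, hsr] at h5
      have h6 := h5.sub h4
      have h7 : algebraMap ℂ K C.ω * C.θ - algebraMap M K r - (C.θ - algebraMap M K r) =
          algebraMap ℂ K (C.ω - 1) * C.θ := by
        rw [map_sub, map_one]
        ring
      rw [h7] at h6
      have h8 : algebraMap ℂ K (C.ω - 1) ≠ 0 := by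
        rw [Ne, map_eq_zero]
        exact sub_ne_zero.2 C.ω_ne
      have h9 := h6.resolve_left (mul_ne_zero h8 C.θ_ne)
      rw [P.ord_mul h8 C.θ_ne, hθ, P.ord_const (sub_ne_zero.2 C.ω_ne)] at h9
      omega
    · exact h3.1
  · exact (h1.1 h2).1

end

section

variable {M K : Type} [Field M] [Algebra ℂ M] [Field K] [Algebra ℂ K] [Algebra M K]
  [IsScalarTower ℂ M K] [FiniteDimensional M K]

variable {P : Place ℂ K} {Q : Place ℂ M} {e : ℕ} (h : Over P Q e)

theorem exists_ext {n : ℕ} (hn : Algebra.trdeg ℂ M = n) (D : Derivation ℂ M M) :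
    ∃ D' : Derivation ℂ K K, ∀ f : M, D' (algebraMap M K f) = algebraMap M K (D f) := by
  obtain ⟨D', h, -⟩ := Pool.Agent.W619.Y.pEXT.{0, 0} ℂ M K n hn D
  exact ⟨D', h⟩

include h in
theorem lift_reg (he : e = 1) {D : Derivation ℂ M M} (hD : DerReg Q D)
    {D' : Derivation ℂ K K} (hD' : ∀ f, D' (algebraMap M K f) = algebraMap M K (D f)) :
    DerReg P D' := by
  intro z hz
  refine Pool.Agent.W619.Y.pPRES.{0, 0} ℂ M K Q P e h D' (fun x hx => ?_) (Or.inl he) z hz
  rw [hD']
  exact h.reg.2 (hD x hx)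

end

/-- the data of the example over the rational field -/
structure Dat (κ M K : Type) [Field κ] [Algebra ℂ κ] [Field M] [Algebra ℂ M] [Field K]
    [Algebra ℂ K] [Algebra κ K] [Algebra M K] extends Exa κ K where
  cub : Cub M K
  m1 : M
  m2 : M
  mz : M
  e1 : algebraMap M K m1 = algebraMap κ K y1
  e2 : algebraMap M K m2 = algebraMap κ K y2
  ez : algebraMap M K mz = z
  eθ : cub.θ = algebraMap κ K θ
  top : IntermediateField.adjoin ℂ {m1, m2, mz} = ⊤
  bas : IsTranscendenceBasis ℂ ![m1, m2, mz]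

namespace Dat

variable {κ M K : Type} [Field κ] [Algebra ℂ κ] [Field M] [Algebra ℂ M] [Field K]
    [Algebra ℂ K] [Algebra κ K] [Algebra M K] [IsScalarTower ℂ M K] [FiniteDimensional M K]
    (E : Dat κ M K)

/-- the coordinates -/
def F : Fin 3 → M := ![E.m1, E.m2, E.mz]

theorem f_eq (j : Fin 3) : E.f j = algebraMap M K (E.F j) := by
  unfold Exa.f F
  fin_cases j
  · exact E.e1.symm
  · exact E.e2.symm
  · exact E.ez.symm

/-- the cubes of the abscissas -/
def c1 : M := E.m1 ^ 2 - 1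

/-- the cubes of the abscissas -/
def c2 : M := E.m2 ^ 2 - 1

theorem c1_eq : algebraMap κ K (E.C 1) = algebraMap M K E.c1 := by
  rw [E.C_one, map_sub, map_pow, map_one, ← E.e1]
  unfold c1
  rw [map_sub, map_pow, map_one]

theorem c2_eq : algebraMap κ K (E.C 2) = algebraMap M K E.c2 := by
  rw [E.C_two, map_sub, map_pow, map_one, ← E.e2]
  unfold c2
  rw [map_sub, map_pow, map_one]

theorem c1_ne : E.c1 ≠ 0 := by
  have := Exa.map_ne (K := K) (E.C_ne 1)
  rw [E.c1_eq] at this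
  intro h
  rw [h, map_zero] at this
  exact this rfl

theorem c2_ne : E.c2 ≠ 0 := by
  have := Exa.map_ne (K := K) (E.C_ne 2)
  rw [E.c2_eq] at this
  intro h
  rw [h, map_zero] at this
  exact this rfl

theorem mz_ne : E.mz ≠ 0 := by
  intro h
  have := E.z_ne
  rw [← E.ez, h, map_zero] at this
  exact this rfl

theorem m1_ne : E.m1 ≠ 0 := by
  intro h
  have := Exa.map_ne (K := K) E.y1_ne
  rw [← E.e1, h, map_zero] at this
  exact this rfl

theorem m2_ne : E.m2 ≠ 0 := by
  intro h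
  have := Exa.map_ne (K := K) E.y2_ne
  rw [← E.e2, h, map_zero] at this
  exact this rfl

theorem exists_dd : ∃ G : Fin 3 → Derivation ℂ M M,
    ∀ i j, G i (E.F j) = if i = j then 1 else 0 :=
  Pool.Agent.W636.PG.exists_duals ℂ M 3 E.F E.bas

/-- the partial derivatives -/
noncomputable def dd : Fin 3 → Derivation ℂ M M := E.exists_dd.choose

theorem dd_eq (i j : Fin 3) : E.dd i (E.F j) = if i = j then 1 else 0 :=
  E.exists_dd.choose_spec i j

include E in
theorem trdeg_M : Algebra.trdeg ℂ M = (3 : ℕ) := by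
  rw [← E.bas.cardinalMk_eq_trdeg]
  simp

/-- the lifts of multiples of the partial derivatives -/
theorem exists_lifts (g : Fin 3 → M) : ∃ D : Fin 3 → Derivation ℂ K K,
    (∀ i f, D i (algebraMap M K f) = algebraMap M K ((g i • E.dd i) f)) ∧
    E.form D = algebraMap M K (g 0 * g 1 * g 2) / E.cz := by
  choose D hD using fun i => exists_ext (K := K) E.trdeg_M (g i • E.dd i)
  refine ⟨D, hD, ?_⟩
  unfold Exa.form
  have h1 : (Matrix.of fun i j => D i (E.f j)) = Matrix.diagonal fun i => algebraMap M K (g i) := by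
    ext i j
    rw [Matrix.of_apply, E.f_eq, hD, Derivation.smul_apply, E.dd_eq, smul_eq_mul,
      Matrix.diagonal_apply]
    split_ifs
    · rw [mul_one]
    · rw [mul_zero, map_zero]
  rw [h1, Matrix.det_diagonal, Fin.prod_univ_three, map_mul, map_mul]

variable {P : Place ℂ K} {Q : Place ℂ M} {e : ℕ} (h : Over P Q e)

include h

theorem cz_ord' : P.ord E.cz = e * (Q.ord E.c1 + Q.ord E.c2 + Q.ord E.mz) := by
  rw [E.cz_ord, E.c1_eq, E.c2_eq, ← E.ez, h.2, h.2, h.2]
  ring

theorem l3_eq : E.l3 P = max 0 (-(e * Q.ord E.mz)) := by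
  unfold Exa.l3 ht
  rw [← E.ez, h.2]

/-- the bound from regular derivations -/
theorem bound_reg (he : e = 1) {g : Fin 3 → M} (hg : ∀ i, g i ≠ 0)
    (hreg : ∀ i, DerReg Q (g i • E.dd i)) {c : ℝ} (hc : OrdForm P E.form c) :
    c ≤ ((Q.ord (g 0) + Q.ord (g 1) + Q.ord (g 2) - P.ord E.cz : ℤ) : ℝ) := by
  obtain ⟨D, hD, hform⟩ := E.exists_lifts g
  have h1 := hc.1 D fun i => lift_reg h he (hreg i) (hD i)
  have hg0 : g 0 * g 1 * g 2 ≠ 0 := mul_ne_zero (mul_ne_zero (hg 0) (hg 1)) (hg 2)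
  have hg1 : algebraMap M K (g 0 * g 1 * g 2) ≠ 0 := by
    rwa [Ne, map_eq_zero]
  have h2 := h1.resolve_left (by
    rw [hform]
    exact div_ne_zero hg1 E.cz_ne)
  rw [hform, P.ord_div hg1 E.cz_ne, h.2, he, Q.ord_mul (mul_ne_zero (hg 0) (hg 1)) (hg 2),
    Q.ord_mul (hg 0) (hg 1)] at h2
  push_cast at h2 ⊢
  linarith

/-- the bound from logarithmic derivations -/
theorem bound_log [Algebra.EssFiniteType ℂ K] (hn : Algebra.trdeg ℂ K = (3 : ℕ))
    (hP : Divisorial 3 P) {g : Fin 3 → M} (hg : ∀ i, g i ≠ 0)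
    (hlog : ∀ i, DerLog Q (g i • E.dd i)) {c : ℝ} (hc : OrdForm P E.form c) :
    1 + c ≤ ((e * (Q.ord (g 0) + Q.ord (g 1) + Q.ord (g 2)) - P.ord E.cz : ℤ) : ℝ) := by
  obtain ⟨D, hD, hform⟩ := E.exists_lifts g
  have h1 := log_gain hn hP E.form_pluri hc.1 (D := D) fun i => lift_log h (hlog i) (hD i)
  have hg0 : g 0 * g 1 * g 2 ≠ 0 := mul_ne_zero (mul_ne_zero (hg 0) (hg 1)) (hg 2)
  have hg1 : algebraMap M K (g 0 * g 1 * g 2) ≠ 0 := by
    rwa [Ne, map_eq_zero]
  have h2 := h1.resolve_left (by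
    rw [hform]
    exact div_ne_zero hg1 E.cz_ne)
  rw [hform, P.ord_div hg1 E.cz_ne, h.2, Q.ord_mul (mul_ne_zero (hg 0) (hg 1)) (hg 2),
    Q.ord_mul (hg 0) (hg 1)] at h2
  push_cast at h2 ⊢
  linarith

end Dat

end Pool.Agent.Q73.LT
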